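import Pool.Agent.Lib.MP_90732c_al.Master

/-! Edges whose end points are joined by many disjoint short walks are rarely needed. -/

set_option autoImplicit false

namespace Pool.Agent.Lib.MP_90732c_al

open MeasureTheory ProbabilityTheory

lemma unif_Iio {η : ℝ} (h0 : 0 ≤ η) (h1 : η ≤ 1) : unif (Set.Iio η) = ENNReal.ofReal η := by
  unfold unif
  rw [Measure.restrict_apply measurableSet_Iio]
  have : Set.Iio η ∩ Set.Icc 0 1 = Set.Ico 0 η := by
    ext y
    simp only [Set.mem_inter_iff, Set.mem_Iio, Set.mem_Icc, Set.mem_Ico]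
    constructor
    · rintro ⟨h, h2, _⟩; exact ⟨h2, h⟩
    · rintro ⟨h2, h⟩; exact ⟨h, h2, h.le.trans h1⟩
  rw [this, Real.volume_Ico, sub_zero]

lemma law_cyl {E : Type} (L : Finset E) {η : ℝ} (h0 : 0 ≤ η) (h1 : η ≤ 1) :
    law E {x | ∀ f ∈ L, x f < η} = (ENNReal.ofReal η) ^ L.card := by
  have h := Measure.infinitePi_pi (μ := fun _ : E => unif) (s := L)
    (t := fun _ => Set.Iio η) (fun _ _ => measurableSet_Iio)
  have h2 : {x : E → ℝ | ∀ f ∈ L, x f < η} = Set.pi (↑L) (fun _ => Set.Iio η) := by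
    ext x; simp [Set.mem_pi]
  rw [h2, law, h, Finset.prod_const, unif_Iio h0 h1]

lemma measurableSet_cyl {E : Type} (L : Finset E) (η : ℝ) :
    MeasurableSet {x : E → ℝ | ∀ f ∈ L, x f < η} := by
  have h2 : {x : E → ℝ | ∀ f ∈ L, x f < η} = ⋂ f ∈ L, {x : E → ℝ | x f < η} := by
    ext x; simp
  rw [h2]
  exact Finset.measurableSet_biInter L fun f _ =>
    measurableSet_lt (measurable_pi_apply f) measurable_const

lemma law_iInter_compl {E : Type} {m : ℕ} (C : Fin m → Finset E)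
    (hdis : ∀ i j, i ≠ j → Disjoint (C i) (C j)) {η : ℝ} (h0 : 0 ≤ η) (h1 : η ≤ 1) :
    law E (⋂ j, {x | ∀ f ∈ C j, x f < η}ᶜ) =
      ∏ j, (1 - (ENNReal.ofReal η) ^ (C j).card) := by
  classical
  have hmeas : ∀ j, MeasurableSet {x : E → ℝ | ∀ f ∈ C j, x f < η} :=
    fun j => measurableSet_cyl _ _
  have hind : iIndepSet (fun j => {x : E → ℝ | ∀ f ∈ C j, x f < η}) (law E) := by
    rw [iIndepSet_iff_meas_biInter hmeas]
    intro S
    have h2 : (⋂ j ∈ S, {x : E → ℝ | ∀ f ∈ C j, x f < η}) =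
        {x : E → ℝ | ∀ f ∈ S.biUnion C, x f < η} := by
      ext x
      simp only [Set.mem_iInter, Set.mem_ofPred_eq, Finset.mem_biUnion]
      constructor
      · rintro h f ⟨j, hj, hf⟩; exact h j hj f hf
      · intro h j hj f hf; exact h f ⟨j, hj, hf⟩
    rw [h2, law_cyl _ h0 h1, Finset.card_biUnion fun i _ j _ hij => hdis i j hij]
    simp only [law_cyl _ h0 h1]
    rw [Finset.prod_pow_eq_pow_sum]
  have h3 := ((iIndepSet_iff_iIndep _ _).1 hind).meas_iInter
    (s := fun j => {x : E → ℝ | ∀ f ∈ C j, x f < η}ᶜ) (fun j =>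
      MeasurableSet.compl (MeasurableSpace.measurableSet_generateFrom rfl))
  rw [h3]
  refine Finset.prod_congr rfl fun j _ => ?_
  rw [prob_compl_eq_one_sub (hmeas j), law_cyl _ h0 h1]

variable {G : Type} [Group G] {d : ℕ}

/-- If the end points of an edge are joined by `m` walks whose edges of top priority form pairwise
disjoint sets of size at most `r`, the density of non-redundant edges of this type is small. -/
theorem dens_le_of_disjoint (s : Fin d → G) (pr : Fin d → ℕ) (i : Fin d) {m r : ℕ}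
    (C : Fin m → Finset (G × Fin d)) (hdis : ∀ i j, i ≠ j → Disjoint (C i) (C j))
    (hcard : ∀ j, (C j).card ≤ r) (hpr : ∀ j, ∀ f ∈ C j, pr f.2 = pr i)
    (hconn : ∀ j, Conn s (fun f => f ∈ C j ∨ pr f.2 < pr i) 1 (1 * s i))
    {η : ℝ} (h0 : 0 ≤ η) (h1 : η ≤ 1) :
    ∃ N₀ : ℕ, ∀ N ≥ N₀, dens s pr N i ≤
      ENNReal.ofReal η + (1 - (ENNReal.ofReal η) ^ r) ^ m := by
  classical
  choose n hn using fun j => (hconn j).exists_walk
  refine ⟨Finset.univ.sup n, fun N hN => ?_⟩
  have hsub : {x : G × Fin d → ℝ | ¬ Red s pr N x (1, i)} ⊆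
      {x | ∀ f ∈ ({(1, i)} : Finset (G × Fin d)), x f < η} ∪
        ⋂ j, {x | ∀ f ∈ C j, x f < η}ᶜ := by
    intro x hx
    by_contra hcon
    rw [Set.mem_union, not_or] at hcon
    obtain ⟨h2, h3⟩ := hcon
    simp only [Finset.mem_singleton, forall_eq, Set.mem_ofPred_eq, not_lt] at h2
    rw [Set.mem_iInter, not_forall] at h3
    obtain ⟨j, hj⟩ := h3
    rw [Set.mem_compl_iff, not_not] at hj
    apply hx
    refine ⟨n j, (Finset.le_sup (f := n) (Finset.mem_univ j)).trans hN, (hn j).mono ?_⟩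
    rintro f (hf | hf)
    · exact Or.inr ⟨hpr j f hf, (hj f hf).trans_le h2⟩
    · exact Or.inl hf
  unfold dens
  refine (measure_mono hsub).trans ((measure_union_le _ _).trans ?_)
  gcongr
  · rw [law_cyl _ h0 h1, Finset.card_singleton, pow_one]
  · rw [law_iInter_compl C hdis h0 h1]
    have h4 : ∏ _j : Fin m, (1 - (ENNReal.ofReal η) ^ r) = (1 - (ENNReal.ofReal η) ^ r) ^ m := by
      rw [Finset.prod_const, Finset.card_univ, Fintype.card_fin]
    rw [← h4]
    refine Finset.prod_le_prod' fun j _ => ?_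
    apply tsub_le_tsub_left
    apply pow_le_pow_right_of_le_one' _ (hcard j)
    rw [ENNReal.ofReal_le_one]
    exact h1

end Pool.Agent.Lib.MP_90732c_al
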