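import Pool.Agent.Lib.MP_90732c_al.Pieces

/-! Expansion of small subsets of cyclic groups and the logarithmic bound. -/

set_option autoImplicit false

open scoped Pointwise

namespace Pool.Agent.Lib.MP_90732c_al

section Comm

variable {A : Type} [CommGroup A] [DecidableEq A]

/-- The set of the `g ^ (j 8 ^ i)`, `j < 8`, `i < h`. -/
def digits (g : A) (h : ℕ) : Finset A :=
  insert 1 ((Finset.range h ×ˢ Finset.range 7).image fun p => g ^ ((p.2 + 1) * 8 ^ p.1))

lemma card_digits_le (g : A) (h : ℕ) : (digits g h).card ≤ 7 * h + 1 := by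
  unfold digits
  refine (Finset.card_insert_le _ _).trans ?_
  have := Finset.card_image_le (s := Finset.range h ×ˢ Finset.range 7)
    (f := fun p : ℕ × ℕ => g ^ ((p.2 + 1) * 8 ^ p.1))
  rw [Finset.card_product, Finset.card_range, Finset.card_range] at this
  omega

lemma pow_mem_digits (g : A) (h : ℕ) : ∀ m ≤ h, ∀ n < 8 ^ m, g ^ n ∈ (digits g h) ^ m := by
  intro m
  induction m with
  | zero =>
    intro _ n hn
    have : n = 0 := by simpa using hn
    rw [this, pow_zero, pow_zero]
    exact Finset.mem_one.2 rfl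
  | succ m ih =>
    intro hm n hn
    have h8 : 0 < 8 ^ m := by positivity
    have h1 := ih (by omega) (n % 8 ^ m) (Nat.mod_lt _ h8)
    have h2 : n / 8 ^ m < 8 := by
      rw [Nat.div_lt_iff_lt_mul h8]
      calc n < 8 ^ (m + 1) := hn
        _ = 8 * 8 ^ m := by ring
    have h3 : g ^ ((n / 8 ^ m) * 8 ^ m) ∈ digits g h := by
      unfold digits
      rcases Nat.eq_zero_or_pos (n / 8 ^ m) with h4 | h4
      · rw [h4, zero_mul, pow_zero]
        exact Finset.mem_insert_self _ _
      · apply Finset.mem_insert_of_mem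
        rw [Finset.mem_image]
        refine ⟨(m, n / 8 ^ m - 1), ?_, ?_⟩
        · rw [Finset.mem_product, Finset.mem_range, Finset.mem_range]
          constructor
          · change m < h; omega
          · change n / 8 ^ m - 1 < 7; omega
        · change g ^ ((n / 8 ^ m - 1 + 1) * 8 ^ m) = _
          rw [Nat.sub_add_cancel h4]
    have h4 : g ^ n = g ^ (n % 8 ^ m) * g ^ ((n / 8 ^ m) * 8 ^ m) := by
      rw [← pow_add]
      congr 1
      have := Nat.mod_add_div n (8 ^ m)
      rw [mul_comm] at this
      exact this.symm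
    rw [h4, pow_succ]
    exact Finset.mul_mem_mul h1 h3

lemma card_pow_digits (g : A) (h : ℕ) (hg : orderOf g = 0 ∨ 8 ^ h ≤ orderOf g) :
    8 ^ h ≤ ((digits g h) ^ h).card := by
  have hinj : Set.InjOn (fun n : ℕ => g ^ n) (Finset.range (8 ^ h)) := by
    intro a ha b hb hab
    rw [Finset.mem_coe, Finset.mem_range] at ha hb
    rcases hg with hg | hg
    · rw [orderOf_eq_zero_iff] at hg
      exact (injective_pow_iff_not_isOfFinOrder.2 hg) hab
    · exact pow_injOn_Iio_orderOf (ha.trans_le hg) (hb.trans_le hg) hab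
  calc 8 ^ h = (Finset.range (8 ^ h)).card := (Finset.card_range _).symm
    _ = ((Finset.range (8 ^ h)).image fun n : ℕ => g ^ n).card :=
        (Finset.card_image_of_injOn hinj).symm
    _ ≤ _ := by
      apply Finset.card_le_card
      intro x hx
      obtain ⟨n, hn, rfl⟩ := Finset.mem_image.1 hx
      exact pow_mem_digits g h h le_rfl n (Finset.mem_range.1 hn)

/-- Small sets expand by a factor four. -/
theorem four_mul_card_le (g : A) (h : ℕ) (hh : 1 ≤ h) (hg : orderOf g = 0 ∨ 8 ^ h ≤ orderOf g)
    (D : Finset A) (hD : D.card ≤ 2 ^ h) : 4 * D.card ≤ (D * digits g h).card := by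
  rcases D.eq_empty_or_nonempty with rfl | hne
  · simp
  by_contra hcon
  rw [not_le] at hcon
  have h1 := Finset.pluennecke_ruzsa_inequality_pow_mul hne (digits g h) h
  have hpos : (0 : ℚ≥0) < D.card := by exact_mod_cast hne.card_pos
  have h2 : ((D * digits g h).card : ℚ≥0) / D.card < 4 := by
    rw [div_lt_iff₀ hpos]
    exact_mod_cast hcon
  have h3 : (((D * digits g h).card : ℚ≥0) / D.card) ^ h < 4 ^ h :=
    pow_lt_pow_left₀ h2 zero_le (by omega)
  have h4 : (8 ^ h : ℚ≥0) ≤ ((digits g h ^ h).card : ℚ≥0) := by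
    exact_mod_cast card_pow_digits g h hg
  have h5 : (D.card : ℚ≥0) ≤ 2 ^ h := by exact_mod_cast hD
  have h6 : (8 : ℚ≥0) ^ h < 4 ^ h * 2 ^ h := by
    calc (8 : ℚ≥0) ^ h ≤ ((digits g h ^ h).card : ℚ≥0) := h4
      _ ≤ (((D * digits g h).card : ℚ≥0) / D.card) ^ h * D.card := h1
      _ < 4 ^ h * D.card := by
        exact mul_lt_mul_of_pos_right h3 hpos
      _ ≤ 4 ^ h * 2 ^ h := by gcongr
  rw [← mul_pow] at h6
  norm_num at h6

end Comm

variable {G : Type} [Group G]

open scoped IsMulCommutative in
open Classical in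
/-- The expanding set inside the cyclic group generated by `g`. -/
theorem exists_expander (g : G) (h : ℕ) (hh : 1 ≤ h) (hg : orderOf g = 0 ∨ 8 ^ h ≤ orderOf g) :
    ∃ U : Finset G, U.card ≤ 7 * h + 1 ∧ (∀ u ∈ U, u ∈ Subgroup.zpowers g) ∧ U.Nonempty ∧
      ∀ (v : G ⧸ Subgroup.zpowers g) (D : Finset G), (∀ x ∈ D, (x : G ⧸ Subgroup.zpowers g) = v) →
        D.card ≤ 2 ^ h → 4 * D.card ≤ (D * U).card := by
  let g' : Subgroup.zpowers g := ⟨g, Subgroup.mem_zpowers g⟩
  have hg' : orderOf g' = orderOf g := by
    rw [← Subgroup.orderOf_coe]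
  let U' : Finset (Subgroup.zpowers g) := digits g' h
  refine ⟨U'.image Subtype.val, Finset.card_image_le.trans (card_digits_le g' h), ?_, ?_, ?_⟩
  · intro u hu
    obtain ⟨a, _, rfl⟩ := Finset.mem_image.1 hu
    exact a.2
  · exact ⟨_, Finset.mem_image_of_mem _ (Finset.mem_insert_self 1 _)⟩
  · intro v D hD hcard
    rcases D.eq_empty_or_nonempty with rfl | ⟨x₀, hx₀⟩
    · simp
    have hmem : ∀ x ∈ D, x₀⁻¹ * x ∈ Subgroup.zpowers g := by
      intro x hx
      exact QuotientGroup.eq.1 ((hD x₀ hx₀).trans (hD x hx).symm)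
    let D' : Finset (Subgroup.zpowers g) := D.attach.image fun x => ⟨x₀⁻¹ * x.1, hmem x.1 x.2⟩
    have hD'card : D'.card = D.card := by
      rw [Finset.card_image_of_injective, Finset.card_attach]
      intro x y hxy
      have := congrArg Subtype.val hxy
      exact Subtype.ext (mul_left_cancel this)
    have h1 := four_mul_card_le g' h hh (by rw [hg']; exact hg) D' (by rw [hD'card]; exact hcard)
    rw [hD'card] at h1
    refine h1.trans ?_
    have h2 : ((D' * U').image fun a : Subgroup.zpowers g => x₀ * (a : G)) ⊆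
        D * U'.image Subtype.val := by
      intro y hy
      obtain ⟨a, ha, rfl⟩ := Finset.mem_image.1 hy
      obtain ⟨b, hb, u, hu, rfl⟩ := Finset.mem_mul.1 ha
      obtain ⟨x, _, rfl⟩ := Finset.mem_image.1 hb
      have h3 : x₀ * (((⟨x₀⁻¹ * x.1, hmem x.1 x.2⟩ : Subgroup.zpowers g) * u :
          Subgroup.zpowers g) : G) = x.1 * (u : G) := by
        rw [Subgroup.coe_mul]
        simp only [← mul_assoc, mul_inv_cancel, one_mul]
      rw [h3]
      exact Finset.mul_mem_mul x.2 (Finset.mem_image_of_mem _ hu)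
    have h3 : ((D' * U').image fun a : Subgroup.zpowers g => x₀ * (a : G)).card =
        (D' * U').card := by
      apply Finset.card_image_of_injective
      intro a b hab
      exact Subtype.ext (mul_left_cancel hab)
    change (D' * U').card ≤ _
    rw [← h3]
    exact Finset.card_le_card h2

open Classical in
/-- **The logarithmic bound.** -/
theorem tarskiLe_log (g t : G) (h : ℕ) (hh : 1 ≤ h) (hg : orderOf g = 0 ∨ 8 ^ h ≤ orderOf g)
    (hk : ∀ B : Finset G, B.card ≤ 2 ^ h * cosetCard (Subgroup.zpowers g) (B * {1, t})) :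
    TarskiLe G (28 * h + 4) := by
  set H := Subgroup.zpowers g with hH
  obtain ⟨U, hUcard, hUH, hUne, hU⟩ := exists_expander g h hh hg
  obtain ⟨z, hz, hcap⟩ := exists_home H t (2 ^ h) hk
  let O : G × Bool → Finset G := fun p => {z p.1} * U
  let f : G → G ⧸ H := fun x => QuotientGroup.mk x
  obtain ⟨F, hFinj, hF⟩ := (Finset.all_card_le_biUnion_card_iff_exists_injective O).1 (by
    intro Q
    set X := Q.image Prod.fst with hX
    set D := X.image z with hD
    have hQX : Q.card ≤ 2 * X.card := by
      have h5 : Q ⊆ X ×ˢ (Finset.univ : Finset Bool) := by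
        intro p hp
        exact Finset.mem_product.2 ⟨Finset.mem_image_of_mem _ hp, Finset.mem_univ _⟩
      have h7 := Finset.card_le_card h5
      rw [Finset.card_product, Finset.card_univ, Fintype.card_bool] at h7
      omega
    have hXD : X.card ≤ 2 * D.card := by
      have h5 : X ⊆ D ∪ D.image fun y => y * t⁻¹ := by
        intro x hx
        have h6 : z x ∈ D := Finset.mem_image_of_mem z hx
        rcases hz x with h7 | h7
        · exact Finset.mem_union_left _ (by rwa [h7] at h6)
        · refine Finset.mem_union_right _ (Finset.mem_image.2 ⟨z x, h6, ?_⟩)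
          rw [h7]; simp
      have h6 := (Finset.card_le_card h5).trans (Finset.card_union_le _ _)
      have h7 := Finset.card_image_le (s := D) (f := fun y => y * t⁻¹)
      omega
    have hDU : D * U ⊆ Q.biUnion O := by
      intro y hy
      obtain ⟨a, ha, u, hu, rfl⟩ := Finset.mem_mul.1 hy
      obtain ⟨x, hx, rfl⟩ := Finset.mem_image.1 ha
      obtain ⟨p, hp, rfl⟩ := Finset.mem_image.1 hx
      rw [Finset.mem_biUnion]
      exact ⟨p, hp, Finset.mul_mem_mul (Finset.mem_singleton_self _) hu⟩
    have hmain : 4 * D.card ≤ (D * U).card := by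
      have hfU : ∀ a u, u ∈ U → f (a * u) = f a := by
        intro a u hu
        simp only [f]
        rw [QuotientGroup.eq]
        have : (a * u)⁻¹ * a = u⁻¹ := by group
        rw [this]
        exact H.inv_mem (hUH u hu)
      have h1 : D.card = ∑ v ∈ D.image f, (D.filter fun a => f a = v).card :=
        Finset.card_eq_sum_card_fiberwise fun x hx => Finset.mem_image_of_mem f hx
      have h2 : (D * U).card = ∑ v ∈ D.image f, ((D * U).filter fun a => f a = v).card :=
        Finset.card_eq_sum_card_fiberwise fun x hx => by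
          obtain ⟨a, ha, u, hu, rfl⟩ := Finset.mem_mul.1 hx
          rw [hfU a u hu]
          exact Finset.mem_image_of_mem f ha
      rw [h1, h2, Finset.mul_sum]
      refine Finset.sum_le_sum fun v _ => ?_
      have h3 : (D.filter fun a => f a = v).card ≤ 2 ^ h := by
        have h4 : (D.filter fun a => f a = v) ⊆ (X.filter fun x => f (z x) = v).image z := by
          intro a ha
          rw [Finset.mem_filter] at ha
          obtain ⟨x, hx, rfl⟩ := Finset.mem_image.1 ha.1
          exact Finset.mem_image_of_mem z (Finset.mem_filter.2 ⟨hx, ha.2⟩)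
        refine (Finset.card_le_card h4).trans (Finset.card_image_le.trans ?_)
        exact hcap v _ fun x hx => (Finset.mem_filter.1 hx).2
      refine (hU v _ (fun x hx => (Finset.mem_filter.1 hx).2) h3).trans (Finset.card_le_card ?_)
      intro y hy
      obtain ⟨a, ha, u, hu, rfl⟩ := Finset.mem_mul.1 hy
      rw [Finset.mem_filter] at ha ⊢
      exact ⟨Finset.mul_mem_mul ha.1 hu, by rw [hfU a u hu]; exact ha.2⟩
    have := Finset.card_le_card hDU
    omega)
  set S : Finset G := {1, t} * U with hS
  have hScard : S.card ≤ 14 * h + 2 := by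
    refine Finset.card_mul_le.trans ?_
    have h1 : ({1, t} : Finset G).card ≤ 2 := Finset.card_le_two
    calc ({1, t} : Finset G).card * U.card ≤ 2 * (7 * h + 1) := Nat.mul_le_mul h1 hUcard
      _ = 14 * h + 2 := by ring
  have h1 := tarskiLe_of_injective (fun _ => S) ⟨_, Finset.mul_mem_mul
    (Finset.mem_insert_self 1 {t}) hUne.choose_spec⟩ F hFinj (by
    intro x c
    have h2 := hF (x, c)
    simp only [O] at h2
    obtain ⟨a, ha, u, hu, h3⟩ := Finset.mem_mul.1 h2
    rw [Finset.mem_singleton] at ha
    rw [← h3, ha, ← mul_assoc]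
    refine Finset.mul_mem_mul ?_ hu
    rcases hz x with h4 | h4
    · rw [h4]; simp
    · rw [h4]; simp)
  have h2 : TarskiLe G (S.card + S.card) := h1
  exact h2.mono (by omega)

end Pool.Agent.Lib.MP_90732c_al
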