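import Pool.Agent.Lib.MP_90732c_al.Forest

/-! Small edge sets in a Cayley graph without short relations are forests. -/

set_option autoImplicit false

namespace Pool.Agent.Lib.MP_90732c_al

namespace Tree

open FreeGroup

variable {G : Type} [Group G] {α : Type} (ψ : FreeGroup α →* G)

/-- The value of a letter. -/
def val (x : α × Bool) : G := ψ (mk [x])

/-- The edge traversed from `y` by a letter. -/
def edge (y : G) (x : α × Bool) : G × α := if x.2 then (y, x.1) else (y * val ψ x, x.1)

/-- The path from `y` along `L` uses only edges in `R`. -/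
def Follows (R : G × α → Prop) : G → List (α × Bool) → Prop
  | _, [] => True
  | y, x :: L => R (edge ψ y x) ∧ Follows R (y * val ψ x) L

lemma map_cons (x : α × Bool) (L : List (α × Bool)) :
    ψ (mk (x :: L)) = val ψ x * ψ (mk L) := by
  rw [val, ← _root_.map_mul, mul_mk]; rfl

lemma val_not (i : α) (b : Bool) : val ψ (i, !b) = (val ψ (i, b))⁻¹ := by
  rw [val, val, ← _root_.map_inv, inv_mk]
  simp [invRev]

lemma edge_not (y : G) (x : α × Bool) :
    edge ψ (y * val ψ x) (x.1, !x.2) = edge ψ y x := by
  obtain ⟨i, b⟩ := x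
  cases b with
  | true =>
    have := val_not ψ i true
    simp only [Bool.not_true] at this
    simp [edge, this]
  | false => simp [edge]

lemma follows_append {R : G × α → Prop} (L L' : List (α × Bool)) :
    ∀ y, Follows ψ R y (L ++ L') ↔ Follows ψ R y L ∧ Follows ψ R (y * ψ (mk L)) L' := by
  induction L with
  | nil =>
    intro y
    have : ψ (mk ([] : List (α × Bool))) = 1 := by rw [← one_eq_mk, _root_.map_one]
    simp [Follows, this]
  | cons x L ih =>
    intro y
    rw [List.cons_append, Follows, Follows, ih, map_cons, and_assoc, mul_assoc]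

/-- Joined by a path in `R`. -/
def Rel (R : G × α → Prop) (a b : G) : Prop := ∃ L, Follows ψ R a L ∧ b = a * ψ (mk L)

lemma Rel.refl {R : G × α → Prop} (a : G) : Rel ψ R a a :=
  ⟨[], trivial, by rw [← one_eq_mk, _root_.map_one, mul_one]⟩

lemma Rel.trans {R : G × α → Prop} {a b c : G} (h : Rel ψ R a b) (h' : Rel ψ R b c) :
    Rel ψ R a c := by
  obtain ⟨L, h1, rfl⟩ := h
  obtain ⟨L', h2, rfl⟩ := h'
  refine ⟨L ++ L', (follows_append ψ L L' a).2 ⟨h1, h2⟩, ?_⟩
  rw [← mul_mk, _root_.map_mul, mul_assoc]

lemma Rel.single {R : G × α → Prop} {a : G} {x : α × Bool} (h : R (edge ψ a x)) :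
    Rel ψ R a (a * val ψ x) := ⟨[x], ⟨h, trivial⟩, rfl⟩

lemma Rel.symm {R : G × α → Prop} {a b : G} (h : Rel ψ R a b) : Rel ψ R b a := by
  obtain ⟨L, h1, rfl⟩ := h
  induction L generalizing a with
  | nil =>
    have : ψ (mk ([] : List (α × Bool))) = 1 := by rw [← one_eq_mk, _root_.map_one]
    rw [this, mul_one]
    exact Rel.refl ψ a
  | cons x L ih =>
    obtain ⟨h2, h3⟩ := h1
    have h4 := ih h3
    rw [map_cons, ← mul_assoc]
    refine h4.trans ψ ?_
    have h5 : R (edge ψ (a * val ψ x) (x.1, !x.2)) := by rw [edge_not]; exact h2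
    have h6 := Rel.single ψ h5
    have h7 : a * val ψ x * val ψ (x.1, !x.2) = a := by
      rw [val_not ψ x.1 x.2]; simp
    rwa [h7] at h6

/-- Signed number of traversals of the edge `e`. -/
noncomputable def cr (e : G × α) : G → List (α × Bool) → ℤ := by
  classical
  exact fun y L => L.rec (motive := fun _ => G → ℤ) (fun _ => 0)
    (fun x _ ih y => (if edge ψ y x = e then (if x.2 then 1 else -1) else 0) +
      ih (y * val ψ x)) y

open Classical in
lemma cr_cons (e : G × α) (y : G) (x : α × Bool) (L : List (α × Bool)) :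
    cr ψ e y (x :: L) = (if edge ψ y x = e then (if x.2 then 1 else -1) else 0) +
      cr ψ e (y * val ψ x) L := rfl

lemma cr_nil (e : G × α) (y : G) : cr ψ e y [] = 0 := rfl

lemma cr_append (e : G × α) (L L' : List (α × Bool)) :
    ∀ y, cr ψ e y (L ++ L') = cr ψ e y L + cr ψ e (y * ψ (mk L)) L' := by
  induction L with
  | nil =>
    intro y
    have : ψ (mk ([] : List (α × Bool))) = 1 := by rw [← one_eq_mk, _root_.map_one]
    simp [cr_nil, this]
  | cons x L ih =>
    intro y
    rw [List.cons_append, cr_cons, cr_cons, ih, map_cons, mul_assoc]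
    ring

lemma cr_eq_zero {e : G × α} (L : List (α × Bool)) :
    ∀ y, Follows ψ (fun f => f ≠ e) y L → cr ψ e y L = 0 := by
  induction L with
  | nil => intro y _; rfl
  | cons x L ih =>
    rintro y ⟨h1, h2⟩
    rw [cr_cons, if_neg h1, ih _ h2, add_zero]

lemma cr_step (e : G × α) (y : G) {L L' : List (α × Bool)} (h : Red.Step L L') :
    cr ψ e y L = cr ψ e y L' := by
  obtain @⟨L₁, L₂, i, b⟩ := h
  rw [cr_append, cr_append, cr_cons, cr_cons]
  congr 1
  have h1 := edge_not ψ (y * ψ (mk L₁)) (i, b)
  simp only at h1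
  rw [h1, val_not ψ i b, mul_inv_cancel_right]
  by_cases h2 : edge ψ (y * ψ (mk L₁)) (i, b) = e
  · simp only [if_pos h2]
    cases b <;> simp
  · simp only [if_neg h2, zero_add]

lemma cr_congr (e : G × α) (y : G) {L L' : List (α × Bool)} (h : mk L = mk L') :
    cr ψ e y L = cr ψ e y L' := by
  have := congrArg (Quot.lift (cr ψ e y) fun _ _ h => cr_step ψ e y h : FreeGroup α → ℤ) h
  exact this

/-- A path avoiding an edge does not reduce to this edge. -/
lemma not_follows {y : G} {i : α} {L : List (α × Bool)}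
    (h : Follows ψ (fun f => f ≠ (y, i)) y L) : mk L ≠ mk [(i, true)] := by
  intro h2
  have h3 := cr_congr ψ (y, i) y h2
  rw [cr_eq_zero ψ L y h, cr_cons, cr_nil] at h3
  simp [edge] at h3

open Classical in
/-- The vertices of an edge set. -/
noncomputable def VE (E : Finset (G × α)) : Finset G :=
  E.image (fun e => e.1) ∪ E.image (fun e => e.1 * ψ (of e.2))

open Classical in
lemma card_VE_le (E : Finset (G × α)) : (VE ψ E).card ≤ 2 * E.card := by
  refine (Finset.card_union_le _ _).trans ?_
  have h1 := Finset.card_image_le (s := E) (f := fun e : G × α => e.1)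
  have h2 := Finset.card_image_le (s := E) (f := fun e : G × α => e.1 * ψ (of e.2))
  omega

lemma src_mem {E : Finset (G × α)} {e : G × α} (he : e ∈ E) : e.1 ∈ VE ψ E := by
  classical
  exact Finset.mem_union_left _ (Finset.mem_image_of_mem (fun e : G × α => e.1) he)

lemma tgt_mem {E : Finset (G × α)} {e : G × α} (he : e ∈ E) :
    e.1 * ψ (of e.2) ∈ VE ψ E := by
  classical
  exact Finset.mem_union_right _ (Finset.mem_image_of_mem (fun e : G × α => e.1 * ψ (of e.2)) he)

lemma edge_mem {E : Finset (G × α)} {y : G} {x : α × Bool} (h : edge ψ y x ∈ E) :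
    y ∈ VE ψ E ∧ y * val ψ x ∈ VE ψ E := by
  obtain ⟨i, b⟩ := x
  cases b with
  | true =>
    simp only [edge, if_true] at h
    exact ⟨src_mem ψ h, tgt_mem ψ h⟩
  | false =>
    simp only [edge, Bool.false_eq_true, if_false] at h
    refine ⟨?_, src_mem ψ h⟩
    have h1 := tgt_mem ψ h
    have h2 : y * val ψ (i, false) * ψ (of i) = y := by
      have h3 : val ψ (i, false) = (ψ (of i))⁻¹ := by
        have := val_not ψ i true
        simp only [Bool.not_true] at this
        rw [this]; rfl
      rw [h3, inv_mul_cancel_right]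
    simpa only [h2] using h1

lemma follows_mem {E : Finset (G × α)} (L : List (α × Bool)) :
    ∀ y, L ≠ [] → Follows ψ (fun f => f ∈ E) y L → y ∈ VE ψ E ∧ y * ψ (mk L) ∈ VE ψ E := by
  induction L with
  | nil => intro y h; exact absurd rfl h
  | cons x L ih =>
    rintro y _ ⟨h1, h2⟩
    refine ⟨(edge_mem ψ h1).1, ?_⟩
    rw [map_cons, ← mul_assoc]
    rcases eq_or_ne L [] with rfl | hne
    · have : ψ (mk ([] : List (α × Bool))) = 1 := by rw [← one_eq_mk, _root_.map_one]
      rw [this, mul_one]
      exact (edge_mem ψ h1).2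
    · exact (ih _ hne h2).2

lemma Follows.mono {R R' : G × α → Prop} (hR : ∀ e, R e → R' e) (L : List (α × Bool)) :
    ∀ y, Follows ψ R y L → Follows ψ R' y L := by
  induction L with
  | nil => intro y _; trivial
  | cons x L ih => rintro y ⟨h1, h2⟩; exact ⟨hR _ h1, ih _ h2⟩

/-- A shortest path is short. -/
lemma exists_short {E : Finset (G × α)} {R : G × α → Prop} (hR : ∀ e, R e → e ∈ E) {a b : G}
    (h : Rel ψ R a b) : ∃ L : List (α × Bool), Follows ψ R a L ∧ b = a * ψ (mk L) ∧
      L.length ≤ (VE ψ E).card := by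
  classical
  have hex : ∃ n, ∃ L : List (α × Bool), L.length = n ∧ Follows ψ R a L ∧ b = a * ψ (mk L) := by
    obtain ⟨L, h1, h2⟩ := h
    exact ⟨_, L, rfl, h1, h2⟩
  obtain ⟨L, hlen, hF, hb⟩ := Nat.find_spec hex
  refine ⟨L, hF, hb, ?_⟩
  by_contra hcon
  rw [not_le] at hcon
  have hne : L ≠ [] := by
    rintro rfl
    simp at hcon
  have hmaps : ∀ j ∈ Finset.range (L.length + 1), a * ψ (mk (L.take j)) ∈ VE ψ E := by
    intro j _
    rcases Nat.eq_zero_or_pos j with rfl | hj
    · have : ψ (mk (L.take 0)) = 1 := by rw [List.take_zero, ← one_eq_mk, _root_.map_one]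
      rw [this, mul_one]
      exact (follows_mem ψ L a hne (Follows.mono ψ hR L a hF)).1
    · have h1 : L.take j ≠ [] := by
        rw [Ne, List.take_eq_nil_iff]
        push Not
        exact ⟨by omega, hne⟩
      have h2 : Follows ψ R a (L.take j) := by
        have h3 : L.take j ++ L.drop j = L := List.take_append_drop j L
        rw [← h3] at hF
        exact ((follows_append ψ _ _ a).1 hF).1
      exact (follows_mem ψ _ a h1 (Follows.mono ψ hR _ a h2)).2
  obtain ⟨j, hj, k, hk, hjk, heq⟩ := Finset.exists_ne_map_eq_of_card_lt_of_maps_to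
    (s := Finset.range (L.length + 1)) (t := VE ψ E) (by rw [Finset.card_range]; omega)
    hmaps
  wlog hlt : j < k generalizing j k
  · exact this k hk j hj (Ne.symm hjk) heq.symm (lt_of_le_of_ne (not_lt.1 hlt) (Ne.symm hjk))
  rw [Finset.mem_range] at hj hk
  have h1 : Follows ψ R a (L.take j) := by
    have h3 : L.take j ++ L.drop j = L := List.take_append_drop j L
    rw [← h3] at hF
    exact ((follows_append ψ _ _ a).1 hF).1
  have h2 : Follows ψ R (a * ψ (mk (L.take k))) (L.drop k) := by
    have h3 : L.take k ++ L.drop k = L := List.take_append_drop k L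
    rw [← h3] at hF
    exact ((follows_append ψ _ _ a).1 hF).2
  have h4 : Follows ψ R a (L.take j ++ L.drop k) := by
    rw [follows_append, heq]
    exact ⟨h1, h2⟩
  have h5 : b = a * ψ (mk (L.take j ++ L.drop k)) := by
    rw [← mul_mk, _root_.map_mul, ← mul_assoc, heq, mul_assoc, ← _root_.map_mul, mul_mk,
      List.take_append_drop]
    exact hb
  have h6 := Nat.find_le (h := hex) ⟨_, rfl, h4, h5⟩
  rw [← hlen, List.length_append, List.length_take, List.length_drop] at h6
  omega

/-- **Small edge sets are forests.** -/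
theorem card_le {K : ℕ} (hψ : ∀ L : List (α × Bool), L.length ≤ 2 * K + 1 → mk L ≠ 1 →
    ψ (mk L) ≠ 1) (E : Finset (G × α)) (hE : E.card ≤ K) : E.card ≤ (VE ψ E).card := by
  classical
  rcases E.eq_empty_or_nonempty with rfl | ⟨e₀, he₀⟩
  · simp
  have : Nonempty (VE ψ E) := ⟨⟨_, src_mem ψ he₀⟩⟩
  have h := forest_bound (V := VE ψ E) (E := E) (fun e => ⟨_, src_mem ψ e.2⟩)
    (fun e => ⟨_, tgt_mem ψ e.2⟩) (fun e => ((E.equivFin e : ℕ) : ℝ)) (by
      intro e f hef
      have h1 : ((E.equivFin e : ℕ) : ℝ) = ((E.equivFin f : ℕ) : ℝ) := hef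
      rw [Nat.cast_inj] at h1
      exact E.equivFin.injective (Fin.ext h1)) (by
      intro e hcon
      have key : ∀ a b : VE ψ E, Relation.EqvGen (fun a b => ∃ f : E,
          ((E.equivFin f : ℕ) : ℝ) < ((E.equivFin e : ℕ) : ℝ) ∧
          (⟨_, src_mem ψ f.2⟩ : VE ψ E) = a ∧ (⟨_, tgt_mem ψ f.2⟩ : VE ψ E) = b) a b →
          Rel ψ (fun f => f ∈ E ∧ f ≠ e.1) a.1 b.1 := by
        intro a b hab
        induction hab with
        | rel a b h =>
          obtain ⟨f, hf, rfl, rfl⟩ := h
          have hne : f.1 ≠ e.1 := by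
            intro h2
            rw [Subtype.ext h2] at hf
            exact lt_irrefl _ hf
          exact Rel.single ψ (a := f.1.1) (x := (f.1.2, true)) ⟨f.2, hne⟩
        | refl a => exact Rel.refl ψ _
        | symm a b _ ih => exact ih.symm ψ
        | trans a b c _ _ ih1 ih2 => exact ih1.trans ψ ih2
      have h1 := key _ _ hcon
      obtain ⟨L, h2, h3, h4⟩ := exists_short ψ (E := E) (fun f hf => hf.1) h1
      simp only at h3
      have h5 : ψ (mk L) = ψ (of e.1.2) := (mul_left_cancel h3).symm
      have h6 : mk (L ++ [(e.1.2, false)]) = 1 := by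
        by_contra hne
        apply hψ _ _ hne
        · rw [← mul_mk, _root_.map_mul, h5]
          have : mk [(e.1.2, false)] = (of e.1.2)⁻¹ := by
            rw [of, inv_mk]; rfl
          rw [this, _root_.map_inv, mul_inv_cancel]
        · rw [List.length_append, List.length_singleton]
          have := card_VE_le ψ E
          omega
      have h7 : mk L = mk [(e.1.2, true)] := by
        have h8 : mk [(e.1.2, false)] = (mk [(e.1.2, true)])⁻¹ := by
          rw [inv_mk]; rfl
        rw [← mul_mk, h8, mul_inv_eq_one] at h6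
        exact h6
      refine not_follows ψ (y := e.1.1) (i := e.1.2) (L := L) ?_ h7
      exact Follows.mono ψ (fun f hf => hf.2) L _ h2)
  rw [Fintype.card_coe, Fintype.card_coe] at h
  omega

end Tree

end Pool.Agent.Lib.MP_90732c_al
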