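import Pool.Agent.Lib.MP_90732c_al.LocalFree
import Pool.Agent.Lib.MP_90732c_al.Tree

/-! Four elements without short relations in a two-generated subgroup. -/

set_option autoImplicit false

namespace Pool.Agent.Lib.MP_90732c_al

open FreeGroup

/-- The conjugates of one generator by powers of the other one. -/
def theta : FreeGroup (Fin 4) →* FreeGroup Bool :=
  FreeGroup.lift fun i => (of false) ^ (i : ℕ) * of true * ((of false) ^ (i : ℕ))⁻¹

/-- The shift automorphism of the free group on the integers. -/
def sh : MulAut (FreeGroup ℤ) := FreeGroup.freeGroupCongr (Equiv.addRight (1 : ℤ))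

lemma sh_pow (n : ℕ) (k : ℤ) : (sh ^ n) (of k) = of (k + n) := by
  induction n generalizing k with
  | zero => simp
  | succ n ih =>
    rw [pow_succ, MulAut.mul_apply]
    have : sh (of k) = of (k + 1) := by
      simp [sh]
    rw [this, ih]
    congr 1
    push_cast
    ring

/-- The action of the integers by shifts. -/
def act : Multiplicative ℤ →* MulAut (FreeGroup ℤ) := zpowersHom _ sh

lemma act_apply (n : ℕ) : act (Multiplicative.ofAdd 1 ^ n) = sh ^ n := by
  rw [_root_.map_pow]
  simp [act]

/-- The comparison homomorphism. -/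
def Th : FreeGroup Bool →* FreeGroup ℤ ⋊[act] Multiplicative ℤ :=
  FreeGroup.lift fun b => if b then SemidirectProduct.inl (of 0) else
    SemidirectProduct.inr (Multiplicative.ofAdd 1)

lemma Th_theta : Th.comp theta = (SemidirectProduct.inl : FreeGroup ℤ →* _).comp
    (FreeGroup.map fun i : Fin 4 => ((i : ℕ) : ℤ)) := by
  ext i : 1
  simp only [MonoidHom.comp_apply, theta, lift_apply_of, _root_.map_mul, _root_.map_pow,
    _root_.map_inv, FreeGroup.map.of]
  have h1 : Th (of true) = SemidirectProduct.inl (of 0) := by simp [Th]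
  have h2 : Th (of false) = SemidirectProduct.inr (Multiplicative.ofAdd 1) := by simp [Th]
  rw [h1, h2, ← _root_.map_pow, ← _root_.map_inv, ← SemidirectProduct.inl_aut, act_apply, sh_pow,
    zero_add]

lemma theta_injective : Function.Injective theta := by
  have h : Function.Injective (Th.comp theta) := by
    rw [Th_theta]
    refine SemidirectProduct.inl_injective.comp (FreeGroup.map_injective ?_)
    intro i j hij
    simp only at hij
    exact Fin.ext (by exact_mod_cast hij)
  exact Function.Injective.of_comp h

variable {G : Type} [Group G]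

/-- **Four elements without short relations.** -/
theorem exists_four (c : ℕ → ℕ) (K : ℕ) : ∃ N₀ : ℕ, ∀ g t : G,
    (orderOf g = 0 ∨ N₀ ≤ orderOf g) → (∀ r, ¬ NoHit (Subgroup.zpowers g) t t r (c r)) →
    ∃ ψ : FreeGroup (Fin 4) →* G, (∀ i, ψ (of i) ∈ Subgroup.closure ({g, t} : Set G)) ∧
      ∀ L : List (Fin 4 × Bool), L.length ≤ 2 * K + 1 → mk L ≠ 1 → ψ (mk L) ≠ 1 := by
  classical
  have hfin : {L : List (Fin 4 × Bool) | L.length ≤ 2 * K + 1}.Finite :=
    List.finite_length_le _ _
  set W : Finset (FreeGroup Bool) :=
    (hfin.toFinset.image fun L => theta (mk L)).erase 1 with hW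
  obtain ⟨N₀, hN₀⟩ := exists_locally_free (G := G) c W (Finset.notMem_erase _ _)
  refine ⟨N₀, fun g t hg hc => ?_⟩
  obtain ⟨ℓ, hℓ⟩ := hN₀ g t hg hc
  refine ⟨(FreeGroup.lift (phi g t ℓ)).comp theta, ?_, ?_⟩
  · intro i
    have hphi : ∀ w, FreeGroup.lift (phi g t ℓ) w ∈ Subgroup.closure ({g, t} : Set G) := by
      intro w
      have hgm : g ∈ Subgroup.closure ({g, t} : Set G) := Subgroup.subset_closure (by simp)
      have htm : t ∈ Subgroup.closure ({g, t} : Set G) := Subgroup.subset_closure (by simp)
      have hb : ∀ b, phi g t ℓ b ∈ Subgroup.closure ({g, t} : Set G) := by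
        intro b
        cases b with
        | true =>
          simp only [phi, if_true]
          exact Subgroup.mul_mem _ (Subgroup.mul_mem _ (Subgroup.zpow_mem _ hgm _) htm)
            (Subgroup.zpow_mem _ hgm _)
        | false =>
          simp only [phi, Bool.false_eq_true, if_false]
          exact Subgroup.mul_mem _ htm (Subgroup.zpow_mem _ hgm _)
      have hr : (FreeGroup.lift (phi g t ℓ)).range ≤ Subgroup.closure ({g, t} : Set G) := by
        apply FreeGroup.range_lift_le
        rintro _ ⟨b, rfl⟩
        exact hb b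
      exact hr ⟨w, rfl⟩
    exact hphi _
  · intro L hL hne
    apply hℓ
    rw [hW, Finset.mem_erase]
    refine ⟨?_, Finset.mem_image.2 ⟨L, hfin.mem_toFinset.2 hL, rfl⟩⟩
    intro h
    apply hne
    apply theta_injective
    rw [h, _root_.map_one]

end Pool.Agent.Lib.MP_90732c_al
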