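import Pool.Agent.Lib.MP_90732c_al.Percolate
import Pool.Agent.Lib.MP_90732c_al.Emb
import Pool.Agent.Lib.MP_90732c_al.Cyc

/-! The uniform bound on the Tarski number. -/

set_option autoImplicit false

open scoped Pointwise

namespace Pool.Agent.Lib.MP_90732c_al

variable {G : Type} [Group G]

/-- Many disjoint connections. -/
lemma exists_disjoint {H : Subgroup G} {t z : G} {r m : ℕ} (h : NoHit H t z r (m * r)) :
    ∃ C : Fin m → Finset G, (∀ i j, i ≠ j → Disjoint (C i) (C j)) ∧
      (∀ j, (C j).card ≤ r) ∧ ∀ j, Joins H t (C j) 1 z := by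
  classical
  have key : ∀ n ≤ m, ∃ C : ℕ → Finset G,
      (∀ i < n, ∀ j < n, i ≠ j → Disjoint (C i) (C j)) ∧
      (∀ j < n, (C j).card ≤ r) ∧ ∀ j < n, Joins H t (C j) 1 z := by
    intro n
    induction n with
    | zero => intro _; exact ⟨fun _ => ∅, by simp, by simp, by simp⟩
    | succ n ih =>
      intro hn
      obtain ⟨C, h1, h2, h3⟩ := ih (by omega)
      obtain ⟨E, hE1, hE2, hE3⟩ := h ((Finset.range n).biUnion C) (by
        refine Finset.card_biUnion_le.trans ?_
        calc ∑ j ∈ Finset.range n, (C j).card ≤ ∑ _j ∈ Finset.range n, r :=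
              Finset.sum_le_sum fun j hj => h2 j (Finset.mem_range.1 hj)
          _ = n * r := by rw [Finset.sum_const, Finset.card_range, smul_eq_mul]
          _ ≤ m * r := Nat.mul_le_mul_right _ (by omega))
      have hd : ∀ j < n, Disjoint E (C j) := by
        intro j hj
        exact hE2.mono_right (Finset.subset_biUnion_of_mem C (Finset.mem_range.2 hj))
      refine ⟨fun j => if j = n then E else C j, ?_, ?_, ?_⟩
      · intro i hi j hj hij
        by_cases hin : i = n
        · by_cases hjn : j = n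
          · omega
          · simp only [if_pos hin, if_neg hjn]
            exact hd j (by omega)
        · by_cases hjn : j = n
          · simp only [if_pos hjn, if_neg hin]
            exact (hd i (by omega)).symm
          · simp only [if_neg hjn, if_neg hin]
            exact h1 i (by omega) j (by omega) hij
      · intro j hj
        by_cases hjn : j = n
        · simp only [if_pos hjn]; exact hE1
        · simp only [if_neg hjn]; exact h2 j (by omega)
      · intro j hj
        by_cases hjn : j = n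
        · simp only [if_pos hjn]; exact hE3
        · simp only [if_neg hjn]; exact h3 j (by omega)
  obtain ⟨C, h1, h2, h3⟩ := key m le_rfl
  exact ⟨fun j => C j, fun i j hij => h1 i i.2 j j.2 fun h => hij (Fin.ext h),
    fun j => h2 j j.2, fun j => h3 j j.2⟩

/-- From `Joins` to connectivity in the Cayley graph. -/
lemma conn_of_joins {d : ℕ} {s : Fin d → G} {R : G × Fin d → Prop} {H : Subgroup G} {t : G}
    {E : Finset G} (hH : ∀ h ∈ H, ∀ u, Conn s R u (u * h)) (hE : ∀ u ∈ E, Conn s R u (u * t))
    {a b : G} (h : Joins H t E a b) : Conn s R a b := by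
  unfold Joins at h
  induction h with
  | rel u v huv =>
    rcases huv with ⟨h, hh, rfl⟩ | ⟨hu, rfl⟩
    · exact hH h hh u
    · exact hE u hu
  | refl u => exact Conn.refl _
  | symm u v _ ih => exact ih.symm
  | trans u v w _ _ ih1 ih2 => exact ih1.trans ih2

/-- **A generator in general position.** -/
theorem exists_tau [Countable G] {c : ℝ} (hc : CostGe G (ENNReal.ofReal c)) (hc1 : 1 < c)
    (T : Finset G) (hT : Subgroup.closure (T : Set G) = ⊤) :
    ∃ cf : ℕ → ℕ, ∀ g : G, ∃ τ ∈ T, ∀ r, ¬ NoHit (Subgroup.zpowers g) τ τ r (cf r) := by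
  classical
  set ρ : ℝ := (c - 1) / (T.card + 1) with hρ
  have hpos : (0 : ℝ) < T.card + 1 := by positivity
  have hρ0 : 0 < ρ := div_pos (by linarith) hpos
  set η : ℝ := min (ρ / 2) 1 with hη
  have hη0 : 0 < η := lt_min (by linarith) one_pos
  have hη1 : η ≤ 1 := min_le_right _ _
  have hηρ : η ≤ ρ / 2 := min_le_left _ _
  have hm : ∀ r : ℕ, ∃ m : ℕ, (1 - (ENNReal.ofReal η) ^ r) ^ m ≤ ENNReal.ofReal (ρ / 4) := by
    intro r
    have h1 : (1 : ENNReal) - (ENNReal.ofReal η) ^ r < 1 := by
      apply ENNReal.sub_lt_self ENNReal.one_ne_top one_ne_zero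
      exact pow_ne_zero _ (by simpa using hη0)
    have h2 := ENNReal.tendsto_pow_atTop_nhds_zero_of_lt_one h1
    have h3 : (0 : ENNReal) < ENNReal.ofReal (ρ / 4) := by
      rw [ENNReal.ofReal_pos]; linarith
    obtain ⟨m, hm⟩ := (h2.eventually (gt_mem_nhds h3)).exists
    exact ⟨m, hm.le⟩
  choose m hm using hm
  refine ⟨fun r => m r * r, fun g => ?_⟩
  by_contra hcon
  push Not at hcon
  -- generators
  set d := T.card with hd
  let e := T.equivFin
  let s : Fin (d + 1) → G := Fin.cons g fun j => (e.symm j : G)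
  let pr : Fin (d + 1) → ℕ := Fin.cons 0 fun _ => 1
  have hs : Subgroup.closure (Set.range s) = ⊤ := by
    rw [eq_top_iff, ← hT]
    apply Subgroup.closure_mono
    intro x hx
    refine ⟨(e ⟨x, hx⟩).succ, ?_⟩
    simp [s, e]
  have hbound : ∀ j : Fin d, ∃ N₀ : ℕ, ∀ N ≥ N₀, dens s pr N j.succ ≤
      ENNReal.ofReal (3 * ρ / 4) := by
    intro j
    have hsj : s j.succ = (e.symm j : G) := by simp [s]
    obtain ⟨r, hr⟩ := hcon (e.symm j : G) (e.symm j).2
    obtain ⟨C, h1, h2, h3⟩ := exists_disjoint hr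
    let C' : Fin (m r) → Finset (G × Fin (d + 1)) := fun i => (C i).image fun x => (x, j.succ)
    obtain ⟨N₀, hN₀⟩ := dens_le_of_disjoint s pr j.succ (r := r) C' (by
      intro i i' hii'
      rw [Finset.disjoint_left]
      intro f hf hf'
      obtain ⟨x, hx, rfl⟩ := Finset.mem_image.1 hf
      obtain ⟨y, hy, hxy⟩ := Finset.mem_image.1 hf'
      rw [Prod.mk.injEq] at hxy
      rw [hxy.1] at hy
      exact Finset.disjoint_left.1 (h1 i i' hii') hx hy) (fun i =>
      Finset.card_image_le.trans (h2 i)) (by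
      intro i f hf
      obtain ⟨x, _, rfl⟩ := Finset.mem_image.1 hf
      rfl) (by
      intro i
      rw [one_mul, hsj]
      refine conn_of_joins (H := Subgroup.zpowers g) (t := (e.symm j : G)) (E := C i) ?_ ?_ (h3 i)
      · intro h hh u
        have hg : ∀ u, Conn s (fun f => f ∈ C' i ∨ pr f.2 < pr j.succ) u (u * g) := by
          intro u
          exact Step.conn ⟨0, Or.inl ⟨by simp [s], Or.inr (by simp [pr])⟩⟩
        have hpow : ∀ n : ℕ, ∀ u, Conn s (fun f => f ∈ C' i ∨ pr f.2 < pr j.succ) u
            (u * g ^ n) := by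
          intro n
          induction n with
          | zero => intro u; rw [pow_zero, mul_one]; exact Conn.refl _
          | succ n ih =>
            intro u
            rw [pow_succ, ← mul_assoc]
            exact (ih u).trans (hg _)
        obtain ⟨k, rfl⟩ := Subgroup.mem_zpowers_iff.1 hh
        obtain ⟨n, rfl | rfl⟩ := k.eq_nat_or_neg
        · rw [zpow_natCast]; exact hpow n u
        · rw [zpow_neg, zpow_natCast]
          have := hpow n (u * (g ^ n)⁻¹)
          rw [inv_mul_cancel_right] at this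
          exact this.symm
      · intro u hu
        refine Step.conn ⟨j.succ, Or.inl ⟨by rw [hsj], Or.inl ?_⟩⟩
        exact Finset.mem_image.2 ⟨u, hu, rfl⟩) hη0.le hη1
    refine ⟨N₀, fun N hN => (hN₀ N hN).trans ?_⟩
    calc ENNReal.ofReal η + (1 - (ENNReal.ofReal η) ^ r) ^ m r
        ≤ ENNReal.ofReal (ρ / 2) + ENNReal.ofReal (ρ / 4) :=
          add_le_add (ENNReal.ofReal_le_ofReal hηρ) (hm r)
      _ = ENNReal.ofReal (3 * ρ / 4) := by
          rw [← ENNReal.ofReal_add (by linarith) (by linarith)]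
          congr 1
          ring
  choose N hN using hbound
  have h1 := cost_le_dens hc s hs pr (Finset.univ.sup N)
  rw [Fin.sum_univ_succ] at h1
  have h2 : dens s pr (Finset.univ.sup N) 0 ≤ 1 := MeasureTheory.prob_le_one
  have h3 : ∑ j : Fin d, dens s pr (Finset.univ.sup N) j.succ ≤
      ∑ _j : Fin d, ENNReal.ofReal (3 * ρ / 4) :=
    Finset.sum_le_sum fun j _ => hN j _ (Finset.le_sup (Finset.mem_univ j))
  rw [Finset.sum_const, Finset.card_univ, Fintype.card_fin, nsmul_eq_mul] at h3
  have h4 : ENNReal.ofReal c ≤ ENNReal.ofReal (1 + d * (3 * ρ / 4)) := by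
    refine h1.trans ((add_le_add h2 h3).trans (le_of_eq ?_))
    rw [ENNReal.ofReal_add zero_le_one (by positivity), ENNReal.ofReal_one,
      ENNReal.ofReal_mul (by positivity), ENNReal.ofReal_natCast]
  rw [ENNReal.ofReal_le_ofReal_iff (by positivity)] at h4
  have h5 : ρ * (d + 1) = c - 1 := by
    rw [hρ]
    field_simp
  nlinarith

open Classical in
lemma cosetCard_anti {K K' : Subgroup G} (h : K ≤ K') (X : Finset G) :
    cosetCard K' X ≤ cosetCard K X := by
  have h1 : X.image (fun x : G => (QuotientGroup.mk x : G ⧸ K')) =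
      (X.image (fun x : G => (QuotientGroup.mk x : G ⧸ K))).image
        (Subgroup.quotientMapOfLE h) := by
    rw [Finset.image_image]
    rfl
  unfold cosetCard
  rw [h1]
  exact Finset.card_image_le

lemma exists_order (hexp : ¬ ∃ n : ℕ, 0 < n ∧ ∀ g : G, g ^ n = 1) (N : ℕ) :
    ∃ g : G, orderOf g = 0 ∨ N ≤ orderOf g := by
  by_contra hcon
  push Not at hcon
  apply hexp
  refine ⟨N.factorial, Nat.factorial_pos _, fun g => ?_⟩
  rw [← orderOf_dvd_iff_pow_eq_one]
  exact Nat.dvd_factorial (Nat.pos_of_ne_zero (hcon g).1) (hcon g).2.le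

/-- **The uniform bound.** -/
theorem tarskiLe_uniform (h : ℕ) (hfg : Group.FG G)
    (hexp : ¬ ∃ n : ℕ, 0 < n ∧ ∀ g : G, g ^ n = 1) {δ : ℝ} (hδ : 0 < δ)
    (hc : CostGe G (ENNReal.ofReal (1 + (1 / 2) ^ h + δ))) :
    TarskiLe G (max 8 (28 * h + 4)) := by
  classical
  have : Countable G := countable_of_fg hfg
  obtain ⟨T, hT⟩ := Group.fg_def.1 hfg
  have hh : (0 : ℝ) < (1 / 2) ^ h := by positivity
  obtain ⟨cf, hcf⟩ := exists_tau hc (by linarith) T hT
  set d := T.card with hd
  obtain ⟨k, hk⟩ := exists_nat_gt ((d : ℝ) / δ)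
  have hk0 : (0 : ℝ) < k := lt_of_le_of_lt (by positivity) hk
  have hdk : (d : ℝ) / k < δ := by
    rw [div_lt_iff₀ hδ] at hk
    rw [div_lt_iff₀ hk0]
    linarith
  obtain ⟨N₀, hN₀⟩ := exists_four (G := G) cf (2 * k)
  obtain ⟨g, hg⟩ := exists_order hexp (max N₀ (8 ^ h))
  obtain ⟨τ, _, hτ⟩ := hcf g
  set H := Subgroup.zpowers g with hH
  by_cases hcase : 1 ≤ h ∧ ∀ B : Finset G, B.card ≤ 2 ^ h * cosetCard H (B * {1, τ})
  · exact (tarskiLe_log g τ h hcase.1 (hg.imp_right fun h1 => (le_max_right _ _).trans h1)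
      hcase.2).mono (le_max_right _ _)
  · refine TarskiLe.mono ?_ (le_max_left 8 (28 * h + 4))
    -- a set of small relative expansion
    have hB : ∃ B : Finset G, B.Nonempty ∧
        ((cosetCard H (B * {1, τ}) : ℝ) - 1) / B.card ≤ (1 / 2) ^ h := by
      rcases Nat.eq_zero_or_pos h with rfl | hpos
      · refine ⟨{1}, Finset.singleton_nonempty _, ?_⟩
        have h1 : cosetCard H ({1} * {1, τ}) ≤ 2 := by
          refine (cosetCard_le _ _).trans (Finset.card_mul_le.trans ?_)
          rw [Finset.card_singleton, one_mul]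
          exact Finset.card_le_two
        have h2 : ((cosetCard H ({1} * {1, τ}) : ℕ) : ℝ) ≤ 2 := by exact_mod_cast h1
        rw [Finset.card_singleton, Nat.cast_one, div_one, pow_zero]
        linarith
      · have h1 : ∃ B : Finset G, 2 ^ h * cosetCard H (B * {1, τ}) < B.card := by
          by_contra hcon
          push Not at hcon
          exact hcase ⟨hpos, hcon⟩
        obtain ⟨B, hB⟩ := h1
        have hne : B.Nonempty := Finset.card_pos.1 (by omega)
        refine ⟨B, hne, ?_⟩
        have h2 : (0 : ℝ) < B.card := by exact_mod_cast hne.card_pos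
        rw [div_le_iff₀ h2]
        have h3 : (2 : ℝ) ^ h * cosetCard H (B * {1, τ}) < B.card := by exact_mod_cast hB
        have h4 : (1 / 2 : ℝ) ^ h * 2 ^ h = 1 := by rw [← mul_pow]; norm_num
        have h5 : (cosetCard H (B * {1, τ}) : ℝ) ≤ (1 / 2) ^ h * B.card := by
          calc (cosetCard H (B * {1, τ}) : ℝ)
              = (1 / 2 : ℝ) ^ h * (2 ^ h * cosetCard H (B * {1, τ})) := by
                rw [← mul_assoc, h4, one_mul]
            _ ≤ (1 / 2) ^ h * B.card := mul_le_mul_of_nonneg_left h3.le hh.le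
        linarith
    obtain ⟨B, hBne, hB⟩ := hB
    set K := Subgroup.closure ({g, τ} : Set G) with hK
    have hτ' : ∃ τ' ∈ T, ∀ B' : Finset G, B'.card ≤ k * cosetCard K (B' * {1, τ'}) := by
      by_contra hcon
      push Not at hcon
      let e := T.equivFin
      have hex : ∀ j : Fin d, ∃ B' : Finset G,
          k * cosetCard K (B' * {1, (e.symm j : G)}) < B'.card :=
        fun j => hcon _ (e.symm j).2
      choose B' hB' using hex
      have hB'ne : ∀ j, (B' j).Nonempty := fun j => Finset.card_pos.1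
        (lt_of_le_of_lt (Nat.zero_le _) (hB' j))
      let S : ℕ → Finset G := fun p => match p with
        | 0 => {g}
        | 1 => {τ}
        | p + 2 => if hp : p < d then {(e.symm ⟨p, hp⟩ : G)} else ∅
      let BB : ℕ → Finset G := fun p => match p with
        | 0 => {1}
        | 1 => B
        | p + 2 => if hp : p < d then B' ⟨p, hp⟩ else {1}
      have h1 := cost_sets hc S (d + 2) (by
        unfold lo
        rw [eq_top_iff, ← hT]
        apply Subgroup.closure_mono
        intro x hx
        have hlt : (T.equivFin ⟨x, hx⟩ : ℕ) < d := (T.equivFin ⟨x, hx⟩).2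
        refine ⟨(e ⟨x, hx⟩ : ℕ) + 2, by have := (e ⟨x, hx⟩).2; omega, ?_⟩
        simp [S, e, hlt]) BB (by
        intro p
        match p with
        | 0 => exact Finset.singleton_nonempty _
        | 1 => exact hBne
        | p + 2 =>
          by_cases hp : p < d
          · simp only [BB, dif_pos hp]; exact hB'ne _
          · simp only [BB, dif_neg hp]; exact Finset.singleton_nonempty _)
      rw [Finset.sum_range_succ', Finset.sum_range_succ'] at h1
      have h2 : ((cosetCard (lo S 0) (BB 0 * insert 1 (S 0)) : ℝ) - 1) / (BB 0).card ≤ 1 := by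
        have h3 : cosetCard (lo S 0) (BB 0 * insert 1 (S 0)) ≤ 2 := by
          refine (cosetCard_le _ _).trans (Finset.card_mul_le.trans ?_)
          simp only [BB, S, Finset.card_singleton, one_mul]
          exact Finset.card_le_two
        have h4 : ((cosetCard (lo S 0) (BB 0 * insert 1 (S 0)) : ℕ) : ℝ) ≤ 2 := by
          exact_mod_cast h3
        have h5 : ((BB 0).card : ℝ) = 1 := by simp [BB]
        rw [h5, div_one]
        linarith
      have hlo1 : lo S 1 = H := by
        unfold lo
        rw [hH, Subgroup.zpowers_eq_closure]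
        congr 1
        ext x
        simp [S]
      have h3 : ((cosetCard (lo S (0 + 1)) (BB (0 + 1) * insert 1 (S (0 + 1))) : ℝ) - 1) /
          (BB (0 + 1)).card ≤ (1 / 2) ^ h := by
        rw [zero_add, hlo1]
        exact hB
      have hKlo : ∀ p, K ≤ lo S (p + 2) := by
        intro p
        rw [hK]
        unfold lo
        rw [Subgroup.closure_le]
        intro x hx
        apply Subgroup.subset_closure
        rcases hx with rfl | hx
        · exact ⟨0, by omega, by simp [S]⟩
        · rw [Set.mem_singleton_iff] at hx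
          exact ⟨1, by omega, by simp [S, hx]⟩
      have h4 : ∀ p ∈ Finset.range d,
          ((cosetCard (lo S (p + 1 + 1)) (BB (p + 1 + 1) * insert 1 (S (p + 1 + 1))) : ℝ) - 1) /
          (BB (p + 1 + 1)).card ≤ 1 / k := by
        intro p hp
        rw [Finset.mem_range] at hp
        have h5 : BB (p + 1 + 1) = B' ⟨p, hp⟩ := by simp [BB, hp]
        have h6 : S (p + 1 + 1) = {(e.symm ⟨p, hp⟩ : G)} := by simp [S, hp]
        rw [h5, h6]
        have h7 : (0 : ℝ) < (B' ⟨p, hp⟩).card := by exact_mod_cast (hB'ne _).card_pos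
        rw [div_le_div_iff₀ h7 hk0]
        have h8 := cosetCard_anti (hKlo p) (B' ⟨p, hp⟩ * {1, (e.symm ⟨p, hp⟩ : G)})
        have h9 : k * cosetCard (lo S (p + 2)) (B' ⟨p, hp⟩ * {1, (e.symm ⟨p, hp⟩ : G)}) ≤
            (B' ⟨p, hp⟩).card := (Nat.mul_le_mul_left k h8).trans (hB' ⟨p, hp⟩).le
        have h10 : (k : ℝ) * cosetCard (lo S (p + 2))
            (B' ⟨p, hp⟩ * {1, (e.symm ⟨p, hp⟩ : G)}) ≤ (B' ⟨p, hp⟩).card := by
          exact_mod_cast h9
        change ((cosetCard (lo S (p + 2)) (B' ⟨p, hp⟩ * {1, (e.symm ⟨p, hp⟩ : G)}) : ℝ) - 1) * k ≤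
          1 * ((B' ⟨p, hp⟩).card : ℝ)
        nlinarith
      have h5 := Finset.sum_le_sum h4
      rw [Finset.sum_const, Finset.card_range, nsmul_eq_mul, mul_one_div] at h5
      linarith
    obtain ⟨τ', _, hτ'⟩ := hτ'
    obtain ⟨ψ, hψ1, hψ2⟩ := hN₀ g τ (hg.imp_right fun h1 => (le_max_left _ _).trans h1) hτ
    exact tarskiLe_eight K τ' k hτ' ψ hψ1 hψ2

end Pool.Agent.Lib.MP_90732c_al
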