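import Pool.Agent.Lib.MP_90732c_al.Law

/-! The uniform bound for groups of bounded exponent. -/

set_option autoImplicit false

open scoped Pointwise

namespace Pool.Agent.Lib.MP_90732c_al

variable {G : Type} [Group G]

/-- The elements of a finite subgroup. -/
lemma exists_finset (K : Subgroup G) (hK : Finite K) :
    ∃ B : Finset G, (∀ x, x ∈ B ↔ x ∈ K) ∧ B.card = Nat.card K := by
  refine ⟨(Set.toFinite (K : Set G)).toFinset, fun x => by simp, ?_⟩
  exact (Nat.card_eq_card_finite_toFinset (Set.toFinite (K : Set G))).symm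

open Classical in
/-- Bound for a stage of the chain inside a finite subgroup. -/
lemma term_le (S : ℕ → Finset G) (p : ℕ) (F K : Subgroup G) (hFK : F ≤ K) (hF : F ≤ lo S p)
    (hS : ∀ x ∈ S p, x ∈ K) (F' B : Finset G) (hF' : ∀ x, x ∈ F' ↔ x ∈ F)
    (hB : ∀ x, x ∈ B ↔ x ∈ K) :
    ((cosetCard (lo S p) (B * insert 1 (S p)) : ℝ) - 1) / (B.card : ℝ) ≤ 1 / (F'.card : ℝ) := by
  have hBS : B * insert 1 (S p) ⊆ B := by
    intro x hx
    obtain ⟨a, ha, b, hb, rfl⟩ := Finset.mem_mul.1 hx
    rw [hB] at ha ⊢
    rcases Finset.mem_insert.1 hb with rfl | hb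
    · rwa [mul_one]
    · exact K.mul_mem ha (hS b hb)
  have h1 : cosetCard (lo S p) (B * insert 1 (S p)) ≤ cosetCard F B :=
    (cosetCard_anti hF _).trans (cosetCard_mono F hBS)
  have h2 := card_mul_cosetCard_le F K hFK B hB F' hF'
  have hBpos : (0 : ℝ) < B.card := by
    have : B.Nonempty := ⟨1, (hB 1).2 K.one_mem⟩
    exact_mod_cast this.card_pos
  have hFpos : (0 : ℝ) < F'.card := by
    have : F'.Nonempty := ⟨1, (hF' 1).2 F.one_mem⟩
    exact_mod_cast this.card_pos
  rw [div_le_div_iff₀ hBpos hFpos]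
  have h3 : (cosetCard (lo S p) (B * insert 1 (S p)) : ℝ) ≤ cosetCard F B := by exact_mod_cast h1
  have h4 : (F'.card : ℝ) * cosetCard F B = B.card := by exact_mod_cast h2
  nlinarith

open Classical in
/-- Bound for the first stage of the chain inside a finite subgroup. -/
lemma term_zero_le (S : ℕ → Finset G) (K : Subgroup G) (hS : ∀ x ∈ S 0, x ∈ K) (B : Finset G)
    (hB : ∀ x, x ∈ B ↔ x ∈ K) :
    ((cosetCard (lo S 0) (B * insert 1 (S 0)) : ℝ) - 1) / (B.card : ℝ) ≤ 1 - 1 / B.card := by
  have hBS : B * insert 1 (S 0) ⊆ B := by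
    intro x hx
    obtain ⟨a, ha, b, hb, rfl⟩ := Finset.mem_mul.1 hx
    rw [hB] at ha ⊢
    rcases Finset.mem_insert.1 hb with rfl | hb
    · rwa [mul_one]
    · exact K.mul_mem ha (hS b hb)
  have h1 : cosetCard (lo S 0) (B * insert 1 (S 0)) ≤ B.card :=
    (cosetCard_le _ _).trans (Finset.card_le_card hBS)
  have hBpos : (0 : ℝ) < B.card := by
    have : B.Nonempty := ⟨1, (hB 1).2 K.one_mem⟩
    exact_mod_cast this.card_pos
  have h3 : (cosetCard (lo S 0) (B * insert 1 (S 0)) : ℝ) ≤ B.card := by exact_mod_cast h1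
  rw [div_le_iff₀ hBpos, sub_mul, one_mul, one_div, inv_mul_cancel₀ hBpos.ne']
  linarith

open Classical in
/-- Groups of bounded exponent have cost less than two. -/
theorem lt_two_of_exponent [Countable G] {c : ℝ} (hc : CostGe G (ENNReal.ofReal c)) (hc1 : 1 ≤ c)
    (T : Finset G) (hT : Subgroup.closure (T : Set G) = ⊤) {n : ℕ} (hn : 0 < n)
    (hlaw : ∀ g : G, g ^ n = 1) : c < 2 := by
  have := infinite_of_cost hc hc1 T hT
  obtain ⟨s, hsinf, hmin⟩ := exists_minimal T hT
  have hne : s.Nonempty := by
    rw [Finset.nonempty_iff_ne_empty]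
    rintro rfl
    rw [Finset.coe_empty, Subgroup.closure_empty] at hsinf
    exact not_finite (⊥ : Subgroup G)
  obtain ⟨x, hx⟩ := hne
  have hfin := hmin (s.erase x) (Finset.card_erase_lt_of_mem hx)
  obtain ⟨F', hF', _⟩ := exists_finset _ hfin
  set F := Subgroup.closure ((s.erase x : Finset G) : Set G) with hF
  let S : ℕ → Finset G := fun p => if p = 0 then s.erase x else {x}
  let B : ℕ → Finset G := fun p => if p = 0 then F' else {1}
  have hinf : Infinite (lo S 2) := by
    have h1 : lo S 2 = Subgroup.closure (s : Set G) := by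
      rw [lo_singleton_chain, lo_singleton_chain, lo_zero, bot_sup_eq, ← Subgroup.closure_union]
      congr 1
      simp only [S, if_true, one_ne_zero, if_false]
      rw [← Finset.coe_union]
      congr 1
      rw [Finset.union_comm, ← Finset.insert_eq, Finset.insert_erase hx]
    rw [h1]; exact hsinf
  have hF'ne : F'.Nonempty := ⟨1, (hF' 1).2 F.one_mem⟩
  have h1 := cost_chain_of_exponent hc T hT hn hlaw S 2 hinf B (by
    intro p
    by_cases hp : p = 0
    · simp only [B, if_pos hp]; exact hF'ne
    · simp only [B, if_neg hp]; exact Finset.singleton_nonempty _)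
  rw [Finset.sum_range_succ, Finset.sum_range_one] at h1
  have h2 := term_zero_le S F (by
    intro y hy
    simp only [S, if_true] at hy
    exact Subgroup.subset_closure hy) F' hF'
  have h3 : ((cosetCard (lo S 1) (B 1 * insert 1 (S 1)) : ℝ) - 1) / ((B 1).card : ℝ) ≤ 1 := by
    have h4 : cosetCard (lo S 1) (B 1 * insert 1 (S 1)) ≤ 2 := by
      refine (cosetCard_le _ _).trans (Finset.card_mul_le.trans ?_)
      simp only [B, S, one_ne_zero, if_false, Finset.card_singleton, one_mul]
      exact Finset.card_le_two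
    have h5 : ((cosetCard (lo S 1) (B 1 * insert 1 (S 1)) : ℕ) : ℝ) ≤ 2 := by exact_mod_cast h4
    have h6 : ((B 1).card : ℝ) = 1 := by simp [B]
    rw [h6, div_one]
    linarith
  have h4 : B 0 = F' := by simp [B]
  rw [h4] at h1
  have h5 : (0 : ℝ) < 1 / F'.card := by
    have : (0 : ℝ) < F'.card := by exact_mod_cast hF'ne.card_pos
    positivity
  linarith

open Classical in
/-- In a group of bounded exponent and cost greater than `1 + 2⁻ʰ` a minimal finite set generating
an infinite subgroup has at most `h + 1` elements. -/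
theorem card_le_of_exponent [Countable G] {c : ℝ} (hc : CostGe G (ENNReal.ofReal c))
    (T : Finset G) (hT : Subgroup.closure (T : Set G) = ⊤) {n : ℕ} (hn : 0 < n)
    (hlaw : ∀ g : G, g ^ n = 1) (s : Finset G) (hsinf : Infinite (Subgroup.closure (s : Set G)))
    (hmin : ∀ u : Finset G, u.card < s.card → Finite (Subgroup.closure (u : Set G)))
    (h : ℕ) (hh : 1 ≤ h) (hch : 1 + (1 / 2) ^ h < c) : s.card ≤ h + 1 := by
  by_contra hcon
  rw [not_le] at hcon
  obtain ⟨x, hx⟩ : s.Nonempty := Finset.card_pos.1 (by omega)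
  have hcx : (s.erase x).card = s.card - 1 := Finset.card_erase_of_mem hx
  obtain ⟨y, hy⟩ : (s.erase x).Nonempty := Finset.card_pos.1 (by omega)
  set s' := (s.erase x).erase y with hs'
  have hcy : s'.card = s.card - 2 := by
    rw [hs', Finset.card_erase_of_mem hy, hcx]; omega
  have hs's : s' ⊆ s := (Finset.erase_subset _ _).trans (Finset.erase_subset _ _)
  have hfin := hmin s' (by omega)
  have hfinx := hmin (insert x s') (by
    have := Finset.card_insert_le x s'
    omega)
  have hfiny := hmin (insert y s') (by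
    have := Finset.card_insert_le y s'
    omega)
  set F := Subgroup.closure (s' : Set G) with hF
  set Kx := Subgroup.closure ((insert x s' : Finset G) : Set G) with hKx
  set Ky := Subgroup.closure ((insert y s' : Finset G) : Set G) with hKy
  obtain ⟨F', hF', hF'card⟩ := exists_finset F hfin
  obtain ⟨Bx, hBx, _⟩ := exists_finset Kx hfinx
  obtain ⟨By, hBy, _⟩ := exists_finset Ky hfiny
  let S : ℕ → Finset G := fun p => if p = 0 then s' else if p = 1 then {x} else {y}
  let B : ℕ → Finset G := fun p => if p = 0 then F' else if p = 1 then Bx else By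
  have hlo1 : lo S 1 = F := by
    rw [lo_singleton_chain, lo_zero, bot_sup_eq]
    simp [S, hF]
  have hlo2 : F ≤ lo S 2 := by
    rw [lo_singleton_chain, hlo1]
    exact le_sup_left
  have hinf : Infinite (lo S 3) := by
    have h1 : lo S 3 = Subgroup.closure (s : Set G) := by
      rw [lo_singleton_chain, lo_singleton_chain, hlo1, hF, ← Subgroup.closure_union,
        ← Subgroup.closure_union]
      congr 1
      have h2 : S 1 = {x} := by simp [S]
      have h3 : S 2 = {y} := by simp [S]
      rw [h2, h3, ← Finset.coe_union, ← Finset.coe_union]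
      congr 1
      ext z
      simp only [Finset.mem_union, Finset.mem_singleton, hs', Finset.mem_erase]
      constructor
      · rintro ((h | h) | h)
        · exact h.2.2
        · rw [h]; exact hx
        · rw [h]; exact (Finset.mem_erase.1 hy).2
      · intro hz
        by_cases hzx : z = x
        · exact Or.inl (Or.inr hzx)
        · by_cases hzy : z = y
          · exact Or.inr hzy
          · exact Or.inl (Or.inl ⟨hzy, hzx, hz⟩)
    rw [h1]; exact hsinf
  have hne : ∀ p, (B p).Nonempty := by
    intro p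
    by_cases hp : p = 0
    · simp only [B, if_pos hp]; exact ⟨1, (hF' 1).2 F.one_mem⟩
    · by_cases hp1 : p = 1
      · simp only [B, if_neg hp, if_pos hp1]; exact ⟨1, (hBx 1).2 Kx.one_mem⟩
      · simp only [B, if_neg hp, if_neg hp1]; exact ⟨1, (hBy 1).2 Ky.one_mem⟩
  have h1 := cost_chain_of_exponent hc T hT hn hlaw S 3 hinf B hne
  rw [Finset.sum_range_succ, Finset.sum_range_succ, Finset.sum_range_one] at h1
  have hB0 : B 0 = F' := by simp [B]
  have hB1 : B 1 = Bx := by simp [B]
  have hB2 : B 2 = By := by simp [B]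
  rw [hB0, hB1, hB2] at h1
  have h2 := term_zero_le S F (by
    intro z hz
    simp only [S, if_true] at hz
    exact Subgroup.subset_closure hz) F' hF'
  have hFx : F ≤ Kx := Subgroup.closure_mono (by exact_mod_cast Finset.subset_insert x s')
  have hFy : F ≤ Ky := Subgroup.closure_mono (by exact_mod_cast Finset.subset_insert y s')
  have h3 := term_le S 1 F Kx hFx (by rw [hlo1]) (by
    intro z hz
    have hz' : z = x := by simpa [S] using hz
    rw [hz']
    exact Subgroup.subset_closure (by simp)) F' Bx hF' hBx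
  have h4 := term_le S 2 F Ky hFy hlo2 (by
    intro z hz
    have hz' : z = y := by simpa [S] using hz
    rw [hz']
    exact Subgroup.subset_closure (by simp)) F' By hF' hBy
  have h5 : (1 / 2 : ℝ) ^ h < 1 / F'.card := by linarith
  have h6 := two_pow_card_le s hsinf hmin s' hs's (by omega)
  rw [← hF, ← hF'card, hcy] at h6
  have h7 : (2 : ℝ) ^ (s.card - 2) ≤ F'.card := by exact_mod_cast h6
  have h8 : (2 : ℝ) ^ h ≤ 2 ^ (s.card - 2) := pow_le_pow_right₀ (by norm_num) (by omega)
  have h9 : (1 / (F'.card : ℝ)) ≤ (1 / 2) ^ h := by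
    rw [one_div_pow]
    exact one_div_le_one_div_of_le (by positivity) (h8.trans h7)
  linarith

open Classical in
/-- Doubling sets give paradoxical decompositions. -/
theorem tarskiLe_of_expansion (U : Finset G) (hU : U.Nonempty)
    (h : ∀ A : Finset G, 2 * A.card ≤ (A * U).card) : TarskiLe G (2 * U.card) := by
  let O : G × Bool → Finset G := fun p => {p.1} * U
  obtain ⟨F, hFinj, hF⟩ := (Finset.all_card_le_biUnion_card_iff_exists_injective O).1 (by
    intro Q
    set X := Q.image Prod.fst with hX
    have hQX : Q.card ≤ 2 * X.card := by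
      have h5 : Q ⊆ X ×ˢ (Finset.univ : Finset Bool) := by
        intro p hp
        exact Finset.mem_product.2 ⟨Finset.mem_image_of_mem _ hp, Finset.mem_univ _⟩
      have h7 := Finset.card_le_card h5
      rw [Finset.card_product, Finset.card_univ, Fintype.card_bool] at h7
      omega
    have hXU : X * U ⊆ Q.biUnion O := by
      intro y hy
      obtain ⟨a, ha, u, hu, rfl⟩ := Finset.mem_mul.1 hy
      obtain ⟨p, hp, rfl⟩ := Finset.mem_image.1 ha
      rw [Finset.mem_biUnion]
      exact ⟨p, hp, Finset.mul_mem_mul (Finset.mem_singleton_self _) hu⟩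
    exact hQX.trans ((h X).trans (Finset.card_le_card hXU)))
  have h1 := tarskiLe_of_injective (fun _ => U) hU F hFinj (by
    intro x c
    have h2 := hF (x, c)
    simp only [O] at h2
    obtain ⟨a, ha, u, hu, h3⟩ := Finset.mem_mul.1 h2
    rw [Finset.mem_singleton] at ha
    rw [← h3, ha, inv_mul_cancel_left]
    exact hu)
  have h2 : TarskiLe G (U.card + U.card) := h1
  exact h2.mono (by omega)

open Classical in
/-- **The uniform bound for groups of bounded exponent.** -/
theorem tarskiLe_exponent (hfg : Group.FG G) {n : ℕ} (hn : 0 < n) (hlaw : ∀ g : G, g ^ n = 1)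
    (h : ℕ) (hh : 1 ≤ h) {c : ℝ} (hc : CostGe G (ENNReal.ofReal c)) (hch : 1 + (1 / 2) ^ h < c) :
    TarskiLe G (2 * (h + 2) ^ (2 ^ h)) := by
  have hcount : Countable G := countable_of_fg hfg
  obtain ⟨T, hT⟩ := Group.fg_def.1 hfg
  have hpos : (0 : ℝ) < (1 / 2) ^ h := by positivity
  have := infinite_of_cost hc (by linarith) T hT
  obtain ⟨s, hsinf, hmin⟩ := exists_minimal T hT
  have hcard := card_le_of_exponent hc T hT hn hlaw s hsinf hmin h hh hch
  set V : Finset G := insert 1 s with hV
  have hVcard : V.card ≤ h + 2 := (Finset.card_insert_le _ _).trans (by omega)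
  have hexp : ∀ A : Finset G, c * A.card ≤ ((A * V).card : ℝ) := by
    intro A
    rcases A.eq_empty_or_nonempty with rfl | hA
    · simp
    · have h1 := cost_chain_of_exponent hc T hT hn hlaw (fun _ => s) 1 (by
        rw [lo_singleton_chain, lo_zero, bot_sup_eq]
        exact hsinf) (fun _ => A) (fun _ => hA)
      rw [Finset.sum_range_one] at h1
      have h2 : (0 : ℝ) < A.card := by exact_mod_cast hA.card_pos
      rw [le_div_iff₀ h2] at h1
      have h3 : ((cosetCard (lo (fun _ => s) 0) (A * insert 1 s) : ℕ) : ℝ) ≤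
        ((A * V).card : ℝ) := by exact_mod_cast cosetCard_le _ _
      linarith
  have hc0 : 0 ≤ c := by linarith
  have hpow : (2 : ℝ) ≤ c ^ (2 ^ h) := by
    have h1 : (2 : ℝ) ≤ (1 + (1 / 2) ^ h) ^ (2 ^ h) := by
      have h2 := one_add_mul_le_pow (a := (1 / 2 : ℝ) ^ h) (by linarith) (2 ^ h)
      have h3 : ((2 ^ h : ℕ) : ℝ) * (1 / 2) ^ h = 1 := by
        push_cast
        rw [← mul_pow]
        norm_num
      linarith
    exact h1.trans (pow_le_pow_left₀ (by linarith) hch.le _)
  have h1 := tarskiLe_of_expansion (V ^ (2 ^ h))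
    (Finset.Nonempty.pow ⟨1, Finset.mem_insert_self _ _⟩) (by
    intro A
    have h2 := card_mul_pow hc0 hexp (2 ^ h) A
    have h3 : (2 : ℝ) * A.card ≤ ((A * V ^ (2 ^ h)).card : ℝ) :=
      (mul_le_mul_of_nonneg_right hpow (Nat.cast_nonneg _)).trans h2
    exact_mod_cast h3)
  refine h1.mono ?_
  gcongr
  exact Finset.card_pow_le.trans (Nat.pow_le_pow_left hVcard _)

end Pool.Agent.Lib.MP_90732c_al
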