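import Pool.Agent.Lib.MP_90732c_al.Uniform

/-! A generator in general position with respect to a chain of subgroups. -/

set_option autoImplicit false

open scoped Pointwise

namespace Pool.Agent.Lib.MP_90732c_al

variable {G : Type} [Group G]

open Classical in
/-- **A generator in general position with respect to a subgroup of small cost.** -/
theorem exists_tau_chain [Countable G] {c : ℝ} (hc : CostGe G (ENNReal.ofReal c))
    (T : Finset G) (hT : Subgroup.closure (T : Set G) = ⊤) {a : ℝ} (ha : a < c) :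
    ∃ cf : ℕ → ℕ, ∀ (S : ℕ → Finset G) (P : ℕ) (B : ℕ → Finset G), (∀ p, (B p).Nonempty) →
      ∑ p ∈ Finset.range P,
        ((cosetCard (lo S p) (B p * insert 1 (S p)) : ℝ) - 1) / ((B p).card : ℝ) ≤ a →
      ∃ τ ∈ T, ∀ r, ¬ NoHit (lo S P) τ τ r (cf r) := by
  set ρ : ℝ := (c - a) / (T.card + 1) with hρ
  have hpos : (0 : ℝ) < T.card + 1 := by positivity
  have hρ0 : 0 < ρ := div_pos (by linarith) hpos
  set η : ℝ := min (ρ / 2) 1 with hη
  have hη0 : 0 < η := lt_min (by linarith) one_pos
  have hη1 : η ≤ 1 := min_le_right _ _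
  have hηρ : η ≤ ρ / 2 := min_le_left _ _
  have hm : ∀ r : ℕ, ∃ m : ℕ, (1 - (ENNReal.ofReal η) ^ r) ^ m ≤ ENNReal.ofReal (ρ / 4) := by
    intro r
    have h1 : (1 : ENNReal) - (ENNReal.ofReal η) ^ r < 1 := by
      apply ENNReal.sub_lt_self ENNReal.one_ne_top one_ne_zero
      exact pow_ne_zero _ (by simpa using hη0)
    have h2 := ENNReal.tendsto_pow_atTop_nhds_zero_of_lt_one h1
    have h3 : (0 : ENNReal) < ENNReal.ofReal (ρ / 4) := by
      rw [ENNReal.ofReal_pos]; linarith
    obtain ⟨m, hm⟩ := (h2.eventually (gt_mem_nhds h3)).exists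
    exact ⟨m, hm.le⟩
  choose m hm using hm
  refine ⟨fun r => m r * r, fun S P B hB hsum => ?_⟩
  by_contra hcon
  push Not at hcon
  set S' : ℕ → Finset G := fun p => if p < P then S p else T with hS'
  set L : Finset (Σ _ : ℕ, G) := (Finset.range (P + 1)).sigma S' with hL
  set s : Fin L.card → G := fun i => (L.equivFin.symm i).1.2 with hs
  set pr : Fin L.card → ℕ := fun i => (L.equivFin.symm i).1.1 with hpr
  have hmemL : ∀ i : Fin L.card, pr i < P + 1 ∧ s i ∈ S' (pr i) := by
    intro i
    have h1 : (L.equivFin.symm i : Σ _ : ℕ, G) ∈ (Finset.range (P + 1)).sigma S' :=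
      (L.equivFin.symm i).2
    rw [Finset.mem_sigma, Finset.mem_range] at h1
    exact h1
  have hex : ∀ q < P + 1, ∀ g ∈ S' q, ∃ i : Fin L.card, pr i = q ∧ s i = g := by
    intro q hq g hg
    have h1 : (⟨q, g⟩ : Σ _ : ℕ, G) ∈ L := by
      rw [hL, Finset.mem_sigma, Finset.mem_range]
      exact ⟨hq, hg⟩
    refine ⟨L.equivFin ⟨_, h1⟩, ?_, ?_⟩
    · simp only [hpr, Equiv.symm_apply_apply]
    · simp only [hs, Equiv.symm_apply_apply]
  have hlow : ∀ p ≤ P, low s pr p = lo S p := by
    intro p hp
    unfold low lo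
    congr 1
    ext g
    constructor
    · rintro ⟨j, hj, rfl⟩
      refine ⟨pr j, hj, ?_⟩
      have h1 := (hmemL j).2
      simp only [hS', if_pos (lt_of_lt_of_le hj hp)] at h1
      exact h1
    · rintro ⟨q, hq, hg⟩
      obtain ⟨i, h1, h2⟩ := hex q (by omega) g (by
        simp only [hS', if_pos (lt_of_lt_of_le hq hp)]; exact hg)
      exact ⟨i, by rw [h1]; exact hq, h2⟩
  have hclos : Subgroup.closure (Set.range s) = ⊤ := by
    rw [eq_top_iff, ← hT]
    apply Subgroup.closure_mono
    intro g hg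
    obtain ⟨i, _, h2⟩ := hex P (by omega) g (by simp only [hS', lt_irrefl, if_false]; exact hg)
    exact ⟨i, h2⟩
  -- lower priorities
  have hverts : ∀ p < P, (verts s pr p (B p)).card ≤
      cosetCard (lo S p) (B p * insert 1 (S p)) := by
    intro p hp
    have h1 : (verts s pr p (B p)).card ≤ cosetCard (low s pr p) (B p * insert 1 (S p)) := by
      apply Finset.card_le_card
      unfold verts
      apply Finset.union_subset
      · intro v hv
        obtain ⟨b, hb, rfl⟩ := Finset.mem_image.1 hv
        refine Finset.mem_image.2 ⟨b, ?_, rfl⟩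
        have := Finset.mul_mem_mul hb (Finset.mem_insert_self 1 (S p))
        rwa [mul_one] at this
      · intro v hv
        obtain ⟨e, he, rfl⟩ := Finset.mem_image.1 hv
        rw [Finset.mem_product, Finset.mem_filter] at he
        refine Finset.mem_image.2 ⟨e.1 * s e.2, ?_, rfl⟩
        refine Finset.mul_mem_mul he.1 (Finset.mem_insert_of_mem ?_)
        have := (hmemL e.2).2
        rw [he.2.2] at this
        simp only [hS', if_pos hp] at this
        exact this
    exact h1.trans_eq (by rw [hlow p hp.le])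
  choose N₁ hN₁ using fun p => exists_dens_bound s pr p (B p) (hB p)
  have hterm : ∀ p ∈ Finset.range P, ∀ N ≥ N₁ p,
      ∑ i ∈ Finset.univ.filter (fun i => pr i = p), dens s pr N i ≤
      ENNReal.ofReal (((cosetCard (lo S p) (B p * insert 1 (S p)) : ℝ) - 1) /
        ((B p).card : ℝ)) := by
    intro p hp N hN
    have hp' := Finset.mem_range.1 hp
    have h1 : (0 : ℝ) < (B p).card := by exact_mod_cast (hB p).card_pos
    have hcard : ((B p).card : ENNReal) ≠ 0 := by
      exact_mod_cast (hB p).card_pos.ne'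
    rw [ENNReal.ofReal_div_of_pos h1, ENNReal.ofReal_natCast,
      ENNReal.le_div_iff_mul_le (Or.inl hcard) (Or.inl (ENNReal.natCast_ne_top _)), mul_comm]
    refine (hN₁ p N hN).trans ?_
    rw [← ENNReal.ofReal_natCast]
    apply ENNReal.ofReal_le_ofReal
    have hv := hverts p hp'
    have h2 : 0 < cosetCard (lo S p) (B p * insert 1 (S p)) :=
      cosetCard_pos _ ((hB p).mul ⟨1, Finset.mem_insert_self _ _⟩)
    have h3 : (verts s pr p (B p)).card - 1 ≤
      cosetCard (lo S p) (B p * insert 1 (S p)) - 1 := by omega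
    have h4 : (((verts s pr p (B p)).card - 1 : ℕ) : ℝ) ≤
      ((cosetCard (lo S p) (B p * insert 1 (S p)) - 1 : ℕ) : ℝ) := by exact_mod_cast h3
    refine h4.trans (le_of_eq ?_)
    rw [Nat.cast_sub h2, Nat.cast_one]
  have hnonneg : ∀ p ∈ Finset.range P,
      0 ≤ ((cosetCard (lo S p) (B p * insert 1 (S p)) : ℝ) - 1) / ((B p).card : ℝ) := by
    intro p _
    have h2 : 1 ≤ cosetCard (lo S p) (B p * insert 1 (S p)) :=
      cosetCard_pos _ ((hB p).mul ⟨1, Finset.mem_insert_self _ _⟩)
    have h3 : (1 : ℝ) ≤ (cosetCard (lo S p) (B p * insert 1 (S p)) : ℝ) := by exact_mod_cast h2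
    apply div_nonneg (by linarith) (Nat.cast_nonneg _)
  -- the top priority
  have hbound : ∀ j : Fin L.card, ∃ N₀ : ℕ, ∀ N ≥ N₀, pr j = P → dens s pr N j ≤
      ENNReal.ofReal (3 * ρ / 4) := by
    intro j
    by_cases hj : pr j = P
    swap
    · exact ⟨0, fun N _ h => absurd h hj⟩
    have hsj : s j ∈ T := by
      have := (hmemL j).2
      rw [hj] at this
      simp only [hS', lt_irrefl, if_false] at this
      exact this
    obtain ⟨r, hr⟩ := hcon (s j) hsj
    obtain ⟨C, h1, h2, h3⟩ := exists_disjoint hr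
    let C' : Fin (m r) → Finset (G × Fin L.card) := fun i => (C i).image fun x => (x, j)
    obtain ⟨N₀, hN₀⟩ := dens_le_of_disjoint s pr j (r := r) C' (by
      intro i i' hii'
      rw [Finset.disjoint_left]
      intro f hf hf'
      obtain ⟨x, hx, rfl⟩ := Finset.mem_image.1 hf
      obtain ⟨y, hy, hxy⟩ := Finset.mem_image.1 hf'
      rw [Prod.mk.injEq] at hxy
      rw [hxy.1] at hy
      exact Finset.disjoint_left.1 (h1 i i' hii') hx hy) (fun i =>
      Finset.card_image_le.trans (h2 i)) (by
      intro i f hf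
      obtain ⟨x, _, rfl⟩ := Finset.mem_image.1 hf
      rfl) (by
      intro i
      rw [one_mul]
      refine conn_of_joins (H := lo S P) (t := s j) (E := C i) ?_ ?_ (h3 i)
      · intro h hh u
        refine conn_of_coset (p := P) (fun g k hk => Or.inr (by rw [hj]; exact hk)) ?_
        rw [QuotientGroup.eq, hlow P le_rfl, inv_mul_cancel_left]
        exact hh
      · intro u hu
        refine Step.conn ⟨j, Or.inl ⟨rfl, Or.inl ?_⟩⟩
        exact Finset.mem_image.2 ⟨u, hu, rfl⟩) hη0.le hη1
    refine ⟨N₀, fun N hN _ => (hN₀ N hN).trans ?_⟩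
    calc ENNReal.ofReal η + (1 - (ENNReal.ofReal η) ^ r) ^ m r
        ≤ ENNReal.ofReal (ρ / 2) + ENNReal.ofReal (ρ / 4) :=
          add_le_add (ENNReal.ofReal_le_ofReal hηρ) (hm r)
      _ = ENNReal.ofReal (3 * ρ / 4) := by
          rw [← ENNReal.ofReal_add (by linarith) (by linarith)]
          congr 1
          ring
  choose N₂ hN₂ using hbound
  set N := max ((Finset.range P).sup N₁) (Finset.univ.sup N₂) with hN
  have h1 := cost_le_dens hc s hclos pr N
  have h2 : ∑ i, dens s pr N i =
      ∑ p ∈ Finset.range (P + 1), ∑ i ∈ Finset.univ.filter (fun i => pr i = p),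
        dens s pr N i := by
    rw [Finset.sum_fiberwise_of_maps_to]
    intro i _
    exact Finset.mem_range.2 (hmemL i).1
  rw [h2, Finset.sum_range_succ] at h1
  have h3 : ∑ p ∈ Finset.range P, ∑ i ∈ Finset.univ.filter (fun i => pr i = p), dens s pr N i ≤
      ENNReal.ofReal a := by
    refine (Finset.sum_le_sum fun p hp => hterm p hp N
      ((Finset.le_sup hp).trans (le_max_left _ _))).trans ?_
    rw [← ENNReal.ofReal_sum_of_nonneg hnonneg]
    exact ENNReal.ofReal_le_ofReal hsum
  have h4 : ∑ i ∈ Finset.univ.filter (fun i => pr i = P), dens s pr N i ≤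
      ENNReal.ofReal (T.card * (3 * ρ / 4)) := by
    have h5 : ∑ i ∈ Finset.univ.filter (fun i => pr i = P), dens s pr N i ≤
        ∑ _i ∈ Finset.univ.filter (fun i => pr i = P), ENNReal.ofReal (3 * ρ / 4) :=
      Finset.sum_le_sum fun i hi => hN₂ i N
        ((Finset.le_sup (Finset.mem_univ i)).trans (le_max_right _ _)) (Finset.mem_filter.1 hi).2
    refine h5.trans ?_
    rw [Finset.sum_const, nsmul_eq_mul, ENNReal.ofReal_mul (by positivity),
      ENNReal.ofReal_natCast]
    gcongr
    apply Finset.card_le_card_of_injOn s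
    · intro i hi
      have h6 := (hmemL i).2
      rw [(Finset.mem_filter.1 hi).2] at h6
      simp only [hS', lt_irrefl, if_false] at h6
      exact h6
    · intro i hi j hj hij
      have h6 : pr i = pr j := (Finset.mem_filter.1 hi).2.trans (Finset.mem_filter.1 hj).2.symm
      apply L.equivFin.symm.injective
      apply Subtype.ext
      exact Sigma.ext h6 (heq_of_eq hij)
  have ha0 : 0 ≤ a := (Finset.sum_nonneg hnonneg).trans hsum
  have h5 : ENNReal.ofReal c ≤ ENNReal.ofReal (a + T.card * (3 * ρ / 4)) := by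
    refine h1.trans ((add_le_add h3 h4).trans (le_of_eq ?_))
    rw [ENNReal.ofReal_add ha0 (by positivity)]
  rw [ENNReal.ofReal_le_ofReal_iff (by positivity)] at h5
  have h6 : ρ * (T.card + 1) = c - a := by
    rw [hρ]
    field_simp
  nlinarith

end Pool.Agent.Lib.MP_90732c_al
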