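import Mathlib

/-! Closed walks with generic jumps in the graph on `G / H` whose edges are the elements `x` of
`G`, the edge `x` joining `x H` and `x t H`. -/

set_option autoImplicit false

namespace Pool.Agent.Lib.MP_90732c_al

variable {G : Type} [Group G]

/-- `a H` and `b H` are joined through edges in `E`. -/
def Joins (H : Subgroup G) (t : G) (E : Finset G) : G → G → Prop :=
  Relation.EqvGen fun u v => (∃ h ∈ H, v = u * h) ∨ (u ∈ E ∧ v = u * t)

lemma Joins.refl {H : Subgroup G} {t : G} {E : Finset G} (a : G) : Joins H t E a a :=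
  Relation.EqvGen.refl a

lemma Joins.symm {H : Subgroup G} {t : G} {E : Finset G} {a b : G} (h : Joins H t E a b) :
    Joins H t E b a :=
  Relation.EqvGen.symm _ _ h

lemma Joins.trans {H : Subgroup G} {t : G} {E : Finset G} {a b c : G} (h : Joins H t E a b)
    (h' : Joins H t E b c) : Joins H t E a c :=
  Relation.EqvGen.trans _ _ _ h h'

lemma Joins.mono {H : Subgroup G} {t : G} {E E' : Finset G} (hE : E ⊆ E') {a b : G}
    (h : Joins H t E a b) : Joins H t E' a b := by
  unfold Joins at h ⊢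
  induction h with
  | rel u v huv => exact Relation.EqvGen.rel _ _ (huv.imp_right fun h => ⟨hE h.1, h.2⟩)
  | refl u => exact Relation.EqvGen.refl _
  | symm u v _ ih => exact ih.symm _ _
  | trans u v w _ _ ih1 ih2 => exact ih1.trans _ _ _ ih2

lemma joins_of_mem {H : Subgroup G} {t : G} {E : Finset G} {a h : G} (hh : h ∈ H) :
    Joins H t E a (a * h) :=
  Relation.EqvGen.rel _ _ (Or.inl ⟨h, hh, rfl⟩)

lemma joins_of_inv_mul_mem {H : Subgroup G} {t : G} {E : Finset G} {a b : G}
    (hh : a⁻¹ * b ∈ H) : Joins H t E a b := by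
  have := joins_of_mem (t := t) (E := E) (a := a) hh
  rwa [mul_inv_cancel_left] at this

lemma joins_edge {H : Subgroup G} {t : G} {E : Finset G} {a : G} (ha : a ∈ E) :
    Joins H t E a (a * t) :=
  Relation.EqvGen.rel _ _ (Or.inr ⟨ha, rfl⟩)

open Classical in
/-- Left translate of a finite set. -/
noncomputable def ltr (g : G) (E : Finset G) : Finset G := E.image fun x => g * x

lemma mem_ltr {g : G} {E : Finset G} {x : G} : x ∈ ltr g E ↔ g⁻¹ * x ∈ E := by
  classical
  unfold ltr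
  rw [Finset.mem_image]
  constructor
  · rintro ⟨y, hy, rfl⟩; rwa [inv_mul_cancel_left]
  · intro h; exact ⟨_, h, mul_inv_cancel_left _ _⟩

lemma card_ltr_le (g : G) (E : Finset G) : (ltr g E).card ≤ E.card := by
  classical
  exact Finset.card_image_le

lemma disjoint_ltr {g : G} {E F : Finset G} (h : Disjoint E (ltr g⁻¹ F)) :
    Disjoint (ltr g E) F := by
  rw [Finset.disjoint_left] at h ⊢
  intro x hx hF
  apply h (mem_ltr.1 hx)
  rw [mem_ltr, inv_inv, mul_inv_cancel_left]
  exact hF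

lemma Joins.ltr {H : Subgroup G} {t : G} {E : Finset G} {a b : G} (g : G)
    (h : Joins H t E a b) : Joins H t (ltr g E) (g * a) (g * b) := by
  unfold Joins at h
  induction h with
  | rel u v huv =>
    rcases huv with ⟨h, hh, rfl⟩ | ⟨hu, rfl⟩
    · rw [← mul_assoc]; exact joins_of_mem hh
    · rw [← mul_assoc]
      apply joins_edge
      rw [mem_ltr, inv_mul_cancel_left]
      exact hu
  | refl u => exact Joins.refl _
  | symm u v _ ih => exact ih.symm
  | trans u v w _ _ ih1 ih2 => exact ih1.trans ih2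

/-- No set of `M` edges meets all the connections of length at most `r` between `H` and `z H`. -/
def NoHit (H : Subgroup G) (t z : G) (r M : ℕ) : Prop :=
  ∀ F : Finset G, F.card ≤ M → ∃ E : Finset G, E.card ≤ r ∧ Disjoint E F ∧ Joins H t E 1 z

lemma NoHit.of_inv {H : Subgroup G} {t : G} {r M : ℕ} (h : NoHit H t t⁻¹ r M) :
    NoHit H t t r M := by
  intro F hF
  obtain ⟨E, h1, h2, h3⟩ := h (ltr t⁻¹ F) ((card_ltr_le _ _).trans hF)
  refine ⟨ltr t E, (card_ltr_le _ _).trans h1, disjoint_ltr h2, ?_⟩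
  have := (h3.ltr t).symm
  rwa [mul_inv_cancel, mul_one] at this

lemma noHit_of_mem {H : Subgroup G} {t : G} (ht : t ∈ H) (r M : ℕ) : NoHit H t t r M := by
  intro F _
  refine ⟨∅, by simp, by simp, ?_⟩
  have := joins_of_mem (t := t) (E := ∅) (a := 1) ht
  rwa [one_mul] at this

/-- `t` or its inverse. -/
def tp (t : G) (b : Bool) : G := if b then t else t⁻¹

/-- The product `h₁ t^{±} h₂ t^{±} ⋯`. -/
def P (t : G) (L : List (Bool × (ℕ → G))) (ℓ : ℕ) : G :=
  (L.map fun q => q.2 ℓ * tp t q.1).prod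

@[simp] lemma P_nil (t : G) (ℓ : ℕ) : P t [] ℓ = 1 := rfl

@[simp] lemma P_cons (t : G) (q : Bool × (ℕ → G)) (L : List (Bool × (ℕ → G))) (ℓ : ℕ) :
    P t (q :: L) ℓ = q.2 ℓ * tp t q.1 * P t L ℓ := by
  simp [P]

/-- The edge element used by a step. -/
def ee (t : G) (b : Bool) : G := if b then 1 else t⁻¹

lemma joins_step {H : Subgroup G} {t : G} {E : Finset G} {u h : G} {b : Bool} (hh : h ∈ H)
    (he : u * h * ee t b ∈ E) : Joins H t E u (u * h * tp t b) := by
  refine (joins_of_mem hh).trans ?_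
  cases b with
  | true =>
    simp only [ee, if_true, mul_one, tp] at he ⊢
    exact joins_edge he
  | false =>
    simp only [ee, tp, Bool.false_eq_true, if_false] at he ⊢
    have := (joins_edge (H := H) (t := t) he).symm
    rwa [inv_mul_cancel_right] at this

/-- The edges of the walk along `L` started at `y`. -/
def ed (t : G) (ℓ : ℕ) : List (Bool × (ℕ → G)) → G → List G
  | [], _ => []
  | q :: L, y => (y * q.2 ℓ * ee t q.1) :: ed t ℓ L (y * q.2 ℓ * tp t q.1)

lemma length_ed (t : G) (ℓ : ℕ) (L : List (Bool × (ℕ → G))) :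
    ∀ y, (ed t ℓ L y).length = L.length := by
  induction L with
  | nil => intro y; rfl
  | cons q L ih => intro y; simp [ed, ih]

lemma joins_ed {H : Subgroup G} {t : G} {E : Finset G} {ℓ : ℕ} (L : List (Bool × (ℕ → G))) :
    ∀ y, (∀ q ∈ L, q.2 ℓ ∈ H) → (∀ x ∈ ed t ℓ L y, x ∈ E) →
      Joins H t E y (y * P t L ℓ) := by
  induction L with
  | nil => intro y _ _; rw [P_nil, mul_one]; exact Joins.refl _
  | cons q L ih =>
    intro y h1 h2
    have h3 := joins_step (H := H) (t := t) (E := E) (u := y) (h := q.2 ℓ) (b := q.1)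
      (h1 q (by simp)) (h2 _ (by simp [ed]))
    refine h3.trans ?_
    have h4 := ih (y * q.2 ℓ * tp t q.1) (fun p hp => h1 p (by simp [hp]))
      (fun x hx => h2 x (by simp [ed, hx]))
    rw [P_cons]
    simpa only [mul_assoc] using h4

/-- The edges of a walk, in terms of prefixes. -/
lemma mem_ed {t : G} {ℓ : ℕ} (L : List (Bool × (ℕ → G))) :
    ∀ y x, x ∈ ed t ℓ L y → ∃ (L₁ L₂ : List (Bool × (ℕ → G))) (q : Bool × (ℕ → G)),
      L = L₁ ++ q :: L₂ ∧ x = y * P t L₁ ℓ * q.2 ℓ * ee t q.1 := by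
  induction L with
  | nil => intro y x hx; simp [ed] at hx
  | cons q L ih =>
    intro y x hx
    simp only [ed, List.mem_cons] at hx
    rcases hx with rfl | hx
    · exact ⟨[], L, q, rfl, by simp⟩
    · obtain ⟨L₁, L₂, p, rfl, rfl⟩ := ih _ _ hx
      refine ⟨q :: L₁, L₂, p, rfl, ?_⟩
      rw [P_cons]
      simp only [mul_assoc]

/-- The statement that closed walks of bounded length with generic jumps are rare. -/
def Rare (J N : ℕ) (H : Subgroup G) (t : G) : Prop :=
  ∀ (L : List (Bool × (ℕ → G))) (Λ : Finset ℕ), L ≠ [] → L.length ≤ J →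
    (∀ q ∈ L, (∀ ℓ ∈ Λ, q.2 ℓ ∈ H) ∧ Set.InjOn q.2 Λ) →
    ∀ y₀ y : G, (∀ ℓ ∈ Λ, y⁻¹ * (y₀ * P t L ℓ) ∈ H) → Λ.card ≤ N

open Classical in
/-- Few parameters have a given edge set `F` on their walk. -/
lemma card_filter_le {J N : ℕ} {H : Subgroup G} {t : G} (hR : Rare J N H t) (hN : 1 ≤ N)
    (L : List (Bool × (ℕ → G))) (hL : L.length ≤ J + 1) (Λ : Finset ℕ)
    (hΛ : ∀ q ∈ L, (∀ ℓ ∈ Λ, q.2 ℓ ∈ H) ∧ Set.InjOn q.2 Λ) (y : G) (F : Finset G) :
    (Λ.filter fun ℓ => ∃ x ∈ ed t ℓ L y, x ∈ F).card ≤ (J + 1) * (F.card * N) := by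
  -- for each position and each edge of `F`
  let B : ℕ × G → Finset ℕ := fun p => Λ.filter fun ℓ =>
    ∃ (L₁ L₂ : List (Bool × (ℕ → G))) (q : Bool × (ℕ → G)), L = L₁ ++ q :: L₂ ∧
      L₁.length = p.1 ∧ p.2 = y * P t L₁ ℓ * q.2 ℓ * ee t q.1
  have hsub : (Λ.filter fun ℓ => ∃ x ∈ ed t ℓ L y, x ∈ F) ⊆
      (Finset.range (J + 1) ×ˢ F).biUnion B := by
    intro ℓ hℓ
    rw [Finset.mem_filter] at hℓ
    obtain ⟨hℓ, x, hx, hxF⟩ := hℓ
    obtain ⟨L₁, L₂, q, rfl, rfl⟩ := mem_ed L y x hx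
    rw [Finset.mem_biUnion]
    refine ⟨(L₁.length, _), Finset.mem_product.2 ⟨Finset.mem_range.2 ?_, hxF⟩,
      Finset.mem_filter.2 ⟨hℓ, L₁, L₂, q, rfl, rfl, rfl⟩⟩
    rw [List.length_append, List.length_cons] at hL
    change L₁.length < J + 1
    omega
  have hB : ∀ p ∈ Finset.range (J + 1) ×ˢ F, (B p).card ≤ N := by
    rintro ⟨n, f⟩ _
    by_cases hex : ∃ (L₁ L₂ : List (Bool × (ℕ → G))) (q : Bool × (ℕ → G)),
        L = L₁ ++ q :: L₂ ∧ L₁.length = n
    · obtain ⟨L₁, L₂, q, hLeq, hlen⟩ := hex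
      have huniq : ∀ ℓ ∈ B (n, f), ℓ ∈ Λ ∧ f = y * P t L₁ ℓ * q.2 ℓ * ee t q.1 := by
        intro ℓ hℓ
        rw [Finset.mem_filter] at hℓ
        obtain ⟨h1, L₁', L₂', q', h2, h3, h4⟩ := hℓ
        have h5 : L₁ ++ q :: L₂ = L₁' ++ q' :: L₂' := hLeq.symm.trans h2
        have h6 := List.append_inj h5 (hlen.trans h3.symm)
        obtain ⟨h7, h8⟩ := h6
        rw [List.cons.injEq] at h8
        rw [h7, h8.1]
        exact ⟨h1, h4⟩
      have hq : q ∈ L := by rw [hLeq]; simp
      rcases eq_or_ne L₁ [] with rfl | hne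
      · refine le_trans ?_ hN
        rw [Finset.card_le_one]
        intro a ha b hb
        obtain ⟨h1, h2⟩ := huniq a ha
        obtain ⟨h3, h4⟩ := huniq b hb
        apply (hΛ q hq).2 h1 h3
        rw [P_nil, mul_one] at h2 h4
        have h5 : y * q.2 a * ee t q.1 = y * q.2 b * ee t q.1 := h2.symm.trans h4
        exact mul_left_cancel (mul_right_cancel h5)
      · apply hR L₁ (B (n, f)) hne
        · have : L.length = L₁.length + (L₂.length + 1) := by
            rw [hLeq, List.length_append, List.length_cons]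
          omega
        · intro p hp
          have hpL : p ∈ L := by rw [hLeq]; simp [hp]
          refine ⟨fun ℓ hℓ => (hΛ p hpL).1 ℓ (huniq ℓ hℓ).1, ?_⟩
          intro a ha b hb hab
          exact (hΛ p hpL).2 (huniq a ha).1 (huniq b hb).1 hab
        · intro ℓ hℓ
          obtain ⟨h1, h2⟩ := huniq ℓ hℓ
          -- compare with the coset of `f * (ee)⁻¹`
          have h3 : (f * (ee t q.1)⁻¹)⁻¹ * (y * P t L₁ ℓ) = (q.2 ℓ)⁻¹ := by
            rw [h2]; group
          rw [h3]
          exact H.inv_mem ((hΛ q hq).1 ℓ h1)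
    · have : B (n, f) = ∅ := by
        rw [Finset.filter_eq_empty_iff]
        rintro ℓ _ ⟨L₁, L₂, q, h1, h2, _⟩
        exact hex ⟨L₁, L₂, q, h1, h2⟩
      rw [this]; simp
  calc (Λ.filter fun ℓ => ∃ x ∈ ed t ℓ L y, x ∈ F).card
      ≤ ((Finset.range (J + 1) ×ˢ F).biUnion B).card := Finset.card_le_card hsub
    _ ≤ ∑ p ∈ Finset.range (J + 1) ×ˢ F, (B p).card := Finset.card_biUnion_le
    _ ≤ ∑ _p ∈ Finset.range (J + 1) ×ˢ F, N := Finset.sum_le_sum hB
    _ = (J + 1) * (F.card * N) := by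
        rw [Finset.sum_const, Finset.card_product, Finset.card_range, smul_eq_mul, mul_assoc]

/-- **Closed walks with generic jumps are rare.** -/
theorem exists_rare (c : ℕ → ℕ) (J : ℕ) : ∃ N : ℕ, 1 ≤ N ∧ ∀ (H : Subgroup G) (t : G),
    (∀ r, ¬ NoHit H t t r (c r)) → Rare J N H t := by
  classical
  induction J with
  | zero =>
    refine ⟨1, le_rfl, fun H t _ L Λ hne hlen => ?_⟩
    exact absurd (List.length_eq_zero_iff.1 (by omega)) hne
  | succ J ih =>
    obtain ⟨N, hN, hR⟩ := ih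
    set r := 2 * (J + 1) with hr
    set M := c r with hM
    refine ⟨(J + 1) * (M * N) + N, by omega, fun H t hc L Λ hne hlen hΛ y₀ y hy => ?_⟩
    by_contra hcard
    rw [not_le] at hcard
    have hR' := hR H t hc
    -- first claim
    have claim1 : ∀ F : Finset G, F.card ≤ M → ∃ E : Finset G, E.card ≤ J + 1 ∧
        Disjoint E F ∧ Joins H t E y₀ y := by
      intro F hF
      have h1 := card_filter_le hR' hN L hlen Λ hΛ y₀ F
      have h2 : ∃ ℓ ∈ Λ, ¬ ∃ x ∈ ed t ℓ L y₀, x ∈ F := by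
        by_contra hcon
        push Not at hcon
        have h3 : (Λ.filter fun ℓ => ∃ x ∈ ed t ℓ L y₀, x ∈ F) = Λ :=
          Finset.filter_true_of_mem hcon
        rw [h3] at h1
        have h4 : (J + 1) * (F.card * N) ≤ (J + 1) * (M * N) := by gcongr
        omega
      obtain ⟨ℓ, hℓ, hno⟩ := h2
      refine ⟨(ed t ℓ L y₀).toFinset, ?_, ?_, ?_⟩
      · exact (List.toFinset_card_le _).trans (by rw [length_ed]; exact hlen)
      · rw [Finset.disjoint_left]
        intro x hx hxF
        exact hno ⟨x, List.mem_toFinset.1 hx, hxF⟩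
      · have h3 := joins_ed (H := H) (t := t) (E := (ed t ℓ L y₀).toFinset) (ℓ := ℓ) L y₀
          (fun q hq => (hΛ q hq).1 ℓ hℓ) (fun x hx => List.mem_toFinset.2 hx)
        exact h3.trans (joins_of_inv_mul_mem (hy ℓ hℓ)).symm
    obtain ⟨q, L', rfl⟩ : ∃ q L', L = q :: L' := List.exists_cons_of_ne_nil hne
    have hlen' : L'.length ≤ J := by
      rw [List.length_cons] at hlen
      omega
    have claim2 : NoHit H t (tp t q.1) r M := by
      intro F hF
      have h1 := card_filter_le hR' hN L' (by omega) Λ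
        (fun p hp => hΛ p (List.mem_cons_of_mem _ hp)) (tp t q.1) F
      have h2 : ∃ ℓ ∈ Λ, ¬ ∃ x ∈ ed t ℓ L' (tp t q.1), x ∈ F := by
        by_contra hcon
        push Not at hcon
        have h3 : (Λ.filter fun ℓ => ∃ x ∈ ed t ℓ L' (tp t q.1), x ∈ F) = Λ :=
          Finset.filter_true_of_mem hcon
        rw [h3] at h1
        have h4 : (J + 1) * (F.card * N) ≤ (J + 1) * (M * N) := by gcongr
        omega
      obtain ⟨ℓ, hℓ, hno⟩ := h2
      have hqH : q.2 ℓ ∈ H := (hΛ q (by simp)).1 ℓ hℓ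
      set g : G := (y₀ * q.2 ℓ)⁻¹ with hg
      obtain ⟨E₁, hE₁, hd₁, hj₁⟩ := claim1 (ltr g⁻¹ F) ((card_ltr_le _ _).trans hF)
      set E₂ := (ed t ℓ L' (tp t q.1)).toFinset with hE₂
      refine ⟨ltr g E₁ ∪ E₂, ?_, ?_, ?_⟩
      · refine (Finset.card_union_le _ _).trans ?_
        have h3 := (card_ltr_le g E₁).trans hE₁
        have h4 : E₂.card ≤ J := (List.toFinset_card_le _).trans (by rw [length_ed]; exact hlen')
        omega
      · rw [Finset.disjoint_union_left]
        refine ⟨disjoint_ltr hd₁, ?_⟩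
        rw [Finset.disjoint_left]
        intro x hx hxF
        exact hno ⟨x, List.mem_toFinset.1 hx, hxF⟩
      · have h3 : Joins H t (ltr g E₁ ∪ E₂) (tp t q.1) (tp t q.1 * P t L' ℓ) :=
          (joins_ed (H := H) (t := t) (E := E₂) (ℓ := ℓ) L' (tp t q.1)
            (fun p hp => (hΛ p (List.mem_cons_of_mem _ hp)).1 ℓ hℓ)
            (fun x hx => List.mem_toFinset.2 hx)).mono Finset.subset_union_right
        have h4 : Joins H t (ltr g E₁ ∪ E₂) (g * y₀) (g * y) :=
          (hj₁.ltr g).mono Finset.subset_union_left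
        have h5 : Joins H t (ltr g E₁ ∪ E₂) 1 (g * y₀) := by
          apply joins_of_inv_mul_mem
          have : (1 : G)⁻¹ * (g * y₀) = (q.2 ℓ)⁻¹ := by rw [hg]; group
          rw [this]
          exact H.inv_mem hqH
        have h6 : Joins H t (ltr g E₁ ∪ E₂) (g * y) (tp t q.1 * P t L' ℓ) := by
          apply joins_of_inv_mul_mem
          have h7 := hy ℓ hℓ
          rw [P_cons] at h7
          have : (g * y)⁻¹ * (tp t q.1 * P t L' ℓ) =
              y⁻¹ * (y₀ * (q.2 ℓ * tp t q.1 * P t L' ℓ)) := by rw [hg]; group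
          rw [this]
          exact h7
        exact (h5.trans (h4.trans h6)).trans h3.symm
    cases hq : q.1 with
    | true =>
      rw [hq] at claim2
      exact hc r claim2
    | false =>
      rw [hq] at claim2
      exact hc r claim2.of_inv

end Pool.Agent.Lib.MP_90732c_al
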