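import Pool.Agent.Lib.MP_90732c_al.RtTuple

/-! Distances in invariant random trees are unbounded in probability. -/

set_option autoImplicit false

open MeasureTheory

namespace Pool.Agent.Lib.MP_90732c_al.Rt

variable {G : Type} [Group G] {X : Type} [MeasurableSpace X] [MulAction G X]
variable {μ : Measure X} {d : X → G → G → ℕ}

/-- A Bonferroni inequality. -/
lemma sum_measure_le {ι : Type} [DecidableEq ι] [IsProbabilityMeasure μ] (U : Finset ι)
    (E : ι → Set X) (hE : ∀ u, MeasurableSet (E u)) {δ : ℝ} (hδ : 0 ≤ δ)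
    (h : ∀ u ∈ U, ∀ v ∈ U, u ≠ v → μ.real (E u ∩ E v) ≤ δ) :
    ∑ u ∈ U, μ.real (E u) ≤ μ.real (⋃ u ∈ U, E u) + (U.card : ℝ) ^ 2 * δ := by
  induction U using Finset.induction_on with
  | empty => simp
  | insert a U ha ih =>
    have h1 := ih (fun u hu v hv => h u (Finset.mem_insert_of_mem hu) v
      (Finset.mem_insert_of_mem hv))
    rw [Finset.sum_insert ha, Finset.card_insert_of_notMem ha, Finset.set_biUnion_insert]
    have h2 : μ.real (E a ∪ ⋃ u ∈ U, E u) + μ.real (E a ∩ ⋃ u ∈ U, E u) =
        μ.real (E a) + μ.real (⋃ u ∈ U, E u) :=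
      measureReal_union_add_inter (Finset.measurableSet_biUnion _ fun u _ => hE u)
        (measure_ne_top _ _) (measure_ne_top _ _)
    have h3 : μ.real (E a ∩ ⋃ u ∈ U, E u) ≤ U.card * δ := by
      have h4 : (E a ∩ ⋃ u ∈ U, E u) = ⋃ u ∈ U, (E a ∩ E u) := by
        rw [Set.inter_iUnion₂]
      rw [h4]
      refine (measureReal_biUnion_finset_le _ _).trans ?_
      rw [← nsmul_eq_mul]
      apply Finset.sum_le_card_nsmul
      intro u hu
      exact h a (Finset.mem_insert_self _ _) u (Finset.mem_insert_of_mem hu)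
        (fun h5 => ha (h5 ▸ hu))
    push_cast
    nlinarith [mul_nonneg (Nat.cast_nonneg (α := ℝ) U.card) hδ]

/-- Paths stay in a finite window with high probability. -/
lemma InvTree.exists_window [IsProbabilityMeasure μ] [Countable G] (hd : InvTree μ d) (u v : G)
    {ε : ℝ} (hε : 0 < ε) :
    ∃ W : Finset G, μ.real {x | ∃ m, d x u m + d x m v = d x u v ∧ m ∉ W} ≤ ε := by
  classical
  obtain ⟨e, he⟩ := exists_surjective_nat G
  set D : ℕ → Set X := fun k =>
    {x | ∃ m, d x u m + d x m v = d x u v ∧ m ∉ (Finset.range k).image e} with hD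
  have hmeas : ∀ k, MeasurableSet (D k) := by
    intro k
    have h1 : D k = ⋃ m : G, ({x | d x u m + d x m v = d x u v} ∩
        {_x | m ∉ (Finset.range k).image e}) := by
      ext x
      simp only [hD, Set.mem_ofPred_eq, Set.mem_iUnion, Set.mem_inter_iff]
    rw [h1]
    refine MeasurableSet.iUnion fun m => ?_
    exact (hd.meas3 (fun a b c => a + b = c) u m m v u v).inter (MeasurableSet.const _)
  have hanti : Antitone D := by
    intro k l hkl x hx
    obtain ⟨m, h1, h2⟩ := hx
    refine ⟨m, h1, fun h3 => h2 ?_⟩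
    exact Finset.image_subset_image (Finset.range_mono hkl) h3
  have h1 := tendsto_measure_iInter_atTop (μ := μ) (fun k => (hmeas k).nullMeasurableSet) hanti
    ⟨0, measure_ne_top _ _⟩
  have h2 : μ (⋂ k, D k) = 0 := by
    have h3 : (⋂ k, D k) ⊆ {x | ¬ TreeLike (d x)} := by
      intro x hx
      simp only [Set.mem_ofPred_eq]
      intro ht
      have hfin := seg_finite ht (d x u v + 1) u v
      choose f hf using he
      have h4 : ∃ k, ∀ m ∈ seg (d x) (d x u v + 1) u v, f m < k := by
        obtain ⟨k, hk⟩ := (hfin.image f).bddAbove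
        exact ⟨k + 1, fun m hm => Nat.lt_succ_of_le (hk (Set.mem_image_of_mem f hm))⟩
      obtain ⟨k, hk⟩ := h4
      obtain ⟨m, h5, h6⟩ := Set.mem_iInter.1 hx k
      apply h6
      rw [Finset.mem_image]
      exact ⟨f m, Finset.mem_range.2 (hk m ⟨h5, by omega⟩), hf m⟩
    exact measure_mono_null h3 (ae_iff.1 hd.tree)
  rw [h2] at h1
  obtain ⟨k, hk⟩ := (h1.eventually (gt_mem_nhds (ENNReal.ofReal_pos.2 hε))).exists
  refine ⟨(Finset.range k).image e, ?_⟩
  rw [Measure.real, ← ENNReal.toReal_ofReal hε.le]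
  exact ENNReal.toReal_mono ENNReal.ofReal_ne_top hk.le

/-- Many disjoint translates of a finite set. -/
lemma exists_translates [Infinite G] (K : Finset G) (m : ℕ) :
    ∃ V : Finset G, V.card = m ∧ ∀ v ∈ V, ∀ v' ∈ V, ∀ w ∈ K, ∀ w' ∈ K,
      v * w = v' * w' → v = v' := by
  classical
  induction m with
  | zero => exact ⟨∅, by simp, by simp⟩
  | succ m ih =>
    obtain ⟨V, hV1, hV2⟩ := ih
    obtain ⟨v, hv⟩ := Infinite.exists_notMem_finset
      (V ∪ (V ×ˢ (K ×ˢ K)).image fun p => p.1 * p.2.1 * p.2.2⁻¹)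
    rw [Finset.mem_union, not_or] at hv
    have key : ∀ v' ∈ V, ∀ w ∈ K, ∀ w' ∈ K, v * w ≠ v' * w' := by
      intro v' hv' w hw w' hw' h
      apply hv.2
      rw [Finset.mem_image]
      refine ⟨(v', w', w), ?_, ?_⟩
      · simp only [Finset.mem_product]; exact ⟨hv', hw', hw⟩
      · simp only; rw [← h, mul_inv_cancel_right]
    refine ⟨insert v V, by rw [Finset.card_insert_of_notMem hv.1, hV1], ?_⟩
    intro a ha b hb w hw w' hw' h
    rcases Finset.mem_insert.1 ha with ha | ha <;> rcases Finset.mem_insert.1 hb with hb | hb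
    · rw [ha, hb]
    · rw [ha] at h
      exact absurd h (key b hb w hw w' hw')
    · rw [hb] at h
      exact absurd h.symm (key a ha w' hw' w hw)
    · exact hV2 a ha b hb w hw w' hw' h

/-- **Distances are unbounded in probability**, even if the trees are not locally finite. -/
theorem InvTree.exists_far [IsProbabilityMeasure μ] [Countable G] [Infinite G]
    (hd : InvTree μ d) (R : ℕ) :
    ∀ (K : Finset G) (ε : ℝ), 0 < ε → ∃ g : G, ∀ v ∈ K, μ.real {x | d x v g ≤ R} ≤ ε := by
  classical
  induction R with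
  | zero =>
    intro K ε hε
    obtain ⟨g, hg⟩ := Infinite.exists_notMem_finset K
    refine ⟨g, fun v hv => ?_⟩
    have h1 : μ.real {x | d x v g ≤ 0} ≤ μ.real (∅ : Set X) := by
      apply real_le_of_ae
      filter_upwards [hd.tree] with x hx h2
      have h3 : d x v g = 0 := Nat.le_zero.1 h2
      exact hg (by rw [← hx.eq _ _ h3]; exact hv)
    rw [measureReal_empty] at h1
    linarith
  | succ R ih =>
    intro K ε hε
    obtain ⟨m, hm⟩ := exists_nat_gt (2 / ε)
    have hmpos : (0 : ℝ) < m := lt_trans (by positivity) hm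
    obtain ⟨V, hV1, hV2⟩ := exists_translates K m
    set U : Finset G := (V ×ˢ K).image fun p => p.1 * p.2 with hU
    set N : ℝ := (U.card : ℝ) ^ 2 with hN
    set ε' : ℝ := 1 / (2 * (N + 1)) with hε'
    have hNpos : 0 ≤ N := by positivity
    have hε'pos : 0 < ε' := by positivity
    choose W hW using fun u v => hd.exists_window u v hε'pos
    set WW : Finset G := (U ×ˢ U).biUnion fun p => W p.1 p.2 with hWW
    obtain ⟨g, hg⟩ := ih WW (ε' / (WW.card + 1)) (by positivity)
    set E : G → Set X := fun u => {x | d x u g ≤ R + 1} with hE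
    have hEm : ∀ u, MeasurableSet (E u) := fun u => hd.meas_le u g (R + 1)
    have hpair : ∀ u ∈ U, ∀ v ∈ U, u ≠ v → μ.real (E u ∩ E v) ≤ 2 * ε' := by
      intro u hu v hv huv
      have h1 : μ.real (E u ∩ E v) ≤ μ.real ({x | ∃ m, d x u m + d x m v = d x u v ∧
          m ∉ W u v} ∪ ⋃ w ∈ WW, {x | d x w g ≤ R}) := by
        apply real_le_of_ae
        filter_upwards [hd.tree] with x hx h2
        obtain ⟨c, h3, h4, h5⟩ := hx.med u v g
        have h6 : d x u g ≤ R + 1 := h2.1
        have h7 : d x v g ≤ R + 1 := h2.2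
        have h8 : d x c g ≤ R := by
          by_contra h9
          have h10 : d x u c = 0 := by omega
          have h11 : d x v c = 0 := by omega
          exact huv ((hx.eq _ _ h10).trans (hx.eq _ _ h11).symm)
        by_cases h9 : c ∈ W u v
        · right
          simp only [Set.mem_iUnion]
          refine ⟨c, ?_, h8⟩
          rw [hWW, Finset.mem_biUnion]
          exact ⟨(u, v), Finset.mem_product.2 ⟨hu, hv⟩, h9⟩
        · left
          exact ⟨c, h3, h9⟩
      have h2 := measureReal_union_le (μ := μ) {x | ∃ m, d x u m + d x m v = d x u v ∧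
          m ∉ W u v} (⋃ w ∈ WW, {x | d x w g ≤ R})
      have h3 : μ.real (⋃ w ∈ WW, {x | d x w g ≤ R}) ≤ ε' := by
        refine (measureReal_biUnion_finset_le _ _).trans ?_
        refine (Finset.sum_le_card_nsmul _ _ _ hg).trans ?_
        rw [nsmul_eq_mul, mul_div_assoc', div_le_iff₀ (by positivity)]
        nlinarith [Nat.cast_nonneg (α := ℝ) WW.card]
      linarith [hW u v]
    have hsum := sum_measure_le U E hEm (by positivity) hpair
    have hle1 : μ.real (⋃ u ∈ U, E u) ≤ 1 := measureReal_le_one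
    have hbd : (U.card : ℝ) ^ 2 * (2 * ε') ≤ 1 := by
      have h1 : N * (2 * ε') = N / (N + 1) := by
        rw [hε']; field_simp
      rw [← hN, h1, div_le_one (by positivity)]
      linarith
    have hinj : Set.InjOn (fun p : G × G => p.1 * p.2) (V ×ˢ K : Finset (G × G)) := by
      rintro ⟨a, w⟩ ha ⟨b, w'⟩ hb h
      rw [Finset.mem_coe, Finset.mem_product] at ha hb
      simp only at h ha hb
      have h1 := hV2 a ha.1 b hb.1 w ha.2 w' hb.2 h
      subst h1
      rw [mul_left_cancel h]
    have hsum2 : ∑ v ∈ V, ∑ w ∈ K, μ.real (E (v * w)) ≤ 2 := by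
      rw [← Finset.sum_product']
      rw [hU, Finset.sum_image hinj] at hsum
      linarith
    have hex : ∃ v ∈ V, ∑ w ∈ K, μ.real (E (v * w)) ≤ ε := by
      by_contra hcon
      push Not at hcon
      have h1 : (V.card : ℝ) * ε ≤ ∑ v ∈ V, ∑ w ∈ K, μ.real (E (v * w)) := by
        have := Finset.card_nsmul_le_sum V (fun v => ∑ w ∈ K, μ.real (E (v * w))) ε
          (fun v hv => (hcon v hv).le)
        rwa [nsmul_eq_mul] at this
      rw [hV1] at h1
      have h2 : 2 < m * ε := by
        rwa [div_lt_iff₀ hε] at hm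
      linarith
    obtain ⟨v, hv, hvs⟩ := hex
    refine ⟨v⁻¹ * g, fun w hw => ?_⟩
    have h1 := hd.shift_d (fun u => u ≤ R + 1) v w (v⁻¹ * g)
    rw [mul_inv_cancel_left] at h1
    rw [← h1]
    refine le_trans ?_ hvs
    exact Finset.single_le_sum (f := fun w => μ.real (E (v * w)))
      (fun _ _ => measureReal_nonneg) hw

/-- A group with a paradoxical decomposition is infinite. -/
lemma infinite_of_tarskiLe {C : ℕ} (hna : TarskiLe G C) : Infinite G := by
  classical
  by_contra hfin
  rw [not_infinite_iff_finite] at hfin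
  have := Fintype.ofFinite G
  obtain ⟨J, _, c, u, hc1, hc2, hc3⟩ := exists_mixing hna (ε := 1 / 2) (by norm_num)
  have h1 := hc3 Finset.univ 1
  have h2 : ∀ j, c j * ((Finset.univ.filter fun b => (u j)⁻¹ * (1 * b) ∈
      (Finset.univ : Finset G)).card : ℝ) = c j * (Finset.univ : Finset G).card := by
    intro j
    congr 2
    rw [Finset.filter_true_of_mem]
    intro b _
    exact Finset.mem_univ _
  rw [Finset.sum_congr rfl (fun j _ => h2 j), ← Finset.sum_mul, hc2, one_mul] at h1
  have h3 : (0 : ℝ) < (Finset.univ : Finset G).card := by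
    exact_mod_cast Finset.card_pos.2 ⟨1, Finset.mem_univ _⟩
  linarith

/-- **Six pieces.** -/
theorem InvTree.tarskiLe [IsProbabilityMeasure μ] [Countable G] (hd : InvTree μ d) {C : ℕ}
    (hna : TarskiLe G C) : TarskiLe G 6 := by
  have := infinite_of_tarskiLe hna
  apply hd.tarskiLe_six hna
  intro R δ hδ
  obtain ⟨g, hg⟩ := hd.exists_far R {1} δ hδ
  exact ⟨g, hg 1 (Finset.mem_singleton_self _)⟩

end Pool.Agent.Lib.MP_90732c_al.Rt
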