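import Pool.Agent.Lib.MP_90732c_al.FdInv
import Pool.Agent.Lib.MP_90732c_al.RtFar

/-! Classes of a random tree of classes: most pairs of points are not equivalent. -/

set_option autoImplicit false

open MeasureTheory

namespace Pool.Agent.Lib.MP_90732c_al.Fd

open Pool.Agent.Lib.MP_90732c_al.Rt (exists_translates)

variable {G : Type} [Group G] {Z : Type} {X : Type} [MeasurableSpace X] [MulAction G X]
variable {μ : Measure X} {S : X → Setoid (G × Z)} {T : X → SimpleGraph (G × Z)}

/-- An invariant random subset of an infinite group is empty or infinite. -/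
theorem ae_empty_or_infinite [IsProbabilityMeasure μ] [Countable G] [Infinite G]
    (hmp : ∀ g : G, MeasurePreserving (fun x : X => g • x) μ μ) (A : X → Set G)
    (hm : ∀ g, MeasurableSet {x | g ∈ A x})
    (he : ∀ᵐ x ∂μ, ∀ k g : G, k * g ∈ A (k • x) ↔ g ∈ A x) :
    ∀ᵐ x ∂μ, A x = ∅ ∨ (A x).Infinite := by
  classical
  have hB : ∀ t : Finset G, MeasurableSet {x | A x = ↑t} := by
    intro t
    have h1 : {x | A x = ↑t} = ⋂ g : G, {x | g ∈ A x ↔ g ∈ t} := by
      ext x
      simp only [Set.mem_ofPred_eq, Set.mem_iInter, Set.ext_iff, Finset.mem_coe]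
    rw [h1]
    refine MeasurableSet.iInter fun g => ?_
    by_cases hg : g ∈ t
    · simp only [hg, iff_true]
      exact hm g
    · simp only [hg, iff_false]
      exact (hm g).compl
  have hinv : ∀ (t : Finset G) (k : G),
      μ.real {x | A x = ↑(t.image fun g => k * g)} = μ.real {x | A x = ↑t} := by
    intro t k
    rw [Measure.real, ← (hmp k).measure_preimage (hB _).nullMeasurableSet]
    change μ.real _ = _
    apply measureReal_congr
    filter_upwards [he] with x hx
    apply propext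
    change A (k • x) = ↑(t.image fun g => k * g) ↔ A x = ↑t
    rw [Set.ext_iff, Set.ext_iff]
    constructor
    · intro h1 g
      rw [← hx k g, h1 (k * g)]
      simp
    · intro h1 g
      have h2 := hx k (k⁻¹ * g)
      rw [mul_inv_cancel_left] at h2
      rw [h2, h1 (k⁻¹ * g)]
      simp only [Finset.coe_image, Set.mem_image, Finset.mem_coe]
      constructor
      · intro h3
        exact ⟨_, h3, by simp⟩
      · rintro ⟨g', h3, rfl⟩
        simpa using h3
  have hzero : ∀ t : Finset G, t.Nonempty → μ.real {x | A x = ↑t} = 0 := by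
    intro t ht
    by_contra hne
    have hpos : 0 < μ.real {x | A x = ↑t} := lt_of_le_of_ne measureReal_nonneg (Ne.symm hne)
    obtain ⟨N, hN⟩ := exists_nat_gt (1 / μ.real {x | A x = ↑t})
    obtain ⟨V, hV1, hV2⟩ := exists_translates t N
    have h1 : ∑ v ∈ V, μ.real {x | A x = ↑(t.image fun g => v * g)} ≤ 1 := by
      rw [← measureReal_biUnion_finset]
      · exact measureReal_le_one
      · intro v hv v' hv' hvv
        rw [Function.onFun, Set.disjoint_left]
        intro x hx hx'
        apply hvv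
        obtain ⟨w, hw⟩ := ht
        have h2 : v * w ∈ (t.image fun g => v' * g) := by
          rw [← Finset.mem_coe, ← (show A x = _ from hx'), (show A x = _ from hx),
            Finset.mem_coe]
          exact Finset.mem_image_of_mem _ hw
        obtain ⟨w', hw', h3⟩ := Finset.mem_image.1 h2
        exact hV2 v hv v' hv' w hw w' hw' h3.symm
      · intro v _
        exact hB _
    simp only [hinv] at h1
    rw [Finset.sum_const, hV1, nsmul_eq_mul] at h1
    rw [div_lt_iff₀ hpos] at hN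
    linarith
  have hall : ∀ᵐ x ∂μ, ∀ t : Finset G, t.Nonempty → A x ≠ ↑t := by
    rw [ae_all_iff]
    intro t
    by_cases ht : t.Nonempty
    · have h1 : μ {x | A x = ↑t} = 0 := by
        have h2 := hzero t ht
        rwa [measureReal_eq_zero_iff] at h2
      have h3 : ∀ᵐ x ∂μ, ¬ (A x = ↑t) := by
        rw [ae_iff]
        simpa using h1
      filter_upwards [h3] with x hx _
      exact hx
    · exact Filter.Eventually.of_forall fun x h => absurd h ht
  filter_upwards [hall] with x hx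
  by_cases h1 : (A x).Infinite
  · exact Or.inr h1
  · left
    rw [Set.not_infinite] at h1
    by_contra h2
    apply hx h1.toFinset
    · rw [Set.Finite.toFinset_nonempty]
      exact Set.nonempty_iff_ne_empty.2 h2
    · rw [Set.Finite.coe_toFinset]

/-- The gates of the classes towards the set `D`. -/
def gate (S : X → Setoid (G × Z)) (T : X → SimpleGraph (G × Z)) (D : X → Set (G × Z)) (x : X) :
    Set (G × Z) :=
  {c | ∃ c' w, (T x).Adj c c' ∧ w ∈ D x ∧ cd (S x) (T x) c w = cd (S x) (T x) c' w + 1}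

lemma RandArb.meas_gate [Countable G] [Countable Z] (h : RandArb μ S T) {D : X → Set (G × Z)}
    (hD : ∀ v, MeasurableSet {x | v ∈ D x}) (c : G × Z) : MeasurableSet {x | c ∈ gate S T D x} := by
  have h1 : {x | c ∈ gate S T D x} = ⋃ c' : G × Z, ⋃ w : G × Z, ({x | (T x).Adj c c'} ∩
      ({x | w ∈ D x} ∩ {x | cd (S x) (T x) c w = cd (S x) (T x) c' w + 1})) := by
    ext x
    simp only [gate, Set.mem_ofPred_eq, Set.mem_iUnion, Set.mem_inter_iff]
  rw [h1]
  refine MeasurableSet.iUnion fun c' => MeasurableSet.iUnion fun w => ?_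
  exact (h.measT c c').inter ((hD w).inter
    (h.meas3 (fun u v _ => u = v + 1) c w c' w c w))

lemma RandArb.gate_equi (h : RandArb μ S T) {D : X → Set (G × Z)} {x : X}
    (hx : ∀ (k : G) (v : G × Z), sh k v ∈ D (k • x) ↔ v ∈ D x) (k : G) (c : G × Z) :
    sh k c ∈ gate S T D (k • x) ↔ c ∈ gate S T D x := by
  constructor
  · rintro ⟨c', w, h1, h2, h3⟩
    refine ⟨sh k⁻¹ c', sh k⁻¹ w, ?_, ?_, ?_⟩
    · rw [← h.equiT k]; simpa using h1
    · rw [← hx k]; simpa using h2
    · rw [← h.cd_equi k, ← h.cd_equi k x (sh k⁻¹ c')]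
      simpa using h3
  · rintro ⟨c', w, h1, h2, h3⟩
    refine ⟨sh k c', sh k w, (h.equiT k x _ _).2 h1, (hx k w).2 h2, ?_⟩
    rw [h.cd_equi, h.cd_equi]
    exact h3

/-- There are few gates in a class. -/
lemma gate_bound {x : X} (h : Arb (S x) (T x)) {D : X → Set (G × Z)} {M : ℕ}
    (hD : ∀ s : Finset (G × Z), (∀ v ∈ s, v ∈ D x) →
      (∀ v ∈ s, ∀ w ∈ s, (S x) v w → v = w) → s.card ≤ M)
    (v : G × Z) (t : Finset (G × Z)) (ht : ∀ c ∈ t, c ∈ gate S T D x ∧ (S x) v c) :
    t.card ≤ M := by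
  classical
  have h1 : ∀ c : t, ∃ w, w ∈ D x ∧ ∃ c', (T x).Adj c c' ∧
      cd (S x) (T x) c w = cd (S x) (T x) c' w + 1 := by
    rintro ⟨c, hc⟩
    obtain ⟨⟨c', w, h2, h3, h4⟩, _⟩ := ht c hc
    exact ⟨w, h3, c', h2, h4⟩
  choose w hw1 c' hw2 hw3 using h1
  have hkey : ∀ a b : t, (S x) (w a) (w b) → a = b := by
    intro a b hab
    apply Subtype.ext
    exact h.gate_unique (hw2 a) (hw2 b) ((S x).trans ((S x).symm (ht a a.2).2) (ht b b.2).2)
      hab (hw3 a) (hw3 b)
  have hinj : Function.Injective w := fun a b hab => hkey a b (hab ▸ (S x).refl _)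
  have h2 := hD (Finset.univ.image w) (by
    intro v hv
    obtain ⟨a, _, rfl⟩ := Finset.mem_image.1 hv
    exact hw1 a) (by
    intro v hv v' hv' hvv
    obtain ⟨a, _, rfl⟩ := Finset.mem_image.1 hv
    obtain ⟨b, _, rfl⟩ := Finset.mem_image.1 hv'
    rw [hkey a b hvv])
  rw [Finset.card_image_of_injective _ hinj, Finset.card_univ, Fintype.card_coe] at h2
  exact h2

/-- Classes with a gate are small. -/
theorem RandArb.ae_gate_finite [IsProbabilityMeasure μ] [Countable G] [Countable Z]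
    (h : RandArb μ S T) (D : X → Set (G × Z)) (hDm : ∀ v, MeasurableSet {x | v ∈ D x})
    (hDe : ∀ᵐ x ∂μ, ∀ (k : G) (v : G × Z), sh k v ∈ D (k • x) ↔ v ∈ D x) {M : ℕ}
    (hDb : ∀ᵐ x ∂μ, ∀ s : Finset (G × Z), (∀ v ∈ s, v ∈ D x) →
      (∀ v ∈ s, ∀ w ∈ s, (S x) v w → v = w) → s.card ≤ M) :
    ∀ᵐ x ∂μ, ∀ (c : G × Z) (z : Z), c ∈ gate S T D x → {g : G | (S x) (g, z) c}.Finite := by
  classical
  rw [ae_all_iff]
  intro c
  rw [ae_all_iff]
  intro z
  have hm1 : ∀ g : G, MeasurableSet {x | c ∈ gate S T D x ∧ (S x) (g, z) c} := fun g =>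
    (h.meas_gate hDm c).inter (h.measS _ _)
  have hm2 : ∀ g : G, MeasurableSet {x | sh g⁻¹ c ∈ gate S T D x ∧ (S x) (1, z) (sh g⁻¹ c)} :=
    fun g => (h.meas_gate hDm _).inter (h.measS _ _)
  have heq : ∀ g : G, μ {x | c ∈ gate S T D x ∧ (S x) (g, z) c} =
      μ {x | sh g⁻¹ c ∈ gate S T D x ∧ (S x) (1, z) (sh g⁻¹ c)} := by
    intro g
    rw [← (h.mp g).measure_preimage (hm1 g).nullMeasurableSet]
    apply measure_congr
    filter_upwards [hDe] with x hx
    apply propext
    change (c ∈ gate S T D (g • x) ∧ (S (g • x)) (g, z) c) ↔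
      (sh g⁻¹ c ∈ gate S T D x ∧ (S x) (1, z) (sh g⁻¹ c))
    have h1 := h.gate_equi hx g (sh g⁻¹ c)
    have h2 := h.equiS g x (1, z) (sh g⁻¹ c)
    rw [sh_mul, mul_inv_cancel, sh_one] at h1 h2
    have h3 : sh g ((1 : G), z) = (g, z) := by simp [sh]
    rw [h3] at h2
    rw [h1, h2]
  have hbound : ∫⁻ x, ∑' g : G, (if sh g⁻¹ c ∈ gate S T D x ∧ (S x) (1, z) (sh g⁻¹ c) then
      (1 : ENNReal) else 0) ∂μ ≤ M := by
    have h1 : ∫⁻ x, ∑' g : G, (if sh g⁻¹ c ∈ gate S T D x ∧ (S x) (1, z) (sh g⁻¹ c) then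
      (1 : ENNReal) else 0) ∂μ ≤ ∫⁻ _x, (M : ENNReal) ∂μ := by
      apply lintegral_mono_ae
      filter_upwards [h.arb, hDb] with x hx1 hx2
      rw [ENNReal.tsum_eq_iSup_sum]
      refine iSup_le fun s => ?_
      have h2 : ∑ g ∈ s, (if sh g⁻¹ c ∈ gate S T D x ∧ (S x) (1, z) (sh g⁻¹ c) then
          (1 : ENNReal) else 0) = ((s.filter fun g => sh g⁻¹ c ∈ gate S T D x ∧
            (S x) (1, z) (sh g⁻¹ c)).card : ENNReal) := by
        rw [Finset.card_filter]
        push_cast
        rfl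
      rw [h2]
      have hinj : Function.Injective fun g : G => sh g⁻¹ c := by
        intro g g' hgg
        simp only [sh, Prod.mk.injEq, and_true] at hgg
        exact inv_injective (mul_right_cancel hgg)
      have h3 := gate_bound hx1 hx2 (1, z) ((s.filter fun g => sh g⁻¹ c ∈ gate S T D x ∧
        (S x) (1, z) (sh g⁻¹ c)).image fun g => sh g⁻¹ c) (by
        intro c' hc'
        obtain ⟨g, hg, rfl⟩ := Finset.mem_image.1 hc'
        exact (Finset.mem_filter.1 hg).2)
      rw [Finset.card_image_of_injective _ hinj] at h3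
      exact_mod_cast h3
    refine h1.trans ?_
    simp
  have hsum : ∫⁻ x, ∑' g : G, (if c ∈ gate S T D x ∧ (S x) (g, z) c then
      (1 : ENNReal) else 0) ∂μ ≤ M := by
    rw [← tsum_measure_eq (fun (g : G) x => c ∈ gate S T D x ∧ (S x) (g, z) c) hm1]
    simp only [heq]
    rw [tsum_measure_eq (fun (g : G) x => sh g⁻¹ c ∈ gate S T D x ∧ (S x) (1, z) (sh g⁻¹ c)) hm2]
    exact hbound
  have hmeas : Measurable fun x => ∑' g : G, (if c ∈ gate S T D x ∧ (S x) (g, z) c then
      (1 : ENNReal) else 0) :=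
    Measurable.tsum fun g => Measurable.ite (hm1 g) measurable_const measurable_const
  filter_upwards [ae_lt_top hmeas (ne_top_of_le_ne_top (ENNReal.natCast_ne_top M) hsum)]
    with x hx hc
  have h4 := ENNReal.finite_const_le_of_tsum_ne_top hx.ne one_ne_zero
  apply h4.subset
  intro g hg
  change (1 : ENNReal) ≤ if c ∈ gate S T D x ∧ (S x) (g, z) c then 1 else 0
  rw [if_pos ⟨hc, hg⟩]

/-- There is no invariant finite set of classes unless there is exactly one large class. -/
theorem RandArb.no_finite [IsProbabilityMeasure μ] [Countable G] [Countable Z] [Infinite G]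
    (h : RandArb μ S T)
    (hdeg : ∀ᵐ x ∂μ, ¬ ∃! C : Quotient (S x), ∃ z, {g : G | Quotient.mk (S x) (g, z) = C}.Infinite)
    (D : X → Set (G × Z)) (hDm : ∀ v, MeasurableSet {x | v ∈ D x})
    (hDe : ∀ᵐ x ∂μ, ∀ (k : G) (v : G × Z), sh k v ∈ D (k • x) ↔ v ∈ D x) {M : ℕ}
    (hDb : ∀ᵐ x ∂μ, ∀ s : Finset (G × Z), (∀ v ∈ s, v ∈ D x) →
      (∀ v ∈ s, ∀ w ∈ s, (S x) v w → v = w) → s.card ≤ M) (w : G × Z) :
    ∀ᵐ x ∂μ, w ∉ D x := by
  classical
  have h1 := ae_empty_or_infinite h.mp (fun x => {g : G | (g, w.2) ∈ D x})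
    (fun g => hDm (g, w.2)) (by
      filter_upwards [hDe] with x hx k g
      exact hx k (g, w.2))
  filter_upwards [h1, h.ae_gate_finite D hDm hDe hDb, hdeg, hDb, h.arb] with x hx1 hx2 hx3 hx4
    hx5 hw
  have hA : {g : G | (g, w.2) ∈ D x}.Infinite := by
    rcases hx1 with h2 | h2
    · exact absurd (show w.1 ∈ {g : G | (g, w.2) ∈ D x} from hw) (by rw [h2]; exact fun h => h)
    · exact h2
  -- a large class in `D`
  obtain ⟨v, hv1, hv2⟩ : ∃ v ∈ D x, {g : G | (S x) (g, w.2) v}.Infinite := by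
    by_contra hcon
    push Not at hcon
    have key : ∀ n : ℕ, ∃ s : Finset (G × Z), s.card = n ∧ (∀ v ∈ s, v ∈ D x) ∧
        ∀ v ∈ s, ∀ w ∈ s, (S x) v w → v = w := by
      intro n
      induction n with
      | zero => exact ⟨∅, by simp, by simp, by simp⟩
      | succ n ih =>
        obtain ⟨s, hs1, hs2, hs3⟩ := ih
        have hfin : (⋃ v ∈ s, {g : G | (S x) (g, w.2) v}).Finite :=
          Set.Finite.biUnion s.finite_toSet fun v hv => hcon v (hs2 v hv)
        obtain ⟨g, hg1, hg2⟩ := hA.exists_notMem_finite hfin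
        simp only [Set.mem_iUnion, Set.mem_ofPred_eq, not_exists] at hg2
        have hns : (g, w.2) ∉ s := fun hmem => hg2 _ hmem ((S x).refl _)
        refine ⟨insert (g, w.2) s, by rw [Finset.card_insert_of_notMem hns, hs1], ?_, ?_⟩
        · intro v hv
          rcases Finset.mem_insert.1 hv with rfl | hv
          · exact hg1
          · exact hs2 v hv
        · intro v hv u hu huv
          rcases Finset.mem_insert.1 hv with hv | hv <;>
            rcases Finset.mem_insert.1 hu with hu | hu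
          · rw [hv, hu]
          · rw [hv] at huv
            exact absurd huv (hg2 u hu)
          · rw [hu] at huv
            exact absurd ((S x).symm huv) (hg2 v hv)
          · exact hs3 v hv u hu huv
    obtain ⟨s, hs1, hs2, hs3⟩ := key (M + 1)
    have := hx4 s hs2 hs3
    omega
  apply hx3
  refine ⟨Quotient.mk (S x) v, ⟨w.2, ?_⟩, ?_⟩
  · refine hv2.mono fun g hg => ?_
    exact Quotient.sound hg
  · intro C hC
    obtain ⟨z, hz⟩ := hC
    induction C using Quotient.inductionOn with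
    | h v' =>
    by_contra hne
    have hnS : ¬ (S x) v' v := fun h' => hne (Quotient.sound h')
    obtain ⟨c, c', h2, h3, h4⟩ := hx5.exists_gate v' v hnS
    apply hz
    refine (hx2 c z ⟨c', v, h2, hv1, h4⟩).subset fun g hg => ?_
    have h5 : (S x) (g, z) v' := Quotient.exact hg
    exact (S x).trans h5 h3

/-- **Most pairs of points are not equivalent.** -/
theorem RandArb.base [IsProbabilityMeasure μ] [Countable G] [Countable Z] [Infinite G]
    (h : RandArb μ S T)
    (hdeg : ∀ᵐ x ∂μ, ¬ ∃! C : Quotient (S x), ∃ z, {g : G | Quotient.mk (S x) (g, z) = C}.Infinite)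
    (K : Finset (G × Z)) {ε : ℝ} (hε : 0 < ε) :
    ∃ g : G, ∀ u ∈ K, ∀ w ∈ K, μ.real {x | (S x) u (sh g w)} ≤ ε := by
  classical
  by_contra hcon
  push Not at hcon
  have hK : ∀ g : G, ε ≤ kap μ S K g 1 := by
    intro g
    obtain ⟨u, hu, w, hw, h1⟩ := hcon g
    rw [kap_symm]
    unfold kap
    refine h1.le.trans ?_
    have h2 : μ.real {x | (S x) u (sh g w)} = μ.real {x | (S x) (sh 1 u) (sh g w)} := by
      rw [sh_one]
    rw [h2]
    refine le_trans ?_ (Finset.single_le_sum (f := fun u => ∑ w ∈ K,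
      μ.real {x | (S x) (sh 1 u) (sh g w)}) (fun _ _ => Finset.sum_nonneg fun _ _ =>
        measureReal_nonneg) hu)
    exact Finset.single_le_sum (f := fun w => μ.real {x | (S x) (sh 1 u) (sh g w)})
      (fun _ _ => measureReal_nonneg) hw
  obtain ⟨f, hf1, hf2, w, hf3⟩ := h.exists_inv K hε hK
  -- a positive threshold
  obtain ⟨η, hη0, hη⟩ : ∃ η : ℝ, 0 < η ∧ ¬ ∀ᵐ x ∂μ, f w x ≤ η := by
    by_contra hno
    push Not at hno
    have h1 : ∀ᵐ x ∂μ, ∀ n : ℕ, f w x ≤ 1 / ((n : ℝ) + 1) := by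
      rw [ae_all_iff]
      intro n
      exact hno _ (by positivity)
    have h2 : ∫ x, f w x ∂μ ≤ 0 := by
      apply integral_nonpos_of_ae
      filter_upwards [h1] with x hx
      exact ge_of_tendsto' tendsto_one_div_add_atTop_nhds_zero_nat hx
    linarith
  have hDb : ∀ᵐ x ∂μ, ∀ s : Finset (G × Z), (∀ v ∈ s, v ∈ {v | η < f v x}) →
      (∀ v ∈ s, ∀ w ∈ s, (S x) v w → v = w) → s.card ≤ ⌊K.card / η⌋₊ := by
    filter_upwards [hf2] with x hx s hs1 hs2
    have h1 := hx.2.1 s hs2
    have h2 : (s.card : ℝ) * η ≤ ∑ v ∈ s, f v x := by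
      have := Finset.card_nsmul_le_sum s (fun v => f v x) η (fun v hv => (hs1 v hv).le)
      rwa [nsmul_eq_mul] at this
    rw [Nat.le_floor_iff (by positivity), le_div_iff₀ hη0]
    linarith
  have h1 := h.no_finite hdeg (fun x => {v | η < f v x})
    (fun v => measurableSet_lt measurable_const (hf1 v)) (by
      filter_upwards [hf2] with x hx k v
      rw [hx.2.2 k v]) hDb w
  apply hη
  filter_upwards [h1] with x hx
  exact not_lt.1 hx

end Pool.Agent.Lib.MP_90732c_al.Fd
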