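import Mathlib

/-! A greedy (Kruskal) edge set on a finite vertex set has at most `|V| - 1` edges. -/

set_option autoImplicit false

namespace Pool.Agent.Lib.MP_90732c_al

open Finset

/-- Let `E` be a finite set of edges (with sources and targets in a finite set `V` of vertices),
carrying injective labels. If the end points of an edge are never connected through edges with
smaller labels, then `|E| + 1 ≤ |V|`. -/
theorem forest_bound {V E : Type*} [Fintype V] [Nonempty V] [Fintype E]
    (src tgt : E → V) (lab : E → ℝ) (hlab : Function.Injective lab)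
    (h : ∀ e, ¬ Relation.EqvGen (fun a b => ∃ f, lab f < lab e ∧ src f = a ∧ tgt f = b)
      (src e) (tgt e)) :
    Fintype.card E + 1 ≤ Fintype.card V := by
  classical
  obtain ⟨v0⟩ := ‹Nonempty V›
  let w : Option E → (V → ℚ) := fun o => match o with
    | none => Pi.single v0 1
    | some e => Pi.single (src e) 1 - Pi.single (tgt e) 1
  have hw : LinearIndependent ℚ w := by
    rw [Fintype.linearIndependent_iff]
    intro g hg
    -- the coefficient of `none` vanishes
    have hsum : ∀ Q : Finset V, ∑ v ∈ Q, (∑ o, g o • w o) v = 0 := by
      intro Q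
      rw [hg]
      simp
    have hexp : ∀ Q : Finset V, ∑ v ∈ Q, (∑ o, g o • w o) v =
        g none * (if v0 ∈ Q then 1 else 0) +
          ∑ e : E, g (some e) * ((if src e ∈ Q then 1 else 0) - (if tgt e ∈ Q then 1 else 0)) := by
      intro Q
      simp only [Finset.sum_apply, Pi.smul_apply, smul_eq_mul]
      rw [Finset.sum_comm, Fintype.sum_option]
      congr 1
      · rw [← Finset.mul_sum]
        congr 1
        simp [w, Pi.single_apply]
      · refine Finset.sum_congr rfl fun e _ => ?_
        rw [← Finset.mul_sum]
        congr 1
        simp [w, Pi.single_apply, Finset.sum_sub_distrib]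
    have hnone : g none = 0 := by
      have h1 := hsum Finset.univ
      rw [hexp] at h1
      simpa using h1
    by_contra hcon
    push Not at hcon
    obtain ⟨o, ho⟩ := hcon
    have hex : ∃ e : E, g (some e) ≠ 0 := by
      cases o with
      | none => exact absurd hnone ho
      | some e => exact ⟨e, ho⟩
    obtain ⟨e, he, hmax⟩ : ∃ e ∈ (Finset.univ.filter fun e : E => g (some e) ≠ 0),
        ∀ f ∈ (Finset.univ.filter fun e : E => g (some e) ≠ 0), lab f ≤ lab e := by
      apply Finset.exists_max_image
      obtain ⟨e, he⟩ := hex
      exact ⟨e, by simp [he]⟩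
    simp only [Finset.mem_filter, Finset.mem_univ, true_and] at he hmax
    let r : V → V → Prop := fun a b => ∃ f, lab f < lab e ∧ src f = a ∧ tgt f = b
    let Q : Finset V := Finset.univ.filter fun v => Relation.EqvGen r (src e) v
    have h2 := hsum Q
    rw [hexp, hnone, zero_mul, zero_add] at h2
    rw [Finset.sum_eq_single e] at h2
    · have h3 : src e ∈ Q := by simp [Q, Relation.EqvGen.refl]
      have h4 : tgt e ∉ Q := by
        simp only [Q, Finset.mem_filter, Finset.mem_univ, true_and]
        exact h e
      rw [if_pos h3, if_neg h4, sub_zero, mul_one] at h2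
      exact he h2
    · intro f _ hfe
      by_cases hgf : g (some f) = 0
      · rw [hgf, zero_mul]
      · have h5 : lab f < lab e := lt_of_le_of_ne (hmax f hgf) fun h6 => hfe (hlab h6)
        have h6 : src f ∈ Q ↔ tgt f ∈ Q := by
          simp only [Q, Finset.mem_filter, Finset.mem_univ, true_and]
          have h7 : Relation.EqvGen r (src f) (tgt f) := Relation.EqvGen.rel _ _ ⟨f, h5, rfl, rfl⟩
          exact ⟨fun h8 => h8.trans _ _ _ h7, fun h8 => h8.trans _ _ _ (h7.symm _ _)⟩
        by_cases h8 : src f ∈ Q
        · rw [if_pos h8, if_pos (h6.1 h8), sub_self, mul_zero]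
        · rw [if_neg h8, if_neg (fun h9 => h8 (h6.2 h9)), sub_self, mul_zero]
    · intro h9
      exact absurd (Finset.mem_univ e) h9
  have := hw.fintype_card_le_finrank
  rw [Fintype.card_option] at this
  simpa using this

end Pool.Agent.Lib.MP_90732c_al
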