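import Pool.Agent.Lib.MP_90732c_al.Labels
import Pool.Agent.Lib.MP_90732c_al.Forest

/-! The cost inequality obtained from finite-range minimal spanning forests. -/

set_option autoImplicit false

namespace Pool.Agent.Lib.MP_90732c_al

open MeasureTheory

/-- Every graphing of every free probability-measure-preserving action of `G` has cost at
least `c`. -/
def CostGe (G : Type) [Group G] (c : ENNReal) : Prop :=
  ∀ (X : Type) [MeasurableSpace X] [StandardBorelSpace X] [MulAction G X]
    (μ : Measure X) [IsProbabilityMeasure μ],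
    (∀ g : G, MeasurePreserving (fun x : X => g • x) μ μ) →
    (∀ g : G, g ≠ 1 → μ {x : X | g • x = x} = 0) →
    ∀ (s : ℕ → G) (A : ℕ → Set X), (∀ i, MeasurableSet (A i)) →
      (∀ᵐ x ∂μ, ∀ h : G, Relation.ReflTransGen
          (fun y z : X => ∃ i, (y ∈ A i ∧ z = s i • y) ∨ (z ∈ A i ∧ y = s i • z))
          x (h • x)) →
      c ≤ ∑' i, μ (A i)

variable {G : Type} [Group G] {d : ℕ}

omit [Group G] in
lemma measurableSet_Lt (pr : Fin d → ℕ) (f e : G × Fin d) :
    MeasurableSet {x : G × Fin d → ℝ | Lt pr x f e} := by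
  unfold Lt
  have h1 : MeasurableSet {x : G × Fin d → ℝ | x f < x e} :=
    measurableSet_lt (measurable_pi_apply f) (measurable_pi_apply e)
  exact (MeasurableSet.const _).union ((MeasurableSet.const _).inter h1)

lemma measurableSet_Walk [Countable G] (s : Fin d → G) (pr : Fin d → ℕ) (e : G × Fin d) (n : ℕ) :
    ∀ a b : G, MeasurableSet
      {x : G × Fin d → ℝ | Walk s (fun f => Lt pr x f e) n a b} := by
  induction n with
  | zero => intro a b; exact MeasurableSet.const _
  | succ n ih =>
    intro a c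
    have : {x : G × Fin d → ℝ | Walk s (fun f => Lt pr x f e) (n + 1) a c} =
        ⋃ b : G, ({x : G × Fin d → ℝ | Walk s (fun f => Lt pr x f e) n a b} ∩
          ⋃ i : Fin d, (({x | c = b * s i} ∩ {x | Lt pr x (b, i) e}) ∪
            ({x | b = c * s i} ∩ {x | Lt pr x (c, i) e}))) := by
      ext x
      simp only [Walk, Step, Set.mem_ofPred_eq, Set.mem_iUnion, Set.mem_inter_iff, Set.mem_union]
    rw [this]
    refine MeasurableSet.iUnion fun b => (ih a b).inter (MeasurableSet.iUnion fun i => ?_)
    exact ((MeasurableSet.const _).inter (measurableSet_Lt pr _ _)).union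
      ((MeasurableSet.const _).inter (measurableSet_Lt pr _ _))

lemma measurableSet_Red [Countable G] (s : Fin d → G) (pr : Fin d → ℕ) (N : ℕ)
    (e : G × Fin d) : MeasurableSet {x : G × Fin d → ℝ | Red s pr N x e} := by
  have : {x : G × Fin d → ℝ | Red s pr N x e} =
      ⋃ n ∈ Set.Iic N, {x | Walk s (fun f => Lt pr x f e) n e.1 (e.1 * s e.2)} := by
    ext x
    simp [Red]
  rw [this]
  exact MeasurableSet.biUnion (Set.to_countable _) fun n _ => measurableSet_Walk s pr e n _ _

/-- The shift action of `G` on the labels. -/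
@[reducible]
def shiftAction (G : Type) [Group G] (d : ℕ) : MulAction G (G × Fin d → ℝ) where
  smul g x := shift g x
  one_smul x := by
    change shift 1 x = x
    funext e
    simp [shift]
  mul_smul g h x := by
    change shift (g * h) x = shift g (shift h x)
    funext e
    simp [shift, mul_assoc]

/-- The density of the non-redundant edges of type `i`. -/
noncomputable def dens (s : Fin d → G) (pr : Fin d → ℕ) (N : ℕ) (i : Fin d) : ENNReal :=
  law (G × Fin d) {x | ¬ Red s pr N x (1, i)}

lemma law_not_Red (s : Fin d → G) (pr : Fin d → ℕ) (N : ℕ) (g : G) (i : Fin d)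
    [Countable G] : law (G × Fin d) {x | ¬ Red s pr N x (g, i)} = dens s pr N i := by
  have h := (measurePreserving_shift (d := d) g).measure_preimage
    (s := {x | ¬ Red s pr N x (g, i)}) (measurableSet_Red s pr N (g, i)).compl.nullMeasurableSet
  rw [← h]
  unfold dens
  congr 1
  ext x
  have := red_shift s pr N x g 1 i
  rw [mul_one] at this
  simp only [Set.mem_preimage, Set.mem_ofPred_eq, this]

/-- The total density of the non-redundant edges is at least the cost. -/
theorem cost_le_dens [Countable G] {c : ENNReal} (hc : CostGe G c) (s : Fin d → G)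
    (hs : Subgroup.closure (Set.range s) = ⊤) (pr : Fin d → ℕ) (N : ℕ) :
    c ≤ ∑ i, dens s pr N i := by
  classical
  let act := shiftAction G d
  let A : ℕ → Set (G × Fin d → ℝ) := fun n =>
    if h : n < d then {x | ¬ Red s pr N x (1, ⟨n, h⟩)} else ∅
  let s' : ℕ → G := fun n => if h : n < d then (s ⟨n, h⟩)⁻¹ else 1
  have hA : ∀ n, MeasurableSet (A n) := by
    intro n
    by_cases h : n < d
    · simp only [A, dif_pos h]
      exact (measurableSet_Red s pr N _).compl
    · simp only [A, dif_neg h]
      exact MeasurableSet.empty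
  have hfree : ∀ g : G, g ≠ 1 → law (G × Fin d) {x | act.toSMul.smul g x = x} = 0 := by
    intro g hg
    have hd : 0 < d := by
      rcases Nat.eq_zero_or_pos d with h | h
      · subst h
        exfalso
        apply hg
        have h1 : (g : G) ∈ Subgroup.closure (Set.range s) := by rw [hs]; trivial
        rw [Set.range_eq_empty, Subgroup.closure_empty] at h1
        exact Subgroup.mem_bot.1 h1
      · exact h
    have hne : (g⁻¹, (⟨0, hd⟩ : Fin d)) ≠ ((1 : G), (⟨0, hd⟩ : Fin d)) := by
      intro h
      have := congrArg Prod.fst h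
      simp only [inv_eq_one] at this
      exact hg this
    refine measure_mono_null ?_ (law_eq_zero hne)
    intro x hx
    have h1 := congrFun (show shift g x = x from hx) (1, ⟨0, hd⟩)
    simp only [shift, mul_one] at h1
    exact h1
  have hgen : ∀ᵐ x ∂(law (G × Fin d)), ∀ h : G, Relation.ReflTransGen
      (fun y z => ∃ i, (y ∈ A i ∧ z = act.toSMul.smul (s' i) y) ∨
        (z ∈ A i ∧ y = act.toSMul.smul (s' i) z)) x (act.toSMul.smul h x) := by
    filter_upwards [ae_wellFounded pr (Ball_finite s N)] with x hx h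
    have hconn := conn_of_edges hs (conn_of_wf hx) 1 h⁻¹
    have key : ∀ a, Conn s (fun f => ¬ Red s pr N x f) 1 a → Relation.ReflTransGen
      (fun y z => ∃ i, (y ∈ A i ∧ z = act.toSMul.smul (s' i) y) ∨
        (z ∈ A i ∧ y = act.toSMul.smul (s' i) z)) x (shift a⁻¹ x) := by
      intro a ha
      induction ha with
      | refl =>
        have : shift (1 : G)⁻¹ x = x := by funext e; simp [shift]
        rw [this]
      | @tail b c _ h2 ih =>
        refine ih.trans (Relation.ReflTransGen.single ?_)
        have hmem : ∀ (g : G) (i : Fin d), ¬ Red s pr N x (g, i) → shift g⁻¹ x ∈ A i := by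
          intro g i hgi
          have h3 : A (i : ℕ) = {x | ¬ Red s pr N x (1, i)} := by
            simp only [A, dif_pos i.2]
          rw [h3]
          have h4 := red_shift s pr N x g⁻¹ g i
          rw [inv_mul_cancel] at h4
          exact fun h5 => hgi (h4.1 h5)
        have hsm : ∀ (g : G) (i : Fin d), shift (g * s i)⁻¹ x =
            act.toSMul.smul (s' i) (shift g⁻¹ x) := by
          intro g i
          have h3 : s' (i : ℕ) = (s i)⁻¹ := by simp only [s', dif_pos i.2]
          rw [h3]
          change _ = shift (s i)⁻¹ (shift g⁻¹ x)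
          funext e
          simp [shift, mul_assoc]
        obtain ⟨i, ⟨h3, h4⟩ | ⟨h3, h4⟩⟩ := h2
        · exact ⟨i, Or.inl ⟨hmem b i h4, by rw [h3]; exact hsm b i⟩⟩
        · exact ⟨i, Or.inr ⟨hmem c i h4, by rw [h3]; exact hsm c i⟩⟩
    have h6 := key _ hconn
    rw [inv_inv] at h6
    exact h6
  have h := @hc (G × Fin d → ℝ) _ _ act (law (G × Fin d)) _
    (fun g => measurePreserving_shift g) hfree s' A hA hgen
  refine h.trans (le_of_eq ?_)
  rw [tsum_eq_sum (s := Finset.range d)]
  · rw [Finset.sum_range]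
    refine Finset.sum_congr rfl fun i _ => ?_
    simp only [A, dif_pos i.2]
    rfl
  · intro n hn
    have : ¬ n < d := by simpa using hn
    simp only [A, dif_neg this, measure_empty]

/-! ### Counting -/

/-- The subgroup generated by the generators of priority less than `p`. -/
def low (s : Fin d → G) (pr : Fin d → ℕ) (p : ℕ) : Subgroup G :=
  Subgroup.closure {g | ∃ j, pr j < p ∧ s j = g}

open Classical in
/-- The cosets of `low s pr p` touched by `B` and by `B * s i`, `i` of priority `p`. -/
noncomputable def verts (s : Fin d → G) (pr : Fin d → ℕ) (p : ℕ) (B : Finset G) :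
    Finset (G ⧸ low s pr p) :=
  B.image (fun b : G => (QuotientGroup.mk b : G ⧸ low s pr p)) ∪
    (B ×ˢ (Finset.univ.filter fun i => pr i = p)).image
      (fun e => (QuotientGroup.mk (e.1 * s e.2) : G ⧸ low s pr p))

lemma conn_of_coset {s : Fin d → G} {pr : Fin d → ℕ} {p : ℕ} {R : G × Fin d → Prop}
    (hR : ∀ g j, pr j < p → R (g, j)) {a b : G}
    (h : (a : G ⧸ low s pr p) = (b : G ⧸ low s pr p)) : Conn s R a b := by
  have key : ∀ g ∈ low s pr p, ∀ a, Conn s R a (a * g) := by
    intro g hg
    unfold low at hg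
    induction hg using Subgroup.closure_induction with
    | mem x hx =>
      obtain ⟨j, hj, rfl⟩ := hx
      intro a
      exact Step.conn ⟨j, Or.inl ⟨rfl, hR a j hj⟩⟩
    | one => intro a; rw [mul_one]; exact Conn.refl _
    | mul x y _ _ hx hy =>
      intro a
      rw [← mul_assoc]
      exact (hx a).trans (hy _)
    | inv x _ hx =>
      intro a
      have := hx (a * x⁻¹)
      rw [inv_mul_cancel_right] at this
      exact this.symm
  have h2 := key (a⁻¹ * b) (QuotientGroup.eq.1 h) a
  rwa [mul_inv_cancel_left] at h2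

lemma conn_of_eqvGen {s : Fin d → G} {pr : Fin d → ℕ} {p : ℕ} {R : G × Fin d → Prop}
    (hR : ∀ g j, pr j < p → R (g, j)) {u v : G ⧸ low s pr p}
    (h : Relation.EqvGen (fun u v => ∃ f : G × Fin d, R f ∧ (f.1 : G ⧸ low s pr p) = u ∧
      ((f.1 * s f.2 : G) : G ⧸ low s pr p) = v) u v) :
    ∀ a b : G, (a : G ⧸ low s pr p) = u → (b : G ⧸ low s pr p) = v → Conn s R a b := by
  induction h with
  | rel u v h =>
    intro a b ha hb
    obtain ⟨f, hf, h1, h2⟩ := h
    have h3 : Conn s R a f.1 := conn_of_coset hR (ha.trans h1.symm)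
    have h4 : Conn s R (f.1 * s f.2) b := conn_of_coset hR (h2.trans hb.symm)
    have h5 : Conn s R f.1 (f.1 * s f.2) := Step.conn ⟨f.2, Or.inl ⟨rfl, hf⟩⟩
    exact (h3.trans h5).trans h4
  | refl u => intro a b ha hb; exact conn_of_coset hR (ha.trans hb.symm)
  | symm u v _ ih => intro a b ha hb; exact (ih b a hb ha).symm
  | trans u v w _ _ ih1 ih2 =>
    intro a b ha hb
    obtain ⟨c, hc⟩ := QuotientGroup.mk_surjective v
    exact (ih1 a c ha hc).trans (ih2 c b hc hb)

lemma exists_uniform_bound (s : Fin d → G) (pr : Fin d → ℕ) (p : ℕ) (E : Finset (G × Fin d)) :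
    ∃ N : ℕ, ∀ E' ⊆ E, ∀ e ∈ E,
      Conn s (fun f => f ∈ E' ∨ pr f.2 < p) e.1 (e.1 * s e.2) →
      ∃ n ≤ N, Walk s (fun f => f ∈ E' ∨ pr f.2 < p) n e.1 (e.1 * s e.2) := by
  classical
  have h : ∀ q : Finset (G × Fin d) × (G × Fin d), ∃ n : ℕ,
      Conn s (fun f => f ∈ q.1 ∨ pr f.2 < p) q.2.1 (q.2.1 * s q.2.2) →
      Walk s (fun f => f ∈ q.1 ∨ pr f.2 < p) n q.2.1 (q.2.1 * s q.2.2) := by
    intro q
    by_cases hq : Conn s (fun f => f ∈ q.1 ∨ pr f.2 < p) q.2.1 (q.2.1 * s q.2.2)
    · obtain ⟨n, hn⟩ := hq.exists_walk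
      exact ⟨n, fun _ => hn⟩
    · exact ⟨0, fun h => absurd h hq⟩
  choose n hn using h
  refine ⟨(E.powerset ×ˢ E).sup n, ?_⟩
  intro E' hE' e he hconn
  refine ⟨n (E', e), Finset.le_sup (f := n) ?_, hn (E', e) hconn⟩
  rw [Finset.mem_product, Finset.mem_powerset]
  exact ⟨hE', he⟩

/-- The number of non-redundant edges of priority `p` starting in `B` is less than the number of
cosets touched. -/
theorem exists_count (s : Fin d → G) (pr : Fin d → ℕ) (p : ℕ) (B : Finset G)
    (hB : B.Nonempty) : ∃ N₀ : ℕ, ∀ N ≥ N₀, ∀ x : G × Fin d → ℝ, Function.Injective x →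
      ∀ E : Finset (G × Fin d),
        (∀ e ∈ E, e.1 ∈ B ∧ pr e.2 = p ∧ ¬ Red s pr N x e) →
        E.card + 1 ≤ (verts s pr p B).card := by
  classical
  obtain ⟨N₀, hN₀⟩ := exists_uniform_bound s pr p
    (B ×ˢ (Finset.univ.filter fun i => pr i = p))
  refine ⟨N₀, fun N hN x hx E hE => ?_⟩
  have hE' : E ⊆ B ×ˢ (Finset.univ.filter fun i => pr i = p) := by
    intro e he
    simp only [Finset.mem_product, Finset.mem_filter, Finset.mem_univ, true_and]
    exact ⟨(hE e he).1, (hE e he).2.1⟩
  have hsrc : ∀ e : E, (e.1.1 : G ⧸ low s pr p) ∈ verts s pr p B := by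
    intro e
    unfold verts
    exact Finset.mem_union_left _ (Finset.mem_image_of_mem
      (fun b : G => (QuotientGroup.mk b : G ⧸ low s pr p)) (hE e.1 e.2).1)
  have htgt : ∀ e : E, ((e.1.1 * s e.1.2 : G) : G ⧸ low s pr p) ∈ verts s pr p B := by
    intro e
    unfold verts
    exact Finset.mem_union_right _ (Finset.mem_image_of_mem
      (fun e : G × Fin d => (QuotientGroup.mk (e.1 * s e.2) : G ⧸ low s pr p)) (hE' e.2))
  have hne : Nonempty (verts s pr p B) := by
    obtain ⟨b, hb⟩ := hB
    exact ⟨⟨(b : G ⧸ low s pr p), Finset.mem_union_left _ (Finset.mem_image_of_mem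
      (fun b : G => (QuotientGroup.mk b : G ⧸ low s pr p)) hb)⟩⟩
  have h := forest_bound (V := verts s pr p B) (E := E)
    (fun e => ⟨_, hsrc e⟩) (fun e => ⟨_, htgt e⟩) (fun e => x e.1)
    (fun e f hef => Subtype.ext (hx hef)) (by
      intro e hcon
      apply (hE e.1 e.2).2.2
      set E' : Finset (G × Fin d) := E.filter fun f => x f < x e.1 with hE'def
      have h1 : Relation.EqvGen (fun u v => ∃ f : G × Fin d, (f ∈ E' ∨ pr f.2 < p) ∧
          (f.1 : G ⧸ low s pr p) = u ∧ ((f.1 * s f.2 : G) : G ⧸ low s pr p) = v)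
          ((e.1.1 : G) : G ⧸ low s pr p) ((e.1.1 * s e.1.2 : G) : G ⧸ low s pr p) := by
        have key : ∀ a b : verts s pr p B, Relation.EqvGen
            (fun a b => ∃ f : E, x f.1 < x e.1 ∧
              (⟨_, hsrc f⟩ : verts s pr p B) = a ∧ (⟨_, htgt f⟩ : verts s pr p B) = b) a b →
            Relation.EqvGen (fun u v => ∃ f : G × Fin d, (f ∈ E' ∨ pr f.2 < p) ∧
              (f.1 : G ⧸ low s pr p) = u ∧ ((f.1 * s f.2 : G) : G ⧸ low s pr p) = v)
              a.1 b.1 := by
          intro a b hab
          induction hab with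
          | rel a b h =>
            obtain ⟨f, hf, rfl, rfl⟩ := h
            refine Relation.EqvGen.rel _ _ ⟨f.1, Or.inl ?_, rfl, rfl⟩
            exact Finset.mem_filter.2 ⟨f.2, hf⟩
          | refl a => exact Relation.EqvGen.refl _
          | symm a b _ ih => exact ih.symm _ _
          | trans a b c _ _ ih1 ih2 => exact ih1.trans _ _ _ ih2
        exact key _ _ hcon
      have h2 : Conn s (fun f => f ∈ E' ∨ pr f.2 < p) e.1.1 (e.1.1 * s e.1.2) :=
        conn_of_eqvGen (fun g j hj => Or.inr hj) h1 _ _ rfl rfl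
      obtain ⟨n, hn, hw⟩ := hN₀ E' ((Finset.filter_subset _ _).trans hE') e.1 (hE' e.2) h2
      refine ⟨n, hn.trans hN, hw.mono ?_⟩
      intro f hf
      have hpe : pr e.1.2 = p := (hE e.1 e.2).2.1
      rcases hf with hf | hf
      · have h3 := Finset.mem_filter.1 hf
        exact Or.inr ⟨(hE f h3.1).2.1.trans hpe.symm, h3.2⟩
      · exact Or.inl (hf.trans_eq hpe.symm))
  rwa [Fintype.card_coe, Fintype.card_coe] at h

/-- Integrated form of the counting bound. -/
theorem exists_dens_bound [Countable G] (s : Fin d → G) (pr : Fin d → ℕ) (p : ℕ) (B : Finset G)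
    (hB : B.Nonempty) : ∃ N₀ : ℕ, ∀ N ≥ N₀,
      (B.card : ENNReal) * ∑ i ∈ Finset.univ.filter (fun i => pr i = p), dens s pr N i ≤
        (((verts s pr p B).card - 1 : ℕ) : ENNReal) := by
  classical
  obtain ⟨N₀, hN₀⟩ := exists_count s pr p B hB
  refine ⟨N₀, fun N hN => ?_⟩
  set E := B ×ˢ (Finset.univ.filter fun i => pr i = p) with hE
  have h1 : (B.card : ENNReal) * ∑ i ∈ Finset.univ.filter (fun i => pr i = p), dens s pr N i =
      ∑ e ∈ E, law (G × Fin d) {x | ¬ Red s pr N x e} := by
    rw [hE, Finset.sum_product]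
    simp only [law_not_Red]
    rw [Finset.sum_const, nsmul_eq_mul]
  have hmeas : ∀ e, MeasurableSet {x : G × Fin d → ℝ | ¬ Red s pr N x e} :=
    fun e => (measurableSet_Red s pr N e).compl
  have h2 : ∑ e ∈ E, law (G × Fin d) {x | ¬ Red s pr N x e} =
      ∫⁻ x, ∑ e ∈ E, Set.indicator {x : G × Fin d → ℝ | ¬ Red s pr N x e} 1 x
        ∂(law (G × Fin d)) := by
    rw [lintegral_finsetSum _ fun e _ => measurable_one.indicator (hmeas e)]
    refine Finset.sum_congr rfl fun e _ => ?_
    rw [lintegral_indicator_one (hmeas e)]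
  rw [h1, h2]
  calc ∫⁻ x, ∑ e ∈ E, Set.indicator {x : G × Fin d → ℝ | ¬ Red s pr N x e} 1 x
        ∂(law (G × Fin d))
      ≤ ∫⁻ _, (((verts s pr p B).card - 1 : ℕ) : ENNReal) ∂(law (G × Fin d)) := by
        apply lintegral_mono_ae
        filter_upwards [ae_injective (G × Fin d)] with x hx
        have h3 : ∑ e ∈ E, Set.indicator {x : G × Fin d → ℝ | ¬ Red s pr N x e}
            (1 : (G × Fin d → ℝ) → ENNReal) x =
            ((E.filter fun e => ¬ Red s pr N x e).card : ENNReal) := by
          rw [Finset.card_filter]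
          push_cast
          refine Finset.sum_congr rfl fun e _ => ?_
          by_cases h : Red s pr N x e
          · simp [h]
          · simp [h]
        rw [h3]
        have h4 := hN₀ N hN x hx (E.filter fun e => ¬ Red s pr N x e) (by
          intro e he
          rw [Finset.mem_filter, hE, Finset.mem_product, Finset.mem_filter] at he
          exact ⟨he.1.1, he.1.2.2, he.2⟩)
        exact_mod_cast (by omega : (E.filter fun e => ¬ Red s pr N x e).card ≤
          (verts s pr p B).card - 1)
    _ = _ := by rw [lintegral_const, measure_univ, mul_one]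

/-- **The cost inequality.**  If `s` generates `G` with generators sorted by priority `< P` then
the cost of `G` is at most the sum over the priorities `p` of
`(number of cosets touched - 1) / |B p|`, for arbitrary nonempty finite sets `B p`. -/
theorem cost_le_sum [Countable G] {c : ENNReal} (hc : CostGe G c) (s : Fin d → G)
    (hs : Subgroup.closure (Set.range s) = ⊤) (pr : Fin d → ℕ) (P : ℕ) (hP : ∀ i, pr i < P)
    (B : ℕ → Finset G) (hB : ∀ p, (B p).Nonempty) :
    c ≤ ∑ p ∈ Finset.range P,
      (((verts s pr p (B p)).card - 1 : ℕ) : ENNReal) / ((B p).card : ENNReal) := by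
  classical
  choose N hN using fun p => exists_dens_bound s pr p (B p) (hB p)
  set N' := (Finset.range P).sup N with hN'
  refine (cost_le_dens hc s hs pr N').trans ?_
  have h1 : ∑ i, dens s pr N' i =
      ∑ p ∈ Finset.range P, ∑ i ∈ Finset.univ.filter (fun i => pr i = p), dens s pr N' i := by
    rw [Finset.sum_fiberwise_of_maps_to]
    intro i _
    exact Finset.mem_range.2 (hP i)
  rw [h1]
  refine Finset.sum_le_sum fun p hp => ?_
  have h2 := hN p N' (Finset.le_sup hp)
  have hcard : ((B p).card : ENNReal) ≠ 0 := by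
    have := (hB p).card_pos
    exact_mod_cast this.ne'
  rw [ENNReal.le_div_iff_mul_le (Or.inl hcard) (Or.inl (ENNReal.natCast_ne_top _)), mul_comm]
  exact h2

end Pool.Agent.Lib.MP_90732c_al
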