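import Pool.Agent.Lib.MP_90732c_al.Chain

/-! Groups of bounded exponent. -/

set_option autoImplicit false

open scoped Pointwise

namespace Pool.Agent.Lib.MP_90732c_al

variable {G : Type} [Group G]

lemma P_replicate (t : G) (h : ℕ → G) (n ℓ : ℕ) :
    P t (List.replicate n (true, h)) ℓ = (h ℓ * t) ^ n := by
  induction n with
  | zero => simp
  | succ n ih =>
    rw [List.replicate_succ, P_cons, ih, pow_succ']
    rfl

open Classical in
/-- **The cost inequality for infinite subgroups of groups of bounded exponent.** -/
theorem cost_chain_of_exponent [Countable G] {c : ℝ} (hc : CostGe G (ENNReal.ofReal c))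
    (T : Finset G) (hT : Subgroup.closure (T : Set G) = ⊤) {n : ℕ} (hn : 0 < n)
    (hlaw : ∀ g : G, g ^ n = 1) (S : ℕ → Finset G) (P : ℕ) (hinf : Infinite (lo S P))
    (B : ℕ → Finset G) (hB : ∀ p, (B p).Nonempty) :
    c ≤ ∑ p ∈ Finset.range P,
      ((cosetCard (lo S p) (B p * insert 1 (S p)) : ℝ) - 1) / ((B p).card : ℝ) := by
  by_contra hcon
  rw [not_le] at hcon
  obtain ⟨cf, hcf⟩ := exists_tau_chain hc T hT hcon
  obtain ⟨τ, _, hτ⟩ := hcf S P B hB le_rfl
  obtain ⟨N, _, hN⟩ := exists_rare (G := G) cf n
  let h : ℕ → G := fun ℓ => (Infinite.natEmbedding (lo S P) ℓ : G)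
  have h1 := hN (lo S P) τ hτ (List.replicate n (true, h)) (Finset.range (N + 1))
    (by rw [Ne, List.replicate_eq_nil_iff]; omega) (by rw [List.length_replicate]) (by
      intro q hq
      rw [List.eq_of_mem_replicate hq]
      refine ⟨fun ℓ _ => (Infinite.natEmbedding (lo S P) ℓ).2, ?_⟩
      intro a _ b _ hab
      exact (Infinite.natEmbedding (lo S P)).injective (Subtype.ext hab)) 1 1 (by
      intro ℓ _
      rw [P_replicate, hlaw, inv_one, one_mul, one_mul]
      exact Subgroup.one_mem _)
  rw [Finset.card_range] at h1
  omega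

/-- A finitely generated group of cost at least one is infinite. -/
lemma infinite_of_cost [Countable G] {c : ℝ} (hc : CostGe G (ENNReal.ofReal c)) (hc1 : 1 ≤ c)
    (T : Finset G) (hT : Subgroup.closure (T : Set G) = ⊤) : Infinite G := by
  classical
  by_contra hfin
  rw [not_infinite_iff_finite] at hfin
  have := Fintype.ofFinite G
  have h1 := cost_sets hc (fun _ => T) 1 (by
    unfold lo
    rw [← hT]
    congr 1
    ext g
    simp) (fun _ => (Finset.univ : Finset G)) (fun _ => Finset.univ_nonempty)
  rw [Finset.sum_range_one] at h1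
  have h2 : (0 : ℝ) < (Finset.univ : Finset G).card := by
    exact_mod_cast (Finset.univ_nonempty (α := G)).card_pos
  rw [le_div_iff₀ h2] at h1
  have h3 : ((cosetCard (lo (fun _ => T) 0) ((Finset.univ : Finset G) * insert 1 T) : ℕ) : ℝ) ≤
    ((Finset.univ : Finset G).card : ℝ) := by
    exact_mod_cast (cosetCard_le _ _).trans (Finset.card_le_card (Finset.subset_univ _))
  nlinarith

/-- A finite set of minimal size generating an infinite subgroup. -/
lemma exists_minimal [Infinite G] (T : Finset G) (hT : Subgroup.closure (T : Set G) = ⊤) :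
    ∃ s : Finset G, Infinite (Subgroup.closure (s : Set G)) ∧
      ∀ u : Finset G, u.card < s.card → Finite (Subgroup.closure (u : Set G)) := by
  classical
  have hinf : ∃ k, ∃ s : Finset G, s.card = k ∧ Infinite (Subgroup.closure (s : Set G)) := by
    refine ⟨T.card, T, rfl, ?_⟩
    rw [hT]
    exact Infinite.of_surjective _ (Subgroup.topEquiv (G := G)).surjective
  obtain ⟨s, hs, hsinf⟩ := Nat.find_spec hinf
  refine ⟨s, hsinf, fun u hu => ?_⟩
  by_contra hfin
  rw [not_finite_iff_infinite] at hfin
  have := Nat.find_le (h := hinf) ⟨u, rfl, hfin⟩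
  omega

lemma lo_singleton_chain (S : ℕ → Finset G) (p : ℕ) :
    lo S (p + 1) = lo S p ⊔ Subgroup.closure (S p : Set G) := by
  unfold lo
  rw [← Subgroup.closure_union]
  congr 1
  ext g
  simp only [Set.mem_ofPred_eq, Set.mem_union, Finset.mem_coe]
  constructor
  · rintro ⟨q, hq, hg⟩
    rcases Nat.lt_succ_iff_lt_or_eq.1 hq with h | rfl
    · exact Or.inl ⟨q, h, hg⟩
    · exact Or.inr hg
  · rintro (⟨q, hq, hg⟩ | hg)
    · exact ⟨q, by omega, hg⟩
    · exact ⟨p, by omega, hg⟩

lemma lo_zero (S : ℕ → Finset G) : lo S 0 = ⊥ := by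
  unfold lo
  rw [← Subgroup.closure_empty]
  congr 1
  ext g
  simp

open Classical in
/-- The cosets of a finite subgroup `F ≤ K` touched by a finite subgroup `K`. -/
lemma card_mul_cosetCard_le (F K : Subgroup G) (hFK : F ≤ K) (B : Finset G)
    (hB : ∀ x, x ∈ B ↔ x ∈ K) (F' : Finset G) (hF' : ∀ x, x ∈ F' ↔ x ∈ F) :
    F'.card * cosetCard F B = B.card := by
  have h1 : B.card = ∑ v ∈ B.image (fun x : G => (QuotientGroup.mk x : G ⧸ F)),
      (B.filter fun a => (QuotientGroup.mk a : G ⧸ F) = v).card :=
    Finset.card_eq_sum_card_fiberwise fun x hx => Finset.mem_image_of_mem _ hx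
  rw [h1]
  have h2 : ∀ v ∈ B.image (fun x : G => (QuotientGroup.mk x : G ⧸ F)),
      (B.filter fun a => (QuotientGroup.mk a : G ⧸ F) = v).card = F'.card := by
    intro v hv
    obtain ⟨b, hb, rfl⟩ := Finset.mem_image.1 hv
    have h3 : (B.filter fun a => (QuotientGroup.mk a : G ⧸ F) = QuotientGroup.mk b) =
        F'.image fun f => b * f := by
      ext a
      rw [Finset.mem_filter, Finset.mem_image]
      constructor
      · rintro ⟨_, h4⟩
        refine ⟨b⁻¹ * a, ?_, mul_inv_cancel_left _ _⟩
        rw [hF']
        exact QuotientGroup.eq.1 h4.symm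
      · rintro ⟨f, hf, rfl⟩
        have hf' := (hF' f).1 hf
        refine ⟨(hB _).2 (K.mul_mem ((hB b).1 hb) (hFK hf')), ?_⟩
        rw [eq_comm, QuotientGroup.eq, inv_mul_cancel_left]
        exact hf'
    rw [h3, Finset.card_image_of_injective _ (mul_right_injective b)]
  rw [Finset.sum_congr rfl h2, Finset.sum_const, smul_eq_mul, mul_comm]
  rfl

open Classical in
/-- Sizes of the finite subgroups generated by subsets of a minimal set. -/
lemma two_pow_card_le (s : Finset G) (hsinf : Infinite (Subgroup.closure (s : Set G)))
    (hmin : ∀ u : Finset G, u.card < s.card → Finite (Subgroup.closure (u : Set G)))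
    (u : Finset G) (hu : u ⊆ s) (hus : u.card < s.card) :
    2 ^ u.card ≤ Nat.card (Subgroup.closure (u : Set G)) := by
  induction u using Finset.induction_on with
  | empty =>
    have := hmin ∅ hus
    rw [Finset.card_empty, pow_zero]
    exact Nat.card_pos
  | insert a u ha ih =>
    have hau : u ⊆ s := (Finset.subset_insert a u).trans hu
    have hlt : u.card < s.card := lt_of_le_of_lt (Finset.card_le_card (Finset.subset_insert a u)) hus
    have h1 := ih hau hlt
    have hfin := hmin _ hus
    have hle : Subgroup.closure (u : Set G) ≤ Subgroup.closure ((insert a u : Finset G) : Set G) :=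
      Subgroup.closure_mono (by exact_mod_cast Finset.subset_insert a u)
    have hne : Subgroup.closure (u : Set G) ≠
        Subgroup.closure ((insert a u : Finset G) : Set G) := by
      intro heq
      have ha' : a ∈ Subgroup.closure (u : Set G) := by
        rw [heq]
        exact Subgroup.subset_closure (by simp)
      have has : a ∈ s := hu (Finset.mem_insert_self a u)
      have h2 : Subgroup.closure ((s.erase a : Finset G) : Set G) =
          Subgroup.closure (s : Set G) := by
        apply le_antisymm
        · exact Subgroup.closure_mono (by exact_mod_cast Finset.erase_subset a s)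
        · rw [Subgroup.closure_le]
          intro x hx
          by_cases hxa : x = a
          · subst hxa
            have h3 : Subgroup.closure (u : Set G) ≤
                Subgroup.closure ((s.erase x : Finset G) : Set G) := by
              apply Subgroup.closure_mono
              intro y hy
              rw [Finset.mem_coe, Finset.mem_erase]
              exact ⟨fun h => ha (h ▸ hy), hau hy⟩
            exact h3 ha'
          · apply Subgroup.subset_closure
            rw [Finset.mem_coe, Finset.mem_erase]
            exact ⟨hxa, hx⟩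
      have h3 := hmin (s.erase a) (Finset.card_erase_lt_of_mem has)
      rw [h2] at h3
      exact not_finite (Subgroup.closure (s : Set G))
    rw [Finset.card_insert_of_notMem ha, pow_succ]
    -- index at least two
    have h4 : Nat.card (Subgroup.closure (u : Set G)) ∣
        Nat.card (Subgroup.closure ((insert a u : Finset G) : Set G)) :=
      Subgroup.card_dvd_of_le hle
    obtain ⟨q, hq⟩ := h4
    have hpos : 0 < Nat.card (Subgroup.closure ((insert a u : Finset G) : Set G)) := Nat.card_pos
    have hq2 : 2 ≤ q := by
      by_contra hq'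
      have hq0 : q ≠ 0 := by rintro rfl; omega
      have hq1 : q = 1 := by omega
      rw [hq1, mul_one] at hq
      exact hne (Subgroup.eq_of_le_of_card_ge hle hq.le)
    rw [hq]
    exact Nat.mul_le_mul h1 hq2

end Pool.Agent.Lib.MP_90732c_al
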