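import Pool.Agent.Lib.MP_90732c_al.Pieces

/-! The spectral gap of a group with a paradoxical decomposition. -/

set_option autoImplicit false

namespace Pool.Agent.Lib.MP_90732c_al.Rt

open scoped RealInnerProductSpace

variable {G : Type} [Group G]

/-- Square summable real functions. -/
abbrev L2 (G : Type) : Type := lp (fun _ : G => ℝ) 2

lemma two_toReal : (2 : ENNReal).toReal = 2 := by norm_num

lemma summable_sq {G : Type} (f : L2 G) : Summable fun a => f a ^ 2 := by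
  have := (lp.memℓp f).summable (by norm_num)
  simpa using this

lemma mem_of_summable {G : Type} {f : G → ℝ} (h : Summable fun a => f a ^ 2) :
    Memℓp f 2 := by
  apply memℓp_gen
  simpa using h

/-- Left translation. -/
noncomputable def tr (g : G) : L2 G →ₗ[ℝ] L2 G where
  toFun f := ⟨fun a => f (g⁻¹ * a), mem_of_summable
    ((Equiv.mulLeft g⁻¹).summable_iff.2 (summable_sq f))⟩
  map_add' f f' := by ext a; rfl
  map_smul' c f := by ext a; rfl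

@[simp] lemma tr_apply (g : G) (f : L2 G) (a : G) : (tr g f) a = f (g⁻¹ * a) := rfl

lemma inner_eq {G : Type} (f f' : L2 G) : ⟪f, f'⟫ = ∑' a, f a * f' a := by
  rw [lp.inner_eq_tsum]
  congr 1
  funext a
  simp [mul_comm]

lemma summable_mul {G : Type} (f f' : L2 G) : Summable fun a => f a * f' a := by
  have := lp.summable_inner (𝕜 := ℝ) f f'
  simpa [mul_comm] using this

lemma inner_tr (g : G) (f f' : L2 G) : ⟪tr g f, tr g f'⟫ = ⟪f, f'⟫ := by
  rw [inner_eq, inner_eq]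
  exact (Equiv.mulLeft g⁻¹).tsum_eq fun a => f a * f' a

lemma norm_tr (g : G) (f : L2 G) : ‖tr g f‖ = ‖f‖ := by
  have h := inner_tr g f f
  rw [real_inner_self_eq_norm_sq, real_inner_self_eq_norm_sq] at h
  exact (sq_eq_sq₀ (norm_nonneg _) (norm_nonneg _)).1 h

open Classical in
/-- Restriction to a subset. -/
noncomputable def cut {G : Type} (P : Set G) (f : L2 G) : L2 G :=
  ⟨fun a => if a ∈ P then f a else 0, mem_of_summable (by
    apply Summable.of_nonneg_of_le (fun a => sq_nonneg _) _ (summable_sq f)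
    intro a
    split_ifs
    · exact le_rfl
    · simp [sq_nonneg])⟩

open Classical in
@[simp] lemma cut_apply {G : Type} (P : Set G) (f : L2 G) (a : G) :
    (cut P f) a = if a ∈ P then f a else 0 := rfl

lemma norm_cut_le {G : Type} (P : Set G) (f : L2 G) : ‖cut P f‖ ≤ ‖f‖ := by
  have h : ‖cut P f‖ ^ 2 ≤ ‖f‖ ^ 2 := by
    rw [← real_inner_self_eq_norm_sq, ← real_inner_self_eq_norm_sq, inner_eq, inner_eq]
    apply (summable_mul _ _).tsum_le_tsum _ (summable_mul _ _)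
    intro a
    rw [cut_apply]
    split_ifs
    · exact le_rfl
    · simp [mul_self_nonneg]
  exact (sq_le_sq₀ (norm_nonneg _) (norm_nonneg _)).1 h

lemma inner_cut_sub {G : Type} (P : Set G) (u f : L2 G) :
    ⟪cut P u, u⟫ - ⟪cut P f, f⟫ = ⟪cut P (u - f), u + f⟫ := by
  rw [inner_eq, inner_eq, inner_eq, ← (summable_mul _ _).tsum_sub (summable_mul _ _)]
  congr 1
  funext a
  rw [cut_apply, cut_apply, cut_apply, lp.coeFn_sub, lp.coeFn_add, Pi.sub_apply, Pi.add_apply]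
  split_ifs
  · ring
  · ring

/-- The sum over a partition. -/
lemma sum_cut {G ι : Type} (S : Finset ι) (P : ι → Set G) (f : L2 G)
    (h : ∀ x : G, ∃! i, i ∈ S ∧ x ∈ P i) : ∑ i ∈ S, ⟪cut (P i) f, f⟫ = ‖f‖ ^ 2 := by
  classical
  rw [← real_inner_self_eq_norm_sq]
  simp only [inner_eq]
  rw [← Summable.tsum_finsetSum fun i _ => summable_mul _ _]
  congr 1
  funext a
  obtain ⟨i, ⟨hi, hai⟩, huniq⟩ := h a
  rw [Finset.sum_eq_single i]
  · rw [cut_apply, if_pos hai]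
  · intro j hj hji
    rw [cut_apply, if_neg, zero_mul]
    intro haj
    exact hji (huniq j ⟨hj, haj⟩)
  · intro h'
    exact absurd hi h'

lemma inner_cut_tr {G : Type} [Group G] (P : Set G) (t : G) (f : L2 G) :
    ⟪cut P (tr t⁻¹ f), tr t⁻¹ f⟫ = ⟪cut {x | t⁻¹ * x ∈ P} f, f⟫ := by
  rw [inner_eq, inner_eq]
  rw [← (Equiv.mulLeft t).tsum_eq fun a => (cut {x | t⁻¹ * x ∈ P} f) a * f a]
  congr 1
  funext a
  have h1 : (t * a ∈ {x | t⁻¹ * x ∈ P}) ↔ a ∈ P := by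
    rw [Set.mem_ofPred_eq, inv_mul_cancel_left]
  simp only [cut_apply, tr_apply, inv_inv, Equiv.coe_mulLeft]
  by_cases h2 : a ∈ P
  · rw [if_pos h2, if_pos (h1.2 h2)]
  · rw [if_neg h2, if_neg (fun h3 => h2 (h1.1 h3))]

/-- A paradoxical decomposition moves every function. -/
lemma norm_le_sum {k : ℕ} (P : Fin k → Set G) (t : Fin k → G) (S : Finset (Fin k))
    (h1 : ∀ x : G, ∃! i, x ∈ P i) (h2 : ∀ x : G, ∃! i, i ∈ S ∧ (t i)⁻¹ * x ∈ P i)
    (h3 : ∀ x : G, ∃! i, i ∉ S ∧ (t i)⁻¹ * x ∈ P i) (f : L2 G) :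
    ‖f‖ ≤ ∑ i, 2 * ‖tr (t i)⁻¹ f - f‖ := by
  classical
  have e1 : ∑ i, ⟪cut (P i) f, f⟫ = ‖f‖ ^ 2 := sum_cut Finset.univ P f (by
    intro x
    simpa using h1 x)
  have e2 : ∑ i ∈ S, ⟪cut (P i) (tr (t i)⁻¹ f), tr (t i)⁻¹ f⟫ = ‖f‖ ^ 2 := by
    simp only [inner_cut_tr]
    exact sum_cut S (fun i => {x | (t i)⁻¹ * x ∈ P i}) f h2
  have e3 : ∑ i ∈ Sᶜ, ⟪cut (P i) (tr (t i)⁻¹ f), tr (t i)⁻¹ f⟫ = ‖f‖ ^ 2 := by
    simp only [inner_cut_tr]
    apply sum_cut Sᶜ (fun i => {x | (t i)⁻¹ * x ∈ P i}) f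
    intro x
    simpa only [Finset.mem_compl, Set.mem_ofPred_eq] using h3 x
  have e4 : ∑ i, ⟪cut (P i) (tr (t i)⁻¹ f), tr (t i)⁻¹ f⟫ = 2 * ‖f‖ ^ 2 := by
    rw [← Finset.sum_add_sum_compl S, e2, e3]; ring
  have e5 : ‖f‖ ^ 2 = ∑ i, ⟪cut (P i) (tr (t i)⁻¹ f - f), tr (t i)⁻¹ f + f⟫ := by
    simp only [← inner_cut_sub]
    rw [Finset.sum_sub_distrib, e4, e1]; ring
  have e6 : ∀ i, ⟪cut (P i) (tr (t i)⁻¹ f - f), tr (t i)⁻¹ f + f⟫ ≤
      2 * ‖tr (t i)⁻¹ f - f‖ * ‖f‖ := by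
    intro i
    have h4 := real_inner_le_norm (cut (P i) (tr (t i)⁻¹ f - f)) (tr (t i)⁻¹ f + f)
    have h5 := norm_cut_le (P i) (tr (t i)⁻¹ f - f)
    have h6 : ‖tr (t i)⁻¹ f + f‖ ≤ 2 * ‖f‖ := by
      have := norm_add_le (tr (t i)⁻¹ f) f
      rw [norm_tr] at this
      linarith
    have h7 : ‖cut (P i) (tr (t i)⁻¹ f - f)‖ * ‖tr (t i)⁻¹ f + f‖ ≤
        ‖tr (t i)⁻¹ f - f‖ * (2 * ‖f‖) :=
      mul_le_mul h5 h6 (norm_nonneg _) (norm_nonneg _)
    linarith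
  have e7 : ‖f‖ ^ 2 ≤ (∑ i, 2 * ‖tr (t i)⁻¹ f - f‖) * ‖f‖ := by
    rw [e5, Finset.sum_mul]
    exact Finset.sum_le_sum fun i _ => e6 i
  rcases (norm_nonneg f).eq_or_lt with h0 | h0
  · rw [← h0]
    exact Finset.sum_nonneg fun i _ => by positivity
  · have : ‖f‖ * ‖f‖ ≤ (∑ i, 2 * ‖tr (t i)⁻¹ f - f‖) * ‖f‖ := by rw [← sq]; exact e7
    exact le_of_mul_le_mul_right this h0

/-- The averaging operator. -/
noncomputable def avg {k : ℕ} (t : Fin k → G) (f : L2 G) : L2 G :=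
  (2 * k : ℝ)⁻¹ • ∑ i, (tr (t i) f + tr (t i)⁻¹ f)

lemma norm_avg_le {k : ℕ} (hk : 0 < k) (t : Fin k → G) (f : L2 G) : ‖avg t f‖ ≤ ‖f‖ := by
  have hk' : (0 : ℝ) < k := by exact_mod_cast hk
  unfold avg
  rw [norm_smul, Real.norm_of_nonneg (by positivity)]
  have h1 : ‖∑ i, (tr (t i) f + tr (t i)⁻¹ f)‖ ≤ ∑ _i : Fin k, 2 * ‖f‖ := by
    refine (norm_sum_le _ _).trans (Finset.sum_le_sum fun i _ => ?_)
    refine (norm_add_le _ _).trans ?_
    rw [norm_tr, norm_tr]; linarith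
  rw [Finset.sum_const, Finset.card_univ, Fintype.card_fin, nsmul_eq_mul] at h1
  calc (2 * k : ℝ)⁻¹ * ‖∑ i, (tr (t i) f + tr (t i)⁻¹ f)‖ ≤ (2 * k : ℝ)⁻¹ * (k * (2 * ‖f‖)) :=
        mul_le_mul_of_nonneg_left h1 (by positivity)
    _ = ‖f‖ := by field_simp

lemma inner_avg {k : ℕ} (hk : 0 < k) (t : Fin k → G) (f : L2 G)
    (hf : ‖f‖ ≤ ∑ i, 2 * ‖tr (t i)⁻¹ f - f‖) :
    ⟪avg t f, f⟫ ≤ (1 - 1 / (8 * (k : ℝ) ^ 2)) * ‖f‖ ^ 2 := by
  have hk' : (0 : ℝ) < k := by exact_mod_cast hk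
  have h1 : ∀ i, ⟪tr (t i) f + tr (t i)⁻¹ f, f⟫ = 2 * ‖f‖ ^ 2 - ‖tr (t i)⁻¹ f - f‖ ^ 2 := by
    intro i
    have h2 : ⟪tr (t i) f, f⟫ = ⟪tr (t i)⁻¹ f, f⟫ := by
      rw [← inner_tr (t i)⁻¹ (tr (t i) f) f]
      have h3 : tr (t i)⁻¹ (tr (t i) f) = f := by
        ext a; simp
      rw [h3, real_inner_comm]
    rw [inner_add_left, h2, norm_sub_sq_real, norm_tr]
    ring
  have h2 : ⟪avg t f, f⟫ = ‖f‖ ^ 2 - (2 * k : ℝ)⁻¹ * ∑ i, ‖tr (t i)⁻¹ f - f‖ ^ 2 := by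
    unfold avg
    rw [real_inner_smul_left, sum_inner]
    simp only [h1]
    rw [Finset.sum_sub_distrib, Finset.sum_const, Finset.card_univ, Fintype.card_fin,
      nsmul_eq_mul]
    field_simp
  have h3 : (‖f‖ / 2) ^ 2 ≤ k * ∑ i, ‖tr (t i)⁻¹ f - f‖ ^ 2 := by
    have h4 : ‖f‖ / 2 ≤ ∑ i, ‖tr (t i)⁻¹ f - f‖ := by
      rw [← Finset.mul_sum] at hf
      linarith
    have h5 : (∑ i, ‖tr (t i)⁻¹ f - f‖) ^ 2 ≤
        (Finset.univ : Finset (Fin k)).card * ∑ i, ‖tr (t i)⁻¹ f - f‖ ^ 2 :=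
      sq_sum_le_card_mul_sum_sq
    rw [Finset.card_univ, Fintype.card_fin] at h5
    exact (pow_le_pow_left₀ (by positivity) h4 2).trans h5
  rw [h2]
  have h4 : ‖f‖ ^ 2 / (8 * (k : ℝ) ^ 2) ≤ (2 * k : ℝ)⁻¹ * ∑ i, ‖tr (t i)⁻¹ f - f‖ ^ 2 := by
    rw [div_le_iff₀ (by positivity)]
    have h5 : (2 * (k : ℝ))⁻¹ * (∑ i, ‖tr (t i)⁻¹ f - f‖ ^ 2) * (8 * (k : ℝ) ^ 2) =
        4 * (k * ∑ i, ‖tr (t i)⁻¹ f - f‖ ^ 2) := by
      field_simp; ring
    rw [h5]
    nlinarith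
  have h5 : (1 - 1 / (8 * (k : ℝ) ^ 2)) * ‖f‖ ^ 2 = ‖f‖ ^ 2 - ‖f‖ ^ 2 / (8 * (k : ℝ) ^ 2) := by
    ring
  rw [h5]
  linarith

/-- The lazy averaging operator contracts. -/
lemma norm_lazy_le {k : ℕ} (hk : 0 < k) (t : Fin k → G) (f : L2 G)
    (hf : ‖f‖ ≤ ∑ i, 2 * ‖tr (t i)⁻¹ f - f‖) :
    ‖(2⁻¹ : ℝ) • (f + avg t f)‖ ^ 2 ≤ (1 - 1 / (16 * (k : ℝ) ^ 2)) * ‖f‖ ^ 2 := by
  have hk' : (0 : ℝ) < k := by exact_mod_cast hk
  have h1 := inner_avg hk t f hf
  have h2 := norm_avg_le hk t f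
  have h3 : ‖avg t f‖ ^ 2 ≤ ‖f‖ ^ 2 := pow_le_pow_left₀ (norm_nonneg _) h2 2
  rw [norm_smul, mul_pow, norm_add_sq_real, real_inner_comm]
  have h4 : ‖(2⁻¹ : ℝ)‖ ^ 2 = 1 / 4 := by norm_num
  rw [h4]
  have h5 : 1 / (16 * (k : ℝ) ^ 2) = (1 / (8 * (k : ℝ) ^ 2)) / 2 := by ring
  rw [h5]
  set c := 1 / (8 * (k : ℝ) ^ 2)
  nlinarith

/-- The lazy operator. -/
noncomputable def lazy {k : ℕ} (t : Fin k → G) (f : L2 G) : L2 G := (2⁻¹ : ℝ) • (f + avg t f)

lemma lazy_eq {k : ℕ} (hk : 0 < k) (t : Fin k → G) :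
    ∃ (J : Type) (_ : Fintype J) (c : J → ℝ) (u : J → G), (∀ j, 0 ≤ c j) ∧ ∑ j, c j = 1 ∧
      ∀ f : L2 G, lazy t f = ∑ j, c j • tr (u j) f := by
  have hk' : (0 : ℝ) < k := by exact_mod_cast hk
  refine ⟨Option (Fin k × Bool), inferInstance,
    fun o => match o with
      | none => 2⁻¹
      | some _ => (4 * k : ℝ)⁻¹,
    fun o => match o with
      | none => 1
      | some (i, b) => if b then t i else (t i)⁻¹, ?_, ?_, ?_⟩
  · rintro (_ | _)
    · simp only; positivity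
    · simp only; positivity
  · rw [Fintype.sum_option]
    simp only
    rw [Finset.sum_const, Finset.card_univ, Fintype.card_prod, Fintype.card_fin,
      Fintype.card_bool, nsmul_eq_mul]
    push_cast
    field_simp
    norm_num
  · intro f
    rw [Fintype.sum_option, Fintype.sum_prod_type]
    simp only [Fintype.sum_bool, if_true, Bool.false_eq_true, if_false]
    have h1 : tr (1 : G) f = f := by ext a; simp
    rw [h1]
    unfold lazy avg
    rw [smul_add, smul_smul]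
    congr 1
    rw [Finset.smul_sum]
    refine Finset.sum_congr rfl fun i _ => ?_
    rw [smul_add]
    have h2 : (2⁻¹ : ℝ) * (2 * (k : ℝ))⁻¹ = (4 * (k : ℝ))⁻¹ := by
      rw [← mul_inv]; congr 1; ring
    rw [h2]

lemma tr_tr (g h : G) (f : L2 G) : tr g (tr h f) = tr (g * h) f := by
  ext a
  simp [mul_assoc]

lemma lazy_iterate_eq {k : ℕ} (hk : 0 < k) (t : Fin k → G) (n : ℕ) :
    ∃ (J : Type) (_ : Fintype J) (c : J → ℝ) (u : J → G), (∀ j, 0 ≤ c j) ∧ ∑ j, c j = 1 ∧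
      ∀ f : L2 G, (lazy t)^[n] f = ∑ j, c j • tr (u j) f := by
  induction n with
  | zero =>
    refine ⟨Unit, inferInstance, fun _ => 1, fun _ => 1, fun _ => zero_le_one, by simp, ?_⟩
    intro f
    have h1 : tr (1 : G) f = f := by ext a; simp
    simp [h1]
  | succ n ih =>
    obtain ⟨J, _, c, u, h1, h2, h3⟩ := ih
    obtain ⟨K, _, c', u', h1', h2', h3'⟩ := lazy_eq hk t
    refine ⟨K × J, inferInstance, fun p => c' p.1 * c p.2, fun p => u' p.1 * u p.2,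
      fun p => mul_nonneg (h1' _) (h1 _), ?_, ?_⟩
    · rw [Fintype.sum_prod_type]
      simp only [← Finset.mul_sum, h2, mul_one, h2']
    · intro f
      rw [Function.iterate_succ_apply', h3', h3, Fintype.sum_prod_type]
      refine Finset.sum_congr rfl fun i _ => ?_
      rw [map_sum, Finset.smul_sum]
      refine Finset.sum_congr rfl fun j _ => ?_
      rw [map_smul, tr_tr, smul_smul]

open Classical in
/-- The indicator function of a finite set. -/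
noncomputable def ind {G : Type} (B : Finset G) : L2 G :=
  ⟨fun a => if a ∈ B then 1 else 0, mem_of_summable (by
    apply summable_of_ne_finset_zero (s := B)
    intro a ha
    rw [if_neg ha]; norm_num)⟩

open Classical in
@[simp] lemma ind_apply {G : Type} (B : Finset G) (a : G) :
    (ind B) a = if a ∈ B then 1 else 0 := rfl

open Classical in
lemma inner_ind (B : Finset G) (a h : G) :
    ⟪tr a (ind B), tr h (ind B)⟫ = ((B.filter fun b => h⁻¹ * (a * b) ∈ B).card : ℝ) := by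
  rw [inner_eq, ← (Equiv.mulLeft a).tsum_eq fun x => (tr a (ind B)) x * (tr h (ind B)) x,
    tsum_eq_sum (s := B)]
  · rw [Finset.card_filter]
    push_cast
    refine Finset.sum_congr rfl fun b hb => ?_
    simp only [tr_apply, ind_apply, Equiv.coe_mulLeft]
    have h1 : a⁻¹ * (a * b) ∈ B := by rwa [inv_mul_cancel_left]
    rw [if_pos h1, one_mul]
  · intro b hb
    simp only [tr_apply, ind_apply, Equiv.coe_mulLeft]
    have h1 : a⁻¹ * (a * b) ∉ B := by rwa [inv_mul_cancel_left]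
    rw [if_neg h1, zero_mul]

lemma norm_ind (B : Finset G) : ‖ind B‖ ^ 2 = B.card := by
  classical
  have h := inner_ind B 1 1
  have h1 : tr (1 : G) (ind B) = ind B := by ext a; simp
  rw [h1, real_inner_self_eq_norm_sq] at h
  rw [h]
  congr 2
  rw [Finset.filter_eq_self]
  intro b hb
  simpa using hb

open Classical in
/-- **Spectral gap.** In a group with a paradoxical decomposition there are finitely supported
probability measures whose translates of any finite set are almost orthogonal to it. -/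
theorem exists_mixing {C : ℕ} (hna : TarskiLe G C) {ε : ℝ} (hε : 0 < ε) :
    ∃ (J : Type) (_ : Fintype J) (c : J → ℝ) (u : J → G), (∀ j, 0 ≤ c j) ∧ ∑ j, c j = 1 ∧
      ∀ (B : Finset G) (a : G),
        ∑ j, c j * ((B.filter fun b => (u j)⁻¹ * (a * b) ∈ B).card : ℝ) ≤ ε * B.card := by
  obtain ⟨k, P, t, S, _, h1, h2, h3⟩ := hna
  have hk : 0 < k := by
    obtain ⟨i, _, _⟩ := h1 1
    exact lt_of_le_of_lt (Nat.zero_le _) i.2
  have hk' : (0 : ℝ) < k := by exact_mod_cast hk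
  have hk1 : (1 : ℝ) ≤ k := by exact_mod_cast hk
  set q : ℝ := 1 - 1 / (16 * (k : ℝ) ^ 2) with hq
  have hq0 : 0 ≤ q := by
    have : 1 / (16 * (k : ℝ) ^ 2) ≤ 1 := by
      rw [div_le_one (by positivity)]
      nlinarith
    linarith
  have hq1 : q < 1 := by
    have : 0 < 1 / (16 * (k : ℝ) ^ 2) := by positivity
    linarith
  obtain ⟨n, hn⟩ := exists_pow_lt_of_lt_one (show (0 : ℝ) < ε ^ 2 by positivity) hq1
  obtain ⟨J, hJ, c, u, hc1, hc2, hc3⟩ := lazy_iterate_eq hk t n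
  refine ⟨J, hJ, c, u, hc1, hc2, fun B a => ?_⟩
  have h4 : ∀ (m : ℕ) (f : L2 G), ‖(lazy t)^[m] f‖ ^ 2 ≤ q ^ m * ‖f‖ ^ 2 := by
    intro m f
    induction m with
    | zero => simp
    | succ m ih =>
      rw [Function.iterate_succ_apply', pow_succ' q]
      refine (norm_lazy_le hk t _ (norm_le_sum P t S h1 h2 h3 _)).trans ?_
      rw [mul_assoc]
      exact mul_le_mul_of_nonneg_left ih hq0
  have h5 : ⟪tr a (ind B), (lazy t)^[n] (ind B)⟫ =
      ∑ j, c j * ((B.filter fun b => (u j)⁻¹ * (a * b) ∈ B).card : ℝ) := by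
    rw [hc3, inner_sum]
    refine Finset.sum_congr rfl fun j _ => ?_
    rw [real_inner_smul_right, inner_ind]
  rw [← h5]
  have h6 : ‖(lazy t)^[n] (ind B)‖ ≤ ε * ‖ind B‖ := by
    have h7 := h4 n (ind B)
    have h8 : ‖(lazy t)^[n] (ind B)‖ ^ 2 ≤ (ε * ‖ind B‖) ^ 2 := by
      rw [mul_pow]
      refine h7.trans (mul_le_mul_of_nonneg_right hn.le (sq_nonneg _))
    exact (sq_le_sq₀ (norm_nonneg _) (by positivity)).1 h8
  refine (real_inner_le_norm _ _).trans ?_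
  rw [norm_tr]
  calc ‖ind B‖ * ‖(lazy t)^[n] (ind B)‖ ≤ ‖ind B‖ * (ε * ‖ind B‖) :=
        mul_le_mul_of_nonneg_left h6 (norm_nonneg _)
    _ = ε * ‖ind B‖ ^ 2 := by ring
    _ = ε * B.card := by rw [norm_ind]

end Pool.Agent.Lib.MP_90732c_al.Rt
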