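import Pool.Agent.Lib.MP_90732c_al.FdTuple
import Pool.Agent.Lib.MP_90732c_al.RtGap

/-! Invariant random tree-like metrics with labelled edges: directions of translates diverge. -/

set_option autoImplicit false

open MeasureTheory

namespace Pool.Agent.Lib.MP_90732c_al.Fd

open Pool.Agent.Lib.MP_90732c_al.Rt (pr Hyp exists_mixing)

variable {G : Type} [Group G] {Y : Type}

open Classical in
/-- Mixing for subsets of a free `G`-set. -/
lemma exists_mixing_prod {C : ℕ} (hna : TarskiLe G C) {ε : ℝ} (hε : 0 < ε) :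
    ∃ (J : Type) (_ : Fintype J) (c : J → ℝ) (u : J → G), (∀ j, 0 ≤ c j) ∧ ∑ j, c j = 1 ∧
      ∀ (B : Finset (G × Y)) (a : G), ∑ j, c j *
        ((B.filter fun b => ((u j)⁻¹ * (a * b.1), b.2) ∈ B).card : ℝ) ≤ ε * B.card := by
  obtain ⟨J, hJ, c, u, h1, h2, h3⟩ := exists_mixing hna hε
  refine ⟨J, hJ, c, u, h1, h2, fun B a => ?_⟩
  let Bf : Y → Finset G := fun y => (B.filter fun b => b.2 = y).image Prod.fst
  have hmem : ∀ y g, g ∈ Bf y ↔ (g, y) ∈ B := by
    intro y g
    simp only [Bf, Finset.mem_image, Finset.mem_filter]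
    constructor
    · rintro ⟨⟨g', y'⟩, ⟨h4, h5⟩, h6⟩
      simp only at h5 h6
      rwa [← h5, ← h6]
    · intro h4
      exact ⟨(g, y), ⟨h4, rfl⟩, rfl⟩
  have hcard : ∀ y (P : G × Y → Prop) [DecidablePred P], ((B.filter P).filter fun b => b.2 = y).card =
      ((Bf y).filter fun g => P (g, y)).card := by
    intro y P _
    apply Finset.card_bij (fun b _ => b.1)
    · rintro ⟨g, y'⟩ hb
      simp only [Finset.mem_filter] at hb
      obtain ⟨⟨h4, h5⟩, h6⟩ := hb
      subst h6
      rw [Finset.mem_filter, hmem]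
      exact ⟨h4, h5⟩
    · rintro ⟨g, y'⟩ hb ⟨g', y''⟩ hb' h
      simp only [Finset.mem_filter] at hb hb'
      simp only at h
      rw [h, hb.2, hb'.2]
    · intro g hg
      rw [Finset.mem_filter, hmem] at hg
      refine ⟨(g, y), ?_, rfl⟩
      simp only [Finset.mem_filter]
      exact ⟨⟨hg.1, hg.2⟩, trivial⟩
  have hsum : ∀ (P : G × Y → Prop) [DecidablePred P], ((B.filter P).card : ℝ) =
      ∑ y ∈ B.image Prod.snd, (((Bf y).filter fun g => P (g, y)).card : ℝ) := by
    intro P _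
    rw [Finset.card_eq_sum_card_fiberwise (f := Prod.snd) (t := B.image Prod.snd)]
    · push_cast
      refine Finset.sum_congr rfl fun y _ => ?_
      rw [hcard]
    · intro b hb
      rw [Finset.mem_coe, Finset.mem_filter] at hb
      exact Finset.mem_coe.2 (Finset.mem_image_of_mem _ hb.1)
  have hcardB : (B.card : ℝ) = ∑ y ∈ B.image Prod.snd, ((Bf y).card : ℝ) := by
    have h4 := hsum (fun _ => True)
    simpa using h4
  calc ∑ j, c j * ((B.filter fun b => ((u j)⁻¹ * (a * b.1), b.2) ∈ B).card : ℝ) =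
      ∑ y ∈ B.image Prod.snd, ∑ j, c j *
        (((Bf y).filter fun b => (u j)⁻¹ * (a * b) ∈ Bf y).card : ℝ) := by
        rw [Finset.sum_comm]
        refine Finset.sum_congr rfl fun j _ => ?_
        rw [hsum, Finset.mul_sum]
        refine Finset.sum_congr rfl fun y _ => ?_
        congr 3
        ext g
        simp only [Finset.mem_filter, hmem]
    _ ≤ ∑ y ∈ B.image Prod.snd, ε * ((Bf y).card : ℝ) :=
        Finset.sum_le_sum fun y _ => h3 (Bf y) a
    _ = ε * B.card := by rw [hcardB, Finset.mul_sum]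

variable {X : Type} [MeasurableSpace X] [MulAction G X]

/-- A family of labelled edges on the initial parts of the paths. -/
structure Paths (μ : Measure X) (d : X → G → G → ℕ) (E : X → G → G → ℕ → Set (G × Y)) :
    Prop where
  meas : ∀ a b n p, MeasurableSet {x | p ∈ E x a b n}
  equi : ∀ (g : G) (x : X) (a b : G) (n : ℕ) (c : G) (y : Y),
    (g * c, y) ∈ E (g • x) (g * a) (g * b) n ↔ (c, y) ∈ E x a b n
  fin : ∀ᵐ x ∂μ, ∀ a b n, (E x a b n).Finite ∧ (E x a b n).ncard ≤ n
  common : ∀ᵐ x ∂μ, ∀ (o h h' b b' : G) (R n m : ℕ), (2 * n : ℤ) ≤ pr (d x) o b b' →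
    d x o h ≤ R → d x o h' ≤ R → 2 * R + m + 2 ≤ n →
    ∃ φ : Fin m → G × Y, Function.Injective φ ∧ ∀ j, φ j ∈ E x h b n ∧ φ j ∈ E x h' b' n

variable {μ : Measure X} {d : X → G → G → ℕ} {E : X → G → G → ℕ → Set (G × Y)}

lemma tsum_measure_eq {ι X : Type} [MeasurableSpace X] {μ : Measure X} [Countable ι]
    (p : ι → X → Prop) [∀ c x, Decidable (p c x)] (hp : ∀ c, MeasurableSet {x | p c x}) :
    ∑' c, μ {x | p c x} = ∫⁻ x, ∑' c, (if p c x then (1 : ENNReal) else 0) ∂μ := by
  rw [lintegral_tsum]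
  · congr 1
    funext c
    rw [← lintegral_indicator_one (hp c)]
    congr 1
    funext x
    by_cases h : p c x
    · rw [if_pos h, Set.indicator_of_mem (by exact h), Pi.one_apply]
    · rw [if_neg h, Set.indicator_of_notMem (by exact h)]
  · intro c
    exact (Measurable.ite (hp c) measurable_const measurable_const).aemeasurable

/-- The set of places from which the initial part of the path to `g` passes through the base
edge. -/
def Bs (E : X → G → G → ℕ → Set (G × Y)) (n : ℕ) (g : G) (y : X) : Set (G × Y) :=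
  {c | c ∈ E (c.1 • y) 1 g n}

lemma Paths.mem_iff (hE : Paths μ d E) (n : ℕ) (g h : G) (c : G × Y) (x : X) :
    c ∈ E x h (h * g) n ↔ (h⁻¹ * c.1, c.2) ∈ E (h⁻¹ • x) 1 g n := by
  have h1 := hE.equi h (h⁻¹ • x) 1 g n (h⁻¹ * c.1) c.2
  rw [mul_inv_cancel_left, smul_inv_smul, mul_one] at h1
  exact h1

open Classical in
/-- The number of common edges. -/
noncomputable def Nc (E : X → G → G → ℕ → Set (G × Y)) (n : ℕ) (g a h : G) (y : X) : ENNReal :=
  ∑' c : G × Y, if (a⁻¹ * c.1, c.2) ∈ Bs E n g y ∧ (h⁻¹ * c.1, c.2) ∈ Bs E n g y then 1 else 0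

lemma Paths.set_eq (hE : Paths μ d E) (n : ℕ) (g a h : G) (c : G × Y) :
    {y | (a⁻¹ * c.1, c.2) ∈ Bs E n g y ∧ (h⁻¹ * c.1, c.2) ∈ Bs E n g y} =
      (fun x : X => c.1 • x) ⁻¹' {x | c ∈ E x a (a * g) n ∧ c ∈ E x h (h * g) n} := by
  ext y
  simp only [Set.mem_ofPred_eq, Set.mem_preimage, hE.mem_iff, Bs, smul_smul]

lemma Paths.meas_both (hE : Paths μ d E) (n : ℕ) (g a h : G) (c : G × Y) :
    MeasurableSet {x | c ∈ E x a (a * g) n ∧ c ∈ E x h (h * g) n} :=
  (hE.meas a (a * g) n c).inter (hE.meas h (h * g) n c)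

open Classical in
lemma Paths.measure_both [Countable G] [Countable Y] (hd : InvMet μ d) (hE : Paths μ d E) (n : ℕ)
    (g a h : G) :
    ∑' c : G × Y, μ {x | c ∈ E x a (a * g) n ∧ c ∈ E x h (h * g) n} =
      ∫⁻ y, Nc E n g a h y ∂μ := by
  have hm' : ∀ c : G × Y, MeasurableSet
      {y | (a⁻¹ * c.1, c.2) ∈ Bs E n g y ∧ (h⁻¹ * c.1, c.2) ∈ Bs E n g y} := by
    intro c
    rw [hE.set_eq]
    exact (hd.mp c.1).measurable (hE.meas_both n g a h c)
  unfold Nc
  rw [← tsum_measure_eq (fun (c : G × Y) y => (a⁻¹ * c.1, c.2) ∈ Bs E n g y ∧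
    (h⁻¹ * c.1, c.2) ∈ Bs E n g y) hm']
  congr 1
  funext c
  rw [← (hd.mp c.1).measure_preimage (hE.meas_both n g a h c).nullMeasurableSet, ← hE.set_eq]

open Classical in
/-- The expected number of common edges is at least `m` times the probability of a long common
part. -/
lemma Paths.le_lintegral [Countable G] [Countable Y] (hd : InvMet μ d) (hE : Paths μ d E)
    (n m R : ℕ) (hn : 2 * R + m + 2 ≤ n) (g a h : G) :
    (m : ENNReal) * μ {x | (2 * n : ℤ) ≤ pr (d x) 1 (a * g) (h * g) ∧ d x 1 a ≤ R ∧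
      d x 1 h ≤ R} ≤ ∫⁻ y, Nc E n g a h y ∂μ := by
  rw [← hE.measure_both hd]
  set Ev := {x | (2 * n : ℤ) ≤ pr (d x) 1 (a * g) (h * g) ∧ d x 1 a ≤ R ∧ d x 1 h ≤ R} with hEv
  have hEvm : MeasurableSet Ev :=
    (hd.meas_pr 1 (a * g) (h * g) (2 * n)).inter ((hd.meas_le 1 a R).inter (hd.meas_le 1 h R))
  have h1 : ∑' c : G × Y, μ {x | c ∈ E x a (a * g) n ∧ c ∈ E x h (h * g) n} =
      ∫⁻ x, ∑' c : G × Y, (if c ∈ E x a (a * g) n ∧ c ∈ E x h (h * g) n then
        (1 : ENNReal) else 0) ∂μ := tsum_measure_eq _ (hE.meas_both n g a h)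
  rw [h1, ← lintegral_indicator_const hEvm]
  apply lintegral_mono_ae
  filter_upwards [hE.common] with x hx
  by_cases hxE : x ∈ Ev
  · rw [Set.indicator_of_mem hxE]
    obtain ⟨φ, hφ1, hφ2⟩ := hx 1 a h (a * g) (h * g) R n m hxE.1 hxE.2.1 hxE.2.2 hn
    have h2 := ENNReal.sum_le_tsum (f := fun c : G × Y =>
      if c ∈ E x a (a * g) n ∧ c ∈ E x h (h * g) n then (1 : ENNReal) else 0)
      (Finset.univ.image φ)
    refine le_trans ?_ h2
    rw [Finset.sum_image (fun i _ j _ hij => hφ1 hij)]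
    have h3 : ∀ j ∈ (Finset.univ : Finset (Fin m)),
        (if φ j ∈ E x a (a * g) n ∧ φ j ∈ E x h (h * g) n then (1 : ENNReal)
          else 0) = 1 := fun j _ => if_pos (hφ2 j)
    rw [Finset.sum_congr rfl h3]
    simp
  · rw [Set.indicator_of_notMem hxE]
    exact zero_le

open Classical in
/-- The expected size of `Bs`. -/
lemma Paths.lintegral_Bs [IsProbabilityMeasure μ] [Countable G] [Countable Y] (hd : InvMet μ d)
    (hE : Paths μ d E) (n : ℕ) (g : G) :
    ∫⁻ y, ∑' c : G × Y, (if c ∈ Bs E n g y then (1 : ENNReal) else 0) ∂μ ≤ n := by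
  have h0 : ∫⁻ y, ∑' c : G × Y, (if c ∈ Bs E n g y then (1 : ENNReal) else 0) ∂μ =
      ∫⁻ y, Nc E n g 1 1 y ∂μ := by
    congr 1
    funext y
    unfold Nc
    congr 1
    funext c
    simp
  rw [h0, ← hE.measure_both hd]
  have h1 : ∑' c : G × Y, μ {x | c ∈ E x 1 (1 * g) n ∧ c ∈ E x 1 (1 * g) n} =
      ∫⁻ x, ∑' c : G × Y, (if c ∈ E x 1 (1 * g) n ∧ c ∈ E x 1 (1 * g) n then
        (1 : ENNReal) else 0) ∂μ := tsum_measure_eq _ (hE.meas_both n g 1 1)
  rw [h1]
  have h2 : ∫⁻ x, ∑' c : G × Y, (if c ∈ E x 1 (1 * g) n ∧ c ∈ E x 1 (1 * g) n then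
        (1 : ENNReal) else 0) ∂μ ≤ ∫⁻ _x, (n : ENNReal) ∂μ := by
    apply lintegral_mono_ae
    filter_upwards [hE.fin] with x hx
    obtain ⟨h3, h5⟩ := hx 1 (1 * g) n
    rw [tsum_eq_sum (s := h3.toFinset)]
    · have h4 : ∀ c ∈ h3.toFinset, (if c ∈ E x 1 (1 * g) n ∧ c ∈ E x 1 (1 * g) n
          then (1 : ENNReal) else 0) = 1 := by
        intro c hc
        rw [Set.Finite.mem_toFinset] at hc
        exact if_pos ⟨hc, hc⟩
      rw [Finset.sum_congr rfl h4]
      rw [Set.ncard_eq_toFinset_card _ h3] at h5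
      simpa using h5
    · intro c hc
      rw [Set.Finite.mem_toFinset] at hc
      exact if_neg fun h => hc h.1
  refine h2.trans ?_
  simp

open Classical in
lemma Paths.measurable_Nc [Countable G] [Countable Y] (hd : InvMet μ d) (hE : Paths μ d E)
    (n : ℕ) (g a h : G) : Measurable (Nc E n g a h) := by
  unfold Nc
  apply Measurable.tsum
  intro c
  have hm : MeasurableSet
      {y | (a⁻¹ * c.1, c.2) ∈ Bs E n g y ∧ (h⁻¹ * c.1, c.2) ∈ Bs E n g y} := by
    rw [hE.set_eq]
    exact (hd.mp c.1).measurable (hE.meas_both n g a h c)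
  exact Measurable.ite hm measurable_const measurable_const

open Classical in
omit [MeasurableSpace X] in
lemma Nc_eq (E : X → G → G → ℕ → Set (G × Y)) (n : ℕ) (g a h : G) (y : X) (B : Finset (G × Y))
    (hB : ∀ c, c ∈ B ↔ c ∈ Bs E n g y) :
    Nc E n g a h y = ((B.filter fun b => (h⁻¹ * (a * b.1), b.2) ∈ B).card : ENNReal) := by
  unfold Nc
  let e : G × Y ≃ G × Y := (Equiv.mulLeft a).prodCongr (Equiv.refl Y)
  rw [← e.tsum_eq, tsum_eq_sum (s := B)]
  · rw [Finset.card_filter]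
    push_cast
    refine Finset.sum_congr rfl fun b hb => ?_
    have h0 : (a⁻¹ * (e b).1, (e b).2) = b := by
      simp [e]
    have h0' : (h⁻¹ * (e b).1, (e b).2) = (h⁻¹ * (a * b.1), b.2) := by
      simp [e]
    rw [h0, h0', ← hB, ← hB]
    by_cases h1 : (h⁻¹ * (a * b.1), b.2) ∈ B
    · rw [if_pos h1, if_pos ⟨hb, h1⟩]
    · rw [if_neg h1, if_neg (fun h2 => h1 h2.2)]
  · intro b hb
    have h0 : (a⁻¹ * (e b).1, (e b).2) = b := by
      simp [e]
    rw [h0, ← hB]
    rw [if_neg (fun h2 => hb h2.1)]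

open Classical in
lemma Paths.sum_le [IsProbabilityMeasure μ] [Countable G] [Countable Y] (hd : InvMet μ d)
    (hE : Paths μ d E) {J : Type}
    [Fintype J] (c : J → ℝ) (u : J → G) (hc : ∀ j, 0 ≤ c j) {ε : ℝ} (hε : 0 ≤ ε)
    (h : ∀ (B : Finset (G × Y)) (a : G),
        ∑ j, c j * ((B.filter fun b => ((u j)⁻¹ * (a * b.1), b.2) ∈ B).card : ℝ) ≤ ε * B.card)
    (n : ℕ) (g a : G) :
    ∑ j, ENNReal.ofReal (c j) * ∫⁻ y, Nc E n g a (u j) y ∂μ ≤ ENNReal.ofReal ε * n := by
  have h1 : ∑ j, ENNReal.ofReal (c j) * ∫⁻ y, Nc E n g a (u j) y ∂μ =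
      ∫⁻ y, ∑ j, ENNReal.ofReal (c j) * Nc E n g a (u j) y ∂μ := by
    rw [lintegral_finsetSum]
    · refine Finset.sum_congr rfl fun j _ => ?_
      rw [lintegral_const_mul _ (hE.measurable_Nc hd n g a (u j))]
    · intro j _
      exact (hE.measurable_Nc hd n g a (u j)).const_mul _
  have h2 := hE.lintegral_Bs hd n g
  have hmeas : Measurable fun y => ∑' c : G × Y,
      (if c ∈ Bs E n g y then (1 : ENNReal) else 0) := by
    have h3 := hE.measurable_Nc hd n g 1 1
    have h4 : (fun y => ∑' c : G × Y, (if c ∈ Bs E n g y then (1 : ENNReal) else 0)) =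
        Nc E n g 1 1 := by
      funext y
      unfold Nc
      congr 1
      funext c
      simp
    rw [h4]; exact h3
  have h3 : ∀ᵐ y ∂μ, ∑' c : G × Y, (if c ∈ Bs E n g y then (1 : ENNReal) else 0) < ⊤ := by
    apply ae_lt_top hmeas
    exact ne_top_of_le_ne_top (ENNReal.natCast_ne_top n) h2
  rw [h1]
  calc ∫⁻ y, ∑ j, ENNReal.ofReal (c j) * Nc E n g a (u j) y ∂μ ≤
      ∫⁻ y, ENNReal.ofReal ε * ∑' c : G × Y,
        (if c ∈ Bs E n g y then (1 : ENNReal) else 0) ∂μ := by
        apply lintegral_mono_ae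
        filter_upwards [h3] with y hy
        have hfin : (Bs E n g y).Finite := by
          have h4 := ENNReal.finite_const_le_of_tsum_ne_top hy.ne one_ne_zero
          apply h4.subset
          intro c hc
          change (1 : ENNReal) ≤ if c ∈ Bs E n g y then 1 else 0
          rw [if_pos hc]
        set B := hfin.toFinset with hB
        have hB' : ∀ c, c ∈ B ↔ c ∈ Bs E n g y := fun c => hfin.mem_toFinset
        have h5 : ∑' c : G × Y, (if c ∈ Bs E n g y then (1 : ENNReal) else 0) =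
            (B.card : ENNReal) := by
          rw [tsum_eq_sum (s := B)]
          · rw [Finset.sum_congr rfl fun c hc => if_pos ((hB' c).1 hc)]
            simp
          · intro c hc
            exact if_neg fun h => hc ((hB' c).2 h)
        rw [h5]
        simp only [Nc_eq E n g a _ y B hB']
        have h6 := h B a
        have h7 := ENNReal.ofReal_le_ofReal h6
        rw [ENNReal.ofReal_mul hε, ENNReal.ofReal_natCast,
          ENNReal.ofReal_sum_of_nonneg (fun j _ => mul_nonneg (hc j) (Nat.cast_nonneg _))] at h7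
        refine le_trans (le_of_eq ?_) h7
        refine Finset.sum_congr rfl fun j _ => ?_
        rw [ENNReal.ofReal_mul (hc j), ENNReal.ofReal_natCast]
    _ = ENNReal.ofReal ε * ∫⁻ y, ∑' c : G × Y,
        (if c ∈ Bs E n g y then (1 : ENNReal) else 0) ∂μ := lintegral_const_mul _ hmeas
    _ ≤ ENNReal.ofReal ε * n := by gcongr

/-- **Divergence of directions.** -/
theorem Paths.diverges [IsProbabilityMeasure μ] [Countable G] [Countable Y] (hd : InvMet μ d)
    (hE : Paths μ d E) {C : ℕ} (hna : TarskiLe G C) : Diverges μ d := by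
  classical
  intro ε hε H L₀
  set r : ℝ := H.card + 1 with hr
  have hrpos : 0 < r := by positivity
  set δ : ℝ := ε / (8 * r) with hδ
  have hδpos : 0 < δ := by positivity
  obtain ⟨J, _, c, u, hc1, hc2, hc3⟩ := exists_mixing_prod (Y := Y) hna hδpos
  obtain ⟨R, hR⟩ := hd.exists_tight (H ∪ Finset.univ.image u) hδpos
  set m := max L₀ (R + 1) with hm
  have hm1 : R + 1 ≤ m := le_max_right _ _
  have hm0 : 0 < m := by omega
  refine ⟨4 * m, by have := le_max_left L₀ (R + 1); omega, Finset.univ.image u, fun g => ?_⟩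
  set n := 4 * m with hn
  -- the bound for one `a`
  have key : ∀ a ∈ H, ∑ j, c j * μ.real {x | (2 * n : ℤ) ≤ pr (d x) 1 (a * g) (u j * g)} ≤
      6 * δ := by
    intro a ha
    let Ev : J → Set X := fun j => {x | (2 * n : ℤ) ≤ pr (d x) 1 (a * g) (u j * g) ∧
      d x 1 a ≤ R ∧ d x 1 (u j) ≤ R}
    have h1 : ∑ j, ENNReal.ofReal (c j) * ((m : ENNReal) * μ (Ev j)) ≤
        ENNReal.ofReal δ * n := by
      refine le_trans (Finset.sum_le_sum fun j _ => ?_) (hE.sum_le hd c u hc1 hδpos.le hc3 n g a)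
      gcongr
      exact hE.le_lintegral hd n m R (by omega) g a (u j)
    have h2 : ∑ j, c j * (m * μ.real (Ev j)) ≤ δ * n := by
      have h3 := ENNReal.toReal_mono (by
        exact ENNReal.mul_ne_top ENNReal.ofReal_ne_top (ENNReal.natCast_ne_top _)) h1
      rw [ENNReal.toReal_sum (by
        intro j _
        exact ENNReal.mul_ne_top ENNReal.ofReal_ne_top
          (ENNReal.mul_ne_top (ENNReal.natCast_ne_top _) (measure_ne_top _ _))),
        ENNReal.toReal_mul, ENNReal.toReal_ofReal hδpos.le, ENNReal.toReal_natCast] at h3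
      refine le_trans (le_of_eq ?_) h3
      refine Finset.sum_congr rfl fun j _ => ?_
      rw [ENNReal.toReal_mul, ENNReal.toReal_mul, ENNReal.toReal_ofReal (hc1 j),
        ENNReal.toReal_natCast]
      rfl
    have h3 : ∑ j, c j * μ.real (Ev j) ≤ 4 * δ := by
      have hmR : (0 : ℝ) < m := by exact_mod_cast hm0
      have h4 : ∑ j, c j * (m * μ.real (Ev j)) = m * ∑ j, c j * μ.real (Ev j) := by
        rw [Finset.mul_sum]
        refine Finset.sum_congr rfl fun j _ => ?_
        ring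
      rw [h4, hn] at h2
      push_cast at h2
      have h5 : (m : ℝ) * ∑ j, c j * μ.real (Ev j) ≤ m * (4 * δ) := by linarith
      exact le_of_mul_le_mul_left h5 hmR
    have h4 : ∀ j, μ.real {x | (2 * n : ℤ) ≤ pr (d x) 1 (a * g) (u j * g)} ≤
        μ.real (Ev j) + 2 * δ := by
      intro j
      have h5 : {x | (2 * n : ℤ) ≤ pr (d x) 1 (a * g) (u j * g)} ⊆
          Ev j ∪ ({x | R < d x 1 a} ∪ {x | R < d x 1 (u j)}) := by
        intro x hx
        by_cases h6 : d x 1 a ≤ R
        · by_cases h7 : d x 1 (u j) ≤ R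
          · exact Or.inl ⟨hx, h6, h7⟩
          · exact Or.inr (Or.inr (not_le.1 h7))
        · exact Or.inr (Or.inl (not_le.1 h6))
      have h6 := measureReal_mono (μ := μ) h5
      have h7 := measureReal_union_le (μ := μ) (Ev j) ({x | R < d x 1 a} ∪ {x | R < d x 1 (u j)})
      have h8 := measureReal_union_le (μ := μ) {x | R < d x 1 a} {x | R < d x 1 (u j)}
      have h9 := hR a (Finset.mem_union_left _ ha)
      have h10 := hR (u j) (Finset.mem_union_right _ (Finset.mem_image_of_mem _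
        (Finset.mem_univ _)))
      linarith
    calc ∑ j, c j * μ.real {x | (2 * n : ℤ) ≤ pr (d x) 1 (a * g) (u j * g)} ≤
        ∑ j, (c j * μ.real (Ev j) + c j * (2 * δ)) := by
          refine Finset.sum_le_sum fun j _ => ?_
          rw [← mul_add]
          exact mul_le_mul_of_nonneg_left (h4 j) (hc1 j)
      _ = ∑ j, c j * μ.real (Ev j) + 2 * δ := by
          rw [Finset.sum_add_distrib, ← Finset.sum_mul, hc2, one_mul]
      _ ≤ 6 * δ := by linarith
  by_contra hcon
  push Not at hcon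
  have h1 : ∀ j, ε ≤ ∑ a ∈ H, μ.real {x | (2 * n : ℤ) ≤ pr (d x) 1 (a * g) (u j * g)} := by
    intro j
    obtain ⟨a, ha, h2⟩ := hcon (u j) (Finset.mem_image_of_mem _ (Finset.mem_univ _))
    refine h2.le.trans ?_
    exact Finset.single_le_sum (f := fun a => μ.real {x | (2 * n : ℤ) ≤
      pr (d x) 1 (a * g) (u j * g)}) (fun _ _ => measureReal_nonneg) ha
  have h2 : ε ≤ ∑ j, c j * ∑ a ∈ H, μ.real {x | (2 * n : ℤ) ≤
      pr (d x) 1 (a * g) (u j * g)} := by
    calc ε = ∑ j, c j * ε := by rw [← Finset.sum_mul, hc2, one_mul]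
      _ ≤ _ := Finset.sum_le_sum fun j _ => mul_le_mul_of_nonneg_left (h1 j) (hc1 j)
  have h3 : ∑ j, c j * ∑ a ∈ H, μ.real {x | (2 * n : ℤ) ≤ pr (d x) 1 (a * g) (u j * g)} =
      ∑ a ∈ H, ∑ j, c j * μ.real {x | (2 * n : ℤ) ≤ pr (d x) 1 (a * g) (u j * g)} := by
    simp only [Finset.mul_sum]
    exact Finset.sum_comm
  rw [h3] at h2
  have h4 := Finset.sum_le_sum key
  rw [Finset.sum_const, nsmul_eq_mul] at h4
  have h5 : (H.card : ℝ) * (6 * δ) < ε := by
    have h6 : δ * (8 * r) = ε := by rw [hδ]; field_simp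
    rw [← h6, hr]
    nlinarith [Nat.cast_nonneg (α := ℝ) H.card]
  linarith

end Pool.Agent.Lib.MP_90732c_al.Fd
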