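import Pool.Agent.Lib.MP_90732c_al.FdBase

/-! Distances in random trees of classes are unbounded in probability. -/

set_option autoImplicit false

open MeasureTheory

namespace Pool.Agent.Lib.MP_90732c_al.Fd

open Pool.Agent.Lib.MP_90732c_al.Rt (sum_measure_le)

variable {G : Type} [Group G] {Z : Type} {X : Type} [MeasurableSpace X] [MulAction G X]
variable {μ : Measure X} {S : X → Setoid (G × Z)} {T : X → SimpleGraph (G × Z)}

/-- The number of large classes is different from one. -/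
def Nondeg (μ : Measure X) (S : X → Setoid (G × Z)) : Prop :=
  ∀ᵐ x ∂μ, ¬ ∃! C : Quotient (S x), ∃ z, {g : G | Quotient.mk (S x) (g, z) = C}.Infinite

/-- Paths stay in a finite window with high probability. -/
lemma RandArb.exists_window [IsProbabilityMeasure μ] [Countable G] [Countable Z]
    (h : RandArb μ S T) (u v : G × Z) {ε : ℝ} (hε : 0 < ε) :
    ∃ F : Finset (G × Z), μ.real {x | ∃ c ∈ Ed (S x) (T x) u v (cd (S x) (T x) u v),
      c.1 ∉ F ∨ c.2 ∉ F} ≤ ε := by
  classical
  have : Nonempty (G × Z) := ⟨u⟩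
  obtain ⟨e, he⟩ := exists_surjective_nat (G × Z)
  set D : ℕ → Set X := fun k => {x | ∃ c ∈ Ed (S x) (T x) u v (cd (S x) (T x) u v),
    c.1 ∉ (Finset.range k).image e ∨ c.2 ∉ (Finset.range k).image e} with hD
  have hmeas : ∀ k, MeasurableSet (D k) := by
    intro k
    have h1 : D k = ⋃ c : (G × Z) × (G × Z), (({x | (T x).Adj c.1 c.2} ∩
        {x | cd (S x) (T x) u c.1 + 1 + cd (S x) (T x) c.2 v = cd (S x) (T x) u v ∧
          cd (S x) (T x) u c.1 < cd (S x) (T x) u v}) ∩
        {_x | c.1 ∉ (Finset.range k).image e ∨ c.2 ∉ (Finset.range k).image e}) := by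
      ext x
      simp only [hD, Ed, Set.mem_ofPred_eq, Set.mem_iUnion, Set.mem_inter_iff]
    rw [h1]
    refine MeasurableSet.iUnion fun c => ?_
    exact ((h.measT _ _).inter (h.meas3 (fun a b d => a + 1 + b = d ∧ a < d) u c.1 c.2 v u v)).inter
      (MeasurableSet.const _)
  have hanti : Antitone D := by
    intro k l hkl x hx
    obtain ⟨c, h1, h2⟩ := hx
    refine ⟨c, h1, ?_⟩
    have h3 : (Finset.range k).image e ⊆ (Finset.range l).image e :=
      Finset.image_subset_image (Finset.range_mono hkl)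
    exact h2.imp (fun h4 h5 => h4 (h3 h5)) (fun h4 h5 => h4 (h3 h5))
  have h1 := tendsto_measure_iInter_atTop (μ := μ) (fun k => (hmeas k).nullMeasurableSet) hanti
    ⟨0, measure_ne_top _ _⟩
  have h2 : μ (⋂ k, D k) = 0 := by
    have h3 : (⋂ k, D k) ⊆ {x | ¬ Arb (S x) (T x)} := by
      intro x hx
      simp only [Set.mem_ofPred_eq]
      intro ht
      have hfin := ht.finite_Ed u v (cd (S x) (T x) u v)
      choose f hf using he
      have h4 : ∃ k, ∀ c ∈ Ed (S x) (T x) u v (cd (S x) (T x) u v), f c.1 < k ∧ f c.2 < k := by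
        obtain ⟨k, hk⟩ := (hfin.image fun c => max (f c.1) (f c.2)).bddAbove
        refine ⟨k + 1, fun c hc => ?_⟩
        have h5 : max (f c.1) (f c.2) ≤ k :=
          hk (Set.mem_image_of_mem (fun c => max (f c.1) (f c.2)) hc)
        have h6 := le_max_left (f c.1) (f c.2)
        have h7 := le_max_right (f c.1) (f c.2)
        omega
      obtain ⟨k, hk⟩ := h4
      obtain ⟨c, h5, h6⟩ := Set.mem_iInter.1 hx k
      rcases h6 with h6 | h6 <;> apply h6 <;> rw [Finset.mem_image]
      · exact ⟨f c.1, Finset.mem_range.2 (hk c h5).1, hf c.1⟩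
      · exact ⟨f c.2, Finset.mem_range.2 (hk c h5).2, hf c.2⟩
    exact measure_mono_null h3 (ae_iff.1 h.arb)
  rw [h2] at h1
  obtain ⟨k, hk⟩ := (h1.eventually (gt_mem_nhds (ENNReal.ofReal_pos.2 hε))).exists
  refine ⟨(Finset.range k).image e, ?_⟩
  rw [Measure.real, ← ENNReal.toReal_ofReal hε.le]
  exact ENNReal.toReal_mono ENNReal.ofReal_ne_top hk.le

/-- Many almost inequivalent translates of a finite set. -/
lemma RandArb.exists_translates [IsProbabilityMeasure μ] [Countable G] [Countable Z] [Infinite G]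
    (h : RandArb μ S T) (hdeg : Nondeg μ S) (K : Finset (G × Z)) {ε : ℝ} (hε : 0 < ε) (m : ℕ) :
    ∃ v : Fin m → G, ∀ i j, i ≠ j → ∀ u ∈ K, ∀ w ∈ K,
      μ.real {x | (S x) (sh (v i) u) (sh (v j) w)} ≤ ε := by
  classical
  induction m with
  | zero => exact ⟨Fin.elim0, fun i => i.elim0⟩
  | succ m ih =>
    obtain ⟨v, hv⟩ := ih
    obtain ⟨g, hg⟩ := h.base hdeg
      (K ∪ Finset.univ.biUnion fun i => K.image (sh (v i))) hε
    have h1 : ∀ i, ∀ u ∈ K, ∀ w ∈ K, μ.real {x | (S x) (sh (v i) u) (sh g w)} ≤ ε := by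
      intro i u hu w hw
      refine hg _ (Finset.mem_union_right _ ?_) w (Finset.mem_union_left _ hw)
      rw [Finset.mem_biUnion]
      exact ⟨i, Finset.mem_univ _, Finset.mem_image_of_mem _ hu⟩
    refine ⟨Fin.snoc v g, ?_⟩
    intro i j hij u hu w hw
    induction i using Fin.lastCases with
    | last =>
      induction j using Fin.lastCases with
      | last => exact absurd rfl hij
      | cast j =>
        rw [Fin.snoc_last, Fin.snoc_castSucc]
        have h2 : {x | (S x) (sh g u) (sh (v j) w)} = {x | (S x) (sh (v j) w) (sh g u)} := by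
          ext x
          exact ⟨fun h => (S x).symm h, fun h => (S x).symm h⟩
        rw [h2]
        exact h1 j w hw u hu
    | cast i =>
      induction j using Fin.lastCases with
      | last =>
        rw [Fin.snoc_last, Fin.snoc_castSucc]
        exact h1 i u hu w hw
      | cast j =>
        rw [Fin.snoc_castSucc, Fin.snoc_castSucc]
        exact hv i j (fun h => hij (by rw [h])) u hu w hw

lemma RandArb.shift_cd [Countable G] [Countable Z] (h : RandArb μ S T) (R : ℕ) (k : G)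
    (a b : G × Z) :
    μ.real {x | cd (S x) (T x) (sh k a) (sh k b) ≤ R} = μ.real {x | cd (S x) (T x) a b ≤ R} := by
  rw [Measure.real, ← (h.mp k).measure_preimage
    (h.meas3 (fun u _ _ => u ≤ R) (sh k a) (sh k b) a a a a).nullMeasurableSet]
  congr 2
  ext x
  simp only [Set.mem_preimage, Set.mem_ofPred_eq, h.cd_equi]

/-- **Distances are unbounded in probability.** -/
theorem RandArb.exists_far [IsProbabilityMeasure μ] [Countable G] [Countable Z] [Infinite G]
    (h : RandArb μ S T) (hdeg : Nondeg μ S) (R : ℕ) :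
    ∀ (K : Finset (G × Z)) (ε : ℝ), 0 < ε →
      ∃ g : G, ∀ u ∈ K, ∀ w ∈ K, μ.real {x | cd (S x) (T x) u (sh g w) ≤ R} ≤ ε := by
  classical
  induction R with
  | zero =>
    intro K ε hε
    obtain ⟨g, hg⟩ := h.base hdeg K hε
    refine ⟨g, fun u hu w hw => ?_⟩
    refine le_trans (real_le_of_ae ?_) (hg u hu w hw)
    filter_upwards [h.arb] with x hx h2
    exact (hx.cd_eq_zero _ _).1 (Nat.le_zero.1 h2)
  | succ R ih =>
    intro K ε hε
    set k : ℝ := (K.card : ℝ) with hk
    have hk0 : 0 ≤ k := by positivity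
    obtain ⟨m, hm⟩ := exists_nat_gt (2 * k / ε)
    have hmpos : (0 : ℝ) < m := lt_of_le_of_lt (by positivity) hm
    set ε₁ : ℝ := 1 / (3 * (k ^ 2 + 1) * ((m : ℝ) ^ 2 + 1)) with hε₁
    have hε₁pos : 0 < ε₁ := by positivity
    obtain ⟨v, hv⟩ := h.exists_translates hdeg K hε₁pos m
    choose W hW using fun u u' => h.exists_window u u' hε₁pos
    set U : Finset (G × Z) := Finset.univ.biUnion fun i => K.image (sh (v i)) with hU
    have hmemU : ∀ i, ∀ u ∈ K, sh (v i) u ∈ U := by
      intro i u hu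
      rw [hU, Finset.mem_biUnion]
      exact ⟨i, Finset.mem_univ _, Finset.mem_image_of_mem _ hu⟩
    set WW : Finset (G × Z) := (U ×ˢ U).biUnion fun p => W p.1 p.2 with hWW
    obtain ⟨g, hg⟩ := ih (WW ∪ K) (ε₁ / (WW.card + 1)) (by positivity)
    -- the events
    have hpair : ∀ κ ∈ K, ∀ u ∈ U, ∀ u' ∈ U, μ.real {x | (S x) u u'} ≤ ε₁ →
        μ.real ({x | cd (S x) (T x) u (sh g κ) ≤ R + 1} ∩
          {x | cd (S x) (T x) u' (sh g κ) ≤ R + 1}) ≤ 3 * ε₁ := by
      intro κ hκ u hu u' hu' hS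
      have h1 : μ.real ({x | cd (S x) (T x) u (sh g κ) ≤ R + 1} ∩
          {x | cd (S x) (T x) u' (sh g κ) ≤ R + 1}) ≤ μ.real ({x | (S x) u u'} ∪
            ({x | ∃ c ∈ Ed (S x) (T x) u u' (cd (S x) (T x) u u'),
              c.1 ∉ W u u' ∨ c.2 ∉ W u u'} ∪
            ⋃ w ∈ WW, {x | cd (S x) (T x) w (sh g κ) ≤ R})) := by
        apply real_le_of_ae
        filter_upwards [h.arb] with x hx h2
        by_cases h3 : (S x) u u'
        · exact Or.inl h3
        · right
          obtain ⟨c, h4, h5⟩ := hx.med u u' (sh g κ) h3 h2.1 h2.2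
          by_cases h6 : c.1 ∉ W u u' ∨ c.2 ∉ W u u'
          · exact Or.inl ⟨c, h4, h6⟩
          · right
            push Not at h6
            have h7 : W u u' ⊆ WW := by
              intro w hw
              rw [hWW, Finset.mem_biUnion]
              exact ⟨(u, u'), Finset.mem_product.2 ⟨hu, hu'⟩, hw⟩
            rw [Set.mem_iUnion₂]
            rcases h5 with h5 | h5
            · exact ⟨c.1, h7 h6.1, h5⟩
            · exact ⟨c.2, h7 h6.2, h5⟩
      have h2 := measureReal_union_le (μ := μ) {x | (S x) u u'}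
        ({x | ∃ c ∈ Ed (S x) (T x) u u' (cd (S x) (T x) u u'), c.1 ∉ W u u' ∨ c.2 ∉ W u u'} ∪
            ⋃ w ∈ WW, {x | cd (S x) (T x) w (sh g κ) ≤ R})
      have h3 := measureReal_union_le (μ := μ)
        {x | ∃ c ∈ Ed (S x) (T x) u u' (cd (S x) (T x) u u'), c.1 ∉ W u u' ∨ c.2 ∉ W u u'}
        (⋃ w ∈ WW, {x | cd (S x) (T x) w (sh g κ) ≤ R})
      have h4 : μ.real (⋃ w ∈ WW, {x | cd (S x) (T x) w (sh g κ) ≤ R}) ≤ ε₁ := by
        refine (measureReal_biUnion_finset_le _ _).trans ?_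
        refine (Finset.sum_le_card_nsmul _ _ _ fun w hw =>
          hg w (Finset.mem_union_left _ hw) κ (Finset.mem_union_right _ hκ)).trans ?_
        rw [nsmul_eq_mul, mul_div_assoc', div_le_iff₀ (by positivity)]
        nlinarith [Nat.cast_nonneg (α := ℝ) WW.card]
      linarith [hW u u']
    -- for every target
    let F : G × Z → Fin m → Set X := fun κ i =>
      ⋃ w ∈ K, {x | cd (S x) (T x) (sh (v i) w) (sh g κ) ≤ R + 1}
    have hFm : ∀ κ i, MeasurableSet (F κ i) := fun κ i =>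
      Finset.measurableSet_biUnion _ fun w _ =>
        h.meas3 (fun u _ _ => u ≤ R + 1) (sh (v i) w) (sh g κ) w w w w
    have hFpair : ∀ κ ∈ K, ∀ i ∈ (Finset.univ : Finset (Fin m)),
        ∀ j ∈ (Finset.univ : Finset (Fin m)), i ≠ j →
        μ.real (F κ i ∩ F κ j) ≤ k ^ 2 * (3 * ε₁) := by
      intro κ hκ i _ j _ hij
      have h1 : F κ i ∩ F κ j ⊆ ⋃ p ∈ K ×ˢ K,
          ({x | cd (S x) (T x) (sh (v i) p.1) (sh g κ) ≤ R + 1} ∩
            {x | cd (S x) (T x) (sh (v j) p.2) (sh g κ) ≤ R + 1}) := by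
        rintro x ⟨hx1, hx2⟩
        simp only [F, Set.mem_iUnion] at hx1 hx2
        obtain ⟨w, hw, h2⟩ := hx1
        obtain ⟨w', hw', h3⟩ := hx2
        rw [Set.mem_iUnion₂]
        exact ⟨(w, w'), Finset.mem_product.2 ⟨hw, hw'⟩, h2, h3⟩
      refine (measureReal_mono h1 (measure_ne_top _ _)).trans
        ((measureReal_biUnion_finset_le _ _).trans ?_)
      have h2 : ∀ p ∈ K ×ˢ K, μ.real ({x | cd (S x) (T x) (sh (v i) p.1) (sh g κ) ≤ R + 1} ∩
            {x | cd (S x) (T x) (sh (v j) p.2) (sh g κ) ≤ R + 1}) ≤ 3 * ε₁ := by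
        intro p hp
        rw [Finset.mem_product] at hp
        exact hpair κ hκ _ (hmemU i _ hp.1) _ (hmemU j _ hp.2) (hv i j hij _ hp.1 _ hp.2)
      refine (Finset.sum_le_card_nsmul _ _ _ h2).trans ?_
      rw [nsmul_eq_mul, Finset.card_product, hk]
      push_cast
      rw [sq]
    have hFsum : ∀ κ ∈ K, ∑ i, μ.real (F κ i) ≤ 2 := by
      intro κ hκ
      have h1 := sum_measure_le (μ := μ) Finset.univ (F κ) (hFm κ) (δ := k ^ 2 * (3 * ε₁))
        (by positivity) (hFpair κ hκ)
      have h2 : μ.real (⋃ u ∈ Finset.univ, F κ u) ≤ 1 := measureReal_le_one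
      rw [Finset.card_univ, Fintype.card_fin] at h1
      have h3 : (m : ℝ) ^ 2 * (k ^ 2 * (3 * ε₁)) ≤ 1 := by
        have h4 : (m : ℝ) ^ 2 * (k ^ 2 * (3 * ε₁)) =
            ((m : ℝ) ^ 2 * k ^ 2) / ((k ^ 2 + 1) * ((m : ℝ) ^ 2 + 1)) := by
          rw [hε₁]; field_simp
        rw [h4, div_le_one (by positivity)]
        nlinarith [sq_nonneg k, sq_nonneg (m : ℝ)]
      linarith
    have hex : ∃ i : Fin m, ∑ κ ∈ K, μ.real (F κ i) ≤ ε := by
      by_contra hcon
      push Not at hcon
      have h1 : (m : ℝ) * ε ≤ ∑ i, ∑ κ ∈ K, μ.real (F κ i) := by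
        have := Finset.card_nsmul_le_sum Finset.univ (fun i => ∑ κ ∈ K, μ.real (F κ i)) ε
          (fun i _ => (hcon i).le)
        rwa [nsmul_eq_mul, Finset.card_univ, Fintype.card_fin] at this
      rw [Finset.sum_comm] at h1
      have h2 : ∑ κ ∈ K, ∑ i, μ.real (F κ i) ≤ k * 2 := by
        have := Finset.sum_le_card_nsmul K (fun κ => ∑ i, μ.real (F κ i)) 2 hFsum
        rwa [nsmul_eq_mul] at this
      have h3 : 2 * k < m * ε := by
        rwa [div_lt_iff₀ hε] at hm
      linarith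
    obtain ⟨i, hi⟩ := hex
    refine ⟨(v i)⁻¹ * g, fun u hu κ hκ => ?_⟩
    have h1 := h.shift_cd (R + 1) (v i) u (sh ((v i)⁻¹ * g) κ)
    rw [sh_mul, mul_inv_cancel_left] at h1
    rw [← h1]
    refine le_trans ?_ hi
    refine le_trans ?_ (Finset.single_le_sum (f := fun κ => μ.real (F κ i))
      (fun _ _ => measureReal_nonneg) hκ)
    refine measureReal_mono ?_ (measure_ne_top _ _)
    intro x hx
    simp only [F, Set.mem_iUnion]
    exact ⟨u, hu, hx⟩

/-- **Six pieces for groups with a random tree of classes.** -/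
theorem RandArb.tarskiLe [IsProbabilityMeasure μ] [Countable G] [Countable Z] (z₀ : Z)
    (h : RandArb μ S T) (hdeg : Nondeg μ S) {C : ℕ} (hna : TarskiLe G C) : TarskiLe G 6 := by
  have := Rt.infinite_of_tarskiLe hna
  apply (h.invMet z₀).tarskiLe_six ((h.paths z₀).diverges (h.invMet z₀) hna)
  intro R δ hδ
  obtain ⟨g, hg⟩ := h.exists_far hdeg R {(1, z₀)} δ hδ
  refine ⟨g, ?_⟩
  have h1 := hg (1, z₀) (Finset.mem_singleton_self _) (1, z₀) (Finset.mem_singleton_self _)
  simpa [sh] using h1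

end Pool.Agent.Lib.MP_90732c_al.Fd
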