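import Pool.Agent.Lib.MP_90732c_al.FdLimit

/-! Invariant functions on the classes of a random equivalence relation. -/

set_option autoImplicit false

open MeasureTheory

namespace Pool.Agent.Lib.MP_90732c_al.Fd

variable {G : Type} [Group G] {Z : Type} {X : Type} [MeasurableSpace X] [MulAction G X]

open Classical in
/-- The number of points of the translate `g K` equivalent to `v`. -/
noncomputable def cnt (S : X → Setoid (G × Z)) (K : Finset (G × Z)) (x : X) (v : G × Z) (g : G) :
    ℝ := ∑ u ∈ K, if (S x) (sh g u) v then 1 else 0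

open Classical in
/-- The number of equivalent pairs. -/
noncomputable def kapx (S : X → Setoid (G × Z)) (K : Finset (G × Z)) (x : X) (g h : G) : ℝ :=
  ∑ u ∈ K, ∑ w ∈ K, if (S x) (sh g u) (sh h w) then 1 else 0

/-- The expected number of equivalent pairs. -/
noncomputable def kap (μ : Measure X) (S : X → Setoid (G × Z)) (K : Finset (G × Z)) (g h : G) :
    ℝ := ∑ u ∈ K, ∑ w ∈ K, μ.real {x | (S x) (sh g u) (sh h w)}

/-- The mass of the class of `v`. -/
noncomputable def Fn (S : X → Setoid (G × Z)) (K : Finset (G × Z)) (x : X) (v : G × Z) :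
    (G →₀ ℝ) →ₗ[ℝ] ℝ := Finsupp.linearCombination ℝ (cnt S K x v)

/-- A bilinear form. -/
noncomputable def bil (κ : G → G → ℝ) : (G →₀ ℝ) →ₗ[ℝ] (G →₀ ℝ) →ₗ[ℝ] ℝ :=
  Finsupp.linearCombination ℝ fun g => Finsupp.linearCombination ℝ (κ g)

/-- Translation. -/
noncomputable def Lt (k : G) (ν : G →₀ ℝ) : G →₀ ℝ := Finsupp.mapDomain (fun g => k * g) ν

omit [Group G] in
lemma bil_apply (κ : G → G → ℝ) (ν ν' : G →₀ ℝ) :
    bil κ ν ν' = ∑ g ∈ ν.support, ∑ h ∈ ν'.support, ν g * (ν' h * κ g h) := by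
  unfold bil
  rw [Finsupp.linearCombination_apply, Finsupp.sum, LinearMap.sum_apply]
  refine Finset.sum_congr rfl fun g _ => ?_
  rw [LinearMap.smul_apply, Finsupp.linearCombination_apply, Finsupp.sum, smul_eq_mul,
    Finset.mul_sum]
  refine Finset.sum_congr rfl fun h _ => ?_
  rw [smul_eq_mul]

omit [Group G] in
lemma bil_symm {κ : G → G → ℝ} (hκ : ∀ g h, κ g h = κ h g) (ν ν' : G →₀ ℝ) :
    bil κ ν ν' = bil κ ν' ν := by
  rw [bil_apply, bil_apply, Finset.sum_comm]
  refine Finset.sum_congr rfl fun h _ => Finset.sum_congr rfl fun g _ => ?_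
  rw [hκ g h]; ring

lemma bil_Lt {κ : G → G → ℝ} (k : G) (hκ : ∀ g h, κ (k * g) (k * h) = κ g h) (ν ν' : G →₀ ℝ) :
    bil κ (Lt k ν) (Lt k ν') = bil κ ν ν' := by
  unfold bil Lt
  rw [Finsupp.linearCombination_mapDomain, Finsupp.linearCombination_apply,
    Finsupp.linearCombination_apply, Finsupp.sum, Finsupp.sum, LinearMap.sum_apply,
    LinearMap.sum_apply]
  refine Finset.sum_congr rfl fun g _ => ?_
  rw [LinearMap.smul_apply, LinearMap.smul_apply, Function.comp_apply,
    Finsupp.linearCombination_mapDomain]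
  congr 3
  funext h
  exact hκ g h

variable {μ : Measure X} {S : X → Setoid (G × Z)} {T : X → SimpleGraph (G × Z)}

omit [MeasurableSpace X] [MulAction G X] in
lemma Fn_apply (K : Finset (G × Z)) (x : X) (v : G × Z) (ν : G →₀ ℝ) :
    Fn S K x v ν = ∑ g ∈ ν.support, ν g * cnt S K x v g := by
  unfold Fn
  rw [Finsupp.linearCombination_apply, Finsupp.sum]
  rfl

open Classical in
/-- Pointwise domination. -/
lemma Fn_sq_le (K : Finset (G × Z)) (x : X) (v : G × Z) (ν : G →₀ ℝ) :
    (Fn S K x v ν) ^ 2 ≤ bil (kapx S K x) ν ν := by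
  have h1 := sq_le_pairs (ν.support ×ˢ K) (fun i => ν i.1)
    (fun i => Quotient.mk (S x) (sh i.1 i.2)) (Quotient.mk (S x) v)
  have h2 : Fn S K x v ν = ∑ i ∈ ν.support ×ˢ K,
      if Quotient.mk (S x) (sh i.1 i.2) = Quotient.mk (S x) v then ν i.1 else 0 := by
    rw [Fn_apply, Finset.sum_product]
    refine Finset.sum_congr rfl fun g _ => ?_
    unfold cnt
    rw [Finset.mul_sum]
    refine Finset.sum_congr rfl fun u _ => ?_
    by_cases h : (S x) (sh g u) v
    · rw [if_pos h, if_pos (Quotient.sound h), mul_one]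
    · rw [if_neg h, if_neg (fun h' => h (Quotient.exact h')), mul_zero]
  have h3 : bil (kapx S K x) ν ν = ∑ i ∈ ν.support ×ˢ K, ∑ j ∈ ν.support ×ˢ K,
      if Quotient.mk (S x) (sh i.1 i.2) = Quotient.mk (S x) (sh j.1 j.2) then ν i.1 * ν j.1
        else 0 := by
    rw [bil_apply, Finset.sum_product]
    refine Finset.sum_congr rfl fun g _ => ?_
    have h4 : ∀ u ∈ K, (∑ j ∈ ν.support ×ˢ K, if Quotient.mk (S x) (sh g u) =
        Quotient.mk (S x) (sh j.1 j.2) then ν g * ν j.1 else 0) =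
        ∑ h ∈ ν.support, ∑ w ∈ K, ν g * (ν h * (if (S x) (sh g u) (sh h w) then 1 else 0)) := by
      intro u _
      rw [Finset.sum_product]
      refine Finset.sum_congr rfl fun h _ => Finset.sum_congr rfl fun w _ => ?_
      by_cases h5 : (S x) (sh g u) (sh h w)
      · rw [if_pos h5, if_pos (Quotient.sound h5), mul_one]
      · rw [if_neg h5, if_neg (fun h' => h5 (Quotient.exact h')), mul_zero, mul_zero]
    simp only
    rw [Finset.sum_congr rfl h4, Finset.sum_comm]
    refine Finset.sum_congr rfl fun h _ => ?_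
    unfold kapx
    rw [Finset.mul_sum, Finset.mul_sum]
    refine Finset.sum_congr rfl fun u _ => ?_
    rw [Finset.mul_sum, Finset.mul_sum]
  rw [h2, h3]
  convert h1

open Classical in
lemma int_ite [IsProbabilityMeasure μ] {p : X → Prop} (hp : MeasurableSet {x | p x}) :
    Integrable (fun x => if p x then (1 : ℝ) else 0) μ ∧
      ∫ x, (if p x then (1 : ℝ) else 0) ∂μ = μ.real {x | p x} := by
  have h1 : (fun x => if p x then (1 : ℝ) else 0) = Set.indicator {x | p x} (fun _ => 1) := by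
    funext x
    by_cases h : p x
    · rw [if_pos h, Set.indicator_of_mem (by exact h)]
    · rw [if_neg h, Set.indicator_of_notMem (by exact h)]
  rw [h1]
  exact ⟨(integrable_const 1).indicator hp, integral_indicator_one hp⟩

lemma RandArb.int_kapx [IsProbabilityMeasure μ] (h : RandArb μ S T) (K : Finset (G × Z))
    (g k : G) : Integrable (fun x => kapx S K x g k) μ ∧
      ∫ x, kapx S K x g k ∂μ = kap μ S K g k := by
  classical
  unfold kapx kap
  have h1 : ∀ u w, Integrable (fun x => if (S x) (sh g u) (sh k w) then (1 : ℝ) else 0) μ ∧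
      ∫ x, (if (S x) (sh g u) (sh k w) then (1 : ℝ) else 0) ∂μ =
        μ.real {x | (S x) (sh g u) (sh k w)} := fun u w => int_ite (h.measS _ _)
  constructor
  · exact integrable_finsetSum _ fun u _ => integrable_finsetSum _ fun w _ => (h1 u w).1
  · rw [integral_finsetSum _ fun u _ => integrable_finsetSum _ fun w _ => (h1 u w).1]
    refine Finset.sum_congr rfl fun u _ => ?_
    rw [integral_finsetSum _ fun w _ => (h1 u w).1]
    exact Finset.sum_congr rfl fun w _ => (h1 u w).2

lemma RandArb.int_bil [IsProbabilityMeasure μ] (h : RandArb μ S T) (K : Finset (G × Z))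
    (ν ν' : G →₀ ℝ) : Integrable (fun x => bil (kapx S K x) ν ν') μ ∧
      ∫ x, bil (kapx S K x) ν ν' ∂μ = bil (kap μ S K) ν ν' := by
  simp only [bil_apply]
  have h1 : ∀ g k, Integrable (fun x => ν g * (ν' k * kapx S K x g k)) μ := fun g k =>
    ((h.int_kapx K g k).1.const_mul _).const_mul _
  constructor
  · exact integrable_finsetSum _ fun g _ => integrable_finsetSum _ fun k _ => h1 g k
  · rw [integral_finsetSum _ fun g _ => integrable_finsetSum _ fun k _ => h1 g k]
    refine Finset.sum_congr rfl fun g _ => ?_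
    rw [integral_finsetSum _ fun k _ => h1 g k]
    refine Finset.sum_congr rfl fun k _ => ?_
    rw [integral_const_mul, integral_const_mul, (h.int_kapx K g k).2]

lemma RandArb.meas_Fn (h : RandArb μ S T) (K : Finset (G × Z)) (v : G × Z) (ν : G →₀ ℝ) :
    Measurable fun x => Fn S K x v ν := by
  classical
  simp only [Fn_apply]
  refine Finset.measurable_fun_sum _ fun g _ => Measurable.const_mul ?_ _
  unfold cnt
  refine Finset.measurable_fun_sum _ fun u _ => ?_
  exact Measurable.ite (h.measS _ _) measurable_const measurable_const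

/-- The key inequality. -/
lemma RandArb.int_Fn_sq [IsProbabilityMeasure μ] (h : RandArb μ S T) (K : Finset (G × Z))
    (v : G × Z) (ν : G →₀ ℝ) : Integrable (fun x => (Fn S K x v ν) ^ 2) μ ∧
      ∫ x, (Fn S K x v ν) ^ 2 ∂μ ≤ bil (kap μ S K) ν ν := by
  have h1 := h.int_bil K ν ν
  have h2 : Integrable (fun x => (Fn S K x v ν) ^ 2) μ := by
    refine h1.1.mono' ((h.meas_Fn K v ν).pow_const 2).aestronglyMeasurable ?_
    refine Filter.Eventually.of_forall fun x => ?_
    rw [Real.norm_eq_abs, abs_of_nonneg (sq_nonneg _)]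
    exact Fn_sq_le K x v ν
  refine ⟨h2, ?_⟩
  rw [← h1.2]
  exact integral_mono h2 h1.1 fun x => Fn_sq_le K x v ν

lemma RandArb.kap_equi (h : RandArb μ S T) (K : Finset (G × Z)) (k g g' : G) :
    kap μ S K (k * g) (k * g') = kap μ S K g g' := by
  unfold kap
  refine Finset.sum_congr rfl fun u _ => Finset.sum_congr rfl fun w _ => ?_
  rw [Measure.real, ← (h.mp k).measure_preimage (h.measS _ _).nullMeasurableSet]
  congr 2
  ext x
  simp only [Set.mem_preimage, Set.mem_ofPred_eq]
  have h1 := h.equiS k x (sh g u) (sh g' w)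
  rw [sh_mul, sh_mul] at h1
  exact h1

omit [MulAction G X] in
lemma kap_symm (K : Finset (G × Z)) (g g' : G) : kap μ S K g g' = kap μ S K g' g := by
  unfold kap
  rw [Finset.sum_comm]
  refine Finset.sum_congr rfl fun u _ => Finset.sum_congr rfl fun w _ => ?_
  congr 1
  ext x
  exact ⟨fun h => (S x).symm h, fun h => (S x).symm h⟩

lemma RandArb.Fn_equi (h : RandArb μ S T) (K : Finset (G × Z)) (k : G) (x : X) (v : G × Z)
    (ν : G →₀ ℝ) : Fn S K (k • x) (sh k v) ν = Fn S K x v (Lt k⁻¹ ν) := by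
  classical
  unfold Fn Lt
  rw [Finsupp.linearCombination_mapDomain]
  congr 2
  funext g
  simp only [Function.comp_apply]
  unfold cnt
  refine Finset.sum_congr rfl fun u _ => ?_
  have h1 := h.equiS k x (sh (k⁻¹ * g) u) v
  rw [sh_mul, mul_inv_cancel_left] at h1
  by_cases h2 : (S x) (sh (k⁻¹ * g) u) v
  · rw [if_pos h2, if_pos (h1.2 h2)]
  · rw [if_neg h2, if_neg (fun h3 => h2 (h1.1 h3))]

/-- Finitely supported probability vectors. -/
def Pv (G : Type) : Set (G →₀ ℝ) :=
  {ν | (∀ g, 0 ≤ ν g) ∧ Finsupp.linearCombination ℝ (fun _ : G => (1 : ℝ)) ν = 1}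

omit [Group G] in
lemma Pv_mid : ∀ u ∈ Pv G, ∀ v ∈ Pv G, (1 / 2 : ℝ) • (u + v) ∈ Pv G := by
  rintro u ⟨hu1, hu2⟩ v ⟨hv1, hv2⟩
  refine ⟨fun g => ?_, ?_⟩
  · rw [Finsupp.smul_apply, Finsupp.add_apply, smul_eq_mul]
    have := hu1 g
    have := hv1 g
    positivity
  · rw [map_smul, map_add, hu2, hv2]
    norm_num

lemma Pv_nonempty : (Pv G).Nonempty := by
  classical
  refine ⟨Finsupp.single 1 1, fun g => ?_, by simp⟩
  rw [Finsupp.single_apply]
  split_ifs <;> norm_num

lemma Pv_Lt {ν : G →₀ ℝ} (h : ν ∈ Pv G) (k : G) : Lt k ν ∈ Pv G := by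
  refine ⟨fun g => ?_, ?_⟩
  · unfold Lt
    have h1 : g = (fun g => k * g) (k⁻¹ * g) := by simp
    rw [h1, Finsupp.mapDomain_apply (mul_right_injective k)]
    exact h.1 _
  · unfold Lt
    rw [Finsupp.linearCombination_mapDomain]
    exact h.2

/-- The masses of inequivalent points add up to at most the size of `K`. -/
lemma sum_Fn_le (K : Finset (G × Z)) (x : X) {ν : G →₀ ℝ} (hν : ν ∈ Pv G)
    (s : Finset (G × Z)) (hs : ∀ v ∈ s, ∀ w ∈ s, (S x) v w → v = w) :
    ∑ v ∈ s, Fn S K x v ν ≤ K.card := by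
  classical
  have h1 : ∀ g, ∑ v ∈ s, cnt S K x v g ≤ K.card := by
    intro g
    unfold cnt
    rw [Finset.sum_comm, ← nsmul_one, ← Finset.sum_const]
    refine Finset.sum_le_sum fun u _ => ?_
    by_cases h2 : ∃ v ∈ s, (S x) (sh g u) v
    · obtain ⟨v, hv, h3⟩ := h2
      rw [Finset.sum_eq_single v]
      · rw [if_pos h3]
      · intro w hw hwv
        rw [if_neg]
        intro h4
        exact hwv (hs w hw v hv ((S x).trans ((S x).symm h4) h3))
      · intro h4
        exact absurd hv h4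
    · push Not at h2
      rw [Finset.sum_eq_zero fun v hv => if_neg (h2 v hv)]
      exact zero_le_one
  simp only [Fn_apply]
  rw [Finset.sum_comm]
  have h2 : ∑ g ∈ ν.support, ν g = 1 := by
    have h3 := hν.2
    rw [Finsupp.linearCombination_apply, Finsupp.sum] at h3
    simpa using h3
  calc ∑ g ∈ ν.support, ∑ v ∈ s, ν g * cnt S K x v g =
      ∑ g ∈ ν.support, ν g * ∑ v ∈ s, cnt S K x v g := by
        refine Finset.sum_congr rfl fun g _ => ?_
        rw [Finset.mul_sum]
    _ ≤ ∑ g ∈ ν.support, ν g * K.card :=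
        Finset.sum_le_sum fun g _ => mul_le_mul_of_nonneg_left (h1 g) (hν.1 g)
    _ = K.card := by rw [← Finset.sum_mul, h2, one_mul]

lemma Fn_nonneg (K : Finset (G × Z)) (x : X) (v : G × Z) {ν : G →₀ ℝ} (hν : ν ∈ Pv G) :
    0 ≤ Fn S K x v ν := by
  classical
  rw [Fn_apply]
  refine Finset.sum_nonneg fun g _ => mul_nonneg (hν.1 g) ?_
  unfold cnt
  refine Finset.sum_nonneg fun u _ => ?_
  split_ifs <;> norm_num

lemma Fn_le (K : Finset (G × Z)) (x : X) (v : G × Z) {ν : G →₀ ℝ} (hν : ν ∈ Pv G) :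
    Fn S K x v ν ≤ K.card := by
  have h1 := sum_Fn_le (S := S) K x hν {v} (by
    intro a ha b hb _
    rw [Finset.mem_singleton] at ha hb
    rw [ha, hb])
  simpa using h1

omit [MeasurableSpace X] [MulAction G X] in
lemma Fn_congr (K : Finset (G × Z)) (x : X) {v w : G × Z} (hvw : (S x) v w) :
    Fn S K x v = Fn S K x w := by
  classical
  unfold Fn
  congr 1
  funext g
  unfold cnt
  refine Finset.sum_congr rfl fun u _ => ?_
  by_cases h : (S x) (sh g u) v
  · rw [if_pos h, if_pos ((S x).trans h hvw)]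
  · rw [if_neg h, if_neg (fun h' => h ((S x).trans h' ((S x).symm hvw)))]

/-- Lower bound for the total mass. -/
lemma RandArb.int_sum_Fn [IsProbabilityMeasure μ] (h : RandArb μ S T) (K : Finset (G × Z))
    {ε : ℝ} (hK : ∀ g : G, ε ≤ kap μ S K g 1) {ν : G →₀ ℝ} (hν : ν ∈ Pv G) :
    ε ≤ ∫ x, ∑ w ∈ K, Fn S K x w ν ∂μ := by
  classical
  have h1 : ∀ x, ∑ w ∈ K, Fn S K x w ν = ∑ g ∈ ν.support, ν g * kapx S K x g 1 := by
    intro x
    simp only [Fn_apply]
    rw [Finset.sum_comm]
    refine Finset.sum_congr rfl fun g _ => ?_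
    rw [← Finset.mul_sum]
    unfold cnt kapx
    rw [Finset.sum_comm]
    simp only [sh_one]
  simp only [h1]
  rw [integral_finsetSum _ fun g _ => ((h.int_kapx K g 1).1.const_mul _)]
  have h2 : ∑ g ∈ ν.support, ν g = 1 := by
    have h3 := hν.2
    rw [Finsupp.linearCombination_apply, Finsupp.sum] at h3
    simpa using h3
  calc ε = ∑ g ∈ ν.support, ν g * ε := by rw [← Finset.sum_mul, h2, one_mul]
    _ ≤ ∑ g ∈ ν.support, ∫ x, ν g * kapx S K x g 1 ∂μ := by
        refine Finset.sum_le_sum fun g _ => ?_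
        rw [integral_const_mul, (h.int_kapx K g 1).2]
        exact mul_le_mul_of_nonneg_left (hK g) (hν.1 g)

/-- **The invariant function.** -/
theorem RandArb.exists_inv [IsProbabilityMeasure μ] [Countable G] [Countable Z]
    (h : RandArb μ S T) (K : Finset (G × Z)) {ε : ℝ} (hε : 0 < ε)
    (hK : ∀ g : G, ε ≤ kap μ S K g 1) :
    ∃ f : G × Z → X → ℝ, (∀ v, Measurable (f v)) ∧
      (∀ᵐ x ∂μ, (∀ v w, (S x) v w → f v x = f w x) ∧
        (∀ s : Finset (G × Z), (∀ v ∈ s, ∀ w ∈ s, (S x) v w → v = w) →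
          ∑ v ∈ s, f v x ≤ K.card) ∧
        (∀ (k : G) (v : G × Z), f (sh k v) (k • x) = f v x)) ∧
      ∃ w, 0 < ∫ x, f w x ∂μ := by
  classical
  set B := bil (kap μ S K) with hB
  have hsym : ∀ u v, B u v = B v u := bil_symm (kap_symm K)
  obtain ⟨z, hz⟩ : ∃ z : G × Z, z ∈ K := by
    by_contra hcon
    push Not at hcon
    have h1 : K = ∅ := Finset.eq_empty_of_forall_notMem hcon
    have h2 := hK 1
    rw [h1] at h2
    unfold kap at h2
    simp only [Finset.sum_empty] at h2
    linarith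
  have hpos : ∀ v, 0 ≤ B v v := fun v =>
    (integral_nonneg fun x => sq_nonneg _).trans (h.int_Fn_sq K z v).2
  have hδ : ∀ n : ℕ, (0 : ℝ) < (1 / 4) ^ n / 4 := fun n => by positivity
  choose ν hν1 hν2 hν3 using fun n => exists_min B hsym hpos (Pv G) Pv_mid Pv_nonempty (hδ n)
  -- differences
  have hdiff : ∀ n, B (ν n - ν (n + 1)) (ν n - ν (n + 1)) ≤ (1 / 4 : ℝ) ^ n := by
    intro n
    have h1 := hν3 n (ν (n + 1)) (hν1 (n + 1)) (by
      intro w hw
      have h2 := hν2 (n + 1) w hw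
      have h3 : (1 / 4 : ℝ) ^ (n + 1) / 4 ≤ (1 / 4) ^ n / 4 := by
        rw [pow_succ]
        have : (0 : ℝ) < (1 / 4) ^ n := by positivity
        linarith
      linarith)
    linarith
  have hshift : ∀ (k : G) n, B (ν n - Lt k (ν n)) (ν n - Lt k (ν n)) ≤ (1 / 4 : ℝ) ^ n := by
    intro k n
    have h1 := hν3 n (Lt k (ν n)) (Pv_Lt (hν1 n) k) (by
      intro w hw
      rw [hB, bil_Lt k (h.kap_equi K k)]
      exact hν2 n w hw)
    linarith
  have hsumm : ∀ v, ∀ᵐ x ∂μ, Summable fun n => |Fn S K x v (ν n - ν (n + 1))| := by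
    intro v
    exact ae_summable (fun n x => Fn S K x v (ν n - ν (n + 1))) (fun n => h.meas_Fn K v _)
      (fun n => (h.int_Fn_sq K v _).1) (fun n => (h.int_Fn_sq K v _).2.trans (hdiff n))
  have hsumm' : ∀ (k : G) v, ∀ᵐ x ∂μ, Summable fun n => |Fn S K x v (ν n - Lt k (ν n))| := by
    intro k v
    exact ae_summable (fun n x => Fn S K x v (ν n - Lt k (ν n))) (fun n => h.meas_Fn K v _)
      (fun n => (h.int_Fn_sq K v _).1) (fun n => (h.int_Fn_sq K v _).2.trans (hshift k n))
  have hlim : ∀ v, ∃ f : X → ℝ, Measurable f ∧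
      ∀ᵐ x ∂μ, Filter.Tendsto (fun n => Fn S K x v (ν n)) Filter.atTop (nhds (f x)) := by
    intro v
    apply measurable_limit_of_tendsto_metrizable_ae
    · exact fun n => (h.meas_Fn K v _).aemeasurable
    · filter_upwards [hsumm v] with x hx
      apply cauchySeq_tendsto_of_complete
      apply cauchySeq_of_summable_dist
      refine hx.congr fun n => ?_
      rw [Real.dist_eq, map_sub]
  choose f hf1 hf2 using hlim
  have hall : ∀ᵐ x ∂μ, ∀ v, Filter.Tendsto (fun n => Fn S K x v (ν n)) Filter.atTop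
      (nhds (f v x)) := ae_all_iff.2 hf2
  have hequi : ∀ᵐ x ∂μ, ∀ (k : G) (v : G × Z), f (sh k v) (k • x) = f v x := by
    rw [ae_all_iff]
    intro k
    rw [ae_all_iff]
    intro v
    have h1 : ∀ᵐ x ∂μ, Filter.Tendsto (fun n => Fn S K (k • x) (sh k v) (ν n)) Filter.atTop
        (nhds (f (sh k v) (k • x))) := (h.mp k).quasiMeasurePreserving.ae (hf2 (sh k v))
    filter_upwards [h1, hf2 v, hsumm' k⁻¹ v] with x h2 h3 h4
    have h5 : Filter.Tendsto (fun n => Fn S K x v (ν n - Lt k⁻¹ (ν n))) Filter.atTop (nhds 0) :=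
      (tendsto_zero_iff_abs_tendsto_zero _).2 h4.tendsto_atTop_zero
    have h6 := h3.sub h5
    rw [sub_zero] at h6
    refine tendsto_nhds_unique h2 (h6.congr fun n => ?_)
    rw [h.Fn_equi, map_sub]
    ring
  refine ⟨f, hf1, ?_, ?_⟩
  · filter_upwards [hall, hequi] with x hx1 hx2
    refine ⟨fun v w hvw => ?_, fun s hs => ?_, hx2⟩
    · refine tendsto_nhds_unique (hx1 v) ((hx1 w).congr fun n => ?_)
      rw [Fn_congr K x hvw]
    · have h1 : Filter.Tendsto (fun n => ∑ v ∈ s, Fn S K x v (ν n)) Filter.atTop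
          (nhds (∑ v ∈ s, f v x)) := tendsto_finsetSum _ fun v _ => hx1 v
      exact le_of_tendsto' h1 fun n => sum_Fn_le K x (hν1 n) s hs
  · -- nontriviality
    have hbd : ∀ n x, ‖∑ w ∈ K, Fn S K x w (ν n)‖ ≤ K.card * K.card := by
      intro n x
      rw [Real.norm_eq_abs, abs_of_nonneg (Finset.sum_nonneg fun w _ => Fn_nonneg K x w (hν1 n))]
      rw [← nsmul_eq_mul]
      exact Finset.sum_le_card_nsmul _ _ _ fun w _ => Fn_le K x w (hν1 n)
    have h1 : Filter.Tendsto (fun n => ∫ x, ∑ w ∈ K, Fn S K x w (ν n) ∂μ) Filter.atTop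
        (nhds (∫ x, ∑ w ∈ K, f w x ∂μ)) := by
      apply tendsto_integral_of_dominated_convergence (fun _ => (K.card : ℝ) * K.card)
      · intro n
        exact (Finset.measurable_fun_sum _ fun w _ => h.meas_Fn K w _).aestronglyMeasurable
      · exact integrable_const _
      · intro n
        exact Filter.Eventually.of_forall (hbd n)
      · filter_upwards [hall] with x hx
        exact tendsto_finsetSum _ fun w _ => hx w
    have h2 : ε ≤ ∫ x, ∑ w ∈ K, f w x ∂μ := ge_of_tendsto' h1 fun n => h.int_sum_Fn K hK (hν1 n)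
    have hfi : ∀ w, Integrable (f w) μ := by
      intro w
      refine (integrable_const (K.card : ℝ)).mono' (hf1 w).aestronglyMeasurable ?_
      filter_upwards [hall] with x hx
      rw [Real.norm_eq_abs]
      refine le_of_tendsto' ((hx w).abs) fun n => ?_
      rw [abs_of_nonneg (Fn_nonneg K x w (hν1 n))]
      exact Fn_le K x w (hν1 n)
    rw [integral_finsetSum _ fun w _ => hfi w] at h2
    by_contra hcon
    push Not at hcon
    have h3 : ∑ w ∈ K, ∫ x, f w x ∂μ ≤ 0 := Finset.sum_nonpos fun w _ => hcon w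
    linarith

end Pool.Agent.Lib.MP_90732c_al.Fd
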