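import Pool.Agent.Lib.MP_90732c_al.FdRand

/-! Invariant functions on the classes, by minimisation. -/

set_option autoImplicit false

open MeasureTheory

namespace Pool.Agent.Lib.MP_90732c_al.Fd

open Classical in
/-- A sum over a class is controlled by the sum over equivalent pairs. -/
lemma sq_le_pairs {ι Q : Type} (I : Finset ι) (a : ι → ℝ) (q : ι → Q) (c : Q) :
    (∑ i ∈ I, if q i = c then a i else 0) ^ 2 ≤
      ∑ i ∈ I, ∑ j ∈ I, if q i = q j then a i * a j else 0 := by
  set f : Q → ℝ := fun t => ∑ i ∈ I, if q i = t then a i else 0 with hf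
  have h1 : ∑ i ∈ I, ∑ j ∈ I, (if q i = q j then a i * a j else 0) =
      ∑ t ∈ I.image q, f t ^ 2 := by
    have h2 : ∀ i ∈ I, ∑ j ∈ I, (if q i = q j then a i * a j else 0) = a i * f (q i) := by
      intro i _
      rw [hf, Finset.mul_sum]
      refine Finset.sum_congr rfl fun j _ => ?_
      by_cases h : q i = q j
      · rw [if_pos h, if_pos h.symm]
      · rw [if_neg h, if_neg (fun h' => h h'.symm), mul_zero]
    rw [Finset.sum_congr rfl h2, ← Finset.sum_fiberwise_of_maps_to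
      (fun i hi => Finset.mem_image_of_mem q hi)]
    refine Finset.sum_congr rfl fun t _ => ?_
    rw [Finset.sum_filter, sq]
    conv_rhs => rw [hf]; simp only
    rw [Finset.sum_mul]
    refine Finset.sum_congr rfl fun i _ => ?_
    by_cases h : q i = t
    · rw [if_pos h, if_pos h, h]
    · rw [if_neg h, if_neg h, zero_mul]
  rw [h1]
  by_cases hc : c ∈ I.image q
  · exact Finset.single_le_sum (f := fun t => f t ^ 2) (fun _ _ => sq_nonneg _) hc
  · have h2 : f c = 0 := by
      rw [hf]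
      apply Finset.sum_eq_zero
      intro i hi
      exact if_neg fun h => hc (Finset.mem_image.2 ⟨i, hi, h⟩)
    change f c ^ 2 ≤ _
    rw [h2]
    simp only [ne_eq, OfNat.ofNat_ne_zero, not_false_eq_true, zero_pow]
    exact Finset.sum_nonneg fun _ _ => sq_nonneg _

/-- Approximate minimisers of a nonnegative quadratic form on a convex set are close. -/
lemma exists_min {V : Type} [AddCommGroup V] [Module ℝ V] (B : V →ₗ[ℝ] V →ₗ[ℝ] ℝ)
    (hsym : ∀ u v, B u v = B v u) (hpos : ∀ v, 0 ≤ B v v) (P : Set V)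
    (hmid : ∀ u ∈ P, ∀ v ∈ P, (1 / 2 : ℝ) • (u + v) ∈ P) (hne : P.Nonempty) {δ : ℝ}
    (hδ : 0 < δ) :
    ∃ u ∈ P, (∀ v ∈ P, B u u ≤ B v v + δ) ∧
      ∀ v ∈ P, (∀ w ∈ P, B v v ≤ B w w + δ) → B (u - v) (u - v) ≤ 4 * δ := by
  set I : Set ℝ := (fun v => B v v) '' P with hI
  have hbd : BddBelow I := ⟨0, by rintro _ ⟨v, _, rfl⟩; exact hpos v⟩
  have hIne : I.Nonempty := hne.image _
  obtain ⟨_, ⟨u, hu, rfl⟩, h1⟩ := exists_lt_of_csInf_lt hIne (lt_add_of_pos_right (sInf I) hδ)
  have h2 : ∀ v ∈ P, B u u ≤ B v v + δ := by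
    intro v hv
    have h3 := csInf_le hbd (Set.mem_image_of_mem (fun v => B v v) hv)
    simp only at h1 h3
    linarith
  refine ⟨u, hu, h2, fun v hv h3 => ?_⟩
  have h4 := h2 _ (hmid u hu v hv)
  have h5 := h3 _ (hmid u hu v hv)
  simp only [map_smul, map_add, LinearMap.smul_apply, LinearMap.add_apply, smul_eq_mul] at h4 h5
  simp only [map_sub, LinearMap.sub_apply]
  rw [hsym v u] at h4 h5 ⊢
  linarith

/-- Square summability gives almost sure summability. -/
lemma ae_summable {X : Type} [MeasurableSpace X] {μ : Measure X} [IsProbabilityMeasure μ]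
    (t : ℕ → X → ℝ) (ht : ∀ n, Measurable (t n)) (hi : ∀ n, Integrable (fun x => t n x ^ 2) μ)
    (hb : ∀ n, ∫ x, t n x ^ 2 ∂μ ≤ (1 / 4 : ℝ) ^ n) : ∀ᵐ x ∂μ, Summable fun n => |t n x| := by
  have hkey : ∀ n, ∫⁻ x, ENNReal.ofReal |t n x| ∂μ ≤ ENNReal.ofReal (2 * (1 / 2 : ℝ) ^ n) := by
    intro n
    have h1 : ∀ x, |t n x| ≤ 2 ^ n * t n x ^ 2 + (1 / 2 : ℝ) ^ n := by
      intro x
      have h2 : (2 : ℝ) ^ n * (1 / 2 : ℝ) ^ n = 1 := by
        rw [← mul_pow]; norm_num
      have h3 : (0 : ℝ) < 2 ^ n := by positivity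
      have h4 : (0 : ℝ) < (1 / 2 : ℝ) ^ n := by positivity
      have h5 := sq_nonneg ((2 : ℝ) ^ n * |t n x| - 1)
      have h6 : t n x ^ 2 = |t n x| ^ 2 := (sq_abs _).symm
      have h7 := abs_nonneg (t n x)
      rw [h6]
      have h8 : 0 ≤ (2 : ℝ) ^ n * (2 ^ n * |t n x| ^ 2 + (1 / 2 : ℝ) ^ n - |t n x|) := by
        nlinarith
      have h9 := nonneg_of_mul_nonneg_right h8 h3
      linarith
    have h2 : Integrable (fun x => 2 ^ n * t n x ^ 2 + (1 / 2 : ℝ) ^ n) μ :=
      ((hi n).const_mul _).add (integrable_const _)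
    calc ∫⁻ x, ENNReal.ofReal |t n x| ∂μ ≤
        ∫⁻ x, ENNReal.ofReal (2 ^ n * t n x ^ 2 + (1 / 2 : ℝ) ^ n) ∂μ :=
          lintegral_mono fun x => ENNReal.ofReal_le_ofReal (h1 x)
      _ = ENNReal.ofReal (∫ x, (2 ^ n * t n x ^ 2 + (1 / 2 : ℝ) ^ n) ∂μ) := by
          rw [ofReal_integral_eq_lintegral_ofReal h2]
          exact Filter.Eventually.of_forall fun x => by positivity
      _ ≤ ENNReal.ofReal (2 * (1 / 2 : ℝ) ^ n) := by
          apply ENNReal.ofReal_le_ofReal
          rw [integral_add ((hi n).const_mul _) (integrable_const _), integral_const_mul,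
            integral_const]
          simp only [probReal_univ, smul_eq_mul, one_mul]
          have h3 : (2 : ℝ) ^ n * (1 / 4 : ℝ) ^ n = (1 / 2 : ℝ) ^ n := by
            rw [← mul_pow]; norm_num
          have h4 := mul_le_mul_of_nonneg_left (hb n) (by positivity : (0 : ℝ) ≤ 2 ^ n)
          linarith
  have hsum : ∫⁻ x, ∑' n, ENNReal.ofReal |t n x| ∂μ < ⊤ := by
    rw [lintegral_tsum fun n => ((ht n).abs.ennreal_ofReal).aemeasurable]
    refine lt_of_le_of_lt (ENNReal.tsum_le_tsum hkey) ?_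
    rw [← ENNReal.ofReal_tsum_of_nonneg (fun n => by positivity)
      ((summable_geometric_of_lt_one (by norm_num) (by norm_num)).mul_left _)]
    exact ENNReal.ofReal_lt_top
  have hmeas : Measurable fun x => ∑' n, ENNReal.ofReal |t n x| :=
    Measurable.tsum fun n => (ht n).abs.ennreal_ofReal
  filter_upwards [ae_lt_top hmeas hsum.ne] with x hx
  exact (ENNReal.summable_toReal hx.ne).congr fun n => ENNReal.toReal_ofReal (abs_nonneg _)

end Pool.Agent.Lib.MP_90732c_al.Fd
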