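import Pool.Agent.Lib.MP_90732c_al.RtCount

/-! Zero-hyperbolic pseudometrics with values in the natural numbers. -/

set_option autoImplicit false

namespace Pool.Agent.Lib.MP_90732c_al.Fd

open Pool.Agent.Lib.MP_90732c_al.Rt

/-- A zero-hyperbolic pseudometric. -/
structure PHyp {V : Type} (d : V → V → ℕ) : Prop extends Hyp d where
  self : ∀ a, d a a = 0
  tri : ∀ a b c, d a c ≤ d a b + d b c

variable {V : Type} {d : V → V → ℕ}

/-- A deep point of `[o, b]` lies on `[h, b]` when `h` is near `o`. -/
lemma on_seg (hd : PHyp d) {o b h c : V} (hc : d o c + d c b = d o b) (hh : d o h < d o c) :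
    d h c + d c b = d h b := by
  have h1 := hd.hyp c o h b
  have h2 : pr d c o b = 0 := by
    unfold pr; rw [hd.symm c o]; omega
  have h3 : 0 < pr d c o h := by
    unfold pr
    have h4 := hd.tri o h c
    rw [hd.symm c o, hd.symm c h]
    omega
  rw [h2] at h1
  have h4 : pr d c h b ≤ 0 := by
    rcases min_le_iff.1 h1 with h5 | h5
    · omega
    · exact h5
  unfold pr at h4
  rw [hd.symm c h] at h4
  have h5 := hd.tri h c b
  omega

/-- A point of `[o, b]` which is not deep lies on `[o, b']`. -/
lemma on_seg' (hd : PHyp d) {o b b' c : V} {n : ℕ} (hc : d o c + d c b = d o b)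
    (hp : (2 * n : ℤ) ≤ pr d o b b') (hn : d o c ≤ n) : d o c + d c b' = d o b' := by
  have h4 := hd.hyp o c b b'
  have h5 : pr d o c b = 2 * d o c := by unfold pr; omega
  have h6 : (2 * d o c : ℤ) ≤ min (pr d o c b) (pr d o b b') := by
    apply le_min
    · rw [h5]
    · omega
  have h7 := h6.trans h4
  unfold pr at h7
  have h8 := hd.tri o c b'
  omega

lemma pr_le (hd : PHyp d) (o a b : V) : pr d o a b ≤ 2 * d o a := by
  have h1 := hd.tri o a b
  unfold pr
  omega

lemma pr_le' (hd : PHyp d) (o a b : V) : pr d o a b ≤ 2 * d o b := by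
  have h1 := hd.tri o b a
  rw [hd.symm b a] at h1
  unfold pr
  omega

lemma pr_comm (hd : Hyp d) (o a b : V) : pr d o a b = pr d o b a := by
  unfold pr; rw [hd.symm a b]; ring

/-- Points at small distance have a large product seen from far away. -/
lemma pr_ge (hd : PHyp d) {o a b : V} {D r : ℕ} (h1 : D + r ≤ d o a) (h2 : d a b ≤ r) :
    (2 * D : ℤ) ≤ pr d o a b := by
  unfold pr
  have h3 := hd.tri o b a
  rw [hd.symm b a] at h3
  omega

end Pool.Agent.Lib.MP_90732c_al.Fd
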