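import Pool.Agent.Lib.MP_90732c_al.FdTree

/-! Invariant random trees of classes. -/

set_option autoImplicit false

open MeasureTheory

namespace Pool.Agent.Lib.MP_90732c_al.Fd

open Pool.Agent.Lib.MP_90732c_al.Rt (dist_eq_iff)

variable {G : Type} [Group G] {Z : Type} {X : Type} [MeasurableSpace X] [MulAction G X]

/-- The free action on `G × Z`. -/
def sh (g : G) (a : G × Z) : G × Z := (g * a.1, a.2)

@[simp] lemma sh_mul (g h : G) (a : G × Z) : sh g (sh h a) = sh (g * h) a := by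
  simp [sh, mul_assoc]

@[simp] lemma sh_one (a : G × Z) : sh (1 : G) a = a := by simp [sh]

lemma sh_inj {g : G} {a b : G × Z} (h : sh g a = sh g b) : a = b := by
  have := congrArg (sh g⁻¹) h
  simpa using this

/-- An invariant random tree of classes. -/
structure RandArb (μ : Measure X) (S : X → Setoid (G × Z)) (T : X → SimpleGraph (G × Z)) :
    Prop where
  mp : ∀ g : G, MeasurePreserving (fun x : X => g • x) μ μ
  measS : ∀ a b, MeasurableSet {x | (S x) a b}
  measT : ∀ a b, MeasurableSet {x | (T x).Adj a b}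
  equiS : ∀ (g : G) (x : X) (a b : G × Z), (S (g • x)) (sh g a) (sh g b) ↔ (S x) a b
  equiT : ∀ (g : G) (x : X) (a b : G × Z), (T (g • x)).Adj (sh g a) (sh g b) ↔ (T x).Adj a b
  arb : ∀ᵐ x ∂μ, Arb (S x) (T x)

section Cg

variable {W : Type}

lemma cg_adj_iff' (S : Setoid W) (T : SimpleGraph W) (a b : W) :
    (cg S T).Adj (Quotient.mk S a) (Quotient.mk S b) ↔
      ¬ S a b ∧ ∃ c c', T.Adj c c' ∧ S a c ∧ S b c' := by
  unfold cg
  rw [SimpleGraph.fromRel_adj]
  constructor
  · rintro ⟨h0, ⟨c, c', h1, h2, h3⟩ | ⟨c, c', h1, h2, h3⟩⟩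
    · exact ⟨fun h => h0 (Quotient.sound h),
        c, c', h1, S.symm (Quotient.exact h2), S.symm (Quotient.exact h3)⟩
    · exact ⟨fun h => h0 (Quotient.sound h),
        c', c, h1.symm, S.symm (Quotient.exact h3), S.symm (Quotient.exact h2)⟩
  · rintro ⟨h0, c, c', h1, h2, h3⟩
    refine ⟨fun h4 => h0 (Quotient.exact h4), Or.inl ⟨c, c', h1, ?_, ?_⟩⟩
    · exact Quotient.sound (S.symm h2)
    · exact Quotient.sound (S.symm h3)

/-- The event that there is a walk of classes of length `n`. -/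
def Wc (S : X → Setoid W) (T : X → SimpleGraph W) (n : ℕ) (a b : W) : Set X :=
  {x | ∃ p : (cg (S x) (T x)).Walk (Quotient.mk (S x) a) (Quotient.mk (S x) b), p.length = n}

lemma exists_walk_succ {V : Type} (H : SimpleGraph V) (u v : V) (n : ℕ) :
    (∃ p : H.Walk u v, p.length = n + 1) ↔ ∃ w, H.Adj u w ∧ ∃ q : H.Walk w v, q.length = n := by
  constructor
  · rintro ⟨p, hp⟩
    cases p with
    | nil => simp at hp
    | @cons _ c _ h q =>
      rw [SimpleGraph.Walk.length_cons] at hp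
      exact ⟨c, h, q, by omega⟩
  · rintro ⟨w, h, q, hq⟩
    exact ⟨SimpleGraph.Walk.cons h q, by rw [SimpleGraph.Walk.length_cons, hq]⟩

omit [MeasurableSpace X] in
lemma Wc_zero (S : X → Setoid W) (T : X → SimpleGraph W) (a b : W) :
    Wc S T 0 a b = {x | (S x) a b} := by
  ext x
  constructor
  · rintro ⟨p, hp⟩
    exact Quotient.exact (SimpleGraph.Walk.eq_of_length_eq_zero hp)
  · intro h
    have h' : Quotient.mk (S x) a = Quotient.mk (S x) b := Quotient.sound h
    change ∃ p : (cg (S x) (T x)).Walk (Quotient.mk (S x) a) (Quotient.mk (S x) b), p.length = 0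
    rw [h']
    exact ⟨SimpleGraph.Walk.nil, rfl⟩

omit [MeasurableSpace X] in
lemma Wc_succ (S : X → Setoid W) (T : X → SimpleGraph W) (n : ℕ) (a b : W) :
    Wc S T (n + 1) a b = ⋃ c, ({x | (cg (S x) (T x)).Adj (Quotient.mk (S x) a)
      (Quotient.mk (S x) c)} ∩ Wc S T n c b) := by
  ext x
  rw [Set.mem_iUnion]
  change (∃ p : (cg (S x) (T x)).Walk (Quotient.mk (S x) a) (Quotient.mk (S x) b),
    p.length = n + 1) ↔ _
  rw [exists_walk_succ]
  constructor
  · rintro ⟨w, h, q, hq⟩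
    induction w using Quotient.inductionOn with
    | h c => exact ⟨c, h, q, hq⟩
  · rintro ⟨c, h, q, hq⟩
    exact ⟨Quotient.mk (S x) c, h, q, hq⟩

end Cg

variable {μ : Measure X} {S : X → Setoid (G × Z)} {T : X → SimpleGraph (G × Z)}

lemma RandArb.meas_adj [Countable G] [Countable Z] (h : RandArb μ S T) (a b : G × Z) :
    MeasurableSet {x | (cg (S x) (T x)).Adj (Quotient.mk (S x) a) (Quotient.mk (S x) b)} := by
  have h1 : {x | (cg (S x) (T x)).Adj (Quotient.mk (S x) a) (Quotient.mk (S x) b)} =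
      {x | (S x) a b}ᶜ ∩ ⋃ c : G × Z, ⋃ c' : G × Z,
        ({x | (T x).Adj c c'} ∩ ({x | (S x) a c} ∩ {x | (S x) b c'})) := by
    ext x
    simp only [Set.mem_ofPred_eq, Set.mem_inter_iff, Set.mem_compl_iff, Set.mem_iUnion,
      cg_adj_iff']
  rw [h1]
  refine (h.measS a b).compl.inter (MeasurableSet.iUnion fun c => MeasurableSet.iUnion fun c' => ?_)
  exact (h.measT c c').inter ((h.measS a c).inter (h.measS b c'))

lemma RandArb.meas_Wc [Countable G] [Countable Z] (h : RandArb μ S T) (n : ℕ) :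
    ∀ a b, MeasurableSet (Wc S T n a b) := by
  induction n with
  | zero =>
    intro a b
    rw [Wc_zero]
    exact h.measS a b
  | succ n ih =>
    intro a b
    rw [Wc_succ]
    exact MeasurableSet.iUnion fun c => (h.meas_adj a c).inter (ih c b)

lemma RandArb.meas_cd [Countable G] [Countable Z] (h : RandArb μ S T) (a b : G × Z) :
    Measurable fun x => cd (S x) (T x) a b := by
  apply measurable_to_countable'
  intro n
  have h1 : (fun x => cd (S x) (T x) a b) ⁻¹' {n} = (Wc S T n a b ∩ ⋂ m : ℕ, ⋂ _ : m < n,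
      (Wc S T m a b)ᶜ) ∪ ({_x | n = 0} ∩ ⋂ m : ℕ, (Wc S T m a b)ᶜ) := by
    ext x
    simp only [Set.mem_preimage, Set.mem_singleton_iff, Set.mem_union, Set.mem_inter_iff,
      Set.mem_iInter, Set.mem_compl_iff, Set.mem_ofPred_eq]
    exact dist_eq_iff (cg (S x) (T x)) _ _ n
  rw [h1]
  refine MeasurableSet.union ?_ ?_
  · refine (h.meas_Wc n a b).inter ?_
    exact MeasurableSet.iInter fun m => MeasurableSet.iInter fun _ => (h.meas_Wc m a b).compl
  · exact (MeasurableSet.const _).inter (MeasurableSet.iInter fun m => (h.meas_Wc m a b).compl)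

lemma RandArb.adj_equi (h : RandArb μ S T) (g : G) (x : X) (a b : G × Z) :
    (cg (S (g • x)) (T (g • x))).Adj (Quotient.mk _ (sh g a)) (Quotient.mk _ (sh g b)) ↔
      (cg (S x) (T x)).Adj (Quotient.mk _ a) (Quotient.mk _ b) := by
  rw [cg_adj_iff', cg_adj_iff', h.equiS]
  refine and_congr Iff.rfl ⟨?_, ?_⟩
  · rintro ⟨c, c', h1, h2, h3⟩
    refine ⟨sh g⁻¹ c, sh g⁻¹ c', ?_, ?_, ?_⟩
    · rw [← h.equiT g]; simpa using h1
    · rw [← h.equiS g]; simpa using h2
    · rw [← h.equiS g]; simpa using h3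
  · rintro ⟨c, c', h1, h2, h3⟩
    exact ⟨sh g c, sh g c', (h.equiT g x _ _).2 h1, (h.equiS g x _ _).2 h2,
      (h.equiS g x _ _).2 h3⟩

lemma RandArb.Wc_equi (h : RandArb μ S T) (n : ℕ) : ∀ (g : G) (x : X) (a b : G × Z),
    g • x ∈ Wc S T n (sh g a) (sh g b) ↔ x ∈ Wc S T n a b := by
  induction n with
  | zero =>
    intro g x a b
    rw [Wc_zero, Wc_zero]
    exact h.equiS g x a b
  | succ n ih =>
    intro g x a b
    rw [Wc_succ, Wc_succ, Set.mem_iUnion, Set.mem_iUnion]
    constructor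
    · rintro ⟨c, h1, h2⟩
      have h3 : c = sh g (sh g⁻¹ c) := by simp
      rw [h3] at h1 h2
      exact ⟨sh g⁻¹ c, (h.adj_equi g x _ _).1 h1, (ih g x _ _).1 h2⟩
    · rintro ⟨c, h1, h2⟩
      exact ⟨sh g c, (h.adj_equi g x _ _).2 h1, (ih g x _ _).2 h2⟩

lemma RandArb.cd_equi (h : RandArb μ S T) (g : G) (x : X) (a b : G × Z) :
    cd (S (g • x)) (T (g • x)) (sh g a) (sh g b) = cd (S x) (T x) a b := by
  unfold cd
  rw [dist_eq_iff]
  have h1 : ∀ n, (∃ p : (cg (S (g • x)) (T (g • x))).Walk (Quotient.mk _ (sh g a))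
      (Quotient.mk _ (sh g b)), p.length = n) ↔
      ∃ p : (cg (S x) (T x)).Walk (Quotient.mk _ a) (Quotient.mk _ b), p.length = n :=
    fun n => h.Wc_equi n g x a b
  simp only [h1]
  rw [← dist_eq_iff]

lemma RandArb.meas3 [Countable G] [Countable Z] (h : RandArb μ S T) (p : ℕ → ℕ → ℕ → Prop)
    (a a' b b' c c' : G × Z) :
    MeasurableSet {x | p (cd (S x) (T x) a a') (cd (S x) (T x) b b') (cd (S x) (T x) c c')} := by
  have h1 : Measurable fun x => (cd (S x) (T x) a a', cd (S x) (T x) b b',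
      cd (S x) (T x) c c') :=
    (h.meas_cd a a').prodMk ((h.meas_cd b b').prodMk (h.meas_cd c c'))
  exact h1 (MeasurableSet.of_discrete (s := {q : ℕ × ℕ × ℕ | p q.1 q.2.1 q.2.2}))

/-- The pseudometric on `G`. -/
theorem RandArb.invMet [Countable G] [Countable Z] (h : RandArb μ S T) (z₀ : Z) :
    InvMet μ fun x a b => cd (S x) (T x) (a, z₀) (b, z₀) where
  mp := h.mp
  meas := fun a b => h.meas_cd _ _
  equi := fun g x a b => h.cd_equi g x (a, z₀) (b, z₀)
  hyp := by
    filter_upwards [h.arb] with x hx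
    have h1 := hx.pHyp
    exact ⟨⟨fun a b => h1.symm _ _, fun o a b c => h1.hyp _ _ _ _⟩, fun a => h1.self _,
      fun a b c => h1.tri _ _ _⟩

/-- Labels of pairs. -/
def lab : G × (Z × G × Z) ≃ (G × Z) × (G × Z) where
  toFun p := ((p.1, p.2.1), (p.1 * p.2.2.1, p.2.2.2))
  invFun q := (q.1.1, (q.1.2, q.1.1⁻¹ * q.2.1, q.2.2))
  left_inv p := by simp
  right_inv q := by simp

/-- The labelled edges of the initial part of a path. -/
def El (S : X → Setoid (G × Z)) (T : X → SimpleGraph (G × Z)) (z₀ : Z) (x : X) (a b : G)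
    (n : ℕ) : Set (G × (Z × G × Z)) :=
  lab ⁻¹' Ed (S x) (T x) (a, z₀) (b, z₀) n

lemma RandArb.meas_Ed [Countable G] [Countable Z] (h : RandArb μ S T) (a b : G × Z) (n : ℕ)
    (p : (G × Z) × (G × Z)) : MeasurableSet {x | p ∈ Ed (S x) (T x) a b n} := by
  have h1 : {x | p ∈ Ed (S x) (T x) a b n} = {x | (T x).Adj p.1 p.2} ∩
      ({x | cd (S x) (T x) a p.1 + 1 + cd (S x) (T x) p.2 b = cd (S x) (T x) a b} ∩
        {x | cd (S x) (T x) a p.1 < n}) := by
    ext x
    rfl
  rw [h1]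
  refine (h.measT _ _).inter ((h.meas3 (fun u v w => u + 1 + v = w) _ _ _ _ _ _).inter
    (h.meas3 (fun u _ _ => u < n) a p.1 a a a a))

lemma RandArb.Ed_equi (h : RandArb μ S T) (g : G) (x : X) (a b : G × Z) (n : ℕ)
    (p : (G × Z) × (G × Z)) :
    (sh g p.1, sh g p.2) ∈ Ed (S (g • x)) (T (g • x)) (sh g a) (sh g b) n ↔
      p ∈ Ed (S x) (T x) a b n := by
  unfold Ed
  simp only [Set.mem_ofPred_eq, h.equiT, h.cd_equi]

theorem RandArb.paths [Countable G] [Countable Z] (h : RandArb μ S T) (z₀ : Z) :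
    Paths μ (fun x a b => cd (S x) (T x) (a, z₀) (b, z₀)) (El S T z₀) where
  meas := fun a b n p => h.meas_Ed _ _ n (lab p)
  equi := fun g x a b n c y => by
    have h1 := h.Ed_equi g x (a, z₀) (b, z₀) n (lab (c, y))
    unfold El
    rw [Set.mem_preimage, Set.mem_preimage, ← h1]
    have h2 : lab (g * c, y) = (sh g (lab (c, y)).1, sh g (lab (c, y)).2) := by
      simp [lab, sh, mul_assoc]
    rw [h2]
    rfl
  fin := by
    filter_upwards [h.arb] with x hx a b n
    have h1 := hx.finite_Ed (a, z₀) (b, z₀) n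
    have h2 := hx.ncard_Ed (a, z₀) (b, z₀) n
    refine ⟨h1.preimage (lab.injective.injOn), ?_⟩
    unfold El
    rw [Set.ncard_preimage_of_injective_subset_range lab.injective]
    · exact h2
    · rw [lab.surjective.range_eq]
      exact Set.subset_univ _
  common := by
    filter_upwards [h.arb] with x hx o a a' b b' R n m hp ha ha' hn
    obtain ⟨φ, h1, h2⟩ := hx.common (o := (o, z₀)) (a := (a, z₀)) (a' := (a', z₀))
      (b := (b, z₀)) (b' := (b', z₀)) hp ha ha' hn
    refine ⟨fun j => lab.symm (φ j), fun i j hij => h1 (lab.symm.injective hij), fun j => ?_⟩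
    unfold El
    simp only [Set.mem_preimage, Equiv.apply_symm_apply]
    exact h2 j

end Pool.Agent.Lib.MP_90732c_al.Fd
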