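import Pool.Agent.Lib.MP_90732c_al.RtFar

/-! Distances in trees are tree-like; invariant random spanning trees. -/

set_option autoImplicit false

open MeasureTheory

namespace Pool.Agent.Lib.MP_90732c_al.Rt

section Tree

variable {V : Type} {T : SimpleGraph V}

/-- The first step of a geodesic. -/
lemma exists_step (hT : T.Connected) {a b : V} (hab : a ≠ b) :
    ∃ c, T.Adj a c ∧ T.dist c b + 1 = T.dist a b := by
  obtain ⟨p, hp⟩ := hT.exists_walk_length_eq_dist a b
  cases p with
  | nil => exact absurd rfl hab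
  | @cons _ c _ h q =>
    refine ⟨c, h, ?_⟩
    rw [SimpleGraph.Walk.length_cons] at hp
    have h1 := SimpleGraph.dist_le q
    have h2 := hT.dist_triangle (u := a) (v := c) (w := b)
    rw [SimpleGraph.dist_eq_one_iff_adj.2 h] at h2
    omega

/-- In a tree the first step of a geodesic is unique. -/
lemma step_unique (hT : T.IsTree) {w u v c : V} (hu : T.Adj w u) (hv : T.Adj w v)
    (hu' : T.dist u c + 1 = T.dist w c) (hv' : T.dist v c + 1 = T.dist w c) : u = v := by
  obtain ⟨p, hp⟩ := hT.connected.exists_walk_length_eq_dist u c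
  obtain ⟨q, hq⟩ := hT.connected.exists_walk_length_eq_dist v c
  have h1 : (SimpleGraph.Walk.cons hu p).IsPath :=
    SimpleGraph.Walk.isPath_of_length_eq_dist _ (by
      rw [SimpleGraph.Walk.length_cons]; omega)
  have h2 : (SimpleGraph.Walk.cons hv q).IsPath :=
    SimpleGraph.Walk.isPath_of_length_eq_dist _ (by
      rw [SimpleGraph.Walk.length_cons]; omega)
  have h3 := (hT.isAcyclic.subsingleton_path w c).elim ⟨_, h1⟩ ⟨_, h2⟩
  have h4 : SimpleGraph.Walk.cons hu p = SimpleGraph.Walk.cons hv q := congrArg Subtype.val h3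
  have h5 := congrArg SimpleGraph.Walk.snd h4
  simpa using h5

/-- Adjacent vertices have distances to any vertex differing by one. -/
lemma dist_adj (hT : T.IsTree) {v w : V} (h : T.Adj v w) (u : V) :
    T.dist v u = T.dist w u + 1 ∨ T.dist w u = T.dist v u + 1 := by
  have h1 := hT.dist_eq_dist_add_one_of_adj u h
  rwa [SimpleGraph.dist_comm (u := u) (v := v), SimpleGraph.dist_comm (u := u) (v := w)] at h1

/-- Medians. -/
lemma exists_med (hT : T.IsTree) (n : ℕ) : ∀ a b c : V, T.dist a b = n →
    ∃ m, T.dist a m + T.dist m b = T.dist a b ∧ T.dist a m + T.dist m c = T.dist a c ∧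
      T.dist b m + T.dist m c = T.dist b c := by
  induction n with
  | zero =>
    intro a b c h
    have h1 : a = b := (hT.connected.dist_eq_zero_iff).1 h
    subst h1
    exact ⟨a, by simp, by simp, by simp⟩
  | succ n ih =>
    intro a b c h
    have hab : a ≠ b := by
      rintro rfl
      rw [SimpleGraph.dist_self] at h
      omega
    obtain ⟨a', h1, h2⟩ := exists_step hT.connected hab
    obtain ⟨m, h3, h4, h5⟩ := ih a' b c (by omega)
    have hadj : T.dist a a' = 1 := SimpleGraph.dist_eq_one_iff_adj.2 h1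
    rcases dist_adj hT h1 c with h6 | h6
    · refine ⟨m, ?_, ?_, h5⟩
      · have h7 := hT.connected.dist_triangle (u := a) (v := a') (w := m)
        have h8 := hT.connected.dist_triangle (u := a) (v := m) (w := b)
        omega
      · have h7 := hT.connected.dist_triangle (u := a) (v := a') (w := m)
        have h8 := hT.connected.dist_triangle (u := a) (v := m) (w := c)
        omega
    · -- `a` is between `a'` and `c`
      by_cases hm : a' = m
      · subst hm
        refine ⟨a, by simp, by simp, ?_⟩
        rw [SimpleGraph.dist_comm (u := b) (v := a)]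
        rw [SimpleGraph.dist_comm (u := b) (v := a')] at h5
        omega
      · exfalso
        obtain ⟨a'', h7, h8⟩ := exists_step hT.connected hm
        have h9 : T.dist a'' c + 1 = T.dist a' c := by
          have h10 := hT.connected.dist_triangle (u := a'') (v := m) (w := c)
          rcases dist_adj hT h7 c with h11 | h11 <;> omega
        have h10 : T.dist a'' b + 1 = T.dist a' b := by
          have h10 := hT.connected.dist_triangle (u := a'') (v := m) (w := b)
          rcases dist_adj hT h7 b with h11 | h11 <;> omega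
        have h11 : a = a'' := step_unique hT h1.symm h7 (by omega) h9
        rw [← h11] at h10
        omega

/-- Points of a geodesic are linearly ordered. -/
lemma linear (hT : T.IsTree) (n : ℕ) : ∀ o b m₁ m₂ : V, T.dist o m₁ = n →
    T.dist o m₁ + T.dist m₁ b = T.dist o b → T.dist o m₂ + T.dist m₂ b = T.dist o b →
    T.dist o m₁ ≤ T.dist o m₂ → T.dist o m₁ + T.dist m₁ m₂ = T.dist o m₂ := by
  induction n with
  | zero =>
    intro o b m₁ m₂ h _ _ _
    have h1 : o = m₁ := (hT.connected.dist_eq_zero_iff).1 h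
    subst h1
    simp
  | succ n ih =>
    intro o b m₁ m₂ h h1 h2 h3
    have ho1 : o ≠ m₁ := by
      rintro rfl
      rw [SimpleGraph.dist_self] at h
      omega
    have ho2 : o ≠ m₂ := by
      rintro rfl
      rw [SimpleGraph.dist_self] at h3
      omega
    obtain ⟨u, h4, h5⟩ := exists_step hT.connected ho1
    obtain ⟨v, h6, h7⟩ := exists_step hT.connected ho2
    have h8 : T.dist u b + 1 = T.dist o b := by
      have h10 := hT.connected.dist_triangle (u := u) (v := m₁) (w := b)
      rcases dist_adj hT h4 b with h11 | h11 <;> omega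
    have h9 : T.dist v b + 1 = T.dist o b := by
      have h10 := hT.connected.dist_triangle (u := v) (v := m₂) (w := b)
      rcases dist_adj hT h6 b with h11 | h11 <;> omega
    have h10 : u = v := step_unique hT h4 h6 h8 h9
    subst h10
    have h11 := ih u b m₁ m₂ (by omega) (by omega) (by omega) (by omega)
    omega

/-- Points of geodesics. -/
lemma exists_point (hT : T.Connected) (a b : V) (t : ℕ) (ht : t ≤ T.dist a b) :
    ∃ c, T.dist a c + T.dist c b = T.dist a b ∧ T.dist a c = t := by
  induction t with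
  | zero => exact ⟨a, by simp, by simp⟩
  | succ t ih =>
    obtain ⟨c, h1, h2⟩ := ih (by omega)
    have hcb : c ≠ b := by
      rintro rfl
      rw [SimpleGraph.dist_self] at h1
      omega
    obtain ⟨c', h3, h4⟩ := exists_step hT hcb
    refine ⟨c', ?_, ?_⟩ <;>
    · have h5 := hT.dist_triangle (u := a) (v := c) (w := c')
      have h6 := hT.dist_triangle (u := a) (v := c') (w := b)
      rw [SimpleGraph.dist_eq_one_iff_adj.2 h3] at h5
      omega

/-- The distance of a tree is tree-like. -/
theorem treeLike_dist (hT : T.IsTree) : TreeLike T.dist where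
  symm := fun _ _ => SimpleGraph.dist_comm
  self := fun _ => SimpleGraph.dist_self
  eq := fun _ _ h => (hT.connected.dist_eq_zero_iff).1 h
  tri := fun _ _ _ => hT.connected.dist_triangle
  geo := fun a b t ht => by
    obtain ⟨c, h1, h2⟩ := exists_point hT.connected a b t ht.le
    exact ⟨c, h1, Or.inl h2⟩
  med := fun a b c => exists_med hT _ a b c rfl
  hyp := fun o a b c => by
    obtain ⟨m₁, h1, h2, h3⟩ := exists_med hT _ o a b rfl
    obtain ⟨m₂, h4, h5, h6⟩ := exists_med hT _ o b c rfl
    have ea : T.dist m₁ a = T.dist a m₁ := SimpleGraph.dist_comm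
    have eb : T.dist m₁ b = T.dist b m₁ := SimpleGraph.dist_comm
    have ec : T.dist m₂ b = T.dist b m₂ := SimpleGraph.dist_comm
    have ed : T.dist m₂ m₁ = T.dist m₁ m₂ := SimpleGraph.dist_comm
    unfold pr
    rcases le_total (T.dist o m₁) (T.dist o m₂) with h7 | h7
    · have h8 := linear hT _ o b m₁ m₂ rfl h2 h4 h7
      have h9 := hT.connected.dist_triangle (u := a) (v := m₁) (w := c)
      have h10 := hT.connected.dist_triangle (u := m₁) (v := m₂) (w := c)
      apply min_le_of_left_le
      omega
    · have h8 := linear hT _ o b m₂ m₁ rfl h4 h2 h7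
      have h9 := hT.connected.dist_triangle (u := a) (v := m₂) (w := c)
      have h10 := hT.connected.dist_triangle (u := a) (v := m₁) (w := m₂)
      apply min_le_of_right_le
      omega

end Tree

section Random

variable {G : Type} {X : Type}

/-- The event that there is a walk of length `n`. -/
def Wk (T : X → SimpleGraph G) (n : ℕ) (a b : G) : Set X :=
  {x | ∃ p : (T x).Walk a b, p.length = n}

lemma Wk_zero (T : X → SimpleGraph G) (a b : G) : Wk T 0 a b = {_x | a = b} := by
  ext x
  constructor
  · rintro ⟨p, hp⟩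
    exact SimpleGraph.Walk.eq_of_length_eq_zero hp
  · intro h
    have h' : a = b := h
    subst h'
    exact ⟨SimpleGraph.Walk.nil, rfl⟩

lemma Wk_succ (T : X → SimpleGraph G) (n : ℕ) (a b : G) :
    Wk T (n + 1) a b = ⋃ c, ({x | (T x).Adj a c} ∩ Wk T n c b) := by
  ext x
  rw [Set.mem_iUnion]
  constructor
  · rintro ⟨p, hp⟩
    cases p with
    | nil => simp at hp
    | @cons _ c _ h q =>
      rw [SimpleGraph.Walk.length_cons] at hp
      exact ⟨c, h, q, by omega⟩
  · rintro ⟨c, h, q, hq⟩
    exact ⟨SimpleGraph.Walk.cons h q, by rw [SimpleGraph.Walk.length_cons, hq]⟩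

lemma measurable_Wk [Countable G] [MeasurableSpace X] {T : X → SimpleGraph G}
    (hT : ∀ a b, MeasurableSet {x | (T x).Adj a b}) (n : ℕ) :
    ∀ a b, MeasurableSet (Wk T n a b) := by
  induction n with
  | zero =>
    intro a b
    rw [Wk_zero]
    exact MeasurableSet.const _
  | succ n ih =>
    intro a b
    rw [Wk_succ]
    exact MeasurableSet.iUnion fun c => (hT a c).inter (ih c b)

lemma dist_eq_iff (T : SimpleGraph G) (a b : G) (n : ℕ) :
    T.dist a b = n ↔ ((∃ p : T.Walk a b, p.length = n) ∧
      ∀ m < n, ¬ ∃ p : T.Walk a b, p.length = m) ∨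
        (n = 0 ∧ ∀ m, ¬ ∃ p : T.Walk a b, p.length = m) := by
  by_cases h : T.Reachable a b
  · obtain ⟨p, hp⟩ := h.exists_walk_length_eq_dist
    constructor
    · rintro rfl
      left
      refine ⟨⟨p, hp⟩, ?_⟩
      rintro m hm ⟨q, hq⟩
      have := SimpleGraph.dist_le q
      omega
    · rintro (⟨⟨q, hq⟩, h2⟩ | ⟨_, h2⟩)
      · have h3 := SimpleGraph.dist_le q
        by_contra h4
        exact h2 (T.dist a b) (by omega) ⟨p, hp⟩
      · exact absurd ⟨p, rfl⟩ (h2 p.length)
  · have h1 : ∀ m, ¬ ∃ p : T.Walk a b, p.length = m := by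
      rintro m ⟨p, _⟩
      exact h ⟨p⟩
    rw [SimpleGraph.dist_eq_zero_of_not_reachable h]
    constructor
    · rintro rfl
      exact Or.inr ⟨rfl, h1⟩
    · rintro (⟨h2, _⟩ | ⟨h2, _⟩)
      · exact absurd h2 (h1 n)
      · exact h2.symm

lemma measurable_dist [Countable G] [MeasurableSpace X] {T : X → SimpleGraph G}
    (hT : ∀ a b, MeasurableSet {x | (T x).Adj a b}) (a b : G) :
    Measurable fun x => (T x).dist a b := by
  apply measurable_to_countable'
  intro n
  have h1 : (fun x => (T x).dist a b) ⁻¹' {n} = (Wk T n a b ∩ ⋂ m : ℕ, ⋂ _ : m < n,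
      (Wk T m a b)ᶜ) ∪ ({_x | n = 0} ∩ ⋂ m : ℕ, (Wk T m a b)ᶜ) := by
    ext x
    simp only [Set.mem_preimage, Set.mem_singleton_iff, Set.mem_union, Set.mem_inter_iff,
      Set.mem_iInter, Set.mem_compl_iff, Set.mem_ofPred_eq]
    exact dist_eq_iff (T x) a b n
  rw [h1]
  refine MeasurableSet.union ?_ ?_
  · refine (measurable_Wk hT n a b).inter ?_
    exact MeasurableSet.iInter fun m => MeasurableSet.iInter fun _ =>
      (measurable_Wk hT m a b).compl
  · exact (MeasurableSet.const _).inter (MeasurableSet.iInter fun m =>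
      (measurable_Wk hT m a b).compl)

lemma Wk_equi [Group G] [MulAction G X] {T : X → SimpleGraph G}
    (hT : ∀ (g : G) (x : X) (a b : G), (T (g • x)).Adj (g * a) (g * b) ↔ (T x).Adj a b)
    (n : ℕ) : ∀ (g : G) (x : X) (a b : G), g • x ∈ Wk T n (g * a) (g * b) ↔ x ∈ Wk T n a b := by
  induction n with
  | zero =>
    intro g x a b
    rw [Wk_zero, Wk_zero]
    simp only [Set.mem_ofPred_eq, mul_right_inj]
  | succ n ih =>
    intro g x a b
    rw [Wk_succ, Wk_succ, Set.mem_iUnion, Set.mem_iUnion]
    constructor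
    · rintro ⟨c, h1, h2⟩
      have h3 : c = g * (g⁻¹ * c) := by rw [mul_inv_cancel_left]
      rw [h3] at h1 h2
      exact ⟨g⁻¹ * c, (hT g x _ _).1 h1, (ih g x _ _).1 h2⟩
    · rintro ⟨c, h1, h2⟩
      exact ⟨g * c, (hT g x _ _).2 h1, (ih g x _ _).2 h2⟩

lemma dist_equi [Group G] [MulAction G X] {T : X → SimpleGraph G}
    (hT : ∀ (g : G) (x : X) (a b : G), (T (g • x)).Adj (g * a) (g * b) ↔ (T x).Adj a b)
    (g : G) (x : X) (a b : G) : (T (g • x)).dist (g * a) (g * b) = (T x).dist a b := by
  rw [dist_eq_iff]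
  have h1 : ∀ n, (∃ p : (T (g • x)).Walk (g * a) (g * b), p.length = n) ↔
      ∃ p : (T x).Walk a b, p.length = n := fun n => Wk_equi hT n g x a b
  simp only [h1]
  rw [← dist_eq_iff]

/-- An invariant random spanning tree gives an invariant random tree-like metric. -/
theorem invTree_dist [Group G] [Countable G] [MeasurableSpace X] [MulAction G X]
    {μ : Measure X} (hμ : ∀ g : G, MeasurePreserving (fun x : X => g • x) μ μ)
    {T : X → SimpleGraph G} (hm : ∀ a b, MeasurableSet {x | (T x).Adj a b})
    (hT : ∀ (g : G) (x : X) (a b : G), (T (g • x)).Adj (g * a) (g * b) ↔ (T x).Adj a b)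
    (htree : ∀ᵐ x ∂μ, (T x).IsTree) : InvTree μ fun x => (T x).dist where
  mp := hμ
  meas := measurable_dist hm
  equi := dist_equi hT
  tree := htree.mono fun _ hx => treeLike_dist hx

/-- **Six pieces for treeable groups.** -/
theorem tarskiLe_of_treeable [Group G] [Countable G] [MeasurableSpace X] [MulAction G X]
    (μ : Measure X) [IsProbabilityMeasure μ]
    (hμ : ∀ g : G, MeasurePreserving (fun x : X => g • x) μ μ)
    (T : X → SimpleGraph G) (hm : ∀ a b, MeasurableSet {x | (T x).Adj a b})
    (hT : ∀ (g : G) (x : X) (a b : G), (T (g • x)).Adj (g * a) (g * b) ↔ (T x).Adj a b)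
    (htree : ∀ᵐ x ∂μ, (T x).IsTree) {C : ℕ} (hna : TarskiLe G C) : TarskiLe G 6 :=
  (invTree_dist hμ hm hT htree).tarskiLe hna

end Random

end Pool.Agent.Lib.MP_90732c_al.Rt
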