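import Pool.Agent.Lib.MP_90732c_al.FdAvg
import Pool.Agent.Lib.MP_90732c_al.RtGraph

/-! Trees of classes. -/

set_option autoImplicit false

namespace Pool.Agent.Lib.MP_90732c_al.Fd

open Pool.Agent.Lib.MP_90732c_al.Rt (pr Hyp TreeLike treeLike_dist step_unique exists_step
  exists_point dist_adj)

variable {W : Type}

/-- The graph of classes. -/
def cg (S : Setoid W) (T : SimpleGraph W) : SimpleGraph (Quotient S) :=
  SimpleGraph.fromRel (Relation.Map T.Adj (Quotient.mk S) (Quotient.mk S))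

/-- The classes form a tree whose edges are the edges of `T`. -/
structure Arb (S : Setoid W) (T : SimpleGraph W) : Prop where
  tree : (cg S T).IsTree
  loop : ∀ a b, T.Adj a b → ¬ S a b
  inj : ∀ a b a' b', T.Adj a b → T.Adj a' b' → S a a' → S b b' → a = a' ∧ b = b'

/-- The distance of the classes. -/
noncomputable def cd (S : Setoid W) (T : SimpleGraph W) (a b : W) : ℕ :=
  (cg S T).dist (Quotient.mk S a) (Quotient.mk S b)

variable {S : Setoid W} {T : SimpleGraph W}

lemma cg_adj_iff (h : ∀ a b, T.Adj a b → ¬ S a b) (a b : W) :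
    (cg S T).Adj (Quotient.mk S a) (Quotient.mk S b) ↔ ∃ c c', T.Adj c c' ∧ S a c ∧ S b c' := by
  unfold cg
  rw [SimpleGraph.fromRel_adj]
  constructor
  · rintro ⟨_, ⟨c, c', h1, h2, h3⟩ | ⟨c, c', h1, h2, h3⟩⟩
    · exact ⟨c, c', h1, S.symm (Quotient.exact h2), S.symm (Quotient.exact h3)⟩
    · exact ⟨c', c, h1.symm, S.symm (Quotient.exact h3), S.symm (Quotient.exact h2)⟩
  · rintro ⟨c, c', h1, h2, h3⟩
    refine ⟨fun h4 => ?_, Or.inl ⟨c, c', h1, ?_, ?_⟩⟩
    · exact h c c' h1 (S.trans (S.symm h2) (S.trans (Quotient.exact h4) h3))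
    · exact Quotient.sound (S.symm h2)
    · exact Quotient.sound (S.symm h3)

lemma Arb.adj (h : Arb S T) {a b : W} (hab : T.Adj a b) :
    (cg S T).Adj (Quotient.mk S a) (Quotient.mk S b) :=
  (cg_adj_iff h.loop a b).2 ⟨a, b, hab, S.refl a, S.refl b⟩

lemma Arb.pHyp (h : Arb S T) : PHyp (cd S T) := by
  have h1 := treeLike_dist h.tree
  refine ⟨⟨fun a b => h1.symm _ _, fun o a b c => h1.hyp _ _ _ _⟩, fun a => h1.self _,
    fun a b c => h1.tri _ _ _⟩

lemma Arb.cd_eq_zero (h : Arb S T) (a b : W) : cd S T a b = 0 ↔ S a b := by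
  unfold cd
  rw [h.tree.connected.dist_eq_zero_iff]
  exact ⟨fun h1 => Quotient.exact h1, fun h1 => Quotient.sound h1⟩

lemma cd_congr {a a' b b' : W} (h1 : S a a') (h2 : S b b') : cd S T a b = cd S T a' b' := by
  unfold cd
  rw [show Quotient.mk S a = Quotient.mk S a' from Quotient.sound h1,
    show Quotient.mk S b = Quotient.mk S b' from Quotient.sound h2]

/-- The edges of the initial part of a path. -/
def Ed (S : Setoid W) (T : SimpleGraph W) (a b : W) (n : ℕ) : Set (W × W) :=
  {c | T.Adj c.1 c.2 ∧ cd S T a c.1 + 1 + cd S T c.2 b = cd S T a b ∧ cd S T a c.1 < n}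

/-- Two points of a path at the same depth are equivalent. -/
lemma Arb.unique (h : Arb S T) {a b c c' : W} (h1 : cd S T a c + cd S T c b = cd S T a b)
    (h2 : cd S T a c' + cd S T c' b = cd S T a b) (he : cd S T a c = cd S T a c') :
    S c c' := by
  rw [← h.cd_eq_zero]
  have hd := h.pHyp
  have h3 := hd.hyp a c b c'
  have h4 : pr (cd S T) a c b = 2 * cd S T a c := by unfold pr; omega
  have h5 : pr (cd S T) a b c' = 2 * cd S T a c := by
    unfold pr; rw [hd.symm b c']; omega
  rw [h4, h5, min_self] at h3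
  unfold pr at h3
  omega

lemma Arb.cd_adj (h : Arb S T) {c c' : W} (hc : T.Adj c c') : cd S T c c' = 1 := by
  unfold cd
  rw [SimpleGraph.dist_eq_one_iff_adj]
  exact h.adj hc

lemma Arb.injOn_Ed (h : Arb S T) (a b : W) (n : ℕ) :
    Set.InjOn (fun c : W × W => cd S T a c.1) (Ed S T a b n) := by
  rintro ⟨c, c'⟩ ⟨h1, h2, _⟩ ⟨e, e'⟩ ⟨h3, h4, _⟩ heq
  simp only at h1 h2 h3 h4 heq
  have hd := h.pHyp
  have k1 := h.cd_adj h1
  have k2 := h.cd_adj h3
  have t1 := hd.tri c c' b
  have t2 := hd.tri e e' b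
  have t3 := hd.tri a c c'
  have t4 := hd.tri a e e'
  have t5 := hd.tri a c b
  have t6 := hd.tri a e b
  have t7 := hd.tri a c' b
  have t8 := hd.tri a e' b
  have s1 : S c e := h.unique (a := a) (b := b) (by omega) (by omega) heq
  have s2 : S c' e' := h.unique (a := a) (b := b) (by omega) (by omega) (by omega)
  obtain ⟨r1, r2⟩ := h.inj c c' e e' h1 h3 s1 s2
  rw [r1, r2]

lemma Arb.finite_Ed (h : Arb S T) (a b : W) (n : ℕ) : (Ed S T a b n).Finite := by
  apply Set.Finite.of_finite_image (f := fun c : W × W => cd S T a c.1) _ (h.injOn_Ed a b n)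
  apply (Set.finite_Iio n).subset
  rintro _ ⟨c, hc, rfl⟩
  exact hc.2.2

lemma Arb.ncard_Ed (h : Arb S T) (a b : W) (n : ℕ) : (Ed S T a b n).ncard ≤ n := by
  rw [← (h.injOn_Ed a b n).ncard_image]
  have h1 : (fun c : W × W => cd S T a c.1) '' Ed S T a b n ⊆ Set.Iio n := by
    rintro _ ⟨c, hc, rfl⟩
    exact hc.2.2
  have h2 := Set.ncard_le_ncard h1 (Set.finite_Iio n)
  have h3 : (Set.Iio n).ncard = n := by
    rw [Set.ncard_eq_toFinset_card' (Set.Iio n)]
    simp
  omega

/-- The edge of a path at a given depth. -/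
lemma Arb.exists_edge (h : Arb S T) (o b : W) (t : ℕ) (ht : t < cd S T o b) :
    ∃ c c', T.Adj c c' ∧ cd S T o c = t ∧ cd S T o c' = t + 1 ∧
      cd S T o c + 1 + cd S T c' b = cd S T o b := by
  obtain ⟨p, hp1, hp2⟩ := exists_point h.tree.connected (Quotient.mk S o) (Quotient.mk S b) t
    ht.le
  have hpb : p ≠ Quotient.mk S b := by
    rintro rfl
    rw [SimpleGraph.dist_self] at hp1
    unfold cd at ht
    omega
  obtain ⟨q, hq1, hq2⟩ := exists_step h.tree.connected hpb
  induction p using Quotient.inductionOn with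
  | h p =>
  induction q using Quotient.inductionOn with
  | h q =>
  obtain ⟨c, c', h1, h2, h3⟩ := (cg_adj_iff h.loop p q).1 hq1
  refine ⟨c, c', h1, ?_, ?_, ?_⟩
  · rw [← cd_congr (S.refl o) h2]; exact hp2
  · rw [← cd_congr (S.refl o) h3]
    have h4 := h.tree.connected.dist_triangle (u := Quotient.mk S o) (v := Quotient.mk S p)
      (w := Quotient.mk S q)
    have h5 := h.tree.connected.dist_triangle (u := Quotient.mk S o) (v := Quotient.mk S q)
      (w := Quotient.mk S b)
    rw [SimpleGraph.dist_eq_one_iff_adj.2 hq1] at h4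
    unfold cd
    omega
  · rw [← cd_congr (S.refl o) h2, ← cd_congr h3 (S.refl b)]
    unfold cd
    omega

/-- Long common parts have many common edges. -/
theorem Arb.common (h : Arb S T) {o a a' b b' : W} {R n m : ℕ}
    (hp : (2 * n : ℤ) ≤ pr (cd S T) o b b') (ha : cd S T o a ≤ R) (ha' : cd S T o a' ≤ R)
    (hn : 2 * R + m + 2 ≤ n) :
    ∃ φ : Fin m → W × W, Function.Injective φ ∧
      ∀ j, φ j ∈ Ed S T a b n ∧ φ j ∈ Ed S T a' b' n := by
  have hd := h.pHyp
  have hob := pr_le hd o b b'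
  have key : ∀ j : Fin m, ∃ c : W × W, T.Adj c.1 c.2 ∧ cd S T o c.1 = R + 1 + j ∧
      cd S T o c.2 = R + 1 + j + 1 ∧ cd S T o c.1 + 1 + cd S T c.2 b = cd S T o b := by
    intro j
    have := j.2
    obtain ⟨c, c', h1, h2, h3, h4⟩ := h.exists_edge o b (R + 1 + j) (by omega)
    exact ⟨(c, c'), h1, h2, h3, h4⟩
  choose φ hφ1 hφ2 hφ3 hφ4 using key
  refine ⟨φ, ?_, fun j => ?_⟩
  · intro i j hij
    have h1 := hφ2 i
    have h2 := hφ2 j
    rw [hij] at h1
    apply Fin.ext
    omega
  · have hj := j.2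
    have h1 := hφ2 j
    have h2 := hφ3 j
    have h3 := hφ4 j
    have k1 := h.cd_adj (hφ1 j)
    have t1 := hd.tri (φ j).1 (φ j).2 b
    have t2 := hd.tri o (φ j).1 b
    have e1 : cd S T o (φ j).1 + cd S T (φ j).1 b = cd S T o b := by omega
    have e2 : cd S T o (φ j).2 + cd S T (φ j).2 b = cd S T o b := by omega
    have e3 := on_seg' hd (n := n) e1 hp (by omega)
    have e4 := on_seg' hd (n := n) e2 hp (by omega)
    have f1 := on_seg hd (h := a) e1 (by omega)
    have f2 := on_seg hd (h := a) e2 (by omega)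
    have f3 := on_seg hd (h := a') e3 (by omega)
    have f4 := on_seg hd (h := a') e4 (by omega)
    have g1 := hd.tri a o (φ j).1
    have g2 := hd.tri a' o (φ j).1
    rw [hd.symm a o] at g1
    rw [hd.symm a' o] at g2
    exact ⟨⟨hφ1 j, by omega, by omega⟩, ⟨hφ1 j, by omega, by omega⟩⟩

/-- Medians: one of the points of an edge of the path, or an end of the path. -/
lemma Arb.med (h : Arb S T) (u v g : W) (huv : ¬ S u v) {R : ℕ} (hu : cd S T u g ≤ R + 1)
    (hv : cd S T v g ≤ R + 1) :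
    ∃ c ∈ Ed S T u v (cd S T u v), cd S T c.1 g ≤ R ∨ cd S T c.2 g ≤ R := by
  obtain ⟨m, h1, h2, h3⟩ := (treeLike_dist h.tree).med (Quotient.mk S u) (Quotient.mk S v)
    (Quotient.mk S g)
  induction m using Quotient.inductionOn with
  | h m =>
  change cd S T u m + cd S T m v = cd S T u v at h1
  change cd S T u m + cd S T m g = cd S T u g at h2
  change cd S T v m + cd S T m g = cd S T v g at h3
  have hd := h.pHyp
  have hmv := hd.symm m v
  have hpos : 0 < cd S T u v := by
    rw [Nat.pos_iff_ne_zero]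
    intro h4
    exact huv ((h.cd_eq_zero u v).1 h4)
  by_cases h4 : cd S T u m = 0
  · -- the median is `u`
    obtain ⟨c, c', k1, k2, k3, k4⟩ := h.exists_edge u v 0 hpos
    refine ⟨(c, c'), ⟨k1, by simp only; omega, by simp only; omega⟩, Or.inl ?_⟩
    have k5 : S m c := S.trans (S.symm ((h.cd_eq_zero u m).1 h4)) ((h.cd_eq_zero u c).1 k2)
    simp only
    rw [← cd_congr k5 (S.refl g)]
    omega
  · obtain ⟨c, c', k1, k2, k3, k4⟩ := h.exists_edge u v (cd S T u m - 1) (by omega)
    refine ⟨(c, c'), ⟨k1, by simp only; omega, by simp only; omega⟩, Or.inr ?_⟩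
    have t1 := hd.tri u c' v
    have k5 : S m c' := h.unique (a := u) (b := v) h1 (by omega) (by omega)
    simp only
    rw [← cd_congr k5 (S.refl g)]
    omega

/-- The first edge of a path. -/
lemma Arb.exists_gate (h : Arb S T) (v w : W) (hvw : ¬ S v w) :
    ∃ c c', T.Adj c c' ∧ S v c ∧ cd S T c w = cd S T c' w + 1 := by
  have hpos : 0 < cd S T v w := by
    rw [Nat.pos_iff_ne_zero]
    intro h4
    exact hvw ((h.cd_eq_zero v w).1 h4)
  obtain ⟨c, c', k1, k2, k3, k4⟩ := h.exists_edge v w 0 hpos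
  have h1 := (h.cd_eq_zero v c).1 k2
  refine ⟨c, c', k1, h1, ?_⟩
  rw [← cd_congr h1 (S.refl w)]
  omega

/-- Gates are unique. -/
lemma Arb.gate_unique (h : Arb S T) {c c' e e' w w' : W} (hc : T.Adj c c') (he : T.Adj e e')
    (hce : S c e) (hw : S w w') (h1 : cd S T c w = cd S T c' w + 1)
    (h2 : cd S T e w' = cd S T e' w' + 1) : c = e := by
  have k1 := h.adj hc
  have k2 := h.adj he
  rw [show Quotient.mk S e = Quotient.mk S c from Quotient.sound (S.symm hce)] at k2
  rw [← cd_congr hce hw, ← cd_congr (S.refl e') hw] at h2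
  have k3 := step_unique (c := Quotient.mk S w) h.tree k1 k2 h1.symm h2.symm
  exact (h.inj c c' e e' hc he hce (Quotient.exact k3)).1

end Pool.Agent.Lib.MP_90732c_al.Fd
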