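import Pool.Agent.Lib.MP_90732c_al.FdMetric

/-! Four elements with diverging directions. -/

set_option autoImplicit false

open MeasureTheory

namespace Pool.Agent.Lib.MP_90732c_al.Fd

open Pool.Agent.Lib.MP_90732c_al.Rt (pr Hyp Good)

variable {G : Type} [Group G] {X : Type} [MeasurableSpace X] [MulAction G X]

/-- An invariant random zero-hyperbolic pseudometric on `G`. -/
structure InvMet (μ : Measure X) (d : X → G → G → ℕ) : Prop where
  mp : ∀ g : G, MeasurePreserving (fun x : X => g • x) μ μ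
  meas : ∀ a b, Measurable fun x => d x a b
  equi : ∀ (g : G) (x : X) (a b : G), d (g • x) (g * a) (g * b) = d x a b
  hyp : ∀ᵐ x ∂μ, PHyp (d x)

variable {μ : Measure X} {d : X → G → G → ℕ}

lemma InvMet.meas3 (hd : InvMet μ d) (p : ℕ → ℕ → ℕ → Prop) (a a' b b' c c' : G) :
    MeasurableSet {x | p (d x a a') (d x b b') (d x c c')} := by
  have h1 : Measurable fun x => (d x a a', d x b b', d x c c') :=
    (hd.meas a a').prodMk ((hd.meas b b').prodMk (hd.meas c c'))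
  exact h1 (MeasurableSet.of_discrete (s := {q : ℕ × ℕ × ℕ | p q.1 q.2.1 q.2.2}))

lemma InvMet.meas_pr (hd : InvMet μ d) (o a b : G) (n : ℤ) :
    MeasurableSet {x | n ≤ pr (d x) o a b} :=
  hd.meas3 (fun u v w => n ≤ (u : ℤ) + v - w) o a o b a b

lemma InvMet.meas_le (hd : InvMet μ d) (a b : G) (n : ℕ) :
    MeasurableSet {x | d x a b ≤ n} :=
  hd.meas3 (fun u _ _ => u ≤ n) a b a b a b

lemma InvMet.shift3 (hd : InvMet μ d) (p : ℕ → ℕ → ℕ → Prop) (y a a' b b' c c' : G) :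
    μ.real {x | p (d x (y * a) (y * a')) (d x (y * b) (y * b')) (d x (y * c) (y * c'))} =
      μ.real {x | p (d x a a') (d x b b') (d x c c')} := by
  rw [Measure.real, ← (hd.mp y).measure_preimage (hd.meas3 p _ _ _ _ _ _).nullMeasurableSet]
  congr 2
  ext x
  simp only [Set.mem_preimage, Set.mem_ofPred_eq, hd.equi]

lemma InvMet.shift_pr (hd : InvMet μ d) (n : ℤ) (y o a b : G) :
    μ.real {x | n ≤ pr (d x) (y * o) (y * a) (y * b)} = μ.real {x | n ≤ pr (d x) o a b} :=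
  hd.shift3 (fun u v w => n ≤ (u : ℤ) + v - w) y o a o b a b

lemma InvMet.shift_d (hd : InvMet μ d) (p : ℕ → Prop) (y a b : G) :
    μ.real {x | p (d x (y * a) (y * b))} = μ.real {x | p (d x a b)} :=
  hd.shift3 (fun u _ _ => p u) y a b a b a b

variable [IsProbabilityMeasure μ]

/-- Almost every version of monotonicity. -/
lemma real_le_of_ae {s t : Set X} (h : ∀ᵐ x ∂μ, x ∈ s → x ∈ t) : μ.real s ≤ μ.real t :=
  ENNReal.toReal_mono (measure_ne_top _ _) (measure_mono_ae h)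

/-- Distances are tight. -/
lemma InvMet.exists_tight (hd : InvMet μ d) (H : Finset G) {δ : ℝ}
    (hδ : 0 < δ) : ∃ R : ℕ, ∀ h ∈ H, μ.real {x | R < d x 1 h} ≤ δ := by
  classical
  induction H using Finset.induction_on with
  | empty => exact ⟨0, by simp⟩
  | insert a H _ ih =>
    obtain ⟨R, hR⟩ := ih
    have h1 : Filter.Tendsto (fun R : ℕ => μ {x | R < d x 1 a}) Filter.atTop (nhds (μ ∅)) := by
      have h2 : (⋂ R : ℕ, {x | R < d x 1 a}) = ∅ := by
        ext x
        simp only [Set.mem_iInter, Set.mem_ofPred_eq, Set.mem_empty_iff_false, iff_false,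
          not_forall, not_lt]
        exact ⟨d x 1 a, le_rfl⟩
      rw [← h2]
      apply tendsto_measure_iInter_atTop
      · intro R
        exact ((hd.meas3 (fun u _ _ => R < u) 1 a 1 a 1 a)).nullMeasurableSet
      · intro R R' hRR x hx
        exact lt_of_le_of_lt hRR hx
      · exact ⟨0, measure_ne_top _ _⟩
    rw [measure_empty] at h1
    have h3 : ∀ᶠ R : ℕ in Filter.atTop, μ {x | R < d x 1 a} < ENNReal.ofReal δ :=
      h1.eventually (gt_mem_nhds (ENNReal.ofReal_pos.2 hδ))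
    obtain ⟨R', hR'⟩ := h3.exists_forall_of_atTop
    refine ⟨max R R', fun h hh => ?_⟩
    rcases Finset.mem_insert.1 hh with rfl | hh
    · have h4 := hR' (max R R') (le_max_right _ _)
      rw [Measure.real, ← ENNReal.toReal_ofReal hδ.le]
      exact ENNReal.toReal_mono ENNReal.ofReal_ne_top h4.le
    · refine le_trans (measureReal_mono (fun x hx => ?_) (measure_ne_top _ _)) (hR h hh)
      exact lt_of_le_of_lt (le_max_left R R') (show max R R' < d x 1 h from hx)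

/-- The first point. -/
lemma InvMet.dist_bound (hd : InvMet μ d) {L R R' : ℕ} (hR : 2 * L + 3 * R ≤ R') {ε : ℝ}
    {g a a' : G} (hg : μ.real {x | d x 1 g ≤ R'} ≤ ε) (ha : μ.real {x | R < d x 1 a} ≤ ε)
    (ha' : μ.real {x | R < d x 1 a'} ≤ ε) :
    μ.real {x | d x 1 (a * g * a') < 2 * L} ≤ 3 * ε := by
  have h1 : μ.real {x | d x (a * 1) (a * g) ≤ R'} ≤ ε := by
    rw [hd.shift_d (fun u => u ≤ R') a 1 g]; exact hg
  have h2 : μ.real {x | R < d x (a * g * 1) (a * g * a')} ≤ ε := by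
    rw [hd.shift_d (fun u => R < u) (a * g) 1 a']; exact ha'
  rw [mul_one] at h1 h2
  have h3 : μ.real {x | d x 1 (a * g * a') < 2 * L} ≤ μ.real ({x | d x a (a * g) ≤ R'} ∪
      ({x | R < d x 1 a} ∪ {x | R < d x (a * g) (a * g * a')})) := by
    apply real_le_of_ae
    filter_upwards [hd.hyp] with x hx hlt
    simp only [Set.mem_ofPred_eq, Set.mem_union] at hlt ⊢
    by_contra hcon
    push Not at hcon
    obtain ⟨h4, h5, h6⟩ := hcon
    have h7 := hx.tri a 1 (a * g)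
    have h8 := hx.tri 1 (a * g * a') (a * g)
    rw [hx.symm a 1] at h7
    rw [hx.symm (a * g * a') (a * g)] at h8
    omega
  have h4 := measureReal_union_le (μ := μ) {x | d x a (a * g) ≤ R'}
    ({x | R < d x 1 a} ∪ {x | R < d x (a * g) (a * g * a')})
  have h5 := measureReal_union_le (μ := μ) {x | R < d x 1 a}
    {x | R < d x (a * g) (a * g * a')}
  linarith

/-- The second point. -/
lemma InvMet.pair_bound (hd : InvMet μ d) {L R R' : ℕ} (hR : 2 * L + 3 * R ≤ R') {ε : ℝ}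
    {g a b a' b' : G} (hp : μ.real {x | (2 * L : ℤ) ≤ pr (d x) 1 (a * g) (b * g)} ≤ ε)
    (hg : μ.real {x | d x 1 g ≤ R'} ≤ ε) (ha : μ.real {x | R < d x 1 a} ≤ ε)
    (ha' : μ.real {x | R < d x 1 a'} ≤ ε) (hb : μ.real {x | R < d x 1 b} ≤ ε)
    (hb' : μ.real {x | R < d x 1 b'} ≤ ε) :
    μ.real {x | (2 * L : ℤ) ≤ pr (d x) 1 (a * g * a') (b * g * b')} ≤ 7 * ε := by
  have h1 : ∀ c, μ.real {x | d x (c * 1) (c * g) ≤ R'} ≤ ε := by
    intro c
    rw [hd.shift_d (fun u => u ≤ R') c 1 g]; exact hg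
  have h2 : ∀ c c', μ.real {x | R < d x 1 c'} ≤ ε →
      μ.real {x | R < d x (c * g * 1) (c * g * c')} ≤ ε := by
    intro c c' hc
    rw [hd.shift_d (fun u => R < u) (c * g) 1 c']; exact hc
  simp only [mul_one] at h1 h2
  set A : G → Set X := fun c => {x | d x c (c * g) ≤ R'} with hA
  set B : G → Set X := fun c => {x | R < d x 1 c} with hB
  set D : G → G → Set X := fun c c' => {x | R < d x (c * g) (c * g * c')} with hD
  have h3 : μ.real {x | (2 * L : ℤ) ≤ pr (d x) 1 (a * g * a') (b * g * b')} ≤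
      μ.real ({x | (2 * L : ℤ) ≤ pr (d x) 1 (a * g) (b * g)} ∪
        ((A a ∪ (B a ∪ D a a')) ∪ (A b ∪ (B b ∪ D b b')))) := by
    apply real_le_of_ae
    filter_upwards [hd.hyp] with x hx hlt
    by_contra hcon
    simp only [Set.mem_union, not_or] at hcon
    simp only [hA, hB, hD, Set.mem_ofPred_eq, not_le, not_lt] at hcon hlt
    obtain ⟨h4, ⟨h5, h6, h7⟩, ⟨h8, h9, h10⟩⟩ := hcon
    have h11 : L + R ≤ d x 1 (a * g) := by
      have h12 := hx.tri a 1 (a * g)
      rw [hx.symm a 1] at h12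
      omega
    have h12 : L + R ≤ d x 1 (b * g) := by
      have h12 := hx.tri b 1 (b * g)
      rw [hx.symm b 1] at h12
      omega
    have h13 := pr_ge hx h11 h7
    have h14 := pr_ge hx h12 h10
    rw [pr_comm hx.toHyp] at h14
    have h15 := hx.hyp 1 (a * g) (a * g * a') (b * g * b')
    have h16 := hx.hyp 1 (a * g) (b * g * b') (b * g)
    have h17 : (2 * L : ℤ) ≤ pr (d x) 1 (a * g) (b * g * b') := (le_min h13 hlt).trans h15
    have h18 : (2 * L : ℤ) ≤ pr (d x) 1 (a * g) (b * g) := (le_min h17 h14).trans h16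
    omega
  have u1 := measureReal_union_le (μ := μ) {x | (2 * L : ℤ) ≤ pr (d x) 1 (a * g) (b * g)}
    ((A a ∪ (B a ∪ D a a')) ∪ (A b ∪ (B b ∪ D b b')))
  have u2 := measureReal_union_le (μ := μ) (A a ∪ (B a ∪ D a a')) (A b ∪ (B b ∪ D b b'))
  have u3 := measureReal_union_le (μ := μ) (A a) (B a ∪ D a a')
  have u4 := measureReal_union_le (μ := μ) (A b) (B b ∪ D b b')
  have u5 := measureReal_union_le (μ := μ) (B a) (D a a')
  have u6 := measureReal_union_le (μ := μ) (B b) (D b b')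
  have v1 := h1 a
  have v2 := h1 b
  have v3 := h2 a a' ha'
  have v4 := h2 b b' hb'
  have v5 : μ.real (A a) ≤ ε := v1
  have v6 : μ.real (A b) ≤ ε := v2
  have v7 : μ.real (D a a') ≤ ε := v3
  have v8 : μ.real (D b b') ≤ ε := v4
  have v9 : μ.real (B a) ≤ ε := ha
  have v10 : μ.real (B b) ≤ ε := hb
  linarith

/-- Divergence of directions of translates. -/
def Diverges (μ : Measure X) (d : X → G → G → ℕ) : Prop :=
  ∀ (ε : ℝ), 0 < ε → ∀ (H : Finset G) (L₀ : ℕ), ∃ n ≥ L₀, ∃ W : Finset G, ∀ g : G, ∃ h ∈ W,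
    ∀ a ∈ H, μ.real {x | (2 * n : ℤ) ≤ pr (d x) 1 (a * g) (h * g)} ≤ ε

open Classical in
/-- Tuples with pairwise diverging directions, chosen from a finite set. -/
theorem InvMet.exists_tuple (hd : InvMet μ d) (hdiv : Diverges μ d)
    {ε : ℝ} (hε : 0 < ε) (k : ℕ) :
    ∃ (L : ℕ) (W : Finset (Fin k → G)), ∀ g : G, ∃ h ∈ W, ∀ i j, i ≠ j →
      μ.real {x | (2 * L : ℤ) ≤ pr (d x) 1 (h i * g) (h j * g)} ≤ ε := by
  induction k with
  | zero => exact ⟨0, {Fin.elim0}, fun g => ⟨Fin.elim0, by simp, fun i => i.elim0⟩⟩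
  | succ k ih =>
    obtain ⟨L, W, hW⟩ := ih
    obtain ⟨n, hn, V, hV⟩ := hdiv ε hε (W.biUnion fun h => Finset.univ.image h) L
    refine ⟨n, (W ×ˢ V).image fun p => (Fin.snoc p.1 p.2 : Fin (k + 1) → G), fun g => ?_⟩
    obtain ⟨h, hh, h1⟩ := hW g
    obtain ⟨v, hv, h2⟩ := hV g
    refine ⟨Fin.snoc h v, Finset.mem_image.2 ⟨(h, v), Finset.mem_product.2 ⟨hh, hv⟩, rfl⟩, ?_⟩
    have h3 : ∀ i : Fin k, μ.real {x | (2 * n : ℤ) ≤ pr (d x) 1 (h i * g) (v * g)} ≤ ε := by
      intro i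
      apply h2
      rw [Finset.mem_biUnion]
      exact ⟨h, hh, Finset.mem_image_of_mem _ (Finset.mem_univ _)⟩
    intro i j hij
    induction i using Fin.lastCases with
    | last =>
      induction j using Fin.lastCases with
      | last => exact absurd rfl hij
      | cast j =>
        rw [Fin.snoc_last, Fin.snoc_castSucc]
        refine le_trans (real_le_of_ae ?_) (h3 j)
        filter_upwards [hd.hyp] with x hx hp
        rwa [pr_comm hx.toHyp]
    | cast i =>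
      induction j using Fin.lastCases with
      | last =>
        rw [Fin.snoc_last, Fin.snoc_castSucc]
        exact h3 i
      | cast j =>
        rw [Fin.snoc_castSucc, Fin.snoc_castSucc]
        refine le_trans (real_le_of_ae (Filter.Eventually.of_forall fun x hx => ?_))
          (h1 i j (fun h => hij (by rw [h])))
        simp only [Set.mem_ofPred_eq] at hx ⊢
        omega

/-- **Six pieces.**  A group with an invariant random zero-hyperbolic pseudometric with diverging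
directions for which distances from the identity are unbounded in probability has a paradoxical
decomposition with at most six pieces. -/
theorem InvMet.tarskiLe_six (hd : InvMet μ d) (hdiv : Diverges μ d)
    (hfar : ∀ (R : ℕ) (δ : ℝ), 0 < δ → ∃ g : G, μ.real {x | d x 1 g ≤ R} ≤ δ) :
    TarskiLe G 6 := by
  classical
  obtain ⟨ε, hε0, hε⟩ : ∃ ε : ℝ, 0 < ε ∧ ε = 1 / 180 := ⟨_, by norm_num, rfl⟩
  obtain ⟨L, W, hW⟩ := hd.exists_tuple hdiv hε0 4
  obtain ⟨R, hR⟩ := hd.exists_tight ((W.biUnion fun h => Finset.univ.image h) ∪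
    (W.biUnion fun h => Finset.univ.image fun i => (h i)⁻¹)) hε0
  have hR1 : ∀ h ∈ W, ∀ i, μ.real {x | R < d x 1 (h i)} ≤ ε := by
    intro h hh i
    apply hR
    apply Finset.mem_union_left
    rw [Finset.mem_biUnion]
    exact ⟨h, hh, Finset.mem_image_of_mem _ (Finset.mem_univ _)⟩
  have hR2 : ∀ h ∈ W, ∀ i, μ.real {x | R < d x 1 (h i)⁻¹} ≤ ε := by
    intro h hh i
    apply hR
    apply Finset.mem_union_right
    rw [Finset.mem_biUnion]
    exact ⟨h, hh, Finset.mem_image.2 ⟨i, Finset.mem_univ _, rfl⟩⟩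
  obtain ⟨g, hg⟩ := hfar (2 * L + 3 * R) ε hε0
  have hg' : μ.real {x | d x 1 g⁻¹ ≤ 2 * L + 3 * R} ≤ ε := by
    rw [← hd.shift_d (fun u => u ≤ 2 * L + 3 * R) g 1 g⁻¹, mul_one, mul_inv_cancel]
    refine le_trans (real_le_of_ae ?_) hg
    filter_upwards [hd.hyp] with x hx hp
    rwa [hx.symm]
  obtain ⟨h, hhW, hh⟩ := hW g
  obtain ⟨k, hkW, hk⟩ := hW g⁻¹
  have b1 : ∀ i, μ.real {x | d x 1 (h i * g * (k i)⁻¹) < 2 * L} ≤ 3 * ε := fun i =>
    hd.dist_bound le_rfl hg (hR1 h hhW i) (hR2 k hkW i)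
  have b2 : ∀ i j, i ≠ j → μ.real {x | (2 * L : ℤ) ≤
      pr (d x) 1 (h i * g * (k i)⁻¹) (h j * g * (k j)⁻¹)} ≤ 7 * ε := fun i j hij =>
    hd.pair_bound le_rfl (hh i j hij) hg (hR1 h hhW i) (hR2 k hkW i) (hR1 h hhW j) (hR2 k hkW j)
  have b3 : ∀ i j, i ≠ j → μ.real {x | (2 * L : ℤ) ≤
      pr (d x) 1 (k i * g⁻¹ * (h i)⁻¹) (k j * g⁻¹ * (h j)⁻¹)} ≤ 7 * ε := fun i j hij =>
    hd.pair_bound le_rfl (hk i j hij) hg' (hR1 k hkW i) (hR2 h hhW i) (hR1 k hkW j)
      (hR2 h hhW j)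
  set γ : Fin 4 → G := fun i => h i * g * (k i)⁻¹ with hγ
  have hγ' : ∀ i, (γ i)⁻¹ = k i * g⁻¹ * (h i)⁻¹ := by
    intro i
    rw [hγ]
    simp only [mul_inv_rev, inv_inv, mul_assoc]
  have hmeasG : ∀ e, MeasurableSet {x | Good (d x) γ L e} := by
    rintro ⟨y, i⟩
    unfold Good
    have h1 : {x | 2 * L ≤ d x y (y * γ i) ∧ ∀ j, j ≠ i →
        pr (d x) y (y * γ i) (y * γ j) < 2 * L ∧
          pr (d x) (y * γ i) y (y * γ i * (γ j)⁻¹) < 2 * L} =
        {x | 2 * L ≤ d x y (y * γ i)} ∩ ⋂ j : Fin 4, ⋂ _ : j ≠ i,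
          ({x | (2 * L : ℤ) ≤ pr (d x) y (y * γ i) (y * γ j)}ᶜ ∩
            {x | (2 * L : ℤ) ≤ pr (d x) (y * γ i) y (y * γ i * (γ j)⁻¹)}ᶜ) := by
      ext x
      simp only [Set.mem_ofPred_eq, Set.mem_inter_iff, Set.mem_iInter, Set.mem_compl_iff,
        not_le]
    rw [h1]
    refine (hd.meas3 (fun u _ _ => 2 * L ≤ u) y (y * γ i) 1 1 1 1).inter ?_
    refine MeasurableSet.iInter fun j => MeasurableSet.iInter fun _ => ?_
    exact (hd.meas_pr _ _ _ _).compl.inter (hd.meas_pr _ _ _ _).compl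
  apply Rt.tarskiLe_six μ d (hd.hyp.mono fun x hx => hx.toHyp) γ L hmeasG
  rintro ⟨y, i⟩
  have c1 : μ.real {x | d x y (y * γ i) < 2 * L} ≤ 3 * ε := by
    have h1 := hd.shift_d (fun u => u < 2 * L) y 1 (γ i)
    rw [mul_one] at h1
    rw [h1]; exact b1 i
  have c2 : ∀ j, j ≠ i → μ.real {x | (2 * L : ℤ) ≤ pr (d x) y (y * γ i) (y * γ j)} ≤ 7 * ε := by
    intro j hji
    have h1 := hd.shift_pr (2 * L) y 1 (γ i) (γ j)
    rw [mul_one] at h1
    rw [h1]; exact b2 i j hji.symm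
  have c3 : ∀ j, j ≠ i → μ.real {x | (2 * L : ℤ) ≤
      pr (d x) (y * γ i) y (y * γ i * (γ j)⁻¹)} ≤ 7 * ε := by
    intro j hji
    have h1 := hd.shift_pr (2 * L) (y * γ i) 1 (γ i)⁻¹ (γ j)⁻¹
    rw [mul_one, mul_inv_cancel_right] at h1
    rw [h1, hγ' i, hγ' j]
    exact b3 i j hji.symm
  have c4 : μ.real {x | Good (d x) γ L (y, i)}ᶜ ≤ 1 / 4 := by
    have h1 : {x | Good (d x) γ L (y, i)}ᶜ ⊆ {x | d x y (y * γ i) < 2 * L} ∪
        ⋃ j ∈ Finset.univ.erase i, ({x | (2 * L : ℤ) ≤ pr (d x) y (y * γ i) (y * γ j)} ∪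
          {x | (2 * L : ℤ) ≤ pr (d x) (y * γ i) y (y * γ i * (γ j)⁻¹)}) := by
      intro x hx
      by_contra hcon
      apply hx
      simp only [Set.mem_union, Set.mem_iUnion, not_or, not_exists, Set.mem_ofPred_eq,
        not_lt, not_le] at hcon
      refine ⟨hcon.1, fun j hj => ?_⟩
      exact hcon.2 j (Finset.mem_erase.2 ⟨hj, Finset.mem_univ _⟩)
    have h2 := measureReal_mono (μ := μ) h1 (measure_ne_top _ _)
    refine h2.trans ((measureReal_union_le _ _).trans ?_)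
    have h3 : μ.real (⋃ j ∈ Finset.univ.erase i,
        ({x | (2 * L : ℤ) ≤ pr (d x) y (y * γ i) (y * γ j)} ∪
          {x | (2 * L : ℤ) ≤ pr (d x) (y * γ i) y (y * γ i * (γ j)⁻¹)})) ≤
        ∑ j ∈ Finset.univ.erase i, 14 * ε := by
      refine (measureReal_biUnion_finset_le _ _).trans ?_
      refine Finset.sum_le_sum fun j hj => ?_
      have hji : j ≠ i := (Finset.mem_erase.1 hj).1
      have h4 := measureReal_union_le (μ := μ) {x | (2 * L : ℤ) ≤ pr (d x) y (y * γ i) (y * γ j)}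
        {x | (2 * L : ℤ) ≤ pr (d x) (y * γ i) y (y * γ i * (γ j)⁻¹)}
      linarith [c2 j hji, c3 j hji]
    rw [Finset.sum_const, Finset.card_erase_of_mem (Finset.mem_univ _), Finset.card_univ,
      Fintype.card_fin, nsmul_eq_mul] at h3
    have h5 : ((4 - 1 : ℕ) : ℝ) = 3 := by norm_num
    rw [h5] at h3
    linarith
  have c5 := probReal_compl_eq_one_sub (μ := μ) (hmeasG (y, i))
  rw [c5] at c4
  linarith

end Pool.Agent.Lib.MP_90732c_al.Fd
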