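import Pool.Agent.Lib.MP_90732c_al.Induce
import Pool.Agent.Lib.MP_90732c_al.Bounded

/-! The final bounds on Tarski numbers. -/

set_option autoImplicit false

namespace Pool.Agent.Lib.MP_90732c_al

variable {G : Type} [Group G]

lemma CostGe.real' {e : ENNReal} (h : ℕ) (hlt : (2⁻¹ : ENNReal) ^ h < e) (hc : CostGe G (1 + e)) :
    ∃ δ : ℝ, 0 < δ ∧ CostGe G (ENNReal.ofReal (1 + (1 / 2) ^ h + δ)) := by
  have hpos : (0 : ℝ) ≤ (1 / 2) ^ h := by positivity
  have hconv : ENNReal.ofReal ((1 / 2) ^ h) = (2⁻¹ : ENNReal) ^ h := by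
    rw [ENNReal.ofReal_pow (by norm_num)]
    congr 1
    rw [one_div, ENNReal.ofReal_inv_of_pos (by norm_num)]
    norm_num
  by_cases h1 : e = ⊤
  · refine ⟨1, one_pos, hc.mono ?_⟩
    rw [h1]; simp
  · have h2 : (1 / 2 : ℝ) ^ h < e.toReal := by
      rw [← hconv] at hlt
      exact (ENNReal.ofReal_lt_iff_lt_toReal hpos h1).1 hlt
    refine ⟨e.toReal - (1 / 2) ^ h, by linarith, hc.mono ?_⟩
    have h3 : (1 : ℝ) + (1 / 2) ^ h + (e.toReal - (1 / 2) ^ h) = 1 + e.toReal := by ring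
    rw [h3, ENNReal.ofReal_add zero_le_one ENNReal.toReal_nonneg, ENNReal.ofReal_one,
      ENNReal.ofReal_toReal h1]

lemma fg_of_index (hfg : Group.FG G) (K : Subgroup G) (hK : K.index ≠ 0) : Group.FG K := by
  have : K.FiniteIndex := ⟨hK⟩
  exact Subgroup.fg_of_index_ne_zero K

/-- Groups with a subgroup `K` of finite index `n` such that `n (cost - 1) > 1`. -/
theorem tarskiLe_eight_of_index (hfg : Group.FG G) {ε : ENNReal} (hc : CostGe G (1 + ε))
    (K : Subgroup G) (hK : K.index ≠ 0) (hlt : 1 < K.index * ε) : TarskiLe G 8 := by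
  obtain ⟨δ, hδ, h1⟩ := (hc.subgroup K hK).real' 0 (by rwa [pow_zero])
  have hKfg := fg_of_index hfg K hK
  apply TarskiLe.of_subgroup (K := K)
  have hexp : ¬ ∃ n : ℕ, 0 < n ∧ ∀ g : K, g ^ n = 1 := by
    rintro ⟨n, hn, hlaw⟩
    have : Countable K := countable_of_fg hKfg
    obtain ⟨T, hT⟩ := Group.fg_def.1 hKfg
    have h2 := lt_two_of_exponent h1 (by
      rw [pow_zero]; linarith) T hT hn hlaw
    rw [pow_zero] at h2
    linarith
  exact tarskiLe_uniform 0 hKfg hexp hδ h1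

/-- The logarithmic bound. -/
theorem tarskiLe_log_of_index (hfg : Group.FG G) {ε : ENNReal} (hc : CostGe G (1 + ε))
    (K : Subgroup G) (hK : K.index ≠ 0) (h : ℕ) (hlt : (2⁻¹ : ENNReal) ^ h < K.index * ε)
    (hexp : ¬ ∃ n : ℕ, 0 < n ∧ ∀ g : G, g ^ n = 1) : TarskiLe G (max 8 (28 * h + 4)) := by
  obtain ⟨δ, hδ, h1⟩ := (hc.subgroup K hK).real' h hlt
  have hKfg := fg_of_index hfg K hK
  apply TarskiLe.of_subgroup (K := K)
  refine tarskiLe_uniform h hKfg ?_ hδ h1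
  rintro ⟨n, hn, hlaw⟩
  apply hexp
  refine ⟨K.index.factorial * n, Nat.mul_pos (Nat.factorial_pos _) hn, fun g => ?_⟩
  obtain ⟨j, hj1, hj2, hj3⟩ := Subgroup.exists_pow_mem_of_index_ne_zero hK g
  obtain ⟨m, hm⟩ := Nat.dvd_factorial hj1 hj2
  have h2 : g ^ K.index.factorial ∈ K := by
    rw [hm, pow_mul]
    exact K.pow_mem hj3 m
  have h3 := hlaw ⟨_, h2⟩
  rw [pow_mul]
  exact congrArg Subtype.val h3

/-- The bound for all finitely generated groups. -/
theorem tarskiLe_of_index (hfg : Group.FG G) {ε : ENNReal} (hc : CostGe G (1 + ε))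
    (K : Subgroup G) (hK : K.index ≠ 0) (h : ℕ) (hh : 1 ≤ h)
    (hlt : (2⁻¹ : ENNReal) ^ h < K.index * ε) :
    TarskiLe G (max (28 * h + 4) (2 * (h + 2) ^ (2 ^ h))) := by
  by_cases hexp : ∃ n : ℕ, 0 < n ∧ ∀ g : G, g ^ n = 1
  · obtain ⟨n, hn, hlaw⟩ := hexp
    obtain ⟨δ, hδ, h1⟩ := (hc.subgroup K hK).real' h hlt
    have hKfg := fg_of_index hfg K hK
    apply TarskiLe.of_subgroup (K := K)
    refine (tarskiLe_exponent hKfg hn (fun g => Subtype.ext (hlaw g)) h hh h1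
      (by linarith)).mono (le_max_right _ _)
  · exact (tarskiLe_log_of_index hfg hc K hK h hlt hexp).mono (max_le ((by omega :
      8 ≤ 28 * h + 4).trans (le_max_left _ _)) (le_max_left _ _))

end Pool.Agent.Lib.MP_90732c_al
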