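import Pool.Agent.Lib.MP_90732c_al.Pieces

/-! Subgroups of finite index: induced actions. -/

set_option autoImplicit false

namespace Pool.Agent.Lib.MP_90732c_al

open MeasureTheory

variable {G : Type} [Group G]

namespace Ind

variable (K : Subgroup G) {n : ℕ} (e : Fin n ≃ G ⧸ K)

/-- Coset representatives. -/
noncomputable def rep (j : Fin n) : G := (e j).out

lemma mk_rep (j : Fin n) : (QuotientGroup.mk (rep K e j) : G ⧸ K) = e j := by
  unfold rep
  exact Quotient.out_eq' (e j)

/-- The action of `G` on the index set. -/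
def gj (g : G) (j : Fin n) : Fin n := e.symm (g • e j)

lemma ka_mem (g : G) (j : Fin n) : (rep K e (gj K e g j))⁻¹ * (g * rep K e j) ∈ K := by
  rw [← QuotientGroup.eq, mk_rep]
  unfold gj
  rw [Equiv.apply_symm_apply]
  conv_lhs => rw [← mk_rep K e j]
  rfl

/-- The cocycle. -/
noncomputable def ka (g : G) (j : Fin n) : K :=
  ⟨(rep K e (gj K e g j))⁻¹ * (g * rep K e j), ka_mem K e g j⟩

lemma gj_one (j : Fin n) : gj K e 1 j = j := by simp [gj]

lemma gj_mul (g h : G) (j : Fin n) : gj K e (g * h) j = gj K e g (gj K e h j) := by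
  simp [gj, mul_smul]

lemma ka_one (j : Fin n) : ka K e 1 j = 1 := by
  apply Subtype.ext
  simp [ka, gj_one]

lemma ka_mul (g h : G) (j : Fin n) :
    ka K e (g * h) j = ka K e g (gj K e h j) * ka K e h j := by
  apply Subtype.ext
  simp only [ka, gj_mul, Subgroup.coe_mul]
  group

variable {X : Type} [MulAction K X]

/-- The induced action. -/
@[reducible]
noncomputable def indAction : MulAction G (Fin n × X) where
  smul g p := (gj K e g p.1, ka K e g p.1 • p.2)
  one_smul p := by
    change (gj K e 1 p.1, ka K e 1 p.1 • p.2) = p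
    rw [gj_one, ka_one, one_smul]
  mul_smul g h p := by
    change (gj K e (g * h) p.1, ka K e (g * h) p.1 • p.2) =
      (gj K e g (gj K e h p.1), ka K e g (gj K e h p.1) • (ka K e h p.1 • p.2))
    rw [gj_mul, ka_mul, mul_smul]

/-- The bijection of the index set. -/
def gjEquiv (g : G) : Fin n ≃ Fin n where
  toFun := gj K e g
  invFun := gj K e g⁻¹
  left_inv j := by rw [← gj_mul, inv_mul_cancel, gj_one]
  right_inv j := by rw [← gj_mul, mul_inv_cancel, gj_one]

variable [MeasurableSpace X]

/-- The induced measure. -/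
noncomputable def indMeasure (n : ℕ) (μ : Measure X) : Measure (Fin n × X) :=
  Measure.sum fun j : Fin n => (n : ENNReal)⁻¹ • μ.map (Prod.mk j)

omit [Group G] in
lemma indMeasure_apply {X : Type} [MeasurableSpace X] {n : ℕ} (μ : Measure X)
    {S : Set (Fin n × X)} (hS : MeasurableSet S) :
    indMeasure n μ S = ∑ j, (n : ENNReal)⁻¹ * μ (Prod.mk j ⁻¹' S) := by
  unfold indMeasure
  rw [Measure.sum_apply _ hS, tsum_fintype]
  refine Finset.sum_congr rfl fun j _ => ?_
  rw [Measure.smul_apply, smul_eq_mul, (measurableEmbedding_prodMk_left j).map_apply]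

lemma isProbabilityMeasure_ind {X : Type} [MeasurableSpace X] {n : ℕ} (hn : n ≠ 0)
    (μ : Measure X) [IsProbabilityMeasure μ] : IsProbabilityMeasure (indMeasure n μ) := by
  constructor
  rw [indMeasure_apply μ MeasurableSet.univ]
  simp only [Set.preimage_univ, measure_univ, mul_one, Finset.sum_const, Finset.card_univ,
    Fintype.card_fin, nsmul_eq_mul]
  exact ENNReal.mul_inv_cancel (by exact_mod_cast hn) (ENNReal.natCast_ne_top n)

lemma ae_ind {X : Type} [MeasurableSpace X] {n : ℕ} {μ : Measure X} {p : Fin n × X → Prop}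
    (h : ∀ j, ∀ᵐ x ∂μ, p (j, x)) : ∀ᵐ q ∂(indMeasure n μ), p q := by
  unfold indMeasure
  rw [Measure.ae_sum_iff]
  intro j
  apply Measure.ae_smul_measure
  rw [(measurableEmbedding_prodMk_left j).ae_map_iff]
  exact h j

lemma measurePreserving_ind (μ : Measure X)
    (hpres : ∀ k : K, MeasurePreserving (fun x : X => k • x) μ μ) (g : G) :
    MeasurePreserving (fun p : Fin n × X => (indAction K e).toSMul.smul g p)
      (indMeasure n μ) (indMeasure n μ) := by
  have hmeas : Measurable fun p : Fin n × X => (indAction K e).toSMul.smul g p := by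
    apply measurable_from_prod_countable_right
    intro j
    change Measurable fun x : X => (gj K e g j, ka K e g j • x)
    exact Measurable.prodMk measurable_const (hpres _).measurable
  refine ⟨hmeas, ?_⟩
  ext S hS
  rw [Measure.map_apply hmeas hS, indMeasure_apply μ (hmeas hS), indMeasure_apply μ hS]
  rw [← Equiv.sum_comp (gjEquiv K e g) (fun j => (n : ENNReal)⁻¹ * μ (Prod.mk j ⁻¹' S))]
  refine Finset.sum_congr rfl fun j _ => ?_
  congr 1
  have h1 : Prod.mk j ⁻¹' ((fun p : Fin n × X => (indAction K e).toSMul.smul g p) ⁻¹' S) =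
      (fun x : X => ka K e g j • x) ⁻¹' (Prod.mk (gj K e g j) ⁻¹' S) := rfl
  rw [h1]
  exact (hpres _).measure_preimage
    ((measurable_prodMk_left hS).nullMeasurableSet)

end Ind

open Ind

/-- **The cost of a subgroup of finite index.** -/
theorem CostGe.subgroup {ε : ENNReal} (hc : CostGe G (1 + ε)) (K : Subgroup G)
    (hK : K.index ≠ 0) : CostGe K (1 + K.index * ε) := by
  intro X _ _ _ μ _ hpres hfree s A hA hgen
  classical
  set n := K.index with hn
  have hfin : K.FiniteIndex := ⟨hK⟩
  have : Finite (G ⧸ K) := inferInstance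
  obtain ⟨e⟩ : Nonempty (Fin n ≃ G ⧸ K) := by
    have h1 : Nat.card (G ⧸ K) = n := rfl
    exact ⟨(Finite.equivFinOfCardEq h1).symm⟩
  set j₀ : Fin n := e.symm (QuotientGroup.mk 1) with hj₀
  set r₀ := rep K e j₀ with hr₀
  have hr₀K : r₀ ∈ K := by
    have h1 : (r₀ : G ⧸ K) = QuotientGroup.mk 1 := by
      rw [hr₀, mk_rep, hj₀, Equiv.apply_symm_apply]
    have h2 := QuotientGroup.eq.1 h1
    rw [mul_one] at h2
    exact inv_inv r₀ ▸ K.inv_mem h2
  let act := indAction K e (X := X)
  -- the generators and their domains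
  let s' : ℕ → G := fun m => if hm : m < n then rep K e ⟨m, hm⟩ * r₀⁻¹ else
    r₀ * (s (m - n) : G) * r₀⁻¹
  let A' : ℕ → Set (Fin n × X) := fun m => if hm : m < n then
    (if (⟨m, hm⟩ : Fin n) = j₀ then ∅ else {j₀} ×ˢ Set.univ) else {j₀} ×ˢ A (m - n)
  have hA' : ∀ m, MeasurableSet (A' m) := by
    intro m
    by_cases hm : m < n
    · simp only [A', dif_pos hm]
      split_ifs
      · exact MeasurableSet.empty
      · exact (measurableSet_singleton _).prod MeasurableSet.univ
    · simp only [A', dif_neg hm]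
      exact (measurableSet_singleton _).prod (hA _)
  have hfree' : ∀ g : G, g ≠ 1 →
      indMeasure n μ {p : Fin n × X | act.toSMul.smul g p = p} = 0 := by
    intro g hg
    rw [measure_eq_zero_iff_ae_notMem]
    apply ae_ind
    intro j
    by_cases hj : gj K e g j = j
    · have hne : ka K e g j ≠ 1 := by
        intro h
        apply hg
        have h1 : (rep K e (gj K e g j))⁻¹ * (g * rep K e j) = 1 := congrArg Subtype.val h
        rw [hj] at h1
        have h2 : g * rep K e j = rep K e j := by
          rw [inv_mul_eq_one] at h1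
          exact h1.symm
        exact mul_eq_right.1 h2
      have h1 := measure_eq_zero_iff_ae_notMem.1 (hfree _ hne)
      filter_upwards [h1] with x hx hx'
      apply hx
      exact congrArg Prod.snd hx'
    · filter_upwards with x hx'
      exact hj (congrArg Prod.fst hx')
  -- the maps on the base copy
  have hmove : ∀ (k : K) (x : X), act.toSMul.smul (r₀ * (k : G) * r₀⁻¹) (j₀, x) = (j₀, k • x) := by
    intro k x
    have h1 : gj K e (r₀ * (k : G) * r₀⁻¹) j₀ = j₀ := by
      unfold gj
      rw [Equiv.symm_apply_eq]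
      rw [hj₀, Equiv.apply_symm_apply]
      change ((r₀ * (k : G) * r₀⁻¹ * 1 : G) : G ⧸ K) = _
      rw [mul_one, eq_comm, QuotientGroup.eq, inv_one, one_mul]
      exact K.mul_mem (K.mul_mem hr₀K k.2) (K.inv_mem hr₀K)
    have h2 : ka K e (r₀ * (k : G) * r₀⁻¹) j₀ = k := by
      apply Subtype.ext
      simp only [ka, h1]
      rw [← hr₀]
      group
    change (gj K e (r₀ * (k : G) * r₀⁻¹) j₀, ka K e (r₀ * (k : G) * r₀⁻¹) j₀ • x) = _
    rw [h1, h2]
  have hconn : ∀ (j : Fin n) (x : X), act.toSMul.smul (rep K e j * r₀⁻¹) (j₀, x) = (j, x) := by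
    intro j x
    have h1 : gj K e (rep K e j * r₀⁻¹) j₀ = j := by
      unfold gj
      rw [Equiv.symm_apply_eq, ← mk_rep K e j]
      rw [hj₀, Equiv.apply_symm_apply]
      change ((rep K e j * r₀⁻¹ * 1 : G) : G ⧸ K) = _
      rw [mul_one, QuotientGroup.eq]
      have : (rep K e j * r₀⁻¹)⁻¹ * rep K e j = r₀ := by group
      rw [this]
      exact hr₀K
    have h2 : ka K e (rep K e j * r₀⁻¹) j₀ = 1 := by
      apply Subtype.ext
      simp only [ka, h1]
      rw [← hr₀]
      simp
    change (gj K e (rep K e j * r₀⁻¹) j₀, ka K e (rep K e j * r₀⁻¹) j₀ • x) = _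
    rw [h1, h2, one_smul]
  -- connectivity
  set R : Fin n × X → Fin n × X → Prop := fun y z => ∃ i, (y ∈ A' i ∧ z = act.toSMul.smul (s' i) y) ∨
    (z ∈ A' i ∧ y = act.toSMul.smul (s' i) z) with hR
  have hRsymm : ∀ y z, R y z → R z y := by
    rintro y z ⟨i, h | h⟩
    · exact ⟨i, Or.inr h⟩
    · exact ⟨i, Or.inl h⟩
  have hsymm : ∀ {y z}, Relation.ReflTransGen R y z → Relation.ReflTransGen R z y := by
    intro y z h
    induction h with
    | refl => exact Relation.ReflTransGen.refl
    | tail _ h2 ih => exact Relation.ReflTransGen.head (hRsymm _ _ h2) ih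
  have hbase : ∀ x y : X, Relation.ReflTransGen
      (fun y z : X => ∃ i, (y ∈ A i ∧ z = s i • y) ∨ (z ∈ A i ∧ y = s i • z)) x y →
      Relation.ReflTransGen R (j₀, x) (j₀, y) := by
    intro x y h
    induction h with
    | refl => exact Relation.ReflTransGen.refl
    | tail _ h2 ih =>
      refine ih.tail ?_
      obtain ⟨i, ⟨h3, h4⟩ | ⟨h3, h4⟩⟩ := h2
      · refine ⟨n + i, Or.inl ⟨?_, ?_⟩⟩
        · simp only [A', dif_neg (show ¬ n + i < n by omega), Nat.add_sub_cancel_left]
          exact ⟨rfl, h3⟩
        · simp only [s', dif_neg (show ¬ n + i < n by omega), Nat.add_sub_cancel_left]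
          rw [hmove, h4]
      · refine ⟨n + i, Or.inr ⟨?_, ?_⟩⟩
        · simp only [A', dif_neg (show ¬ n + i < n by omega), Nat.add_sub_cancel_left]
          exact ⟨rfl, h3⟩
        · simp only [s', dif_neg (show ¬ n + i < n by omega), Nat.add_sub_cancel_left]
          rw [hmove, h4]
  have hcopy : ∀ (j : Fin n) (x : X), Relation.ReflTransGen R (j₀, x) (j, x) := by
    intro j x
    by_cases hj : j = j₀
    · rw [hj]
    · apply Relation.ReflTransGen.single
      refine ⟨j, Or.inl ⟨?_, ?_⟩⟩
      · simp only [A', dif_pos j.2]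
        rw [if_neg (by simpa using hj)]
        exact ⟨rfl, trivial⟩
      · simp only [s', dif_pos j.2]
        rw [hconn]
  have hgen' : ∀ᵐ p ∂(indMeasure n μ), ∀ h : G, Relation.ReflTransGen R p
      (act.toSMul.smul h p) := by
    apply ae_ind
    intro j
    filter_upwards [hgen] with x hx h
    change Relation.ReflTransGen R (j, x) (gj K e h j, ka K e h j • x)
    exact (hsymm (hcopy j x)).trans ((hbase _ _ (hx _)).trans (hcopy _ _))
  have hprob : IsProbabilityMeasure (indMeasure n μ) := isProbabilityMeasure_ind hK μ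
  have h := @hc (Fin n × X) _ _ act (indMeasure n μ) hprob
    (fun g => measurePreserving_ind K e μ hpres g) hfree' s' A' hA' hgen'
  -- the measures of the domains
  have hn0 : (n : ENNReal) ≠ 0 := by exact_mod_cast hK
  have hntop : (n : ENNReal) ≠ ⊤ := ENNReal.natCast_ne_top n
  have hslice : ∀ B : Set X, MeasurableSet B →
      indMeasure n μ (({j₀} : Set (Fin n)) ×ˢ B) = (n : ENNReal)⁻¹ * μ B := by
    intro B hB
    rw [indMeasure_apply μ ((measurableSet_singleton _).prod hB), Finset.sum_eq_single j₀]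
    · congr 2
      ext x
      simp
    · intro j _ hj
      have : Prod.mk j ⁻¹' (({j₀} : Set (Fin n)) ×ˢ B) = ∅ := by
        ext x
        simp [hj]
      rw [this, measure_empty, mul_zero]
    · intro h
      exact absurd (Finset.mem_univ _) h
  have hsum : ∑' i, indMeasure n μ (A' i) ≤
      (n : ENNReal)⁻¹ * ((n - 1 : ℕ) + ∑' i, μ (A i)) := by
    have h1 : ∑' i, indMeasure n μ (A' i) = ∑ i ∈ Finset.range n, indMeasure n μ (A' i) +
        ∑' i, indMeasure n μ (A' (i + n)) :=
      (Summable.sum_add_tsum_nat_add' (k := n) ENNReal.summable).symm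
    have h2 : ∀ i, indMeasure n μ (A' (i + n)) = (n : ENNReal)⁻¹ * μ (A i) := by
      intro i
      simp only [A', dif_neg (show ¬ i + n < n by omega), Nat.add_sub_cancel]
      exact hslice _ (hA i)
    have h3 : ∑ i ∈ Finset.range n, indMeasure n μ (A' i) ≤ (n : ENNReal)⁻¹ * (n - 1 : ℕ) := by
      rw [Finset.sum_range]
      have h4 : ∀ j : Fin n, indMeasure n μ (A' j) = if j = j₀ then 0 else (n : ENNReal)⁻¹ := by
        intro j
        simp only [A', dif_pos j.2]
        by_cases hj : j = j₀
        · rw [if_pos (by simpa using hj), if_pos hj, measure_empty]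
        · rw [if_neg (by simpa using hj), if_neg hj, hslice _ MeasurableSet.univ, measure_univ,
            mul_one]
      rw [Finset.sum_congr rfl fun j _ => h4 j]
      rw [Finset.sum_ite, Finset.sum_const_zero, zero_add, Finset.sum_const, nsmul_eq_mul,
        mul_comm]
      have h5 : (Finset.univ.filter fun j : Fin n => ¬ j = j₀).card = n - 1 := by
        rw [Finset.filter_not, Finset.filter_eq' Finset.univ j₀, if_pos (Finset.mem_univ _),
          Finset.card_sdiff_of_subset (Finset.subset_univ _), Finset.card_univ, Fintype.card_fin,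
          Finset.card_singleton]
      rw [h5]
    rw [h1, mul_add, ← ENNReal.tsum_mul_left]
    exact add_le_add h3 (le_of_eq (tsum_congr h2))
  have h2 := h.trans hsum
  -- arithmetic
  have h3 : (n : ENNReal) * (1 + ε) ≤ (n - 1 : ℕ) + ∑' i, μ (A i) := by
    calc (n : ENNReal) * (1 + ε) ≤ n * ((n : ENNReal)⁻¹ * ((n - 1 : ℕ) + ∑' i, μ (A i))) := by
          gcongr
      _ = (n - 1 : ℕ) + ∑' i, μ (A i) := by
          rw [← mul_assoc, ENNReal.mul_inv_cancel hn0 hntop, one_mul]
  have h4 : (n : ENNReal) * (1 + ε) = (n - 1 : ℕ) + (1 + n * ε) := by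
    rw [mul_add, mul_one, ← add_assoc]
    congr 1
    have : n = (n - 1) + 1 := by omega
    conv_lhs => rw [this]
    push_cast
    rfl
  rw [h4] at h3
  exact (ENNReal.add_le_add_iff_left (ENNReal.natCast_ne_top _)).1 h3

/-- Right coset representatives give paradoxical decompositions of a group from those of a
subgroup. -/
theorem TarskiLe.of_subgroup {K : Subgroup G} {C : ℕ} (h : TarskiLe K C) : TarskiLe G C := by
  obtain ⟨k, P, t, S, hk, h1, h2, h3⟩ := h
  -- a retraction commuting with left multiplication by `K`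
  obtain ⟨ρ, hρ⟩ : ∃ ρ : G → K, ∀ (a : K) (x : G), ρ ((a : G) * x) = a * ρ x := by
    let q : G → G := fun x =>
      (Quotient.mk (QuotientGroup.rightRel K) x).out
    have hq : ∀ x, x * (q x)⁻¹ ∈ K := by
      intro x
      have h4 : (QuotientGroup.rightRel K).r (q x) x := Quotient.exact (Quotient.out_eq _)
      rw [← QuotientGroup.rightRel_apply]
      exact h4
    refine ⟨fun x => ⟨x * (q x)⁻¹, hq x⟩, fun a x => ?_⟩
    apply Subtype.ext
    have h5 : q ((a : G) * x) = q x := by
      have h6 : Quotient.mk (QuotientGroup.rightRel K) ((a : G) * x) =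
          Quotient.mk (QuotientGroup.rightRel K) x := by
        apply Quotient.sound
        change (QuotientGroup.rightRel K) _ _
        rw [QuotientGroup.rightRel_apply]
        have : x * ((a : G) * x)⁻¹ = (a : G)⁻¹ := by group
        rw [this]
        exact K.inv_mem a.2
      simp only [q, h6]
    change (a : G) * x * (q ((a : G) * x))⁻¹ = (a : G) * (x * (q x)⁻¹)
    rw [h5, mul_assoc]
  refine ⟨k, fun i => ρ ⁻¹' P i, fun i => (t i : G), S, hk, fun x => h1 (ρ x), ?_, ?_⟩
  · intro x
    have h4 : ∀ i, ρ ((t i : G)⁻¹ * x) = (t i)⁻¹ * ρ x := by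
      intro i
      have := hρ (t i)⁻¹ x
      rwa [Subgroup.coe_inv] at this
    have h5 := h2 (ρ x)
    simpa only [Set.mem_preimage, h4] using h5
  · intro x
    have h4 : ∀ i, ρ ((t i : G)⁻¹ * x) = (t i)⁻¹ * ρ x := by
      intro i
      have := hρ (t i)⁻¹ x
      rwa [Subgroup.coe_inv] at this
    have h5 := h3 (ρ x)
    simpa only [Set.mem_preimage, h4] using h5

end Pool.Agent.Lib.MP_90732c_al
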