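import Pool.Agent.Lib.MP_90732c_al.Walks

/-! Independent uniform labels on the edges of a Cayley graph. -/

set_option autoImplicit false

namespace Pool.Agent.Lib.MP_90732c_al

open MeasureTheory

variable {G : Type} [Group G] {d : ℕ}

/-- The uniform measure on `[0, 1]`, as a measure on `ℝ`. -/
noncomputable def unif : Measure ℝ := volume.restrict (Set.Icc 0 1)

instance : IsProbabilityMeasure unif := ⟨by simp [unif]⟩

/-- The law of independent uniform labels. -/
noncomputable def law (E : Type) : Measure (E → ℝ) := Measure.infinitePi fun _ : E => unif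

instance (E : Type) : IsProbabilityMeasure (law E) := by unfold law; infer_instance

/-- The window `{y | ⌊M y⌋₊ = j}`. -/
def window (M j : ℕ) : Set ℝ := {y | ⌊(M : ℝ) * y⌋₊ = j}

lemma measurableSet_window (M j : ℕ) : MeasurableSet (window M j) := by
  have h : Measurable fun y : ℝ => ⌊(M : ℝ) * y⌋₊ :=
    Nat.measurable_floor.comp (measurable_const.mul measurable_id)
  exact h (measurableSet_singleton j)

lemma unif_window_le {M : ℕ} (hM : 0 < M) (j : ℕ) :
    unif (window M j) ≤ ENNReal.ofReal (1 / M) := by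
  have hM' : (0 : ℝ) < M := by exact_mod_cast hM
  unfold unif
  rw [Measure.restrict_apply (measurableSet_window M j)]
  have hsub : window M j ∩ Set.Icc 0 1 ⊆ Set.Icc ((j : ℝ) / M) ((j + 1) / M) := by
    rintro y ⟨hy, h0, _⟩
    have h1 : ⌊(M : ℝ) * y⌋₊ = j := hy
    have h2 : (0 : ℝ) ≤ M * y := by positivity
    have h3 := Nat.floor_le h2
    have h4 := Nat.lt_floor_add_one ((M : ℝ) * y)
    rw [h1] at h3 h4
    constructor
    · rw [div_le_iff₀ hM']; linarith
    · rw [le_div_iff₀ hM']; linarith
  refine (measure_mono hsub).trans ?_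
  rw [Real.volume_Icc]
  apply ENNReal.ofReal_le_ofReal
  apply le_of_eq
  field_simp
  ring

lemma law_pi_window {E : Type} (L : Finset E) (M j : ℕ) :
    law E {x | ∀ f ∈ L, x f ∈ window M j} = (unif (window M j)) ^ L.card := by
  have h := Measure.infinitePi_pi (μ := fun _ : E => unif) (s := L)
    (t := fun _ => window M j) (fun _ _ => measurableSet_window M j)
  have h2 : {x : E → ℝ | ∀ f ∈ L, x f ∈ window M j} = Set.pi (↑L) (fun _ => window M j) := by
    ext x; simp [Set.mem_pi]
  rw [h2, law, h, Finset.prod_const]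

lemma law_eq_zero {E : Type} {e f : E} (hef : e ≠ f) : law E {x | x e = x f} = 0 := by
  classical
  have key : ∀ M : ℕ, 0 < M → law E {x | x e = x f} ≤ ENNReal.ofReal (1 / M) := by
    intro M hM
    have hsub : {x : E → ℝ | x e = x f} ⊆
        ⋃ j : ℕ, {x | ∀ g ∈ ({e, f} : Finset E), x g ∈ window M j} := by
      intro x hx
      refine Set.mem_iUnion.2 ⟨⌊(M : ℝ) * x e⌋₊, ?_⟩
      intro g hg
      simp only [Finset.mem_insert, Finset.mem_singleton] at hg
      rcases hg with rfl | rfl
      · rfl
      · change ⌊(M : ℝ) * x g⌋₊ = _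
        rw [show x e = x g from hx]
    have hcard : ({e, f} : Finset E).card = 2 := Finset.card_pair hef
    calc law E {x | x e = x f}
        ≤ law E (⋃ j : ℕ, {x | ∀ g ∈ ({e, f} : Finset E), x g ∈ window M j}) :=
          measure_mono hsub
      _ ≤ ∑' j : ℕ, law E {x | ∀ g ∈ ({e, f} : Finset E), x g ∈ window M j} :=
          measure_iUnion_le _
      _ = ∑' j : ℕ, unif (window M j) * unif (window M j) := by
          congr 1; funext j; rw [law_pi_window, hcard, sq]
      _ ≤ ∑' j : ℕ, ENNReal.ofReal (1 / M) * unif (window M j) := by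
          refine ENNReal.tsum_le_tsum fun j => ?_
          gcongr
          exact unif_window_le hM j
      _ = ENNReal.ofReal (1 / M) * ∑' j : ℕ, unif (window M j) := ENNReal.tsum_mul_left
      _ ≤ ENNReal.ofReal (1 / M) * 1 := by
          gcongr
          rw [← measure_iUnion]
          · exact prob_le_one
          · intro i j hij
            rw [Function.onFun, Set.disjoint_left]
            intro y h1 h2
            exact hij ((h1 : ⌊(M : ℝ) * y⌋₊ = i).symm.trans h2)
          · exact fun j => measurableSet_window M j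
      _ = ENNReal.ofReal (1 / M) := mul_one _
  have hlim : Filter.Tendsto (fun M : ℕ => ENNReal.ofReal (1 / (M : ℝ))) Filter.atTop
      (nhds 0) := by
    have := ENNReal.tendsto_ofReal (tendsto_one_div_atTop_nhds_zero_nat (𝕜 := ℝ))
    simpa using this
  refine le_antisymm (ge_of_tendsto hlim ?_) zero_le
  filter_upwards [Filter.eventually_gt_atTop 0] with M hM using key M hM

/-! ### No infinite descending chains -/

open Classical in
/-- The neighbours of an edge. -/
noncomputable def near (K : Finset G) (e : G × Fin d) : Finset (G × Fin d) :=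
  (K ×ˢ (Finset.univ : Finset (Fin d))).image fun p => (e.1 * p.1, p.2)

lemma near_card (K : Finset G) (e : G × Fin d) : (near K e).card ≤ K.card * d := by
  classical
  refine Finset.card_image_le.trans ?_
  simp

open Classical in
/-- Chains of `n` further distinct neighbouring edges with labels in a window. -/
noncomputable def Ev (K : Finset G) (M j : ℕ) : ℕ → G × Fin d → Finset (G × Fin d) →
    Set (G × Fin d → ℝ)
  | 0, _, L => {x | ∀ f ∈ L, x f ∈ window M j}
  | n + 1, e, L => ⋃ f ∈ near K e \ L, Ev K M j n f (insert f L)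

lemma law_Ev_le (K : Finset G) {M : ℕ} (hM : 0 < M) (j : ℕ) (n : ℕ) :
    ∀ (e : G × Fin d) (L : Finset (G × Fin d)),
      law _ (Ev K M j n e L) ≤
        ((K.card * d : ℕ) * ENNReal.ofReal (1 / M)) ^ n * ENNReal.ofReal (1 / M) ^ L.card := by
  classical
  induction n with
  | zero =>
    intro e L
    rw [pow_zero, one_mul]
    change law _ {x | ∀ f ∈ L, x f ∈ window M j} ≤ _
    rw [law_pi_window]
    gcongr
    exact unif_window_le hM j
  | succ n ih =>
    intro e L
    change law _ (⋃ f ∈ near K e \ L, Ev K M j n f (insert f L)) ≤ _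
    calc law _ (⋃ f ∈ near K e \ L, Ev K M j n f (insert f L))
        ≤ ∑ f ∈ near K e \ L, law _ (Ev K M j n f (insert f L)) :=
          measure_biUnion_finset_le _ _
      _ ≤ ∑ f ∈ near K e \ L, ((K.card * d : ℕ) * ENNReal.ofReal (1 / M)) ^ n *
            ENNReal.ofReal (1 / M) ^ (L.card + 1) := by
          refine Finset.sum_le_sum fun f hf => ?_
          refine (ih f (insert f L)).trans ?_
          rw [Finset.card_insert_of_notMem (Finset.mem_sdiff.1 hf).2]
      _ = ((near K e \ L).card : ENNReal) * (((K.card * d : ℕ) * ENNReal.ofReal (1 / M)) ^ n *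
            ENNReal.ofReal (1 / M) ^ (L.card + 1)) := by
          rw [Finset.sum_const, nsmul_eq_mul]
      _ ≤ ((K.card * d : ℕ) : ENNReal) * (((K.card * d : ℕ) * ENNReal.ofReal (1 / M)) ^ n *
            ENNReal.ofReal (1 / M) ^ (L.card + 1)) := by
          gcongr
          exact (Finset.card_le_card Finset.sdiff_subset).trans (near_card K e)
      _ = _ := by rw [pow_succ, pow_succ]; ring

lemma law_iInter_Ev (K : Finset G) (j : ℕ) (e : G × Fin d) (L : Finset (G × Fin d)) :
    law _ (⋂ n, Ev K (2 * (K.card * d) + 1) j n e L) = 0 := by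
  set D := K.card * d with hD
  set M := 2 * D + 1 with hM
  have hM0 : 0 < M := by omega
  have hq : ((D : ℕ) : ENNReal) * ENNReal.ofReal (1 / (M : ℝ)) ≤ 2⁻¹ := by
    rw [← ENNReal.ofReal_natCast, ← ENNReal.ofReal_mul (by positivity)]
    have h2 : (2⁻¹ : ENNReal) = ENNReal.ofReal (2⁻¹) := by
      rw [ENNReal.ofReal_inv_of_pos (by norm_num)]; norm_num
    rw [h2]
    apply ENNReal.ofReal_le_ofReal
    have : (0 : ℝ) < M := by exact_mod_cast hM0
    rw [mul_one_div, div_le_iff₀ this, hM]
    push_cast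
    linarith
  have hone : ENNReal.ofReal (1 / (M : ℝ)) ^ L.card ≤ 1 := by
    apply pow_le_one₀ zero_le
    rw [ENNReal.ofReal_le_one]
    have : (1 : ℝ) ≤ M := by exact_mod_cast hM0
    rw [div_le_one (by linarith)]
    exact this
  have key : ∀ n, law _ (⋂ n, Ev K M j n e L) ≤ 2⁻¹ ^ n := by
    intro n
    calc law _ (⋂ n, Ev K M j n e L) ≤ law _ (Ev K M j n e L) :=
          measure_mono (Set.iInter_subset _ n)
      _ ≤ _ := law_Ev_le K hM0 j n e L
      _ ≤ (2⁻¹) ^ n * 1 := by gcongr
      _ = _ := mul_one _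
  have hlim : Filter.Tendsto (fun n : ℕ => (2⁻¹ : ENNReal) ^ n) Filter.atTop (nhds 0) :=
    ENNReal.tendsto_pow_atTop_nhds_zero_of_lt_one (by norm_num)
  exact le_antisymm (ge_of_tendsto' hlim key) zero_le

/-- An infinite injective chain of neighbouring edges with labels in a window is in all `Ev`. -/
lemma mem_Ev {K : Finset G} {M j : ℕ} {x : G × Fin d → ℝ} {c : ℕ → G × Fin d}
    (hinj : Function.Injective c) (hnear : ∀ n, c (n + 1) ∈ near K (c n))
    (hw : ∀ n, x (c n) ∈ window M j) (n : ℕ) :
    ∀ k, x ∈ Ev K M j n (c k) ((Finset.range (k + 1)).map ⟨c, hinj⟩) := by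
  classical
  induction n with
  | zero =>
    intro k f hf
    obtain ⟨m, _, rfl⟩ := Finset.mem_map.1 hf
    exact hw m
  | succ n ih =>
    intro k
    change x ∈ ⋃ f ∈ near K (c k) \ _, _
    simp only [Set.mem_iUnion]
    refine ⟨c (k + 1), ?_, ?_⟩
    · rw [Finset.mem_sdiff]
      refine ⟨hnear k, ?_⟩
      intro h
      obtain ⟨m, hm, h2⟩ := Finset.mem_map.1 h
      have h3 : m = k + 1 := hinj h2
      rw [Finset.mem_range] at hm
      omega
    · have h := ih (k + 1)
      have h2 : (Finset.range (k + 1 + 1)).map ⟨c, hinj⟩ =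
          insert (c (k + 1)) ((Finset.range (k + 1)).map ⟨c, hinj⟩) := by
        rw [Finset.range_add_one, Finset.map_insert]
        rfl
      rw [h2] at h
      exact h

lemma eventually_const_of_antitone {a : ℕ → ℕ} (ha : ∀ n, a (n + 1) ≤ a n) :
    ∃ n₀, ∀ n, n₀ ≤ n → a n = a n₀ := by
  have hanti : Antitone a := antitone_nat_of_succ_le ha
  obtain ⟨n₀, hn₀⟩ : ∃ n₀, ∀ n, a n₀ ≤ a n := by
    obtain ⟨m, ⟨n₀, rfl⟩, hm⟩ := WellFounded.has_min (wellFounded_lt (α := ℕ)) (Set.range a)
      ⟨a 0, 0, rfl⟩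
    exact ⟨n₀, fun n => not_lt.1 (hm (a n) ⟨n, rfl⟩)⟩
  exact ⟨n₀, fun n hn => le_antisymm (hanti hn) (hn₀ n)⟩

/-- Almost surely the descent relation is well founded. -/
theorem ae_wellFounded [Countable G] (pr : Fin d → ℕ) {K : Set G} (hK : K.Finite) :
    ∀ᵐ x ∂(law (G × Fin d)), WellFounded (rel pr K x) := by
  classical
  set K' : Finset G := hK.toFinset
  set M := 2 * (K'.card * d) + 1 with hM
  have h0 : ∀ᵐ x ∂(law (G × Fin d)), ∀ (e : G × Fin d) (j : ℕ),
      x ∉ ⋂ n, Ev K' M j n e {e} := by
    rw [ae_all_iff]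
    intro e
    rw [ae_all_iff]
    intro j
    exact measure_eq_zero_iff_ae_notMem.1 (law_iInter_Ev K' j e {e})
  filter_upwards [h0] with x hx
  rw [wellFounded_iff_isEmpty_descending_chain]
  refine ⟨?_⟩
  rintro ⟨c, hc⟩
  obtain ⟨n₁, hn₁⟩ := eventually_const_of_antitone (a := fun n => pr (c n).2) (by
    intro n
    rcases (hc n).2 with h | h
    · exact h.le
    · exact h.1.le)
  have hlt : ∀ n, n₁ ≤ n → x (c (n + 1)) < x (c n) := by
    intro n hn
    rcases (hc n).2 with h | h
    · have h1 : pr (c (n + 1)).2 = pr (c n₁).2 := hn₁ (n + 1) (by omega)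
      have h2 : pr (c n).2 = pr (c n₁).2 := hn₁ n hn
      omega
    · exact h.2
  obtain ⟨n₂, hn₂⟩ := eventually_const_of_antitone
    (a := fun n => ⌊(M : ℝ) * x (c (n + n₁))⌋₊) (by
    intro n
    apply Nat.floor_mono
    have := hlt (n + n₁) (by omega)
    have h2 : n + 1 + n₁ = n + n₁ + 1 := by omega
    rw [h2]
    exact mul_le_mul_of_nonneg_left this.le (by positivity))
  set j := ⌊(M : ℝ) * x (c (n₂ + n₁))⌋₊ with hj
  set c' : ℕ → G × Fin d := fun n => c (n + (n₂ + n₁)) with hc'
  have hanti : StrictAnti fun n => x (c' n) := by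
    apply strictAnti_nat_of_succ_lt
    intro n
    simp only [hc']
    have := hlt (n + (n₂ + n₁)) (by omega)
    have h2 : n + 1 + (n₂ + n₁) = n + (n₂ + n₁) + 1 := by omega
    rw [h2]
    exact this
  have hinj : Function.Injective c' := by
    intro a b hab
    exact hanti.injective (congrArg x hab)
  have hnear : ∀ n, c' (n + 1) ∈ near K' (c' n) := by
    intro n
    have h1 := (hc (n + (n₂ + n₁))).1
    have h2 : n + 1 + (n₂ + n₁) = n + (n₂ + n₁) + 1 := by omega
    simp only [hc', h2]
    unfold near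
    rw [Finset.mem_image]
    refine ⟨((c (n + (n₂ + n₁))).1⁻¹ * (c (n + (n₂ + n₁) + 1)).1,
      (c (n + (n₂ + n₁) + 1)).2), ?_, ?_⟩
    · rw [Finset.mem_product]
      exact ⟨hK.mem_toFinset.2 h1, Finset.mem_univ _⟩
    · simp
  have hwin : ∀ n, x (c' n) ∈ window M j := by
    intro n
    have h1 : ⌊(M : ℝ) * x (c (n + n₂ + n₁))⌋₊ = j := hn₂ (n + n₂) (by omega)
    change ⌊(M : ℝ) * x (c (n + (n₂ + n₁)))⌋₊ = j
    rw [← add_assoc, h1]
  apply hx (c' 0) j
  rw [Set.mem_iInter]
  intro n
  have h := mem_Ev hinj hnear hwin n 0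
  have h2 : (Finset.range (0 + 1)).map ⟨c', hinj⟩ = {c' 0} := by
    simp
  rw [h2] at h
  exact h

/-- Almost surely the labels are distinct. -/
theorem ae_injective (E : Type) [Countable E] : ∀ᵐ x ∂(law E), Function.Injective x := by
  have h : ∀ᵐ x ∂(law E), ∀ e f : E, e ≠ f → x e ≠ x f := by
    rw [ae_all_iff]; intro e
    rw [ae_all_iff]; intro f
    by_cases hef : e = f
    · filter_upwards with x hx using absurd hef hx
    · have := measure_eq_zero_iff_ae_notMem.1 (law_eq_zero hef)
      filter_upwards [this] with x hx _ using hx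
  filter_upwards [h] with x hx e f hef
  by_contra hne
  exact hx e f hne hef

/-- The law is invariant under the shifts. -/
theorem measurePreserving_shift (g : G) :
    MeasurePreserving (shift (d := d) g) (law (G × Fin d)) (law (G × Fin d)) := by
  let e : G × Fin d ≃ G × Fin d := (Equiv.mulLeft g).prodCongr (Equiv.refl _)
  have h := Measure.infinitePi_map_piCongrLeft (X := fun _ : G × Fin d => ℝ)
    (μ := fun _ => unif) e
  have h2 : (MeasurableEquiv.piCongrLeft (fun _ : G × Fin d => ℝ) e :
      (G × Fin d → ℝ) → (G × Fin d → ℝ)) = shift g := by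
    funext x f
    have hf : f = e (g⁻¹ * f.1, f.2) := by simp [e]
    conv_lhs => rw [hf]
    change (Equiv.piCongrLeft (fun _ : G × Fin d => ℝ) e) x (e (g⁻¹ * f.1, f.2)) = _
    rw [Equiv.piCongrLeft_apply_apply]
    rfl
  constructor
  · rw [← h2]
    exact (MeasurableEquiv.piCongrLeft (fun _ : G × Fin d => ℝ) e).measurable
  · rw [← h2]
    exact h

end Pool.Agent.Lib.MP_90732c_al
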