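import Pool.Agent.Lib.MP_90732c_al.Closed

/-! Pairs of elements without short relations. -/

set_option autoImplicit false

namespace Pool.Agent.Lib.MP_90732c_al

variable {G : Type} [Group G]

/-- Left exponents of the letters. -/
def lam : Bool × Bool → ℤ
  | (false, true) => 0
  | (false, false) => -1
  | (true, true) => 3
  | (true, false) => -9

/-- Right exponents of the letters. -/
def mu : Bool × Bool → ℤ
  | (false, true) => 1
  | (false, false) => 0
  | (true, true) => 9
  | (true, false) => -3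

/-- The pair `t g^ℓ`, `g^{3ℓ} t g^{9ℓ}`. -/
def phi (g t : G) (ℓ : ℕ) (b : Bool) : G :=
  if b then g ^ (3 * (ℓ : ℤ)) * t * g ^ (9 * (ℓ : ℤ)) else t * g ^ (ℓ : ℤ)

lemma val_eq (g t : G) (ℓ : ℕ) (x : Bool × Bool) :
    cond x.2 (phi g t ℓ x.1) (phi g t ℓ x.1)⁻¹ =
      g ^ (lam x * (ℓ : ℤ)) * tp t x.2 * g ^ (mu x * (ℓ : ℤ)) := by
  obtain ⟨a, b⟩ := x
  cases a <;> cases b <;> simp [phi, lam, mu, tp, mul_assoc]

lemma jump_ne (x y : Bool × Bool) (h : x.1 = y.1 → x.2 = y.2) :
    mu x + lam y ≠ 0 ∧ |mu x + lam y| ≤ 12 := by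
  obtain ⟨a, b⟩ := x
  obtain ⟨a', b'⟩ := y
  revert h
  cases a <;> cases b <;> cases a' <;> cases b' <;> simp [lam, mu] <;> norm_num [abs_le]

/-- The list of signs and jumps of a word. -/
def jl (g : G) : Bool × Bool → List (Bool × Bool) → List (Bool × (ℕ → G))
  | _, [] => []
  | x, y :: L => (y.2, fun ℓ => g ^ ((mu x + lam y) * (ℓ : ℤ))) :: jl g y L

lemma length_jl (g : G) (L : List (Bool × Bool)) : ∀ x, (jl g x L).length = L.length := by
  induction L with
  | nil => intro x; rfl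
  | cons y L ih => intro x; simp [jl, ih]

lemma prod_val (g t : G) (ℓ : ℕ) (L : List (Bool × Bool)) : ∀ x, ∃ k : ℤ,
    ((x :: L).map fun x => cond x.2 (phi g t ℓ x.1) (phi g t ℓ x.1)⁻¹).prod =
      g ^ (lam x * (ℓ : ℤ)) * (tp t x.2 * P t (jl g x L) ℓ) * g ^ k := by
  induction L with
  | nil =>
    intro x
    refine ⟨mu x * ℓ, ?_⟩
    rw [List.map_cons, List.map_nil, List.prod_cons, List.prod_nil, mul_one, val_eq]
    simp [jl]
  | cons y L ih =>
    intro x
    obtain ⟨k, hk⟩ := ih y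
    refine ⟨k, ?_⟩
    rw [List.map_cons, List.prod_cons, hk, val_eq]
    change _ = g ^ (lam x * (ℓ : ℤ)) * (tp t x.2 * P t ((y.2, fun ℓ : ℕ =>
      g ^ ((mu x + lam y) * (ℓ : ℤ))) :: jl g y L) ℓ) * g ^ k
    rw [P_cons]
    simp only
    rw [add_mul, zpow_add]
    simp only [mul_assoc]

lemma mem_jl {g : G} (L : List (Bool × Bool)) : ∀ x, FreeGroup.IsReduced (x :: L) →
    ∀ q ∈ jl g x L, ∃ k : ℤ, k ≠ 0 ∧ |k| ≤ 12 ∧ q.2 = fun ℓ : ℕ => g ^ (k * (ℓ : ℤ)) := by
  induction L with
  | nil => intro x _ q hq; simp [jl] at hq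
  | cons y L ih =>
    intro x hx q hq
    rw [FreeGroup.isReduced_cons_cons] at hx
    simp only [jl, List.mem_cons] at hq
    rcases hq with rfl | hq
    · have := jump_ne x y hx.1
      exact ⟨_, this.1, this.2, rfl⟩
    · exact ih y hx.2 q hq

lemma injOn_zpow {g : G} {N : ℕ} (hg : orderOf g = 0 ∨ 12 * N ≤ orderOf g) {k : ℤ} (hk : k ≠ 0)
    (hk12 : |k| ≤ 12) : Set.InjOn (fun ℓ : ℕ => g ^ (k * (ℓ : ℤ))) (Finset.range N) := by
  intro a ha b hb hab
  rw [Finset.mem_coe, Finset.mem_range] at ha hb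
  simp only at hab
  have h1 : g ^ (k * ((a : ℤ) - b)) = 1 := by
    rw [mul_sub, zpow_sub, hab, mul_inv_cancel]
  rw [← orderOf_dvd_iff_zpow_eq_one] at h1
  have h2 : k * ((a : ℤ) - b) = 0 := by
    rcases hg with hg | hg
    · rw [hg] at h1
      simpa using h1
    · by_contra hne
      have h3 := Int.le_of_dvd (abs_pos.2 hne) ((dvd_abs _ _).2 h1)
      have h4 : |(a : ℤ) - b| < N := by rw [abs_lt]; constructor <;> linarith
      have h5 : |k * ((a : ℤ) - b)| < 12 * N := by
        rw [abs_mul]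
        have h6 : |k| * |(a : ℤ) - b| ≤ 12 * |(a : ℤ) - b| :=
          mul_le_mul_of_nonneg_right hk12 (abs_nonneg _)
        linarith
      have h7 : ((12 * N : ℕ) : ℤ) ≤ orderOf g := by exact_mod_cast hg
      push_cast at h7
      linarith
  rcases mul_eq_zero.1 h2 with h | h
  · exact absurd h hk
  · omega

/-- **Pairs without short relations.** -/
theorem exists_locally_free (c : ℕ → ℕ) (W : Finset (FreeGroup Bool)) (hW : (1 : FreeGroup Bool) ∉ W) :
    ∃ N₀ : ℕ, ∀ g t : G, (orderOf g = 0 ∨ N₀ ≤ orderOf g) →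
      (∀ r, ¬ NoHit (Subgroup.zpowers g) t t r (c r)) →
      ∃ ℓ : ℕ, ∀ w ∈ W, FreeGroup.lift (phi g t ℓ) w ≠ 1 := by
  classical
  set J := W.sup fun w => w.toWord.length with hJ
  obtain ⟨N, hN, hR⟩ := exists_rare (G := G) c J
  set N₁ := W.card * N + 1 with hN₁
  refine ⟨12 * N₁, fun g t hg hc => ?_⟩
  by_contra hcon
  push Not at hcon
  have hR' := hR (Subgroup.zpowers g) t hc
  let B : FreeGroup Bool → Finset ℕ := fun w =>
    (Finset.range N₁).filter fun ℓ => FreeGroup.lift (phi g t ℓ) w = 1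
  have hsub : Finset.range N₁ ⊆ W.biUnion B := by
    intro ℓ hℓ
    obtain ⟨w, hw, h1⟩ := hcon ℓ
    exact Finset.mem_biUnion.2 ⟨w, hw, Finset.mem_filter.2 ⟨hℓ, h1⟩⟩
  have hB : ∀ w ∈ W, (B w).card ≤ N := by
    intro w hw
    have hne : w.toWord ≠ [] := by
      intro h
      rw [FreeGroup.toWord_eq_nil_iff] at h
      rw [h] at hw
      exact hW hw
    obtain ⟨x, L, hxL⟩ : ∃ x L, w.toWord = x :: L := List.exists_cons_of_ne_nil hne
    have hred : FreeGroup.IsReduced (x :: L) := by
      rw [← hxL]; exact FreeGroup.isReduced_toWord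
    have hlen : (x :: L).length ≤ J := by
      rw [← hxL]
      exact Finset.le_sup (f := fun w : FreeGroup Bool => w.toWord.length) hw
    have hval : ∀ ℓ ∈ B w, tp t x.2 * P t (jl g x L) ℓ ∈ Subgroup.zpowers g := by
      intro ℓ hℓ
      have h1 := (Finset.mem_filter.1 hℓ).2
      have h2 : w = FreeGroup.mk (x :: L) := by rw [← hxL, FreeGroup.mk_toWord]
      rw [h2, FreeGroup.lift_mk] at h1
      obtain ⟨k, hk⟩ := prod_val g t ℓ L x
      rw [hk] at h1
      have h3 : tp t x.2 * P t (jl g x L) ℓ = (g ^ (lam x * (ℓ : ℤ)))⁻¹ * (g ^ k)⁻¹ := by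
        rw [eq_inv_mul_iff_mul_eq, eq_inv_iff_mul_eq_one]
        exact h1
      rw [h3]
      exact Subgroup.mul_mem _ (Subgroup.inv_mem _ (Subgroup.zpow_mem_zpowers g _))
        (Subgroup.inv_mem _ (Subgroup.zpow_mem_zpowers g _))
    rcases eq_or_ne L [] with rfl | hL
    · have : B w = ∅ := by
        rw [Finset.eq_empty_iff_forall_notMem]
        intro ℓ hℓ
        have h1 := hval ℓ hℓ
        simp only [jl, P_nil, mul_one] at h1
        have h2 : t ∈ Subgroup.zpowers g := by
          cases hx : x.2 with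
          | true => rw [hx] at h1; simpa [tp] using h1
          | false => rw [hx] at h1; simpa [tp] using h1
        exact hc 0 (noHit_of_mem h2 _ _)
      rw [this]; simp
    · apply hR' (jl g x L) (B w)
      · intro h
        have := length_jl g L x
        rw [h, List.length_nil] at this
        exact hL (List.length_eq_zero_iff.1 this.symm)
      · rw [length_jl]
        rw [List.length_cons] at hlen
        omega
      · intro q hq
        obtain ⟨k, hk, hk12, h1⟩ := mem_jl L x hred q hq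
        refine ⟨fun ℓ _ => ?_, ?_⟩
        · rw [h1]
          exact Subgroup.zpow_mem_zpowers g _
        · rw [h1]
          refine (injOn_zpow hg hk hk12).mono ?_
          intro ℓ hℓ
          exact (Finset.mem_filter.1 hℓ).1
      · intro ℓ hℓ
        have := hval ℓ hℓ
        rwa [inv_one, one_mul]
  have h1 : N₁ ≤ W.card * N := by
    calc N₁ = (Finset.range N₁).card := (Finset.card_range _).symm
      _ ≤ (W.biUnion B).card := Finset.card_le_card hsub
      _ ≤ ∑ w ∈ W, (B w).card := Finset.card_biUnion_le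
      _ ≤ ∑ _w ∈ W, N := Finset.sum_le_sum hB
      _ = W.card * N := by rw [Finset.sum_const, smul_eq_mul]
  omega

end Pool.Agent.Lib.MP_90732c_al
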