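import Mathlib

/-! Paradoxical decompositions with `m + n` pieces: Hall's theorem and a lower bound. -/

set_option autoImplicit false

open scoped Pointwise

namespace Pool.Agent.Lib.MP_90732c_al

/-- `G` has a paradoxical decomposition with `m + n` pieces: pairwise disjoint subsets
`A 0, ..., A (m-1), B 0, ..., B (n-1)` and elements `g i`, `h j` of `G` such that `G` is the
disjoint union of the `g i • A i` and also the disjoint union of the `h j • B j`. -/
def Paradox (G : Type) [Group G] (m n : ℕ) : Prop :=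
  ∃ (A : Fin m → Set G) (B : Fin n → Set G) (g : Fin m → G) (h : Fin n → G),
    (∀ i i', i ≠ i' → Disjoint (A i) (A i')) ∧ (∀ j j', j ≠ j' → Disjoint (B j) (B j')) ∧
    (∀ i j, Disjoint (A i) (B j)) ∧
    (∀ x : G, ∃! i, x ∈ g i • A i) ∧ (∀ x : G, ∃! j, x ∈ h j • B j)

variable {G : Type} [Group G]

lemma Paradox.symm {m n : ℕ} (h : Paradox G m n) : Paradox G n m := by
  obtain ⟨A, B, g, h, h1, h2, h3, h4, h5⟩ := h
  exact ⟨B, A, h, g, h2, h1, fun j i => (h3 i j).symm, h5, h4⟩

/-- From a paradoxical decomposition with `m` pieces on one side one gets an infinite subgroup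
generated by `m - 1` elements. -/
theorem Paradox.exists_infinite {m n : ℕ} (h : Paradox G m n) :
    ∃ s : Finset G, s.card + 1 ≤ m ∧ Infinite (Subgroup.closure (s : Set G)) := by
  classical
  obtain ⟨A, B, g, h, h1, h2, h3, h4, h5⟩ := h
  obtain ⟨i0, _, _⟩ := h4 1
  have hm : 0 < m := lt_of_le_of_lt (Nat.zero_le _) i0.2
  set s : Finset G := ((Finset.univ : Finset (Fin m)).erase i0).image
    fun i => g i0 * (g i)⁻¹ with hs
  refine ⟨s, ?_, ?_⟩
  · have h6 : s.card ≤ ((Finset.univ : Finset (Fin m)).erase i0).card := Finset.card_image_le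
    rw [Finset.card_erase_of_mem (Finset.mem_univ _), Finset.card_univ, Fintype.card_fin] at h6
    omega
  · by_contra hfin
    rw [not_infinite_iff_finite] at hfin
    set K := Subgroup.closure (s : Set G) with hK
    choose idx hidx using fun x => (h4 x).exists
    have hmem : ∀ x, (g (idx x))⁻¹ * x ∈ A (idx x) := by
      intro x
      have := hidx x
      rwa [Set.mem_smul_set_iff_inv_smul_mem] at this
    set ψ : G → G := fun x => g i0 * ((g (idx x))⁻¹ * x) with hψ
    have hinj : Function.Injective ψ := by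
      intro x y hxy
      have hxy' : (g (idx x))⁻¹ * x = (g (idx y))⁻¹ * y := mul_left_cancel hxy
      have hii : idx x = idx y := by
        by_contra hne
        have h6 := hmem x
        rw [hxy'] at h6
        exact Set.disjoint_left.1 (h1 _ _ hne) h6 (hmem y)
      rw [hii] at hxy'
      exact mul_left_cancel hxy'
    have hcoset : ∀ x, ψ x * x⁻¹ ∈ K := by
      intro x
      have h6 : ψ x * x⁻¹ = g i0 * (g (idx x))⁻¹ := by simp only [hψ]; group
      rw [h6]
      by_cases h7 : idx x = i0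
      · rw [h7, mul_inv_cancel]; exact K.one_mem
      · apply Subgroup.subset_closure
        rw [Finset.mem_coe, hs, Finset.mem_image]
        exact ⟨idx x, Finset.mem_erase.2 ⟨h7, Finset.mem_univ _⟩, rfl⟩
    have hsurj : Function.Surjective ψ := by
      intro y
      set T : Set G := {x | x * y⁻¹ ∈ K} with hT
      have hTfin : T.Finite := by
        have h6 : T ⊆ (fun k : G => k * y) '' (K : Set G) := by
          intro x hx
          exact ⟨x * y⁻¹, hx, by simp⟩
        exact ((Set.toFinite (K : Set G)).image _).subset h6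
      have hmaps : Set.MapsTo ψ T T := by
        intro x hx
        change ψ x * y⁻¹ ∈ K
        have h6 : ψ x * y⁻¹ = (ψ x * x⁻¹) * (x * y⁻¹) := by group
        rw [h6]
        exact K.mul_mem (hcoset x) hx
      have hy : y ∈ T := by
        change y * y⁻¹ ∈ K
        rw [mul_inv_cancel]; exact K.one_mem
      have hsurjOn : Set.SurjOn ψ T T := by
        have := Set.BijOn.image_eq ((Set.Finite.injOn_iff_bijOn_of_mapsTo hTfin hmaps).1
          hinj.injOn)
        rw [Set.SurjOn, this]
      obtain ⟨x, _, hx⟩ := hsurjOn hy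
      exact ⟨x, hx⟩
    obtain ⟨j, hj, _⟩ := h5 1
    rw [Set.mem_smul_set_iff_inv_smul_mem] at hj
    obtain ⟨x, hx⟩ := hsurj (g i0 * ((h j)⁻¹ • (1 : G)))
    have h6 : (g (idx x))⁻¹ * x = (h j)⁻¹ • (1 : G) := mul_left_cancel hx
    have h7 := hmem x
    rw [h6] at h7
    exact Set.disjoint_left.1 (h3 _ _) h7 hj

/-- Hall's condition (for right multiplication) gives a paradoxical decomposition. -/
theorem paradox_of_hall [DecidableEq G] (S₁ S₂ : Finset G)
    (h : ∀ A₁ A₂ : Finset G, A₁.card + A₂.card ≤ (A₁ * S₁ ∪ A₂ * S₂).card) :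
    Paradox G S₁.card S₂.card := by
  classical
  set t : G ⊕ G → Finset G := fun y => match y with
    | Sum.inl a => {a} * S₁
    | Sum.inr a => {a} * S₂ with ht
  obtain ⟨f, hinj, hf⟩ := (Finset.all_card_le_biUnion_card_iff_exists_injective t).1 (by
    intro s
    have h1 := h s.toLeft s.toRight
    rw [Finset.card_toLeft_add_card_toRight] at h1
    refine h1.trans (Finset.card_le_card ?_)
    intro x hx
    rw [Finset.mem_biUnion]
    rcases Finset.mem_union.1 hx with hx | hx
    · obtain ⟨a, ha, b, hb, rfl⟩ := Finset.mem_mul.1 hx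
      exact ⟨Sum.inl a, Finset.mem_toLeft.1 ha,
        Finset.mul_mem_mul (Finset.mem_singleton_self a) hb⟩
    · obtain ⟨a, ha, b, hb, rfl⟩ := Finset.mem_mul.1 hx
      exact ⟨Sum.inr a, Finset.mem_toRight.1 ha,
        Finset.mul_mem_mul (Finset.mem_singleton_self a) hb⟩)
  have hl : ∀ a : G, ∃ i : Fin S₁.card, f (Sum.inl a) = a * (S₁.equivFin.symm i : G) := by
    intro a
    have h1 := hf (Sum.inl a)
    simp only [ht, Finset.mem_mul, Finset.mem_singleton] at h1
    obtain ⟨_, rfl, b, hb, h2⟩ := h1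
    exact ⟨S₁.equivFin ⟨b, hb⟩, by rw [Equiv.symm_apply_apply]; exact h2.symm⟩
  have hr : ∀ a : G, ∃ i : Fin S₂.card, f (Sum.inr a) = a * (S₂.equivFin.symm i : G) := by
    intro a
    have h1 := hf (Sum.inr a)
    simp only [ht, Finset.mem_mul, Finset.mem_singleton] at h1
    obtain ⟨_, rfl, b, hb, h2⟩ := h1
    exact ⟨S₂.equivFin ⟨b, hb⟩, by rw [Equiv.symm_apply_apply]; exact h2.symm⟩
  choose p hp using hl
  choose q hq using hr
  -- the pieces
  refine ⟨fun i => {y | ∃ a, p a = i ∧ y = (f (Sum.inl a))⁻¹},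
    fun j => {y | ∃ a, q a = j ∧ y = (f (Sum.inr a))⁻¹},
    fun i => (S₁.equivFin.symm i : G), fun j => (S₂.equivFin.symm j : G), ?_, ?_, ?_, ?_, ?_⟩
  · intro i i' hne
    rw [Set.disjoint_left]
    rintro y ⟨a, rfl, rfl⟩ ⟨b, rfl, hb⟩
    have : a = b := Sum.inl_injective (hinj (inv_injective hb))
    exact hne (by rw [this])
  · intro i i' hne
    rw [Set.disjoint_left]
    rintro y ⟨a, rfl, rfl⟩ ⟨b, rfl, hb⟩
    have : a = b := Sum.inr_injective (hinj (inv_injective hb))
    exact hne (by rw [this])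
  · intro i j
    rw [Set.disjoint_left]
    rintro y ⟨a, rfl, rfl⟩ ⟨b, rfl, hb⟩
    have := hinj (inv_injective hb)
    simp at this
  · intro x
    refine ⟨p x⁻¹, ?_, ?_⟩
    · change x ∈ (S₁.equivFin.symm (p x⁻¹) : G) • _
      rw [Set.mem_smul_set_iff_inv_smul_mem]
      refine ⟨x⁻¹, rfl, ?_⟩
      rw [hp, smul_eq_mul, mul_inv_rev, inv_inv]
    · intro i hi
      change x ∈ (S₁.equivFin.symm i : G) • _ at hi
      rw [Set.mem_smul_set_iff_inv_smul_mem] at hi
      obtain ⟨a, rfl, ha⟩ := hi
      rw [hp, smul_eq_mul, mul_inv_rev] at ha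
      have h2 : x = a⁻¹ := mul_left_cancel ha
      rw [h2, inv_inv]
  · intro x
    refine ⟨q x⁻¹, ?_, ?_⟩
    · change x ∈ (S₂.equivFin.symm (q x⁻¹) : G) • _
      rw [Set.mem_smul_set_iff_inv_smul_mem]
      refine ⟨x⁻¹, rfl, ?_⟩
      rw [hq, smul_eq_mul, mul_inv_rev, inv_inv]
    · intro i hi
      change x ∈ (S₂.equivFin.symm i : G) • _ at hi
      rw [Set.mem_smul_set_iff_inv_smul_mem] at hi
      obtain ⟨a, rfl, ha⟩ := hi
      rw [hq, smul_eq_mul, mul_inv_rev] at ha
      have h2 : x = a⁻¹ := mul_left_cancel ha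
      rw [h2, inv_inv]

end Pool.Agent.Lib.MP_90732c_al
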