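import Pool.Agent.Lib.MP_90732c_al.Upper
import Pool.Agent.Lib.MP_90732c_al.Tree

/-! From injections to paradoxical partitions, and the local matching argument. -/

set_option autoImplicit false

open scoped Pointwise

namespace Pool.Agent.Lib.MP_90732c_al

/-- `G` has a paradoxical decomposition (with the pieces partitioning `G`) with at most `C`
pieces. -/
def TarskiLe (G : Type) [Group G] (C : ℕ) : Prop :=
  ∃ (k : ℕ) (P : Fin k → Set G) (t : Fin k → G) (S : Finset (Fin k)),
    k ≤ C ∧ (∀ x : G, ∃! i, x ∈ P i) ∧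
    (∀ x : G, ∃! i, i ∈ S ∧ (t i)⁻¹ * x ∈ P i) ∧
    (∀ x : G, ∃! i, i ∉ S ∧ (t i)⁻¹ * x ∈ P i)

variable {G : Type} [Group G]

lemma TarskiLe.mono {C C' : ℕ} (h : TarskiLe G C) (hC : C ≤ C') : TarskiLe G C' := by
  obtain ⟨k, P, t, S, h1, h2⟩ := h
  exact ⟨k, P, t, S, h1.trans hC, h2⟩

/-- An injection `G × {1, 2} → G` moving each point by a bounded set of right multiplications
yields a paradoxical partition. -/
theorem tarskiLe_of_injective (S : Bool → Finset G) (hS : (S true).Nonempty) (F : G × Bool → G)
    (hF : Function.Injective F) (hFS : ∀ x c, x⁻¹ * F (x, c) ∈ S c) :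
    TarskiLe G ((S true).card + (S false).card) := by
  classical
  obtain ⟨u, hu⟩ := hS
  obtain ⟨h, hbij, hR⟩ := Function.Embedding.schroeder_bernstein_of_rel (f := F)
    (g := fun y : G => (y * u⁻¹, true)) hF (by
      intro a b hab
      simpa using hab) (fun p y => p.1⁻¹ * y ∈ S p.2) (fun p => hFS p.1 p.2) (fun y => by
      simpa using hu)
  set ι := (S true) ⊕ (S false)
  let el : ι → G := Sum.elim (fun u => (u : G)) (fun u => (u : G))
  let col : ι → Bool := Sum.elim (fun _ => true) (fun _ => false)
  have hinj : ∀ i j : ι, el i = el j → col i = col j → i = j := by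
    rintro (⟨a, ha⟩ | ⟨a, ha⟩) (⟨b, hb⟩ | ⟨b, hb⟩) h1 h2
    · simp only [el, Sum.elim_inl] at h1; subst h1; rfl
    · simp [col] at h2
    · simp [col] at h2
    · simp only [el, Sum.elim_inr] at h1; subst h1; rfl
  have hex : ∀ (c : Bool) (v : G), v ∈ S c → ∃ i : ι, el i = v ∧ col i = c := by
    intro c v hv
    cases c with
    | true => exact ⟨Sum.inl ⟨v, hv⟩, rfl, rfl⟩
    | false => exact ⟨Sum.inr ⟨v, hv⟩, rfl, rfl⟩
  let P : ι → Set G := fun i => {w | h ((el i * w)⁻¹, col i) = w⁻¹}
  have key1 : ∀ w : G, ∃! i : ι, w ∈ P i := by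
    intro w
    obtain ⟨⟨x, c⟩, hx⟩ := hbij.2 w⁻¹
    have h1 := hR (x, c)
    rw [hx] at h1
    obtain ⟨i, hi1, hi2⟩ := hex c _ h1
    refine ⟨i, ?_, ?_⟩
    · change h ((el i * w)⁻¹, col i) = w⁻¹
      rw [hi1, hi2]
      have : (x⁻¹ * w⁻¹ * w)⁻¹ = x := by group
      rw [this]
      exact hx
    · intro j hj
      have hj' : h ((el j * w)⁻¹, col j) = w⁻¹ := hj
      have h2 := hbij.1 (hj'.trans hx.symm)
      rw [Prod.mk.injEq] at h2
      apply hinj j i
      · rw [hi1, ← h2.1]; simp
      · rw [hi2]; exact h2.2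
  have key2 : ∀ (c : Bool) (x : G), ∃! i : ι, col i = c ∧ (el i)⁻¹ * x ∈ P i := by
    intro c x
    have h1 := hR (x⁻¹, c)
    simp only [inv_inv] at h1
    obtain ⟨i, hi1, hi2⟩ := hex c _ h1
    have hiff : ∀ j : ι, (el j)⁻¹ * x ∈ P j ↔ h (x⁻¹, col j) = x⁻¹ * el j := by
      intro j
      change h ((el j * ((el j)⁻¹ * x))⁻¹, col j) = ((el j)⁻¹ * x)⁻¹ ↔ _
      rw [mul_inv_cancel_left, mul_inv_rev, inv_inv]
    refine ⟨i, ⟨hi2, ?_⟩, ?_⟩
    · rw [hiff, hi1, hi2]; simp
    · rintro j ⟨hj1, hj2⟩
      rw [hiff, hj1] at hj2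
      apply hinj j i
      · rw [hi1, hj2]; simp
      · rw [hj1, hi2]
  have hcard : Fintype.card ι = (S true).card + (S false).card := by
    simp [ι]
  let e : Fin ((S true).card + (S false).card) ≃ ι :=
    (finCongr hcard.symm).trans (Fintype.equivFin ι).symm
  refine ⟨_, fun j => P (e j), fun j => el (e j), Finset.univ.filter fun j => col (e j) = true,
    le_rfl, ?_, ?_, ?_⟩
  · intro x
    exact (e.bijective.existsUnique_iff (p := fun i => x ∈ P i)).1 (key1 x)
  · intro x
    have := (e.bijective.existsUnique_iff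
      (p := fun i => col i = true ∧ (el i)⁻¹ * x ∈ P i)).1 (key2 true x)
    simpa using this
  · intro x
    have := (e.bijective.existsUnique_iff
      (p := fun i => col i = false ∧ (el i)⁻¹ * x ∈ P i)).1 (key2 false x)
    simpa using this

open Classical in
/-- Each point is assigned to its own coset or to that of `x t`, each coset being used at most
`k` times. -/
theorem exists_home (K : Subgroup G) (t : G) (k : ℕ)
    (hk : ∀ B : Finset G, B.card ≤ k * cosetCard K (B * {1, t})) :
    ∃ z : G → G, (∀ x, z x = x ∨ z x = x * t) ∧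
      ∀ (v : G ⧸ K) (Q : Finset G), (∀ x ∈ Q, (z x : G ⧸ K) = v) → Q.card ≤ k := by
  let O : G → Finset ((G ⧸ K) × Fin k) := fun x =>
    ({(x : G ⧸ K), ((x * t : G) : G ⧸ K)} : Finset (G ⧸ K)) ×ˢ Finset.univ
  obtain ⟨f, hinj, hf⟩ := (Finset.all_card_le_biUnion_card_iff_exists_injective O).1 (by
    intro s
    refine (hk s).trans ?_
    have h1 : ((s * {1, t}).image (fun x : G => (QuotientGroup.mk x : G ⧸ K))) ×ˢ
        (Finset.univ : Finset (Fin k)) ⊆ s.biUnion O := by
      rintro ⟨v, j⟩ hv
      rw [Finset.mem_product] at hv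
      obtain ⟨y, hy, hyv⟩ := Finset.mem_image.1 hv.1
      obtain ⟨x, hx, u, hu, rfl⟩ := Finset.mem_mul.1 hy
      rw [Finset.mem_biUnion]
      refine ⟨x, hx, Finset.mem_product.2 ⟨?_, Finset.mem_univ _⟩⟩
      change v ∈ ({(x : G ⧸ K), ((x * t : G) : G ⧸ K)} : Finset (G ⧸ K))
      simp only at hyv
      rw [← hyv]
      rw [Finset.mem_insert, Finset.mem_singleton] at hu
      rcases hu with rfl | rfl
      · simp
      · simp
    have h2 := Finset.card_le_card h1
    rw [Finset.card_product, Finset.card_univ, Fintype.card_fin] at h2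
    rw [mul_comm]
    exact h2)
  have hfst : ∀ x, (f x).1 = (x : G ⧸ K) ∨ (f x).1 = ((x * t : G) : G ⧸ K) := by
    intro x
    have h1 := (Finset.mem_product.1 (hf x)).1
    rwa [Finset.mem_insert, Finset.mem_singleton] at h1
  refine ⟨fun x => if (f x).1 = (x : G ⧸ K) then x else x * t, ?_, ?_⟩
  · intro x
    by_cases h : (f x).1 = (x : G ⧸ K)
    · left; simp only [if_pos h]
    · right; simp only [if_neg h]
  · intro v Q hQ
    have hz : ∀ x ∈ Q, (f x).1 = v := by
      intro x hx
      rw [← hQ x hx]
      by_cases h : (f x).1 = (x : G ⧸ K)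
      · simp only [if_pos h]; exact h
      · simp only [if_neg h]; exact (hfst x).resolve_left h
    have h1 : Q.card ≤ (Finset.univ : Finset (Fin k)).card := by
      apply Finset.card_le_card_of_injOn (fun x => (f x).2) (fun x _ => Finset.mem_univ _)
      intro x hx y hy hxy
      apply hinj
      exact Prod.ext ((hz x hx).trans (hz y hy).symm) hxy
    rwa [Finset.card_univ, Fintype.card_fin] at h1

open Classical in
/-- **Eight pieces.** -/
theorem tarskiLe_eight (K : Subgroup G) (t : G) (k : ℕ)
    (hk : ∀ B : Finset G, B.card ≤ k * cosetCard K (B * {1, t}))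
    (ψ : FreeGroup (Fin 4) →* G) (hK : ∀ i, ψ (FreeGroup.of i) ∈ K)
    (hψ : ∀ L : List (Fin 4 × Bool), L.length ≤ 2 * (2 * k) + 1 → FreeGroup.mk L ≠ 1 →
      ψ (FreeGroup.mk L) ≠ 1) : TarskiLe G 8 := by
  obtain ⟨z, hz, hcap⟩ := exists_home K t k hk
  let τ : G × Bool → Fin 4 := fun p =>
    if z p.1 = p.1 then (if p.2 then 0 else 1) else (if p.2 then 2 else 3)
  let O : G × Bool → Finset G := fun p => {z p.1, z p.1 * ψ (FreeGroup.of (τ p))}
  -- the edges
  let ed : G × Bool → G × Fin 4 := fun p => (z p.1, τ p)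
  have hedinj : Function.Injective ed := by
    rintro ⟨x, c⟩ ⟨y, c'⟩ hxy
    simp only [ed, Prod.mk.injEq, τ] at hxy
    obtain ⟨h1, h2⟩ := hxy
    by_cases hx : z x = x
    · by_cases hy : z y = y
      · rw [if_pos hx, if_pos hy] at h2
        rw [hx, hy] at h1
        subst h1
        cases c <;> cases c' <;> simp at h2 ⊢
      · rw [if_pos hx, if_neg hy] at h2
        exfalso
        revert h2
        cases c <;> cases c' <;> simp
    · by_cases hy : z y = y
      · rw [if_neg hx, if_pos hy] at h2
        exfalso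
        revert h2
        cases c <;> cases c' <;> simp
      · rw [if_neg hx, if_neg hy] at h2
        rw [(hz x).resolve_left hx, (hz y).resolve_left hy] at h1
        have h3 := mul_right_cancel h1
        subst h3
        cases c <;> cases c' <;> simp at h2 ⊢
  obtain ⟨F, hFinj, hF⟩ := (Finset.all_card_le_biUnion_card_iff_exists_injective O).1 (by
    intro Q
    set E : Finset (G × Fin 4) := Q.image ed with hE
    have hEQ : E.card = Q.card := Finset.card_image_of_injective _ hedinj
    have hVE : Tree.VE ψ E ⊆ Q.biUnion O := by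
      intro y hy
      unfold Tree.VE at hy
      rw [Finset.mem_biUnion]
      rcases Finset.mem_union.1 hy with hy | hy
      · obtain ⟨e, he, rfl⟩ := Finset.mem_image.1 hy
        obtain ⟨p, hp, rfl⟩ := Finset.mem_image.1 he
        exact ⟨p, hp, Finset.mem_insert_self _ _⟩
      · obtain ⟨e, he, rfl⟩ := Finset.mem_image.1 hy
        obtain ⟨p, hp, rfl⟩ := Finset.mem_image.1 he
        exact ⟨p, hp, Finset.mem_insert_of_mem (Finset.mem_singleton_self _)⟩
    rw [← hEQ]
    refine le_trans ?_ (Finset.card_le_card hVE)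
    let f : G → G ⧸ K := fun x => QuotientGroup.mk x
    have h1 : E.card = ∑ v ∈ (Tree.VE ψ E).image f, (E.filter fun e => f e.1 = v).card :=
      Finset.card_eq_sum_card_fiberwise fun e he =>
        Finset.mem_image_of_mem f (Tree.src_mem ψ he)
    have h2 : (Tree.VE ψ E).card =
        ∑ v ∈ (Tree.VE ψ E).image f, ((Tree.VE ψ E).filter fun y => f y = v).card :=
      Finset.card_eq_sum_card_fiberwise fun y hy => Finset.mem_image_of_mem f hy
    rw [h1, h2]
    refine Finset.sum_le_sum fun v _ => ?_
    have h3 : (E.filter fun e => f e.1 = v).card ≤ 2 * k := by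
      set Q' := Q.filter fun p => f (z p.1) = v with hQ'
      have h4 : (E.filter fun e => f e.1 = v) ⊆ Q'.image ed := by
        intro e he
        rw [Finset.mem_filter] at he
        obtain ⟨p, hp, rfl⟩ := Finset.mem_image.1 he.1
        exact Finset.mem_image_of_mem ed (Finset.mem_filter.2 ⟨hp, he.2⟩)
      have h5 : Q' ⊆ (Q'.image Prod.fst) ×ˢ (Finset.univ : Finset Bool) := by
        intro p hp
        exact Finset.mem_product.2 ⟨Finset.mem_image_of_mem _ hp, Finset.mem_univ _⟩
      have h6 : (Q'.image Prod.fst).card ≤ k := by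
        apply hcap v
        intro x hx
        obtain ⟨p, hp, rfl⟩ := Finset.mem_image.1 hx
        exact (Finset.mem_filter.1 hp).2
      have h7 := Finset.card_le_card h5
      rw [Finset.card_product, Finset.card_univ, Fintype.card_bool] at h7
      calc (E.filter fun e => f e.1 = v).card ≤ (Q'.image ed).card := Finset.card_le_card h4
        _ ≤ Q'.card := Finset.card_image_le
        _ ≤ _ := h7
        _ ≤ 2 * k := by omega
    refine (Tree.card_le ψ hψ _ h3).trans (Finset.card_le_card ?_)
    intro y hy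
    unfold Tree.VE at hy
    rcases Finset.mem_union.1 hy with hy | hy
    · obtain ⟨e, he, rfl⟩ := Finset.mem_image.1 hy
      rw [Finset.mem_filter] at he ⊢
      exact ⟨Tree.src_mem ψ he.1, he.2⟩
    · obtain ⟨e, he, rfl⟩ := Finset.mem_image.1 hy
      rw [Finset.mem_filter] at he ⊢
      refine ⟨Tree.tgt_mem ψ he.1, ?_⟩
      rw [← he.2]
      simp only [f]
      rw [QuotientGroup.eq]
      have : (e.1 * ψ (FreeGroup.of e.2))⁻¹ * e.1 = (ψ (FreeGroup.of e.2))⁻¹ := by group
      rw [this]
      exact K.inv_mem (hK _))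
  let s : Fin 4 → G := fun i => ψ (FreeGroup.of i)
  let S : Bool → Finset G := fun c => if c then {1, s 0, t, t * s 2} else {1, s 1, t, t * s 3}
  have hScard : ∀ c, (S c).card ≤ 4 := by
    intro c
    cases c with
    | true =>
      simp only [S, if_true]
      exact Finset.card_le_four
    | false =>
      simp only [S, Bool.false_eq_true, if_false]
      exact Finset.card_le_four
  have h := tarskiLe_of_injective S ⟨1, by simp [S]⟩ F hFinj (by
    intro x c
    have h1 := hF (x, c)
    simp only [O, τ, Finset.mem_insert, Finset.mem_singleton] at h1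
    by_cases hx : z x = x
    · simp only [hx, if_true] at h1
      cases c with
      | true =>
        simp only [S, if_true]
        rcases h1 with h1 | h1
        · rw [h1]; simp
        · rw [h1]; simp [s]
      | false =>
        simp only [S, Bool.false_eq_true, if_false]
        rcases h1 with h1 | h1
        · rw [h1]; simp
        · rw [h1]; simp [s]
    · have hx' := (hz x).resolve_left hx
      simp only [hx, if_false] at h1
      rw [hx'] at h1
      cases c with
      | true =>
        simp only [S, if_true]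
        rcases h1 with h1 | h1
        · rw [h1]; simp
        · rw [h1]; simp [s, mul_assoc]
      | false =>
        simp only [S, Bool.false_eq_true, if_false]
        rcases h1 with h1 | h1
        · rw [h1]; simp
        · rw [h1]; simp [s, mul_assoc])
  have h1 := hScard true
  have h2 := hScard false
  exact h.mono (by omega)

end Pool.Agent.Lib.MP_90732c_al
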