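import Pool.Agent.Lib.MP_90732c_al.RtMetric
import Pool.Agent.Lib.MP_90732c_al.RtGap

/-! Invariant random tree-like metrics on a group: directions of translates diverge. -/

set_option autoImplicit false

open MeasureTheory

namespace Pool.Agent.Lib.MP_90732c_al.Rt

variable {G : Type} [Group G] {X : Type} [MeasurableSpace X] [MulAction G X]

/-- An invariant random tree-like metric on `G`. -/
structure InvTree (μ : Measure X) (d : X → G → G → ℕ) : Prop where
  mp : ∀ g : G, MeasurePreserving (fun x : X => g • x) μ μ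
  meas : ∀ a b, Measurable fun x => d x a b
  equi : ∀ (g : G) (x : X) (a b : G), d (g • x) (g * a) (g * b) = d x a b
  tree : ∀ᵐ x ∂μ, TreeLike (d x)

variable {μ : Measure X} {d : X → G → G → ℕ}

lemma InvTree.meas3 (hd : InvTree μ d) (p : ℕ → ℕ → ℕ → Prop) (a a' b b' c c' : G) :
    MeasurableSet {x | p (d x a a') (d x b b') (d x c c')} := by
  have h1 : Measurable fun x => (d x a a', d x b b', d x c c') :=
    (hd.meas a a').prodMk ((hd.meas b b').prodMk (hd.meas c c'))
  exact h1 (MeasurableSet.of_discrete (s := {q : ℕ × ℕ × ℕ | p q.1 q.2.1 q.2.2}))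

lemma InvTree.meas_pr (hd : InvTree μ d) (o a b : G) (n : ℤ) :
    MeasurableSet {x | n ≤ pr (d x) o a b} :=
  hd.meas3 (fun u v w => n ≤ (u : ℤ) + v - w) o a o b a b

lemma InvTree.meas_le (hd : InvTree μ d) (a b : G) (n : ℕ) :
    MeasurableSet {x | d x a b ≤ n} :=
  hd.meas3 (fun u _ _ => u ≤ n) a b a b a b

lemma InvTree.meas_seg (hd : InvTree μ d) (n : ℕ) (a b c : G) :
    MeasurableSet {x | c ∈ seg (d x) n a b} :=
  hd.meas3 (fun u v w => u + v = w ∧ u < n) a c c b a b

lemma tsum_measure_eq {ι X : Type} [MeasurableSpace X] {μ : Measure X} [Countable ι]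
    (p : ι → X → Prop) [∀ c x, Decidable (p c x)] (hp : ∀ c, MeasurableSet {x | p c x}) :
    ∑' c, μ {x | p c x} = ∫⁻ x, ∑' c, (if p c x then (1 : ENNReal) else 0) ∂μ := by
  rw [lintegral_tsum]
  · congr 1
    funext c
    rw [← lintegral_indicator_one (hp c)]
    congr 1
    funext x
    by_cases h : p c x
    · rw [if_pos h, Set.indicator_of_mem (by exact h), Pi.one_apply]
    · rw [if_neg h, Set.indicator_of_notMem (by exact h)]
  · intro c
    exact (Measurable.ite (hp c) measurable_const measurable_const).aemeasurable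

/-- The set of places from which the initial part of the path to `g` passes through the base
point. -/
def Bs (d : X → G → G → ℕ) (n : ℕ) (g : G) (y : X) : Set G := {c | c ∈ seg (d (c • y)) n 1 g}

lemma InvTree.mem_seg_iff (hd : InvTree μ d) (n : ℕ) (g h c : G) (x : X) :
    c ∈ seg (d x) n h (h * g) ↔ h⁻¹ * c ∈ seg (d (h⁻¹ • x)) n 1 g := by
  have h1 : ∀ a b, d x (h * a) (h * b) = d (h⁻¹ • x) a b := by
    intro a b
    rw [← hd.equi h (h⁻¹ • x) a b, smul_inv_smul]
  have h2 := h1 1 (h⁻¹ * c)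
  have h3 := h1 (h⁻¹ * c) g
  have h4 := h1 1 g
  rw [mul_one] at h2 h4
  rw [mul_inv_cancel_left] at h2 h3
  unfold seg
  simp only [Set.mem_ofPred_eq]
  rw [h2, h3, h4]

open Classical in
/-- The number of common points. -/
noncomputable def Nc (d : X → G → G → ℕ) (n : ℕ) (g a h : G) (y : X) : ENNReal :=
  ∑' c : G, if a⁻¹ * c ∈ Bs d n g y ∧ h⁻¹ * c ∈ Bs d n g y then 1 else 0

open Classical in
lemma InvTree.measure_both [Countable G] (hd : InvTree μ d) (n : ℕ) (g a h : G) :
    ∑' c : G, μ {x | c ∈ seg (d x) n a (a * g) ∧ c ∈ seg (d x) n h (h * g)} =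
      ∫⁻ y, Nc d n g a h y ∂μ := by
  have hset : ∀ c : G, {y | a⁻¹ * c ∈ Bs d n g y ∧ h⁻¹ * c ∈ Bs d n g y} =
      (fun x : X => c • x) ⁻¹' {x | c ∈ seg (d x) n a (a * g) ∧ c ∈ seg (d x) n h (h * g)} := by
    intro c
    ext y
    simp only [Set.mem_ofPred_eq, Set.mem_preimage, hd.mem_seg_iff, Bs, smul_smul]
  have hm : ∀ c : G, MeasurableSet
      {x | c ∈ seg (d x) n a (a * g) ∧ c ∈ seg (d x) n h (h * g)} := fun c =>
    (hd.meas_seg n a (a * g) c).inter (hd.meas_seg n h (h * g) c)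
  have hm' : ∀ c : G, MeasurableSet {y | a⁻¹ * c ∈ Bs d n g y ∧ h⁻¹ * c ∈ Bs d n g y} := by
    intro c
    rw [hset]
    exact (hd.mp c).measurable (hm c)
  unfold Nc
  rw [← tsum_measure_eq (fun c y => a⁻¹ * c ∈ Bs d n g y ∧ h⁻¹ * c ∈ Bs d n g y) hm']
  congr 1
  funext c
  rw [← (hd.mp c).measure_preimage (hm c).nullMeasurableSet, ← hset c]

open Classical in
/-- The expected number of common points is at least `m` times the probability of a long common
part. -/
lemma InvTree.le_lintegral [Countable G] (hd : InvTree μ d) (n m R : ℕ)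
    (hn : 2 * R + 2 * m + 2 ≤ n) (g a h : G) :
    (m : ENNReal) * μ {x | (2 * n : ℤ) ≤ pr (d x) 1 (a * g) (h * g) ∧ d x 1 a ≤ R ∧
      d x 1 h ≤ R} ≤ ∫⁻ y, Nc d n g a h y ∂μ := by
  rw [← hd.measure_both]
  set Ev := {x | (2 * n : ℤ) ≤ pr (d x) 1 (a * g) (h * g) ∧ d x 1 a ≤ R ∧ d x 1 h ≤ R} with hEv
  have hEvm : MeasurableSet Ev :=
    (hd.meas_pr 1 (a * g) (h * g) (2 * n)).inter ((hd.meas_le 1 a R).inter (hd.meas_le 1 h R))
  have hm : ∀ c : G, MeasurableSet
      {x | c ∈ seg (d x) n a (a * g) ∧ c ∈ seg (d x) n h (h * g)} := fun c =>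
    (hd.meas_seg n a (a * g) c).inter (hd.meas_seg n h (h * g) c)
  have h1 : ∑' c : G, μ {x | c ∈ seg (d x) n a (a * g) ∧ c ∈ seg (d x) n h (h * g)} =
      ∫⁻ x, ∑' c : G, (if c ∈ seg (d x) n a (a * g) ∧ c ∈ seg (d x) n h (h * g) then
        (1 : ENNReal) else 0) ∂μ := tsum_measure_eq _ hm
  rw [h1, ← lintegral_indicator_const hEvm]
  apply lintegral_mono_ae
  filter_upwards [hd.tree] with x hx
  by_cases hxE : x ∈ Ev
  · rw [Set.indicator_of_mem hxE]
    obtain ⟨φ, hφ1, hφ2⟩ := exists_common hx (o := 1) (h := a) (h' := h) (b := a * g)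
      (b' := h * g) (R := R) (n := n) (m := m) hxE.1 hxE.2.1 hxE.2.2 hn
    have h2 := ENNReal.sum_le_tsum (f := fun c : G =>
      if c ∈ seg (d x) n a (a * g) ∧ c ∈ seg (d x) n h (h * g) then (1 : ENNReal) else 0)
      (Finset.univ.image φ)
    refine le_trans ?_ h2
    rw [Finset.sum_image (fun i _ j _ hij => hφ1 hij)]
    have h3 : ∀ j ∈ (Finset.univ : Finset (Fin m)),
        (if φ j ∈ seg (d x) n a (a * g) ∧ φ j ∈ seg (d x) n h (h * g) then (1 : ENNReal)
          else 0) = 1 := fun j _ => if_pos (hφ2 j)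
    rw [Finset.sum_congr rfl h3]
    simp
  · rw [Set.indicator_of_notMem hxE]
    exact zero_le

open Classical in
/-- The expected size of `Bs`. -/
lemma InvTree.lintegral_Bs [IsProbabilityMeasure μ] [Countable G] (hd : InvTree μ d) (n : ℕ) (g : G) :
    ∫⁻ y, ∑' c : G, (if c ∈ Bs d n g y then (1 : ENNReal) else 0) ∂μ ≤ n := by
  have h0 : ∫⁻ y, ∑' c : G, (if c ∈ Bs d n g y then (1 : ENNReal) else 0) ∂μ =
      ∫⁻ y, Nc d n g 1 1 y ∂μ := by
    congr 1
    funext y
    unfold Nc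
    congr 1
    funext c
    simp
  rw [h0, ← hd.measure_both]
  have hm : ∀ c : G, MeasurableSet {x | c ∈ seg (d x) n 1 (1 * g) ∧ c ∈ seg (d x) n 1 (1 * g)} :=
    fun c => (hd.meas_seg n 1 (1 * g) c).inter (hd.meas_seg n 1 (1 * g) c)
  have h1 : ∑' c : G, μ {x | c ∈ seg (d x) n 1 (1 * g) ∧ c ∈ seg (d x) n 1 (1 * g)} =
      ∫⁻ x, ∑' c : G, (if c ∈ seg (d x) n 1 (1 * g) ∧ c ∈ seg (d x) n 1 (1 * g) then
        (1 : ENNReal) else 0) ∂μ := tsum_measure_eq _ hm
  rw [h1]
  have h2 : ∫⁻ x, ∑' c : G, (if c ∈ seg (d x) n 1 (1 * g) ∧ c ∈ seg (d x) n 1 (1 * g) then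
        (1 : ENNReal) else 0) ∂μ ≤ ∫⁻ _x, (n : ENNReal) ∂μ := by
    apply lintegral_mono_ae
    filter_upwards [hd.tree] with x hx
    have h3 := seg_finite hx n 1 (1 * g)
    rw [tsum_eq_sum (s := h3.toFinset)]
    · have h4 : ∀ c ∈ h3.toFinset, (if c ∈ seg (d x) n 1 (1 * g) ∧ c ∈ seg (d x) n 1 (1 * g)
          then (1 : ENNReal) else 0) = 1 := by
        intro c hc
        rw [Set.Finite.mem_toFinset] at hc
        exact if_pos ⟨hc, hc⟩
      rw [Finset.sum_congr rfl h4]
      have h5 := ncard_seg_le hx n 1 (1 * g)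
      rw [Set.ncard_eq_toFinset_card _ h3] at h5
      simpa using h5
    · intro c hc
      rw [Set.Finite.mem_toFinset] at hc
      exact if_neg fun h => hc h.1
  refine h2.trans ?_
  simp

open Classical in
lemma InvTree.measurable_Nc [Countable G] (hd : InvTree μ d) (n : ℕ) (g a h : G) :
    Measurable (Nc d n g a h) := by
  unfold Nc
  apply Measurable.tsum
  intro c
  have hset : {y | a⁻¹ * c ∈ Bs d n g y ∧ h⁻¹ * c ∈ Bs d n g y} =
      (fun x : X => c • x) ⁻¹' {x | c ∈ seg (d x) n a (a * g) ∧ c ∈ seg (d x) n h (h * g)} := by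
    ext y
    simp only [Set.mem_ofPred_eq, Set.mem_preimage, hd.mem_seg_iff, Bs, smul_smul]
  have hm : MeasurableSet {y | a⁻¹ * c ∈ Bs d n g y ∧ h⁻¹ * c ∈ Bs d n g y} := by
    rw [hset]
    exact (hd.mp c).measurable ((hd.meas_seg n a (a * g) c).inter (hd.meas_seg n h (h * g) c))
  exact Measurable.ite hm measurable_const measurable_const

open Classical in
omit [MeasurableSpace X] in
lemma Nc_eq (d : X → G → G → ℕ) (n : ℕ) (g a h : G) (y : X) (B : Finset G)
    (hB : ∀ c, c ∈ B ↔ c ∈ Bs d n g y) :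
    Nc d n g a h y = ((B.filter fun b => h⁻¹ * (a * b) ∈ B).card : ENNReal) := by
  unfold Nc
  rw [← (Equiv.mulLeft a).tsum_eq, tsum_eq_sum (s := B)]
  · rw [Finset.card_filter]
    push_cast
    refine Finset.sum_congr rfl fun b hb => ?_
    simp only [Equiv.coe_mulLeft, inv_mul_cancel_left, ← hB]
    by_cases h1 : h⁻¹ * (a * b) ∈ B
    · rw [if_pos h1, if_pos ⟨hb, h1⟩]
    · rw [if_neg h1, if_neg (fun h2 => h1 h2.2)]
  · intro b hb
    simp only [Equiv.coe_mulLeft, inv_mul_cancel_left, ← hB]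
    rw [if_neg (fun h2 => hb h2.1)]

open Classical in
lemma InvTree.sum_le [IsProbabilityMeasure μ] [Countable G] (hd : InvTree μ d) {J : Type}
    [Fintype J] (c : J → ℝ) (u : J → G) (hc : ∀ j, 0 ≤ c j) {ε : ℝ} (hε : 0 ≤ ε)
    (h : ∀ (B : Finset G) (a : G),
        ∑ j, c j * ((B.filter fun b => (u j)⁻¹ * (a * b) ∈ B).card : ℝ) ≤ ε * B.card)
    (n : ℕ) (g a : G) :
    ∑ j, ENNReal.ofReal (c j) * ∫⁻ y, Nc d n g a (u j) y ∂μ ≤ ENNReal.ofReal ε * n := by
  have h1 : ∑ j, ENNReal.ofReal (c j) * ∫⁻ y, Nc d n g a (u j) y ∂μ =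
      ∫⁻ y, ∑ j, ENNReal.ofReal (c j) * Nc d n g a (u j) y ∂μ := by
    rw [lintegral_finsetSum]
    · refine Finset.sum_congr rfl fun j _ => ?_
      rw [lintegral_const_mul _ (hd.measurable_Nc n g a (u j))]
    · intro j _
      exact (hd.measurable_Nc n g a (u j)).const_mul _
  have h2 := hd.lintegral_Bs n g
  have hmeas : Measurable fun y => ∑' c : G, (if c ∈ Bs d n g y then (1 : ENNReal) else 0) := by
    have h3 := hd.measurable_Nc n g 1 1
    have h4 : (fun y => ∑' c : G, (if c ∈ Bs d n g y then (1 : ENNReal) else 0)) =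
        Nc d n g 1 1 := by
      funext y
      unfold Nc
      congr 1
      funext c
      simp
    rw [h4]; exact h3
  have h3 : ∀ᵐ y ∂μ, ∑' c : G, (if c ∈ Bs d n g y then (1 : ENNReal) else 0) < ⊤ := by
    apply ae_lt_top hmeas
    exact ne_top_of_le_ne_top (ENNReal.natCast_ne_top n) h2
  rw [h1]
  calc ∫⁻ y, ∑ j, ENNReal.ofReal (c j) * Nc d n g a (u j) y ∂μ ≤
      ∫⁻ y, ENNReal.ofReal ε * ∑' c : G, (if c ∈ Bs d n g y then (1 : ENNReal) else 0) ∂μ := by
        apply lintegral_mono_ae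
        filter_upwards [h3] with y hy
        have hfin : (Bs d n g y).Finite := by
          have h4 := ENNReal.finite_const_le_of_tsum_ne_top hy.ne one_ne_zero
          apply h4.subset
          intro c hc
          change (1 : ENNReal) ≤ if c ∈ Bs d n g y then 1 else 0
          rw [if_pos hc]
        set B := hfin.toFinset with hB
        have hB' : ∀ c, c ∈ B ↔ c ∈ Bs d n g y := fun c => hfin.mem_toFinset
        have h5 : ∑' c : G, (if c ∈ Bs d n g y then (1 : ENNReal) else 0) = (B.card : ENNReal) := by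
          rw [tsum_eq_sum (s := B)]
          · rw [Finset.sum_congr rfl fun c hc => if_pos ((hB' c).1 hc)]
            simp
          · intro c hc
            exact if_neg fun h => hc ((hB' c).2 h)
        rw [h5]
        simp only [Nc_eq d n g a _ y B hB']
        have h6 := h B a
        have h7 := ENNReal.ofReal_le_ofReal h6
        rw [ENNReal.ofReal_mul hε, ENNReal.ofReal_natCast,
          ENNReal.ofReal_sum_of_nonneg (fun j _ => mul_nonneg (hc j) (Nat.cast_nonneg _))] at h7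
        refine le_trans (le_of_eq ?_) h7
        refine Finset.sum_congr rfl fun j _ => ?_
        rw [ENNReal.ofReal_mul (hc j), ENNReal.ofReal_natCast]
    _ = ENNReal.ofReal ε * ∫⁻ y, ∑' c : G, (if c ∈ Bs d n g y then (1 : ENNReal) else 0) ∂μ :=
        lintegral_const_mul _ hmeas
    _ ≤ ENNReal.ofReal ε * n := by gcongr

/-- Distances are tight. -/
lemma InvTree.exists_tight [IsProbabilityMeasure μ] (hd : InvTree μ d) (H : Finset G) {δ : ℝ}
    (hδ : 0 < δ) : ∃ R : ℕ, ∀ h ∈ H, μ.real {x | R < d x 1 h} ≤ δ := by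
  classical
  induction H using Finset.induction_on with
  | empty => exact ⟨0, by simp⟩
  | insert a H _ ih =>
    obtain ⟨R, hR⟩ := ih
    have h1 : Filter.Tendsto (fun R : ℕ => μ {x | R < d x 1 a}) Filter.atTop (nhds (μ ∅)) := by
      have h2 : (⋂ R : ℕ, {x | R < d x 1 a}) = ∅ := by
        ext x
        simp only [Set.mem_iInter, Set.mem_ofPred_eq, Set.mem_empty_iff_false, iff_false,
          not_forall, not_lt]
        exact ⟨d x 1 a, le_rfl⟩
      rw [← h2]
      apply tendsto_measure_iInter_atTop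
      · intro R
        exact ((hd.meas3 (fun u _ _ => R < u) 1 a 1 a 1 a)).nullMeasurableSet
      · intro R R' hRR x hx
        exact lt_of_le_of_lt hRR hx
      · exact ⟨0, measure_ne_top _ _⟩
    rw [measure_empty] at h1
    have h3 : ∀ᶠ R : ℕ in Filter.atTop, μ {x | R < d x 1 a} < ENNReal.ofReal δ :=
      h1.eventually (gt_mem_nhds (ENNReal.ofReal_pos.2 hδ))
    obtain ⟨R', hR'⟩ := h3.exists_forall_of_atTop
    refine ⟨max R R', fun h hh => ?_⟩
    rcases Finset.mem_insert.1 hh with rfl | hh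
    · have h4 := hR' (max R R') (le_max_right _ _)
      rw [Measure.real, ← ENNReal.toReal_ofReal hδ.le]
      exact ENNReal.toReal_mono ENNReal.ofReal_ne_top h4.le
    · refine le_trans (measureReal_mono (fun x hx => ?_) (measure_ne_top _ _)) (hR h hh)
      exact lt_of_le_of_lt (le_max_left R R') (show max R R' < d x 1 h from hx)

open Classical in
/-- **Divergence of directions.** -/
theorem InvTree.exists_diverge [IsProbabilityMeasure μ] [Countable G] (hd : InvTree μ d) {C : ℕ}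
    (hna : TarskiLe G C) {ε : ℝ} (hε : 0 < ε) (H : Finset G) (L₀ : ℕ) :
    ∃ n ≥ L₀, ∃ W : Finset G, ∀ g : G, ∃ h ∈ W, ∀ a ∈ H,
      μ.real {x | (2 * n : ℤ) ≤ pr (d x) 1 (a * g) (h * g)} ≤ ε := by
  set r : ℝ := H.card + 1 with hr
  have hrpos : 0 < r := by positivity
  set δ : ℝ := ε / (8 * r) with hδ
  have hδpos : 0 < δ := by positivity
  obtain ⟨J, _, c, u, hc1, hc2, hc3⟩ := exists_mixing hna hδpos
  obtain ⟨R, hR⟩ := hd.exists_tight (H ∪ Finset.univ.image u) hδpos
  set m := max L₀ (R + 1) with hm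
  have hm1 : R + 1 ≤ m := le_max_right _ _
  have hm0 : 0 < m := by omega
  refine ⟨4 * m, by have := le_max_left L₀ (R + 1); omega, Finset.univ.image u, fun g => ?_⟩
  set n := 4 * m with hn
  -- the bound for one `a`
  have key : ∀ a ∈ H, ∑ j, c j * μ.real {x | (2 * n : ℤ) ≤ pr (d x) 1 (a * g) (u j * g)} ≤
      6 * δ := by
    intro a ha
    let Ev : J → Set X := fun j => {x | (2 * n : ℤ) ≤ pr (d x) 1 (a * g) (u j * g) ∧
      d x 1 a ≤ R ∧ d x 1 (u j) ≤ R}
    have h1 : ∑ j, ENNReal.ofReal (c j) * ((m : ENNReal) * μ (Ev j)) ≤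
        ENNReal.ofReal δ * n := by
      refine le_trans (Finset.sum_le_sum fun j _ => ?_) (hd.sum_le c u hc1 hδpos.le hc3 n g a)
      gcongr
      exact hd.le_lintegral n m R (by omega) g a (u j)
    have h2 : ∑ j, c j * (m * μ.real (Ev j)) ≤ δ * n := by
      have h3 := ENNReal.toReal_mono (by
        exact ENNReal.mul_ne_top ENNReal.ofReal_ne_top (ENNReal.natCast_ne_top _)) h1
      rw [ENNReal.toReal_sum (by
        intro j _
        exact ENNReal.mul_ne_top ENNReal.ofReal_ne_top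
          (ENNReal.mul_ne_top (ENNReal.natCast_ne_top _) (measure_ne_top _ _))),
        ENNReal.toReal_mul, ENNReal.toReal_ofReal hδpos.le, ENNReal.toReal_natCast] at h3
      refine le_trans (le_of_eq ?_) h3
      refine Finset.sum_congr rfl fun j _ => ?_
      rw [ENNReal.toReal_mul, ENNReal.toReal_mul, ENNReal.toReal_ofReal (hc1 j),
        ENNReal.toReal_natCast]
      rfl
    have h3 : ∑ j, c j * μ.real (Ev j) ≤ 4 * δ := by
      have hmR : (0 : ℝ) < m := by exact_mod_cast hm0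
      have h4 : ∑ j, c j * (m * μ.real (Ev j)) = m * ∑ j, c j * μ.real (Ev j) := by
        rw [Finset.mul_sum]
        refine Finset.sum_congr rfl fun j _ => ?_
        ring
      rw [h4, hn] at h2
      push_cast at h2
      have h5 : (m : ℝ) * ∑ j, c j * μ.real (Ev j) ≤ m * (4 * δ) := by linarith
      exact le_of_mul_le_mul_left h5 hmR
    have h4 : ∀ j, μ.real {x | (2 * n : ℤ) ≤ pr (d x) 1 (a * g) (u j * g)} ≤
        μ.real (Ev j) + 2 * δ := by
      intro j
      have h5 : {x | (2 * n : ℤ) ≤ pr (d x) 1 (a * g) (u j * g)} ⊆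
          Ev j ∪ ({x | R < d x 1 a} ∪ {x | R < d x 1 (u j)}) := by
        intro x hx
        by_cases h6 : d x 1 a ≤ R
        · by_cases h7 : d x 1 (u j) ≤ R
          · exact Or.inl ⟨hx, h6, h7⟩
          · exact Or.inr (Or.inr (not_le.1 h7))
        · exact Or.inr (Or.inl (not_le.1 h6))
      have h6 := measureReal_mono (μ := μ) h5
      have h7 := measureReal_union_le (μ := μ) (Ev j) ({x | R < d x 1 a} ∪ {x | R < d x 1 (u j)})
      have h8 := measureReal_union_le (μ := μ) {x | R < d x 1 a} {x | R < d x 1 (u j)}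
      have h9 := hR a (Finset.mem_union_left _ ha)
      have h10 := hR (u j) (Finset.mem_union_right _ (Finset.mem_image_of_mem _
        (Finset.mem_univ _)))
      linarith
    calc ∑ j, c j * μ.real {x | (2 * n : ℤ) ≤ pr (d x) 1 (a * g) (u j * g)} ≤
        ∑ j, (c j * μ.real (Ev j) + c j * (2 * δ)) := by
          refine Finset.sum_le_sum fun j _ => ?_
          rw [← mul_add]
          exact mul_le_mul_of_nonneg_left (h4 j) (hc1 j)
      _ = ∑ j, c j * μ.real (Ev j) + 2 * δ := by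
          rw [Finset.sum_add_distrib, ← Finset.sum_mul, hc2, one_mul]
      _ ≤ 6 * δ := by linarith
  by_contra hcon
  push Not at hcon
  have h1 : ∀ j, ε ≤ ∑ a ∈ H, μ.real {x | (2 * n : ℤ) ≤ pr (d x) 1 (a * g) (u j * g)} := by
    intro j
    obtain ⟨a, ha, h2⟩ := hcon (u j) (Finset.mem_image_of_mem _ (Finset.mem_univ _))
    refine h2.le.trans ?_
    exact Finset.single_le_sum (f := fun a => μ.real {x | (2 * n : ℤ) ≤
      pr (d x) 1 (a * g) (u j * g)}) (fun _ _ => measureReal_nonneg) ha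
  have h2 : ε ≤ ∑ j, c j * ∑ a ∈ H, μ.real {x | (2 * n : ℤ) ≤
      pr (d x) 1 (a * g) (u j * g)} := by
    calc ε = ∑ j, c j * ε := by rw [← Finset.sum_mul, hc2, one_mul]
      _ ≤ _ := Finset.sum_le_sum fun j _ => mul_le_mul_of_nonneg_left (h1 j) (hc1 j)
  have h3 : ∑ j, c j * ∑ a ∈ H, μ.real {x | (2 * n : ℤ) ≤ pr (d x) 1 (a * g) (u j * g)} =
      ∑ a ∈ H, ∑ j, c j * μ.real {x | (2 * n : ℤ) ≤ pr (d x) 1 (a * g) (u j * g)} := by
    simp only [Finset.mul_sum]
    exact Finset.sum_comm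
  rw [h3] at h2
  have h4 := Finset.sum_le_sum key
  rw [Finset.sum_const, nsmul_eq_mul] at h4
  have h5 : (H.card : ℝ) * (6 * δ) < ε := by
    have h6 : δ * (8 * r) = ε := by rw [hδ]; field_simp
    rw [← h6, hr]
    nlinarith [Nat.cast_nonneg (α := ℝ) H.card]
  linarith

end Pool.Agent.Lib.MP_90732c_al.Rt
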