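import Pool.Agent.Lib.MP_90732c_al.Pieces

/-! Counting edges in random tree-like metrics: from four elements with diverging directions to a
paradoxical decomposition with six pieces. -/

set_option autoImplicit false

open scoped Pointwise
open MeasureTheory

namespace Pool.Agent.Lib.MP_90732c_al.Rt

/-- Twice the Gromov product. -/
def pr {V : Type} (d : V → V → ℕ) (o a b : V) : ℤ := (d o a : ℤ) + d o b - d a b

/-- A symmetric function satisfying the zero-hyperbolic inequality. -/
structure Hyp {V : Type} (d : V → V → ℕ) : Prop where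
  symm : ∀ a b, d a b = d b a
  hyp : ∀ o a b c, min (pr d o a b) (pr d o b c) ≤ pr d o a c

variable {G : Type} [Group G]

/-- The edge `(y, i)`, joining `y` and `y * g i`, is good. -/
def Good (d : G → G → ℕ) (g : Fin 4 → G) (L : ℕ) (e : G × Fin 4) : Prop :=
  2 * L ≤ d e.1 (e.1 * g e.2) ∧
    ∀ j, j ≠ e.2 → pr d e.1 (e.1 * g e.2) (e.1 * g j) < 2 * L ∧
      pr d (e.1 * g e.2) e.1 (e.1 * g e.2 * (g j)⁻¹) < 2 * L

open Classical in
lemma card_good_le {d : G → G → ℕ} (hd : Hyp d) (g : Fin 4 → G) (L : ℕ)
    (E : Finset (G × Fin 4)) (hE : ∀ e ∈ E, Good d g L e) :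
    E.card ≤ (E.image fun e => e.1).card + (E.image fun e => e.1 * g e.2).card := by
  let φ : G × Fin 4 → G ⊕ G := fun e =>
    if (2 * L : ℤ) ≤ pr d e.1 1 (e.1 * g e.2) then Sum.inl e.1 else Sum.inr (e.1 * g e.2)
  have hφ : Set.InjOn φ E := by
    rintro ⟨y, i⟩ hy ⟨y', i'⟩ hy' heq
    have h1 := hE _ hy
    have h2 := hE _ hy'
    simp only [φ] at heq
    by_cases hc : (2 * L : ℤ) ≤ pr d y 1 (y * g i)
    · by_cases hc' : (2 * L : ℤ) ≤ pr d y' 1 (y' * g i')
      · rw [if_pos hc, if_pos hc', Sum.inl.injEq] at heq
        subst heq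
        by_cases hii : i' = i
        · rw [hii]
        · exfalso
          have h3 := (h1.2 i' hii).1
          have h4 := hd.hyp y (y * g i) 1 (y * g i')
          have h5 : pr d y (y * g i) 1 = pr d y 1 (y * g i) := by
            unfold pr; rw [hd.symm (y * g i) 1]; ring
          rw [h5] at h4
          simp only at h3
          have := le_min hc hc'
          omega
      · rw [if_pos hc, if_neg hc'] at heq
        exact absurd heq (by simp)
    · by_cases hc' : (2 * L : ℤ) ≤ pr d y' 1 (y' * g i')
      · rw [if_neg hc, if_pos hc'] at heq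
        exact absurd heq (by simp)
      · rw [if_neg hc, if_neg hc', Sum.inr.injEq] at heq
        by_cases hii : i' = i
        · subst hii
          have := mul_right_cancel heq
          rw [this]
        · exfalso
          have h3 := (h1.2 i' hii).2
          simp only at h3
          have hy'' : y * g i * (g i')⁻¹ = y' := by rw [heq]; group
          rw [hy''] at h3
          have key : ∀ (w : G) (j : Fin 4), 2 * L ≤ d w (w * g j) →
              ¬ (2 * L : ℤ) ≤ pr d w 1 (w * g j) → (2 * L : ℤ) ≤ pr d (w * g j) 1 w := by
            intro w j hw1 hw2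
            unfold pr at hw2 ⊢
            rw [hd.symm (w * g j) 1, hd.symm (w * g j) w]
            rw [hd.symm w 1] at hw2
            omega
          have h4 := key y i h1.1 hc
          have h5 := key y' i' h2.1 hc'
          rw [← heq] at h5
          have h6 := hd.hyp (y * g i) y 1 y'
          have h7 : pr d (y * g i) y 1 = pr d (y * g i) 1 y := by
            unfold pr; rw [hd.symm y 1]; ring
          rw [h7] at h6
          have := le_min h4 h5
          omega
  have h1 : E.card = (E.image φ).card := (Finset.card_image_of_injOn hφ).symm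
  have h2 : E.image φ ⊆ (E.image fun e => e.1).disjSum (E.image fun e => e.1 * g e.2) := by
    intro v hv
    obtain ⟨e, he, rfl⟩ := Finset.mem_image.1 hv
    simp only [φ]
    split_ifs
    · exact Finset.inl_mem_disjSum.2 (Finset.mem_image_of_mem _ he)
    · exact Finset.inr_mem_disjSum.2 (Finset.mem_image_of_mem (fun e : G × Fin 4 => e.1 * g e.2) he)
  rw [h1]
  exact (Finset.card_le_card h2).trans (Finset.card_disjSum _ _).le

open Classical in
/-- The averaged count. -/
lemma card_le_of_good {X : Type} [MeasurableSpace X] (μ : Measure X) [IsProbabilityMeasure μ]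
    (d : X → G → G → ℕ) (hd : ∀ᵐ x ∂μ, Hyp (d x)) (g : Fin 4 → G) (L : ℕ)
    (hmeas : ∀ e, MeasurableSet {x | Good (d x) g L e})
    (hgood : ∀ e, (3 / 4 : ℝ) ≤ μ.real {x | Good (d x) g L e})
    (E : Finset (G × Fin 4)) :
    (3 / 4 : ℝ) * E.card ≤ (E.image fun e => e.1).card + (E.image fun e => e.1 * g e.2).card := by
  have h1 : ∑ e ∈ E, μ.real {x | Good (d x) g L e} =
      ∫ x, ∑ e ∈ E, Set.indicator {x | Good (d x) g L e} (fun _ => (1 : ℝ)) x ∂μ := by
    rw [integral_finsetSum]
    · refine Finset.sum_congr rfl fun e _ => ?_
      exact (integral_indicator_one (hmeas e)).symm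
    · intro e _
      exact (integrable_const 1).indicator (hmeas e)
  have h2 : ∫ x, ∑ e ∈ E, Set.indicator {x | Good (d x) g L e} (fun _ => (1 : ℝ)) x ∂μ ≤
      ∫ _x, (((E.image fun e => e.1).card : ℝ) + (E.image fun e => e.1 * g e.2).card) ∂μ := by
    apply integral_mono_ae
    · apply integrable_finsetSum
      intro e _
      exact (integrable_const 1).indicator (hmeas e)
    · exact integrable_const _
    · filter_upwards [hd] with x hx
      have h3 := card_good_le hx g L (E.filter fun e => Good (d x) g L e) (by
        intro e he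
        exact (Finset.mem_filter.1 he).2)
      have h4 : ∑ e ∈ E, Set.indicator {x | Good (d x) g L e} (fun _ => (1 : ℝ)) x =
          ((E.filter fun e => Good (d x) g L e).card : ℝ) := by
        rw [Finset.card_filter]
        push_cast
        refine Finset.sum_congr rfl fun e _ => ?_
        by_cases h5 : Good (d x) g L e
        · rw [if_pos h5, Set.indicator_of_mem (by exact h5)]
        · rw [if_neg h5, Set.indicator_of_notMem (by exact h5)]
      rw [h4]
      have h5 : ((E.filter fun e => Good (d x) g L e).image fun e => e.1).card ≤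
          (E.image fun e => e.1).card :=
        Finset.card_le_card (Finset.image_subset_image (Finset.filter_subset _ _))
      have h6 : ((E.filter fun e => Good (d x) g L e).image fun e => e.1 * g e.2).card ≤
          (E.image fun e => e.1 * g e.2).card :=
        Finset.card_le_card (Finset.image_subset_image (Finset.filter_subset _ _))
      exact_mod_cast h3.trans (Nat.add_le_add h5 h6)
  have h3 : (3 / 4 : ℝ) * E.card ≤ ∑ e ∈ E, μ.real {x | Good (d x) g L e} := by
    have := Finset.card_nsmul_le_sum E (fun e => μ.real {x | Good (d x) g L e}) (3 / 4)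
      (fun e _ => hgood e)
    rw [nsmul_eq_mul] at this
    linarith
  rw [integral_const] at h2
  simp only [probReal_univ, smul_eq_mul, one_mul] at h2
  linarith

open Classical in
/-- Four elements for which all edges are good with probability at least `3/4` give a paradoxical
decomposition with at most six pieces. -/
theorem tarskiLe_six {X : Type} [MeasurableSpace X] (μ : Measure X) [IsProbabilityMeasure μ]
    (d : X → G → G → ℕ) (hd : ∀ᵐ x ∂μ, Hyp (d x)) (g : Fin 4 → G) (L : ℕ)
    (hmeas : ∀ e, MeasurableSet {x | Good (d x) g L e})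
    (hgood : ∀ e, (3 / 4 : ℝ) ≤ μ.real {x | Good (d x) g L e}) : TarskiLe G 6 := by
  let S : Bool → Finset G := fun b => if b then {g 0, g 1, g 2} else {g 1, g 2, g 3}
  let O : G × Bool → Finset G := fun p => {p.1} * S p.2
  obtain ⟨F, hFinj, hF⟩ := (Finset.all_card_le_biUnion_card_iff_exists_injective O).1 (by
    intro Q
    set A := (Q.filter fun p => p.2 = true).image Prod.fst with hA
    set B := (Q.filter fun p => p.2 = false).image Prod.fst with hB
    have hmA : ∀ a, a ∈ A ↔ (a, true) ∈ Q := by
      intro a
      rw [hA, Finset.mem_image]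
      constructor
      · rintro ⟨⟨b, c⟩, h1, rfl⟩
        rw [Finset.mem_filter] at h1
        obtain ⟨h1, h2⟩ := h1
        simp only at h2
        rwa [h2] at h1
      · intro h1
        exact ⟨_, Finset.mem_filter.2 ⟨h1, rfl⟩, rfl⟩
    have hmB : ∀ a, a ∈ B ↔ (a, false) ∈ Q := by
      intro a
      rw [hB, Finset.mem_image]
      constructor
      · rintro ⟨⟨b, c⟩, h1, rfl⟩
        rw [Finset.mem_filter] at h1
        obtain ⟨h1, h2⟩ := h1
        simp only at h2
        rwa [h2] at h1
      · intro h1
        exact ⟨_, Finset.mem_filter.2 ⟨h1, rfl⟩, rfl⟩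
    have hQ : Q.card ≤ A.card + B.card := by
      have h1 : Q ⊆ (A ×ˢ {true}) ∪ (B ×ˢ {false}) := by
        rintro ⟨a, c⟩ hac
        rw [Finset.mem_union, Finset.mem_product, Finset.mem_product]
        cases c with
        | true => left; exact ⟨(hmA a).2 hac, by simp⟩
        | false => right; exact ⟨(hmB a).2 hac, by simp⟩
      refine (Finset.card_le_card h1).trans ((Finset.card_union_le _ _).trans ?_)
      rw [Finset.card_product, Finset.card_product]
      simp
    set E : Finset (G × Fin 4) := (A ×ˢ {0}) ∪ ((A ∪ B) ×ˢ {1, 2}) ∪ (B ×ˢ {3}) with hE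
    have hEcard : E.card = A.card + 2 * (A ∪ B).card + B.card := by
      rw [hE, Finset.card_union_of_disjoint, Finset.card_union_of_disjoint,
        Finset.card_product, Finset.card_product, Finset.card_product]
      · have : ({1, 2} : Finset (Fin 4)).card = 2 := by decide
        rw [this]
        simp only [Finset.card_singleton]
        omega
      · rw [Finset.disjoint_left]
        rintro ⟨a, i⟩ h1 h2
        rw [Finset.mem_product] at h1 h2
        simp only [Finset.mem_singleton, Finset.mem_insert] at h1 h2
        obtain ⟨_, rfl⟩ := h1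
        obtain ⟨_, h3 | h3⟩ := h2 <;> exact absurd h3 (by decide)
      · rw [Finset.disjoint_left]
        rintro ⟨a, i⟩ h1 h2
        rw [Finset.mem_union, Finset.mem_product, Finset.mem_product] at h1
        rw [Finset.mem_product] at h2
        simp only [Finset.mem_singleton, Finset.mem_insert] at h1 h2
        obtain ⟨_, rfl⟩ := h2
        rcases h1 with ⟨_, h1⟩ | ⟨_, h1 | h1⟩ <;> exact absurd h1 (by decide)
    have hleft : (E.image fun e => e.1) ⊆ A ∪ B := by
      intro a ha
      obtain ⟨⟨y, i⟩, he, rfl⟩ := Finset.mem_image.1 ha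
      rw [hE, Finset.mem_union, Finset.mem_union, Finset.mem_product, Finset.mem_product,
        Finset.mem_product] at he
      rcases he with (he | he) | he
      · exact Finset.mem_union_left _ he.1
      · exact he.1
      · exact Finset.mem_union_right _ he.1
    have hright : (E.image fun e => e.1 * g e.2) ⊆ Q.biUnion O := by
      intro a ha
      obtain ⟨⟨y, i⟩, he, rfl⟩ := Finset.mem_image.1 ha
      rw [hE, Finset.mem_union, Finset.mem_union, Finset.mem_product, Finset.mem_product,
        Finset.mem_product] at he
      simp only [Finset.mem_singleton, Finset.mem_insert, Finset.mem_union] at he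
      have hO : ∀ (c : Bool), (y, c) ∈ Q → g i ∈ S c → y * g i ∈ Q.biUnion O := by
        intro c h1 h2
        rw [Finset.mem_biUnion]
        exact ⟨(y, c), h1, Finset.mul_mem_mul (Finset.mem_singleton_self _) h2⟩
      rcases he with (⟨h1, rfl⟩ | ⟨h1 | h1, h2⟩) | ⟨h1, rfl⟩
      · exact hO true ((hmA y).1 h1) (by simp [S])
      · apply hO true ((hmA y).1 h1)
        rcases h2 with rfl | rfl <;> simp [S]
      · apply hO false ((hmB y).1 h1)
        rcases h2 with rfl | rfl <;> simp [S]
      · exact hO false ((hmB y).1 h1) (by simp [S])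
    have h1 := card_le_of_good μ d hd g L hmeas hgood E
    have h2 : ((E.image fun e => e.1).card : ℝ) ≤ (A ∪ B).card := by
      exact_mod_cast Finset.card_le_card hleft
    have h3 : ((E.image fun e => e.1 * g e.2).card : ℝ) ≤ (Q.biUnion O).card := by
      exact_mod_cast Finset.card_le_card hright
    have h4 : (E.card : ℝ) = A.card + 2 * (A ∪ B).card + B.card := by
      exact_mod_cast hEcard
    have h5 : (A.card : ℝ) ≤ (A ∪ B).card := by
      exact_mod_cast Finset.card_le_card Finset.subset_union_left
    have h6 : (B.card : ℝ) ≤ (A ∪ B).card := by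
      exact_mod_cast Finset.card_le_card Finset.subset_union_right
    have h7 : (Q.card : ℝ) ≤ A.card + B.card := by exact_mod_cast hQ
    have h8 : (Q.card : ℝ) ≤ (Q.biUnion O).card := by nlinarith
    exact_mod_cast h8)
  have h1 := tarskiLe_of_injective S ⟨g 0, by simp [S]⟩ F hFinj (by
    intro x c
    have h2 := hF (x, c)
    simp only [O] at h2
    obtain ⟨a, ha, u, hu, h3⟩ := Finset.mem_mul.1 h2
    rw [Finset.mem_singleton] at ha
    rw [← h3, ha, inv_mul_cancel_left]
    exact hu)
  refine h1.mono ?_
  have h2 : (S true).card ≤ 3 := by simp only [S, if_true]; exact Finset.card_le_three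
  have h3 : (S false).card ≤ 3 := by
    simp only [S, Bool.false_eq_true, if_false]; exact Finset.card_le_three
  omega

end Pool.Agent.Lib.MP_90732c_al.Rt
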