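import Pool.Agent.Lib.MP_90732c_al.RtCount

/-! Tree-like metrics with values in the natural numbers. -/

set_option autoImplicit false

namespace Pool.Agent.Lib.MP_90732c_al.Rt

/-- A zero-hyperbolic metric with (almost) geodesics and medians. -/
structure TreeLike {V : Type} (d : V → V → ℕ) : Prop extends Hyp d where
  self : ∀ a, d a a = 0
  eq : ∀ a b, d a b = 0 → a = b
  tri : ∀ a b c, d a c ≤ d a b + d b c
  geo : ∀ a b t, t < d a b → ∃ c, d a c + d c b = d a b ∧ (d a c = t ∨ d a c = t + 1)
  med : ∀ a b c, ∃ m, d a m + d m b = d a b ∧ d a m + d m c = d a c ∧ d b m + d m c = d b c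

/-- The points of the geodesic from `a` to `b` at distance less than `n` from `a`. -/
def seg {V : Type} (d : V → V → ℕ) (n : ℕ) (a b : V) : Set V :=
  {c | d a c + d c b = d a b ∧ d a c < n}

variable {V : Type} {d : V → V → ℕ}

lemma seg_unique (hd : TreeLike d) {a b c c' : V} (h : d a c + d c b = d a b)
    (h' : d a c' + d c' b = d a b) (he : d a c = d a c') : c = c' := by
  apply hd.eq
  have h1 := hd.hyp a c b c'
  have h2 : pr d a c b = 2 * d a c := by unfold pr; omega
  have h3 : pr d a b c' = 2 * d a c := by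
    unfold pr; rw [hd.symm b c']; omega
  rw [h2, h3, min_self] at h1
  unfold pr at h1
  omega

lemma injOn_seg (hd : TreeLike d) (n : ℕ) (a b : V) : Set.InjOn (d a) (seg d n a b) :=
  fun _ hc _ hc' he => seg_unique hd hc.1 hc'.1 he

lemma seg_finite (hd : TreeLike d) (n : ℕ) (a b : V) : (seg d n a b).Finite := by
  apply Set.Finite.of_finite_image (f := d a) _ (injOn_seg hd n a b)
  apply (Set.finite_Iio n).subset
  rintro _ ⟨c, hc, rfl⟩
  exact hc.2

lemma ncard_seg_le (hd : TreeLike d) (n : ℕ) (a b : V) : (seg d n a b).ncard ≤ n := by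
  rw [← (injOn_seg hd n a b).ncard_image]
  have h1 : d a '' seg d n a b ⊆ Set.Iio n := by
    rintro _ ⟨c, hc, rfl⟩
    exact hc.2
  have h2 := Set.ncard_le_ncard h1 (Set.finite_Iio n)
  have h3 : (Set.Iio n).ncard = n := by
    rw [Set.ncard_eq_toFinset_card' (Set.Iio n)]
    simp
  omega

/-- A deep point of `[o, b]` lies on `[h, b]` when `h` is near `o`. -/
lemma on_seg (hd : TreeLike d) {o b h c : V} (hc : d o c + d c b = d o b) (hh : d o h < d o c) :
    d h c + d c b = d h b := by
  have h1 := hd.hyp c o h b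
  have h2 : pr d c o b = 0 := by
    unfold pr; rw [hd.symm c o]; omega
  have h3 : 0 < pr d c o h := by
    unfold pr
    have h4 := hd.tri o h c
    rw [hd.symm c o, hd.symm c h]
    omega
  rw [h2] at h1
  have h4 : pr d c h b ≤ 0 := by
    rcases min_le_iff.1 h1 with h5 | h5
    · omega
    · exact h5
  unfold pr at h4
  rw [hd.symm c h] at h4
  have h5 := hd.tri h c b
  omega

lemma pr_le (hd : TreeLike d) (o a b : V) : pr d o a b ≤ 2 * d o a := by
  have h1 := hd.tri o a b
  unfold pr
  omega

lemma pr_comm (hd : Hyp d) (o a b : V) : pr d o a b = pr d o b a := by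
  unfold pr; rw [hd.symm a b]; ring

/-- If `[o, b]` and `[o, b']` have a long common part and `h`, `h'` are near `o` then the initial
parts of `[h, b]` and `[h', b']` have many common points. -/
theorem exists_common (hd : TreeLike d) {o h h' b b' : V} {R n m : ℕ}
    (hp : (2 * n : ℤ) ≤ pr d o b b') (hh : d o h ≤ R) (hh' : d o h' ≤ R)
    (hn : 2 * R + 2 * m + 2 ≤ n) :
    ∃ φ : Fin m → V, Function.Injective φ ∧ ∀ j, φ j ∈ seg d n h b ∧ φ j ∈ seg d n h' b' := by
  have hob := pr_le hd o b b'
  have key : ∀ j : Fin m, ∃ c, d o c + d c b = d o b ∧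
      (d o c = R + 1 + 2 * j ∨ d o c = R + 1 + 2 * j + 1) := by
    intro j
    apply hd.geo o b
    have := j.2
    omega
  choose φ hφ1 hφ2 using key
  refine ⟨φ, ?_, fun j => ?_⟩
  · intro i j hij
    have h1 := hφ2 i
    have h2 := hφ2 j
    rw [hij] at h1
    apply Fin.ext
    omega
  · have hj := j.2
    have h1 := hφ1 j
    have h2 := hφ2 j
    have h3 : d o (φ j) + d (φ j) b' = d o b' := by
      have h4 := hd.hyp o (φ j) b b'
      have h5 : pr d o (φ j) b = 2 * d o (φ j) := by unfold pr; omega
      have h6 : (2 * d o (φ j) : ℤ) ≤ min (pr d o (φ j) b) (pr d o b b') := by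
        apply le_min
        · rw [h5]
        · omega
      have h7 := h6.trans h4
      unfold pr at h7
      have h8 := hd.tri o (φ j) b'
      omega
    refine ⟨⟨on_seg hd h1 (by omega), ?_⟩, ⟨on_seg hd h3 (by omega), ?_⟩⟩
    · have := hd.tri h o (φ j)
      rw [hd.symm h o] at this
      omega
    · have := hd.tri h' o (φ j)
      rw [hd.symm h' o] at this
      omega

/-- Points at small distance have a large product seen from far away. -/
lemma pr_ge (hd : TreeLike d) {o a b : V} {D r : ℕ} (h1 : D + r ≤ d o a) (h2 : d a b ≤ r) :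
    (2 * D : ℤ) ≤ pr d o a b := by
  unfold pr
  have h3 := hd.tri o b a
  rw [hd.symm b a] at h3
  omega

end Pool.Agent.Lib.MP_90732c_al.Rt
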