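import Pool.Agent.Lib.MP_90732c_al.Master
import Pool.Agent.Lib.MP_90732c_al.Paradox

/-! Consequences of the cost inequality: the Tarski half number of a group of cost `> 1`. -/

set_option autoImplicit false

open scoped Pointwise

namespace Pool.Agent.Lib.MP_90732c_al

variable {G : Type} [Group G]

lemma countable_of_fg (hfg : Group.FG G) : Countable G := by
  obtain ⟨α, _, φ, hφ⟩ := Group.fg_iff_exists_freeGroup_hom_surjective_finite.1 hfg
  exact hφ.countable

lemma CostGe.mono {c c' : ENNReal} (h : CostGe G c) (hc : c' ≤ c) : CostGe G c' := by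
  intro X _ _ _ μ _ h1 h2 s A h3 h4
  exact hc.trans (h X μ h1 h2 s A h3 h4)

lemma CostGe.real {ε : ENNReal} (hε : 0 < ε) (h : CostGe G (1 + ε)) :
    ∃ δ : ℝ, 0 < δ ∧ CostGe G (ENNReal.ofReal (1 + δ)) := by
  by_cases h1 : ε = ⊤
  · refine ⟨1, one_pos, h.mono ?_⟩
    rw [h1]; simp
  · refine ⟨ε.toReal, ENNReal.toReal_pos hε.ne' h1, h.mono ?_⟩
    rw [ENNReal.ofReal_add zero_le_one ENNReal.toReal_nonneg, ENNReal.ofReal_one,
      ENNReal.ofReal_toReal h1]

open Classical in
/-- The number of left cosets of `H` touched by `X`. -/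
noncomputable def cosetCard (H : Subgroup G) (X : Finset G) : ℕ :=
  (X.image (fun x : G => (QuotientGroup.mk x : G ⧸ H))).card

open Classical in
lemma cosetCard_le (H : Subgroup G) (X : Finset G) : cosetCard H X ≤ X.card :=
  Finset.card_image_le

open Classical in
lemma cosetCard_mono (H : Subgroup G) {X Y : Finset G} (h : X ⊆ Y) :
    cosetCard H X ≤ cosetCard H Y :=
  Finset.card_le_card (Finset.image_subset_image h)

open Classical in
lemma cosetCard_pos (H : Subgroup G) {X : Finset G} (h : X.Nonempty) : 0 < cosetCard H X :=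
  (h.image _).card_pos

/-- The subgroup generated by the first `p` sets. -/
def lo (S : ℕ → Finset G) (p : ℕ) : Subgroup G :=
  Subgroup.closure {g | ∃ q < p, g ∈ S q}

open Classical in
/-- The cost inequality for finite sets `S 0, ..., S (P-1)` which together generate `G`. -/
theorem cost_sets [Countable G] {c : ℝ} (hc : CostGe G (ENNReal.ofReal c))
    (S : ℕ → Finset G) (P : ℕ) (hS : lo S P = ⊤)
    (B : ℕ → Finset G) (hB : ∀ p, (B p).Nonempty) :
    c ≤ ∑ p ∈ Finset.range P,
      ((cosetCard (lo S p) (B p * insert 1 (S p)) : ℝ) - 1) / ((B p).card : ℝ) := by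
  set L : Finset (Σ _ : ℕ, G) := (Finset.range P).sigma S with hL
  set s : Fin L.card → G := fun i => (L.equivFin.symm i).1.2 with hs
  set pr : Fin L.card → ℕ := fun i => (L.equivFin.symm i).1.1 with hpr
  have hmemL : ∀ i : Fin L.card, pr i < P ∧ s i ∈ S (pr i) := by
    intro i
    have h1 : (L.equivFin.symm i : Σ _ : ℕ, G) ∈ (Finset.range P).sigma S :=
      (L.equivFin.symm i).2
    rw [Finset.mem_sigma, Finset.mem_range] at h1
    exact h1
  have hex : ∀ q < P, ∀ g ∈ S q, ∃ i : Fin L.card, pr i = q ∧ s i = g := by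
    intro q hq g hg
    have h1 : (⟨q, g⟩ : Σ _ : ℕ, G) ∈ L := by
      rw [hL, Finset.mem_sigma, Finset.mem_range]
      exact ⟨hq, hg⟩
    refine ⟨L.equivFin ⟨_, h1⟩, ?_, ?_⟩
    · simp only [hpr, Equiv.symm_apply_apply]
    · simp only [hs, Equiv.symm_apply_apply]
  have hlow : ∀ p ≤ P, low s pr p = lo S p := by
    intro p hp
    unfold low lo
    congr 1
    ext g
    constructor
    · rintro ⟨j, hj, rfl⟩
      exact ⟨pr j, hj, (hmemL j).2⟩
    · rintro ⟨q, hq, hg⟩
      obtain ⟨i, h1, h2⟩ := hex q (hq.trans_le hp) g hg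
      exact ⟨i, by rw [h1]; exact hq, h2⟩
  have hclos : Subgroup.closure (Set.range s) = ⊤ := by
    rw [← hS, ← hlow P le_rfl]
    unfold low
    congr 1
    ext g
    constructor
    · rintro ⟨j, rfl⟩
      exact ⟨j, (hmemL j).1, rfl⟩
    · rintro ⟨j, _, rfl⟩
      exact ⟨j, rfl⟩
  have h := cost_le_sum hc s hclos pr P (fun i => (hmemL i).1) B hB
  have hverts : ∀ p < P, (verts s pr p (B p)).card ≤
      cosetCard (lo S p) (B p * insert 1 (S p)) := by
    intro p hp
    have h1 : (verts s pr p (B p)).card ≤ cosetCard (low s pr p) (B p * insert 1 (S p)) := by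
      apply Finset.card_le_card
      unfold verts
      apply Finset.union_subset
      · intro v hv
        obtain ⟨b, hb, rfl⟩ := Finset.mem_image.1 hv
        refine Finset.mem_image.2 ⟨b, ?_, rfl⟩
        have := Finset.mul_mem_mul hb (Finset.mem_insert_self 1 (S p))
        rwa [mul_one] at this
      · intro v hv
        obtain ⟨e, he, rfl⟩ := Finset.mem_image.1 hv
        rw [Finset.mem_product, Finset.mem_filter] at he
        refine Finset.mem_image.2 ⟨e.1 * s e.2, ?_, rfl⟩
        refine Finset.mul_mem_mul he.1 (Finset.mem_insert_of_mem ?_)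
        have := (hmemL e.2).2
        rwa [he.2.2] at this
    exact h1.trans_eq (by rw [hlow p hp.le])
  have hterm : ∀ p ∈ Finset.range P,
      (((verts s pr p (B p)).card - 1 : ℕ) : ENNReal) / ((B p).card : ENNReal) ≤
      ENNReal.ofReal (((cosetCard (lo S p) (B p * insert 1 (S p)) : ℝ) - 1) /
        ((B p).card : ℝ)) := by
    intro p hp
    have hp' := Finset.mem_range.1 hp
    have h1 : (0 : ℝ) < (B p).card := by exact_mod_cast (hB p).card_pos
    rw [ENNReal.ofReal_div_of_pos h1, ENNReal.ofReal_natCast]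
    refine ENNReal.div_le_div_right ?_ _
    rw [← ENNReal.ofReal_natCast]
    apply ENNReal.ofReal_le_ofReal
    have hv := hverts p hp'
    have h2 : 0 < cosetCard (lo S p) (B p * insert 1 (S p)) :=
      cosetCard_pos _ ((hB p).mul ⟨1, Finset.mem_insert_self _ _⟩)
    have h3 : (verts s pr p (B p)).card - 1 ≤
      cosetCard (lo S p) (B p * insert 1 (S p)) - 1 := by omega
    have h4 : (((verts s pr p (B p)).card - 1 : ℕ) : ℝ) ≤
      ((cosetCard (lo S p) (B p * insert 1 (S p)) - 1 : ℕ) : ℝ) := by exact_mod_cast h3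
    refine h4.trans (le_of_eq ?_)
    rw [Nat.cast_sub h2, Nat.cast_one]
  have hnonneg : ∀ p ∈ Finset.range P,
      0 ≤ ((cosetCard (lo S p) (B p * insert 1 (S p)) : ℝ) - 1) / ((B p).card : ℝ) := by
    intro p _
    have h2 : 1 ≤ cosetCard (lo S p) (B p * insert 1 (S p)) :=
      cosetCard_pos _ ((hB p).mul ⟨1, Finset.mem_insert_self _ _⟩)
    have h3 : (1 : ℝ) ≤ (cosetCard (lo S p) (B p * insert 1 (S p)) : ℝ) := by exact_mod_cast h2
    apply div_nonneg (by linarith) (Nat.cast_nonneg _)
  have h5 := h.trans (Finset.sum_le_sum hterm)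
  rw [← ENNReal.ofReal_sum_of_nonneg hnonneg] at h5
  exact (ENNReal.ofReal_le_ofReal_iff (Finset.sum_nonneg hnonneg)).1 h5

open Classical in
/-- A finite nonempty set grows strictly under a finite set generating an infinite subgroup. -/
lemma card_lt_card_mul {s : Finset G} (hs : Infinite (Subgroup.closure (s : Set G)))
    {D : Finset G} (hD : D.Nonempty) : D.card < (D * insert 1 s).card := by
  by_contra hle
  rw [not_lt] at hle
  have hsub : D ⊆ D * insert 1 s := by
    intro x hx
    have := Finset.mul_mem_mul hx (Finset.mem_insert_self 1 s)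
    rwa [mul_one] at this
  have heq : D = D * insert 1 s := Finset.eq_of_subset_of_card_le hsub hle
  have hinv : ∀ g ∈ s, ∀ x ∈ D, x * g ∈ D := by
    intro g hg x hx
    rw [heq]
    exact Finset.mul_mem_mul hx (Finset.mem_insert_of_mem hg)
  have hinv' : ∀ g ∈ s, ∀ x ∈ D, x * g⁻¹ ∈ D := by
    intro g hg
    have hmaps : Set.MapsTo (fun x => x * g) (D : Set G) (D : Set G) :=
      fun x hx => hinv g hg x hx
    have hinj : Set.InjOn (fun x => x * g) (D : Set G) :=
      fun x _ y _ h => mul_right_cancel h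
    have hbij := (Set.Finite.injOn_iff_bijOn_of_mapsTo D.finite_toSet hmaps).1 hinj
    intro x hx
    obtain ⟨y, hy, hyx⟩ := hbij.surjOn hx
    simp only at hyx
    rw [← hyx, mul_inv_cancel_right]
    exact hy
  obtain ⟨x₀, hx₀⟩ := hD
  have hall : ∀ k ∈ Subgroup.closure (s : Set G), ∀ x ∈ D, x * k ∈ D := by
    intro k hk
    induction hk using Subgroup.closure_induction'' with
    | mem g hg => exact hinv g hg
    | inv_mem g hg => exact hinv' g hg
    | one => intro x hx; rwa [mul_one]
    | mul a b _ _ ha hb =>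
      intro x hx
      rw [← mul_assoc]
      exact hb _ (ha x hx)
  have hinj : Function.Injective
      (fun k : Subgroup.closure (s : Set G) => (⟨x₀ * k, hall k k.2 x₀ hx₀⟩ : D)) := by
    intro a b hab
    have := congrArg Subtype.val hab
    exact Subtype.ext (mul_left_cancel this)
  have := Finite.of_injective _ hinj
  exact not_finite (Subgroup.closure (s : Set G))

open Classical in
/-- Counting coset by coset. -/
lemma card_add_cosetCard_le {s : Finset G} (hs : Infinite (Subgroup.closure (s : Set G)))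
    (A Y : Finset G) (hAY : A * insert 1 s ⊆ Y) :
    A.card + cosetCard (Subgroup.closure (s : Set G)) Y ≤ Y.card := by
  set H := Subgroup.closure (s : Set G) with hH
  set f : G → G ⧸ H := fun x => QuotientGroup.mk x with hf
  have hsub : A ⊆ Y := by
    intro x hx
    apply hAY
    have := Finset.mul_mem_mul hx (Finset.mem_insert_self 1 s)
    rwa [mul_one] at this
  have h1 : A.card = ∑ b ∈ Y.image f, (A.filter fun a => f a = b).card :=
    Finset.card_eq_sum_card_fiberwise fun x hx => Finset.mem_image_of_mem f (hsub hx)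
  have h2 : Y.card = ∑ b ∈ Y.image f, (Y.filter fun a => f a = b).card :=
    Finset.card_eq_sum_card_fiberwise fun x hx => Finset.mem_image_of_mem f hx
  have h3 : cosetCard H Y = ∑ b ∈ Y.image f, 1 := by
    rw [Finset.sum_const, smul_eq_mul, mul_one]
    rfl
  rw [h1, h2, h3, ← Finset.sum_add_distrib]
  refine Finset.sum_le_sum fun b hb => ?_
  rcases (A.filter fun a => f a = b).eq_empty_or_nonempty with h4 | h4
  · rw [h4, Finset.card_empty, zero_add]
    obtain ⟨y, hy, rfl⟩ := Finset.mem_image.1 hb
    exact Finset.card_pos.2 ⟨y, Finset.mem_filter.2 ⟨hy, rfl⟩⟩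
  · have h5 := card_lt_card_mul hs h4
    refine le_trans h5 (Finset.card_le_card ?_)
    intro x hx
    obtain ⟨a, ha, g, hg, rfl⟩ := Finset.mem_mul.1 hx
    rw [Finset.mem_filter] at ha ⊢
    refine ⟨hAY (Finset.mul_mem_mul ha.1 hg), ?_⟩
    rw [← ha.2]
    have hgH : g ∈ H := by
      rcases Finset.mem_insert.1 hg with rfl | hg
      · exact H.one_mem
      · exact Subgroup.subset_closure hg
    simp only [hf]
    rw [QuotientGroup.eq]
    have : (a * g)⁻¹ * a = g⁻¹ := by group
    rw [this]
    exact H.inv_mem hgH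

open Classical in
lemma card_mul_pow {T : Finset G} {a : ℝ} (ha : 0 ≤ a)
    (h : ∀ B : Finset G, a * B.card ≤ (B * T).card) (r : ℕ) (B : Finset G) :
    a ^ r * B.card ≤ ((B * T ^ r).card : ℝ) := by
  induction r with
  | zero => rw [pow_zero, pow_zero, one_mul, mul_one]
  | succ r ih =>
    rw [pow_succ T, ← mul_assoc]
    calc a ^ (r + 1) * B.card = a * (a ^ r * B.card) := by ring
      _ ≤ a * ((B * T ^ r).card : ℝ) := mul_le_mul_of_nonneg_left ih ha
      _ ≤ _ := h _

/-- **The upper bound.** If `G` is finitely generated of cost greater than `1` and the finite set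
`s` generates an infinite subgroup then `G` has a paradoxical decomposition with at most
`|s| + 1` pieces on one side. -/
theorem exists_paradox (hfg : Group.FG G) {ε : ENNReal} (hε : 0 < ε) (hc : CostGe G (1 + ε))
    (s : Finset G) (hs : Infinite (Subgroup.closure (s : Set G))) :
    ∃ m n, Paradox G m n ∧ m ≤ s.card + 1 := by
  classical
  have : Countable G := countable_of_fg hfg
  obtain ⟨T, hT⟩ := Group.fg_def.1 hfg
  obtain ⟨δ, hδ, hc'⟩ := hc.real hε
  set S₁ : Finset G := insert 1 s with hS₁
  have hS₁card : S₁.card ≤ s.card + 1 := Finset.card_insert_le _ _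
  by_cases hcase : ∃ κ : ℝ, 0 < κ ∧ ∀ A : Finset G, (1 + κ) * A.card ≤ ((A * S₁).card : ℝ)
  · obtain ⟨κ, hκ, hA⟩ := hcase
    obtain ⟨r, hr⟩ := pow_unbounded_of_one_lt (1 + 1 / κ) (show (1 : ℝ) < 1 + κ by linarith)
    refine ⟨S₁.card, (S₁ ^ r).card, paradox_of_hall S₁ (S₁ ^ r) ?_, hS₁card⟩
    intro A₁ A₂
    by_cases h1 : (A₂.card : ℝ) ≤ κ * A₁.card
    · have h2 := hA A₁
      have h3 : (A₁.card : ℝ) + A₂.card ≤ ((A₁ * S₁).card : ℝ) := by linarith
      have h4 : A₁.card + A₂.card ≤ (A₁ * S₁).card := by exact_mod_cast h3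
      exact h4.trans (Finset.card_le_card Finset.subset_union_left)
    · rw [not_le] at h1
      have h2 := card_mul_pow (by linarith : (0 : ℝ) ≤ 1 + κ) hA r A₂
      have h5 : (1 + 1 / κ) * (A₂.card : ℝ) ≤ (1 + κ) ^ r * A₂.card :=
        mul_le_mul_of_nonneg_right hr.le (Nat.cast_nonneg _)
      have h6 : (A₁.card : ℝ) ≤ 1 / κ * A₂.card := by
        rw [one_div, inv_mul_eq_div, le_div_iff₀ hκ, mul_comm]
        exact h1.le
      have h3 : (A₁.card : ℝ) + A₂.card ≤ ((A₂ * S₁ ^ r).card : ℝ) := by linarith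
      have h4 : A₁.card + A₂.card ≤ (A₂ * S₁ ^ r).card := by exact_mod_cast h3
      exact h4.trans (Finset.card_le_card Finset.subset_union_right)
  · push Not at hcase
    set H := Subgroup.closure (s : Set G) with hH
    set T₁ : Finset G := insert 1 T with hT₁
    -- growth in `G`
    have hgrow : ∀ B : Finset G, (1 + δ) * B.card ≤ ((B * T₁).card : ℝ) := by
      intro B
      rcases B.eq_empty_or_nonempty with rfl | hB
      · simp
      · have h1 := cost_sets hc' (fun _ => T) 1 (by
          unfold lo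
          rw [← hT]
          congr 1
          ext g
          simp) (fun _ => B) (fun _ => hB)
        rw [Finset.sum_range_one] at h1
        have h2 : (0 : ℝ) < B.card := by exact_mod_cast hB.card_pos
        rw [le_div_iff₀ h2] at h1
        have h3 : ((cosetCard (lo (fun _ => T) 0) (B * insert 1 T) : ℕ) : ℝ) ≤
          ((B * T₁).card : ℝ) := by exact_mod_cast cosetCard_le _ _
        linarith
    -- growth of the number of cosets
    have hcos : ∀ B : Finset G, δ * B.card ≤ (cosetCard H (B * T₁) : ℝ) := by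
      intro B
      rcases B.eq_empty_or_nonempty with rfl | hB
      · simp
      · have h2 : (0 : ℝ) < B.card := by exact_mod_cast hB.card_pos
        refine le_of_forall_pos_le_add fun η hη => ?_
        obtain ⟨A, hA⟩ := hcase (η / B.card) (div_pos hη h2)
        have hAne : A.Nonempty := by
          rw [Finset.nonempty_iff_ne_empty]
          rintro rfl
          simp at hA
        have h1 := cost_sets hc' (fun p => if p = 0 then s else T) 2 (by
          unfold lo
          rw [eq_top_iff, ← hT]
          apply Subgroup.closure_mono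
          intro g hg
          exact ⟨1, by norm_num, by simpa using hg⟩) (fun p => if p = 0 then A else B)
          (fun p => by by_cases hp : p = 0 <;> simp [hp, hAne, hB])
        rw [Finset.sum_range_succ, Finset.sum_range_one] at h1
        have hlo1 : lo (fun p => if p = 0 then s else T) 1 = H := by
          unfold lo
          rw [hH]
          congr 1
          ext g
          simp
        simp only [one_ne_zero, if_false, if_true] at h1
        rw [hlo1] at h1
        have h3 : ((cosetCard (lo (fun p => if p = 0 then s else T) 0) (A * insert 1 s) : ℕ) : ℝ) ≤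
          ((A * S₁).card : ℝ) := by exact_mod_cast cosetCard_le _ _
        have h4 : (0 : ℝ) < A.card := by exact_mod_cast hAne.card_pos
        have h5 : (((cosetCard (lo (fun p => if p = 0 then s else T) 0) (A * insert 1 s) : ℕ) : ℝ)
            - 1) / A.card ≤ 1 + η / B.card := by
          rw [div_le_iff₀ h4]
          linarith
        have h6 : δ ≤ η / B.card + ((cosetCard H (B * insert 1 T) : ℝ) - 1) / B.card := by
          linarith
        rw [← add_div, le_div_iff₀ h2] at h6
        linarith
    obtain ⟨r, hr⟩ := pow_unbounded_of_one_lt (1 / δ) (show (1 : ℝ) < 1 + δ by linarith)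
    refine ⟨S₁.card, (T₁ ^ (r + 1)).card, paradox_of_hall S₁ (T₁ ^ (r + 1)) ?_, hS₁card⟩
    intro A₁ A₂
    have h1 := card_add_cosetCard_le hs A₁ (A₁ * S₁ ∪ A₂ * T₁ ^ (r + 1))
      Finset.subset_union_left
    rw [← hH] at h1
    have h2 : (A₂.card : ℝ) ≤ (cosetCard H (A₂ * T₁ ^ (r + 1)) : ℝ) := by
      have h3 := hcos (A₂ * T₁ ^ r)
      rw [mul_assoc, ← pow_succ] at h3
      have h4 := card_mul_pow (by linarith : (0 : ℝ) ≤ 1 + δ) hgrow r A₂
      have h5 : 1 ≤ δ * (1 + δ) ^ r := by
        rw [div_lt_iff₀ hδ] at hr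
        linarith
      calc (A₂.card : ℝ) = 1 * A₂.card := (one_mul _).symm
        _ ≤ (δ * (1 + δ) ^ r) * A₂.card := mul_le_mul_of_nonneg_right h5 (Nat.cast_nonneg _)
        _ = δ * ((1 + δ) ^ r * A₂.card) := by ring
        _ ≤ δ * ((A₂ * T₁ ^ r).card : ℝ) := mul_le_mul_of_nonneg_left h4 hδ.le
        _ ≤ _ := h3
    have h3 : A₂.card ≤ cosetCard H (A₂ * T₁ ^ (r + 1)) := by exact_mod_cast h2
    have h4 := cosetCard_mono H
      (Finset.subset_union_right : A₂ * T₁ ^ (r + 1) ⊆ A₁ * S₁ ∪ A₂ * T₁ ^ (r + 1))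
    omega

end Pool.Agent.Lib.MP_90732c_al
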