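import Mathlib

/-! Walks in labelled Cayley graphs, redundant edges, connectivity of the finite-range forest. -/

set_option autoImplicit false

namespace Pool.Agent.Lib.MP_90732c_al

variable {G : Type} [Group G] {d : ℕ}

/-- One step along an edge of the Cayley graph lying in the edge set `R`; the edge `(g, i)` joins
`g` to `g * s i`. -/
def Step (s : Fin d → G) (R : G × Fin d → Prop) (a b : G) : Prop :=
  ∃ i, (b = a * s i ∧ R (a, i)) ∨ (a = b * s i ∧ R (b, i))

/-- Walks of length `n`. -/
def Walk (s : Fin d → G) (R : G × Fin d → Prop) : ℕ → G → G → Prop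
  | 0, a, b => a = b
  | n + 1, a, c => ∃ b, Walk s R n a b ∧ Step s R b c

lemma Step.symm {s : Fin d → G} {R : G × Fin d → Prop} {a b : G} (h : Step s R a b) :
    Step s R b a := by
  obtain ⟨i, h | h⟩ := h
  · exact ⟨i, Or.inr h⟩
  · exact ⟨i, Or.inl h⟩

lemma Step.mono {s : Fin d → G} {R R' : G × Fin d → Prop} (hR : ∀ e, R e → R' e) {a b : G}
    (h : Step s R a b) : Step s R' a b := by
  obtain ⟨i, h | h⟩ := h
  · exact ⟨i, Or.inl ⟨h.1, hR _ h.2⟩⟩
  · exact ⟨i, Or.inr ⟨h.1, hR _ h.2⟩⟩

lemma Walk.mono {s : Fin d → G} {R R' : G × Fin d → Prop} (hR : ∀ e, R e → R' e) :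
    ∀ {n : ℕ} {a b : G}, Walk s R n a b → Walk s R' n a b
  | 0, _, _, h => h
  | _ + 1, _, _, ⟨b, h1, h2⟩ => ⟨b, Walk.mono hR h1, h2.mono hR⟩

/-- The connectivity relation. -/
def Conn (s : Fin d → G) (R : G × Fin d → Prop) : G → G → Prop :=
  Relation.ReflTransGen (Step s R)

lemma Conn.refl {s : Fin d → G} {R : G × Fin d → Prop} (a : G) : Conn s R a a :=
  Relation.ReflTransGen.refl

lemma Conn.trans {s : Fin d → G} {R : G × Fin d → Prop} {a b c : G} (h : Conn s R a b)
    (h' : Conn s R b c) : Conn s R a c :=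
  Relation.ReflTransGen.trans h h'

lemma Conn.symm {s : Fin d → G} {R : G × Fin d → Prop} {a b : G} (h : Conn s R a b) :
    Conn s R b a := by
  induction h with
  | refl => exact Conn.refl _
  | tail _ h2 ih => exact (Relation.ReflTransGen.single h2.symm).trans ih

lemma Step.conn {s : Fin d → G} {R : G × Fin d → Prop} {a b : G} (h : Step s R a b) :
    Conn s R a b :=
  Relation.ReflTransGen.single h

lemma Conn.mono {s : Fin d → G} {R R' : G × Fin d → Prop} (hR : ∀ e, R e → R' e) {a b : G}
    (h : Conn s R a b) : Conn s R' a b := by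
  induction h with
  | refl => exact Conn.refl _
  | tail _ h2 ih => exact ih.trans (Relation.ReflTransGen.single (h2.mono hR))

lemma Conn.exists_walk {s : Fin d → G} {R : G × Fin d → Prop} {a b : G} (h : Conn s R a b) :
    ∃ n, Walk s R n a b := by
  induction h with
  | refl => exact ⟨0, rfl⟩
  | tail _ h2 ih =>
    obtain ⟨n, hn⟩ := ih
    exact ⟨n + 1, _, hn, h2⟩

lemma step_smul {s : Fin d → G} {R R' : G × Fin d → Prop} (g : G)
    (h : ∀ a i, R (a, i) ↔ R' (g * a, i)) (a b : G) :
    Step s R a b ↔ Step s R' (g * a) (g * b) := by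
  unfold Step
  simp only [mul_assoc, mul_right_inj, h]

lemma walk_smul {s : Fin d → G} {R R' : G × Fin d → Prop} (g : G)
    (h : ∀ a i, R (a, i) ↔ R' (g * a, i)) :
    ∀ (n : ℕ) (a b : G), Walk s R n a b ↔ Walk s R' n (g * a) (g * b)
  | 0, a, b => by simp [Walk]
  | n + 1, a, c => by
    constructor
    · rintro ⟨b, h1, h2⟩
      exact ⟨g * b, (walk_smul g h n a b).1 h1, (step_smul g h b c).1 h2⟩
    · rintro ⟨b, h1, h2⟩
      refine ⟨g⁻¹ * b, (walk_smul g h n a _).2 ?_, (step_smul g h _ c).2 ?_⟩
      · rwa [mul_inv_cancel_left]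
      · rwa [mul_inv_cancel_left]

/-- The ball of radius `n` in the Cayley graph. -/
def ball (s : Fin d → G) (n : ℕ) : Set G := {g | Walk s (fun _ => True) n 1 g}

lemma ball_finite (s : Fin d → G) (n : ℕ) : (ball s n).Finite := by
  induction n with
  | zero =>
    refine (Set.finite_singleton (1 : G)).subset ?_
    intro g hg
    exact (hg : (1 : G) = g).symm
  | succ n ih =>
    have h1 : (ball s (n + 1)) ⊆ (⋃ i, (fun b => b * s i) '' ball s n) ∪
        (⋃ i, (fun b => b * (s i)⁻¹) '' ball s n) := by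
      rintro c ⟨b, hb, i, h | h⟩
      · left
        exact Set.mem_iUnion.2 ⟨i, b, hb, h.1.symm⟩
      · right
        refine Set.mem_iUnion.2 ⟨i, b, hb, ?_⟩
        change b * (s i)⁻¹ = c
        rw [h.1, mul_inv_cancel_right]
    exact ((Set.finite_iUnion fun i => ih.image _).union
      (Set.finite_iUnion fun i => ih.image _)).subset h1

/-- The union of the balls of radius at most `n`. -/
def Ball (s : Fin d → G) (n : ℕ) : Set G := {g | ∃ m ≤ n, g ∈ ball s m}

lemma Ball_finite (s : Fin d → G) (n : ℕ) : (Ball s n).Finite := by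
  have : Ball s n ⊆ ⋃ m ∈ Set.Iic n, ball s m := by
    rintro g ⟨m, hm, hg⟩
    exact Set.mem_biUnion (show m ∈ Set.Iic n from hm) hg
  exact ((Set.finite_Iic n).biUnion fun m _ => ball_finite s m).subset this

lemma walk_mem_ball {s : Fin d → G} {R : G × Fin d → Prop} {n : ℕ} {a b : G}
    (h : Walk s R n a b) : a⁻¹ * b ∈ ball s n := by
  have h1 : Walk s (fun _ => True) n a b := h.mono fun _ _ => trivial
  have h2 := (walk_smul (R := fun _ => True) (R' := fun _ => True) a⁻¹
    (fun _ _ => Iff.rfl) n a b).1 h1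
  rwa [inv_mul_cancel] at h2

/-- The strict order on edges given by a priority of the generators and labels `x`. -/
def Lt (pr : Fin d → ℕ) (x : G × Fin d → ℝ) (f e : G × Fin d) : Prop :=
  pr f.2 < pr e.2 ∨ (pr f.2 = pr e.2 ∧ x f < x e)

/-- An edge is redundant when its endpoints are joined by a walk of length at most `N` through
smaller edges. -/
def Red (s : Fin d → G) (pr : Fin d → ℕ) (N : ℕ) (x : G × Fin d → ℝ) (e : G × Fin d) : Prop :=
  ∃ n ≤ N, Walk s (fun f => Lt pr x f e) n e.1 (e.1 * s e.2)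

lemma Red.mono {s : Fin d → G} {pr : Fin d → ℕ} {N N' : ℕ} (hN : N ≤ N') {x : G × Fin d → ℝ}
    {e : G × Fin d} (h : Red s pr N x e) : Red s pr N' x e := by
  obtain ⟨n, hn, h⟩ := h
  exact ⟨n, hn.trans hN, h⟩

/-- The shift of the labels. -/
def shift (g : G) (x : G × Fin d → ℝ) : G × Fin d → ℝ := fun e => x (g⁻¹ * e.1, e.2)

lemma red_shift (s : Fin d → G) (pr : Fin d → ℕ) (N : ℕ) (x : G × Fin d → ℝ) (g h : G)
    (i : Fin d) : Red s pr N (shift g x) (g * h, i) ↔ Red s pr N x (h, i) := by
  unfold Red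
  refine exists_congr fun n => and_congr_right fun _ => ?_
  have := walk_smul (s := s) (R := fun f => Lt pr x f (h, i))
    (R' := fun f => Lt pr (shift g x) f (g * h, i)) g (fun a j => by simp [Lt, shift]) n h
    (h * s i)
  rw [this, mul_assoc]

/-- The descent relation on edges. -/
def rel (pr : Fin d → ℕ) (K : Set G) (x : G × Fin d → ℝ) (f e : G × Fin d) : Prop :=
  e.1⁻¹ * f.1 ∈ K ∧ Lt pr x f e

/-- If the descent relation is well founded then the non-redundant edges form a connected graph. -/
lemma conn_of_wf {s : Fin d → G} {pr : Fin d → ℕ} {N : ℕ} {x : G × Fin d → ℝ}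
    (hwf : WellFounded (rel pr (Ball s N) x)) (e : G × Fin d) :
    Conn s (fun f => ¬ Red s pr N x f) e.1 (e.1 * s e.2) := by
  induction e using hwf.induction with
  | _ e ih =>
    by_cases hr : Red s pr N x e
    · obtain ⟨n, hn, hw⟩ := hr
      have key : ∀ m ≤ N, ∀ b, Walk s (fun f => Lt pr x f e) m e.1 b →
          Conn s (fun f => ¬ Red s pr N x f) e.1 b := by
        intro m
        induction m with
        | zero => intro _ b hb; rw [show e.1 = b from hb]; exact Conn.refl _
        | succ m ihm =>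
          rintro hm c ⟨b, h1, h2⟩
          refine (ihm (by omega) b h1).trans ?_
          have hc : Walk s (fun f => Lt pr x f e) (m + 1) e.1 c := ⟨b, h1, h2⟩
          obtain ⟨i, ⟨h3, h4⟩ | ⟨h3, h4⟩⟩ := h2
          · have := ih (b, i) ⟨⟨m, by omega, walk_mem_ball h1⟩, h4⟩
            rw [h3]
            exact this
          · have := ih (c, i) ⟨⟨m + 1, hm, walk_mem_ball hc⟩, h4⟩
            rw [h3]
            exact this.symm
      exact key n hn _ hw
    · exact Step.conn ⟨e.2, Or.inl ⟨rfl, hr⟩⟩

lemma conn_of_edges {s : Fin d → G} (hs : Subgroup.closure (Set.range s) = ⊤)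
    {R : G × Fin d → Prop} (h : ∀ e : G × Fin d, Conn s R e.1 (e.1 * s e.2)) (a b : G) :
    Conn s R a b := by
  have key : ∀ g ∈ Subgroup.closure (Set.range s), ∀ a, Conn s R a (a * g) := by
    intro g hg
    induction hg using Subgroup.closure_induction with
    | mem x hx =>
      obtain ⟨i, rfl⟩ := hx
      intro a
      exact h (a, i)
    | one => intro a; rw [mul_one]; exact Conn.refl _
    | mul x y _ _ hx hy =>
      intro a
      rw [← mul_assoc]
      exact (hx a).trans (hy _)
    | inv x _ hx =>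
      intro a
      have := hx (a * x⁻¹)
      rw [inv_mul_cancel_right] at this
      exact this.symm
  have := key (a⁻¹ * b) (by rw [hs]; trivial) a
  rwa [mul_inv_cancel_left] at this

end Pool.Agent.Lib.MP_90732c_al
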